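import Pool.Agent.Lib.MP_14e06f_lc.Plane.Draw

set_option autoImplicit false

/-!
# The standard drawings have no crossings: the arms
-/

namespace LockPl

open Complex Finset

/-- A point of the lower right arm is in the parallelogram of the hole or below it. -/
theorem core {A B x y : ℝ} (hA : |A| < 20 / 101) (hB : |B| < 20 / 101) (hx0 : 0 < x)
    (hx1 : x ≤ 2730) (hy0 : -1400 ≤ y) (hy1 : y ≤ 1890) (hxy : y ≤ 0 ∨ 1050 ≤ x) :
    ∃ s : ℝ, 0 < s ∧ s < 1 ∧
      ((∃ η : ℝ, -2800 < η ∧ η ≤ 0 ∧ x = 3400 * (√(1 - A ^ 2) * s) ∧ y = 3400 * (A * s) + η) ∨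
       (∃ τ : ℝ, 0 < τ ∧ τ < 1 ∧ x = 3400 * (√(1 - A ^ 2) * s - B * τ) ∧
          y = 3400 * (A * s + √(1 - B ^ 2) * τ))) := by
  have hc1 := sqrt_gt hA
  have hc2 := sqrt_le_one' A
  have hd1 := sqrt_gt hB
  have hd2 := sqrt_le_one' B
  have hsl := abs_lt.1 (slope hA)
  obtain ⟨c, hc⟩ : ∃ c, c = √(1 - A ^ 2) := ⟨_, rfl⟩
  obtain ⟨d, hd⟩ : ∃ d, d = √(1 - B ^ 2) := ⟨_, rfl⟩
  rw [← hc] at hc1 hc2 hsl ⊢
  rw [← hd] at hd1 hd2 ⊢
  obtain ⟨a1, a2⟩ := abs_lt.1 hA
  obtain ⟨b1, b2⟩ := abs_lt.1 hB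
  have hc0 : 0 < c := by linarith
  by_cases h : c * y ≤ A * x
  · refine ⟨x / (3400 * c), by positivity, ?_, Or.inl ⟨y - A / c * x, ?_, ?_, ?_, ?_⟩⟩
    · rw [div_lt_one (by positivity)]
      nlinarith
    · nlinarith [hsl.1, hsl.2]
    · have : y ≤ A * x / c := by rwa [le_div_iff₀ hc0, mul_comm]
      have e : A / c * x = A * x / c := by ring
      linarith
    · field_simp
    · field_simp
      ring
  · have hD : 9401 / 10201 ≤ c * d + A * B := by
      have h1 : (99 / 101) * (99 / 101) ≤ c * d :=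
        mul_le_mul hc1.le hd1.le (by norm_num) hc0.le
      have h2 : -(400 / 10201) ≤ A * B := by
        have : |A * B| ≤ (20 / 101) * (20 / 101) := by
          rw [abs_mul]
          exact mul_le_mul hA.le hB.le (abs_nonneg _) (by norm_num)
        have := (abs_le.1 this).1
        norm_num at this ⊢
        linarith
      linarith
    have hD0 : 0 < c * d + A * B := by linarith
    obtain ⟨D, hDe⟩ : ∃ D, D = c * d + A * B := ⟨_, rfl⟩
    rw [← hDe] at hD hD0
    have hBy : |B * y| ≤ 20 / 101 * 1890 := by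
      rw [abs_mul]
      exact mul_le_mul hB.le (abs_le.2 ⟨by linarith, hy1⟩) (abs_nonneg _) (by norm_num)
    obtain ⟨g1, g2⟩ := abs_le.1 hBy
    have hs0 : 0 < d * x + B * y := by
      rcases hxy with h1 | h1
      · by_contra hcon
        push Not at hcon
        have k1 : c * (d * x + B * y) ≤ 0 := mul_nonpos_of_nonneg_of_nonpos hc0.le hcon
        have k2 : |B * (c * y)| ≤ 20 / 101 * (20 / 101 * x) := by
          rw [abs_mul]
          apply mul_le_mul hB.le _ (abs_nonneg _) (by norm_num)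
          rw [abs_le]
          constructor
          · nlinarith
          · nlinarith
        have k3 := (abs_le.1 k2).1
        have k4 : (99 / 101) * (99 / 101) * x ≤ c * d * x := by
          apply mul_le_mul_of_nonneg_right _ hx0.le
          exact mul_le_mul hc1.le hd1.le (by norm_num) hc0.le
        nlinarith
      · nlinarith
    have hs1 : d * x + B * y < 3400 * D := by
      have k1 : d * x ≤ d * 2730 := mul_le_mul_of_nonneg_left hx1 (by linarith)
      have k2 : (99 / 101) * d ≤ c * d := mul_le_mul_of_nonneg_right hc1.le (by linarith)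
      have h2 : -(400 / 10201) ≤ A * B := by
        have : |A * B| ≤ (20 / 101) * (20 / 101) := by
          rw [abs_mul]
          exact mul_le_mul hA.le hB.le (abs_nonneg _) (by norm_num)
        have := (abs_le.1 this).1
        norm_num at this ⊢
        linarith
      rw [hDe]
      nlinarith
    have ht1 : c * y - A * x < 3400 * D := by
      have k1 : c * y ≤ 1890 := by nlinarith
      have k2 : -(A * x) ≤ 20 / 101 * 2730 := by nlinarith
      nlinarith
    refine ⟨(d * x + B * y) / (3400 * D), by positivity, ?_,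
      Or.inr ⟨(c * y - A * x) / (3400 * D), ?_, ?_, ?_, ?_⟩⟩
    · rw [div_lt_one (by positivity)]
      exact hs1
    · apply div_pos (by linarith) (by positivity)
    · rw [div_lt_one (by positivity)]
      exact ht1
    · field_simp
      rw [hDe]
      ring
    · field_simp
      rw [hDe]
      ring

theorem at_mid (A B : ℕ → ℝ) (i j : ℕ) {s τ : ℝ} (hs0 : 0 < s) (hs1 : s < 1) (ht0 : 0 < τ)
    (ht1 : τ < 1) {z : ℂ} (hz : z = GP (sX A) (sY B) (2 * j + 1) (6 * i + 5) +
      s * sX A (2 * j + 1) + τ * sY B (6 * i + 5)) :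
    ∃ X Y, At (sX A) (sY B) z X Y ∧ (Reg.F (2 * j + 1) (6 * i + 3) 5).Mem X Y := by
  refine ⟨_, _, at_mk _ _ _ _ hs0.le hs1.le ht0.le ht1.le hz, ?_, ?_, ?_, ?_⟩ <;> push_cast <;>
    linarith

theorem at_low (A B : ℕ → ℝ) (i j : ℕ) {s η : ℝ} (hs0 : 0 < s) (hs1 : s < 1) (h0 : -2800 < η)
    (h1 : η ≤ 0) {z : ℂ} (hz : z = GP (sX A) (sY B) (2 * j + 1) (6 * i + 5) +
      s * sX A (2 * j + 1) + η * I) :
    ∃ X Y, At (sX A) (sY B) z X Y ∧ (Reg.F (2 * j + 1) (6 * i + 3) 5).Mem X Y := by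
  have e1 : GP (sX A) (sY B) (2 * j + 1) (6 * i + 5) =
      GP (sX A) (sY B) (2 * j + 1) (6 * i + 4) + 1400 * I := by
    rw [show 6 * i + 5 = 6 * i + 4 + 1 from rfl, GP_succ_right, sY_of_lt B i 4 (by norm_num)]
    simp [hgt]
  have e2 : GP (sX A) (sY B) (2 * j + 1) (6 * i + 4) =
      GP (sX A) (sY B) (2 * j + 1) (6 * i + 3) + 1400 * I := by
    rw [show 6 * i + 4 = 6 * i + 3 + 1 from rfl, GP_succ_right, sY_of_lt B i 3 (by norm_num)]
    simp [hgt]
  by_cases h : -1400 ≤ η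
  · refine ⟨_, _, at_mk _ _ (2 * j + 1) (6 * i + 4) (s := s) (r := 1 + η / 1400) hs0.le hs1.le ?_ ?_
      ?_, ?_, ?_, ?_, ?_⟩
    · linarith
    · linarith
    · rw [hz, sY_of_lt B i 4 (by norm_num), e1]
      simp only [hgt]
      push_cast
      ring
    all_goals push_cast
    all_goals linarith
  · refine ⟨_, _, at_mk _ _ (2 * j + 1) (6 * i + 3) (s := s) (r := 2 + η / 1400) hs0.le hs1.le ?_ ?_
      ?_, ?_, ?_, ?_, ?_⟩
    · linarith
    · linarith
    · rw [hz, sY_of_lt B i 3 (by norm_num), e1, e2]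
      simp only [hgt]
      push_cast
      ring
    all_goals push_cast
    all_goals linarith

theorem at_up (A B : ℕ → ℝ) (i j : ℕ) {s η : ℝ} (hs0 : 0 < s) (hs1 : s < 1) (h0 : 0 ≤ η)
    (h1 : η < 2800) {z : ℂ} (hz : z = GP (sX A) (sY B) (2 * j + 1) (6 * i + 6) +
      s * sX A (2 * j + 1) + η * I) :
    ∃ X Y, At (sX A) (sY B) z X Y ∧ (Reg.F (2 * j + 1) (6 * i + 3) 5).Mem X Y := by
  have e1 : GP (sX A) (sY B) (2 * j + 1) (6 * i + 7) =
      GP (sX A) (sY B) (2 * j + 1) (6 * i + 6) + 1400 * I := by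
    have h := sY_of_lt B (i + 1) 0 (by norm_num)
    rw [add_zero] at h
    rw [show 6 * i + 7 = 6 * (i + 1) + 1 from rfl, GP_succ_right, h]
    simp only [hgt]
    rfl
  by_cases h : η ≤ 1400
  · refine ⟨_, _, at_mk _ _ (2 * j + 1) (6 * (i + 1) + 0) (s := s) (r := η / 1400) hs0.le hs1.le ?_
      ?_ ?_, ?_, ?_, ?_, ?_⟩
    · positivity
    · linarith
    · rw [hz, sY_of_lt B (i + 1) 0 (by norm_num)]
      simp only [hgt]
      rw [show 6 * (i + 1) + 0 = 6 * i + 6 from by ring]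
      push_cast
      ring
    all_goals push_cast
    all_goals linarith
  · refine ⟨_, _, at_mk _ _ (2 * j + 1) (6 * (i + 1) + 1) (s := s) (r := η / 1400 - 1) hs0.le
      hs1.le ?_ ?_ ?_, ?_, ?_, ?_, ?_⟩
    · linarith
    · linarith
    · rw [hz, sY_of_lt B (i + 1) 1 (by norm_num)]
      simp only [hgt]
      rw [show 6 * (i + 1) + 1 = 6 * i + 7 from by ring, e1]
      push_cast
      ring
    all_goals push_cast
    all_goals linarith

/-- the point of an arm with local coordinates `x`, `y` -/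
noncomputable def armPt (g : ℝ) (A B : ℕ → ℝ) (i j : ℕ) : Bool → ℝ → ℝ → ℂ
  | false, x, y => (if g = 1 then GP (sX A) (sY B) (2 * j + 1) (6 * i + 5)
      else GP (sX A) (sY B) (2 * j + 2) (6 * i + 5)) + (g * x + y * I)
  | true, x, y => (if g = 1 then GP (sX A) (sY B) (2 * j + 2) (6 * i + 6)
      else GP (sX A) (sY B) (2 * j + 1) (6 * i + 6)) - (g * x + y * I)

theorem sg_cases (o : Option (SignType × Bool)) : sg o = 1 ∨ sg o = -1 := by
  unfold sg
  split
  · right; rfl
  · left; rfl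

theorem al_le (o : Option (SignType × Bool)) : al o ≤ 2250 ∧ 1050 ≤ al o := by
  unfold al
  split <;> norm_num

theorem arm_in_F {A B : ℕ → ℝ} (hA : ∀ j, |A j| < 20 / 101) (hB : ∀ j, |B j| < 20 / 101)
    (i j : ℕ) (up : Bool) {g : ℝ} (hg : g = 1 ∨ g = -1) {x y : ℝ} (hx0 : 0 < x)
    (hx1 : x ≤ 2730) (hy0 : -1400 ≤ y) (hy1 : y ≤ 1890) (hxy : y ≤ 0 ∨ 1050 ≤ x) :
    ∃ X Y, At (sX A) (sY B) (armPt g A B i j up x y) X Y ∧
      (Reg.F (2 * j + 1) (6 * i + 3) 5).Mem X Y := by
  have hg1 : ¬ ((-1 : ℝ) = 1) := by norm_num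
  have e1 : GP (sX A) (sY B) (2 * j + 2) (6 * i + 5) =
      GP (sX A) (sY B) (2 * j + 1) (6 * i + 5) + sX A (2 * j + 1) :=
    GP_succ_left (sX A) (sY B) (2 * j + 1) (6 * i + 5)
  have e2 : GP (sX A) (sY B) (2 * j + 2) (6 * i + 6) =
      GP (sX A) (sY B) (2 * j + 1) (6 * i + 6) + sX A (2 * j + 1) :=
    GP_succ_left (sX A) (sY B) (2 * j + 1) (6 * i + 6)
  have e3 : GP (sX A) (sY B) (2 * j + 1) (6 * i + 6) =
      GP (sX A) (sY B) (2 * j + 1) (6 * i + 5) + sY B (6 * i + 5) :=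
    GP_succ_right (sX A) (sY B) (2 * j + 1) (6 * i + 5)
  have hA' : |-A j| < 20 / 101 := by rw [abs_neg]; exact hA j
  have hB' : |-B i| < 20 / 101 := by rw [abs_neg]; exact hB i
  cases up with
  | false =>
    rcases hg with rfl | rfl
    · obtain ⟨s, s0, s1, h | h⟩ := core (hA j) (hB i) hx0 hx1 hy0 hy1 hxy
      · obtain ⟨η, h0, h1, rfl, rfl⟩ := h
        apply at_low A B i j s0 s1 h0 h1
        simp only [armPt, if_true, sX_odd]
        push_cast
        ring
      · obtain ⟨τ, h0, h1, rfl, rfl⟩ := h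
        apply at_mid A B i j s0 s1 h0 h1
        simp only [armPt, if_true, sX_odd, sY_five]
        push_cast
        ring
    · obtain ⟨s, s0, s1, h | h⟩ := core hA' hB' hx0 hx1 hy0 hy1 hxy
      · obtain ⟨η, h0, h1, rfl, rfl⟩ := h
        apply at_low A B i j (s := 1 - s) (by linarith) (by linarith) h0 h1
        simp only [armPt, if_neg hg1, e1, sX_odd, neg_sq]
        push_cast
        ring
      · obtain ⟨τ, h0, h1, rfl, rfl⟩ := h
        apply at_mid A B i j (s := 1 - s) (by linarith) (by linarith) h0 h1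
        simp only [armPt, if_neg hg1, e1, sX_odd, sY_five, neg_sq]
        push_cast
        ring
  | true =>
    rcases hg with rfl | rfl
    · obtain ⟨s, s0, s1, h | h⟩ := core (hA j) (hB i) hx0 hx1 hy0 hy1 hxy
      · obtain ⟨η, h0, h1, rfl, rfl⟩ := h
        apply at_up A B i j (s := 1 - s) (η := -η) (by linarith) (by linarith) (by linarith)
          (by linarith)
        simp only [armPt, if_true, e2, sX_odd]
        push_cast
        ring
      · obtain ⟨τ, h0, h1, rfl, rfl⟩ := h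
        apply at_mid A B i j (s := 1 - s) (τ := 1 - τ) (by linarith) (by linarith) (by linarith)
          (by linarith)
        simp only [armPt, if_true, e2, e3, sX_odd, sY_five]
        push_cast
        ring
    · obtain ⟨s, s0, s1, h | h⟩ := core hA' hB' hx0 hx1 hy0 hy1 hxy
      · obtain ⟨η, h0, h1, rfl, rfl⟩ := h
        apply at_up A B i j (s := s) (η := -η) (by linarith) (by linarith) (by linarith)
          (by linarith)
        simp only [armPt, if_neg hg1, sX_odd, neg_sq]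
        push_cast
        ring
      · obtain ⟨τ, h0, h1, rfl, rfl⟩ := h
        apply at_mid A B i j (s := s) (τ := 1 - τ) (by linarith) (by linarith) (by linarith)
          (by linarith)
        simp only [armPt, if_neg hg1, e3, sX_odd, sY_five, neg_sq]
        push_cast
        ring

/-! ### The bars of an arm -/

theorem armPos_eq (m : Mesh) (hh : ℝ) (A B : ℕ → ℝ) (i j : ℕ) (up : Bool) (q : ℕ) :
    armPos m hh A B i j up q = armPt (sg (m.C i j)) A B i j up
      (armXY (al (m.C i j)) hh q).1 (armXY (al (m.C i j)) hh q).2 := by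
  cases up with
  | false =>
    simp only [armPos, armPt]
    rw [plate_eq _ _ _ _ _ _ (by norm_num) (by norm_num),
      plate_eq _ _ _ _ _ _ (by norm_num) (by norm_num)]
    rfl
  | true =>
    simp only [armPos, armPt]
    rw [plate_eq _ _ _ _ _ _ (by norm_num) (by norm_num),
      plate_eq _ _ _ _ _ _ (by norm_num) (by norm_num)]
    rfl

theorem line54 (A B : ℕ → ℝ) (n i : ℕ) : GP (sX A) (sY B) n (6 * i + 5) =
    GP (sX A) (sY B) n (6 * i + 4) + 1400 * I := by
  rw [show 6 * i + 5 = 6 * i + 4 + 1 from rfl, GP_succ_right, sY_of_lt B i 4 (by norm_num)]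
  simp [hgt]

theorem line67 (A B : ℕ → ℝ) (n i : ℕ) : GP (sX A) (sY B) n (6 * i + 7) =
    GP (sX A) (sY B) n (6 * i + 6) + 1400 * I := by
  have h := sY_of_lt B (i + 1) 0 (by norm_num)
  rw [add_zero] at h
  rw [show 6 * i + 7 = 6 * (i + 1) + 1 from rfl, GP_succ_right, h]
  simp only [hgt]
  rfl

/-- the attachments of the arms are plate vertices -/
theorem armV_six (o : Option (SignType × Bool)) (i j : ℕ) (up : Bool) (q : ℕ)
    (hq : q = 6 ∨ q = 7) : ∃ a b, armV o i j up q = vtx a b ∧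
      ∀ (a0 hh : ℝ) (A B : ℕ → ℝ), GP (sX A) (sY B) a b =
        armPt (sg o) A B i j up (armXY a0 hh q).1 (armXY a0 hh q).2 := by
  have hg1 : ¬ ((-1 : ℝ) = 1) := by norm_num
  by_cases ho : ∃ s, o = some (s, false)
  · obtain ⟨s, rfl⟩ := ho
    have hs : sg (some (s, false)) = -1 := rfl
    rw [hs]
    cases up <;> rcases hq with rfl | rfl
    · refine ⟨2 * j + 2, 6 * i + 4, (vtx_mk i (j + 1) 4 0 (by norm_num) (by norm_num)).symm,
        fun a0 hh A B => ?_⟩
      simp only [armPt, if_neg hg1, armXY, line54]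
      push_cast
      ring
    · refine ⟨2 * j + 2, 6 * i + 5, (vtx_mk i (j + 1) 5 0 (by norm_num) (by norm_num)).symm,
        fun a0 hh A B => ?_⟩
      simp only [armPt, if_neg hg1, armXY]
      push_cast
      ring
    · refine ⟨2 * j + 1, 6 * i + 7, (vtx_mk (i + 1) j 1 1 (by norm_num) (by norm_num)).symm,
        fun a0 hh A B => ?_⟩
      simp only [armPt, if_neg hg1, armXY, line67]
      push_cast
      ring
    · refine ⟨2 * j + 1, 6 * i + 6, (vtx_mk (i + 1) j 0 1 (by norm_num) (by norm_num)).symm,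
        fun a0 hh A B => ?_⟩
      simp only [armPt, if_neg hg1, armXY]
      push_cast
      ring
  · have hs : sg o = 1 := by
      unfold sg
      split
      · exact absurd ⟨_, rfl⟩ ho
      · rfl
    have ho' : o = none ∨ ∃ s, o = some (s, true) := by
      rcases o with _ | ⟨s, v⟩
      · exact Or.inl rfl
      · cases v
        · exact absurd ⟨s, rfl⟩ ho
        · exact Or.inr ⟨s, rfl⟩
    have k1 : armV o i j false 6 = (i, j, 2 * 4 + 1) := by
      rcases ho' with rfl | ⟨s, rfl⟩ <;> rfl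
    have k2 : armV o i j false 7 = (i, j, 2 * 5 + 1) := by
      rcases ho' with rfl | ⟨s, rfl⟩ <;> rfl
    have k3 : armV o i j true 6 = (i + 1, j + 1, 2 * 1 + 0) := by
      rcases ho' with rfl | ⟨s, rfl⟩ <;> rfl
    have k4 : armV o i j true 7 = (i + 1, j + 1, 2 * 0 + 0) := by
      rcases ho' with rfl | ⟨s, rfl⟩ <;> rfl
    rw [hs]
    cases up <;> rcases hq with rfl | rfl
    · refine ⟨2 * j + 1, 6 * i + 4,
        k1.trans (vtx_mk i j 4 1 (by norm_num) (by norm_num)).symm, fun a0 hh A B => ?_⟩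
      simp only [armPt, if_true, armXY, line54]
      push_cast
      ring
    · refine ⟨2 * j + 1, 6 * i + 5,
        k2.trans (vtx_mk i j 5 1 (by norm_num) (by norm_num)).symm, fun a0 hh A B => ?_⟩
      simp only [armPt, if_true, armXY]
      push_cast
      ring
    · refine ⟨2 * j + 2, 6 * i + 7,
        k3.trans (vtx_mk (i + 1) (j + 1) 1 0 (by norm_num) (by norm_num)).symm,
        fun a0 hh A B => ?_⟩
      simp only [armPt, if_true, armXY, line67]
      push_cast
      ring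
    · refine ⟨2 * j + 2, 6 * i + 6,
        k4.trans (vtx_mk (i + 1) (j + 1) 0 0 (by norm_num) (by norm_num)).symm,
        fun a0 hh A B => ?_⟩
      simp only [armPt, if_true, armXY]
      push_cast
      ring

theorem pos_armV (m : Mesh) (hh : ℝ) (A B : ℕ → ℝ) (i j : ℕ) (up : Bool) (q : ℕ) (hq : q ≤ 7) :
    pos m hh A B (armV (m.C i j) i j up q) = armPt (sg (m.C i j)) A B i j up
      (armXY (al (m.C i j)) hh q).1 (armXY (al (m.C i j)) hh q).2 := by
  by_cases h : q < 6
  · rw [← armPos_eq]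
    cases up with
    | false =>
      have e : armV (m.C i j) i j false q = (i, j, 14 + q) := by
        interval_cases q <;> rfl
      rw [e]
      unfold pos
      dsimp only
      rw [if_neg (by omega), if_neg (by omega), if_neg (by omega), if_pos (by omega),
        show 14 + q - 14 = q from by omega]
    | true =>
      have e : armV (m.C i j) i j true q = (i, j, 20 + q) := by
        interval_cases q <;> rfl
      rw [e]
      unfold pos
      dsimp only
      rw [if_neg (by omega), if_neg (by omega), if_neg (by omega), if_neg (by omega),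
        show 20 + q - 20 = q from by omega]
  · obtain ⟨a, b, h1, h2⟩ := armV_six (m.C i j) i j up q (by omega)
    rw [h1, pos_vtx]
    exact h2 _ _ _ _

theorem ArmBar.le7 {a d q q' e : ℕ} (h : ArmBar a d q q' e) : q ≤ 7 ∧ q' ≤ 7 := by
  cases h <;> norm_num

theorem armBar_box {a d q q' e : ℕ} {hh t x y : ℝ} (h : ArmBar a d q q' e) (ha : 1 ≤ a)
    (h0 : 0 < hh) (t0 : 0 ≤ t) (t1 : t ≤ 1)
    (hx : x = (armXY a hh q).1 + t * ((armXY a hh q').1 - (armXY a hh q).1))
    (hy : y = (armXY a hh q).2 + t * ((armXY a hh q').2 - (armXY a hh q).2)) :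
    (x = 0 → t = 0 ∧ (q = 6 ∨ q = 7)) ∧ 0 ≤ x ∧ x ≤ a + 480 ∧ -1400 ≤ y ∧ y ≤ hh ∧
      (y ≤ 0 ∨ (a : ℝ) ≤ x) := by
  have ha' : (1 : ℝ) ≤ a := by exact_mod_cast ha
  have k1 : 0 ≤ t * a := by positivity
  have k2 : t * a ≤ a := by nlinarith
  have k3 : 0 ≤ t * hh := by positivity
  have k4 : t * hh ≤ hh := by nlinarith
  have z0 : t * a = 0 → t = 0 := by
    intro h
    rcases mul_eq_zero.1 h with h | h
    · exact h
    · linarith
  cases h <;> simp only [armXY] at hx hy <;>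
    refine ⟨?_, by linarith, by linarith, by linarith, by linarith, ?_⟩
  case b60.refine_1 => exact fun hx0 => ⟨z0 (by linarith), Or.inl rfl⟩
  case b72.refine_1 => exact fun hx0 => ⟨z0 (by linarith), Or.inr rfl⟩
  case b62.refine_1 => exact fun hx0 => ⟨z0 (by linarith), Or.inl rfl⟩
  all_goals first
    | (intro hx0; exfalso; linarith)
    | (left; linarith)
    | (right; linarith)

/-- the column steps of the local grid -/
noncomputable def lu (a : ℝ) (n : ℕ) : ℂ := if n = 0 then (a : ℂ) else 480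

/-- the row steps of the local grid -/
noncomputable def lv (hh : ℝ) (k : ℕ) : ℂ := if k = 0 then 1400 * I else hh * I

/-- the local grid coordinates of the labels -/
def lc : ℕ → ℕ × ℕ
  | 0 => (1, 0) | 1 => (2, 0) | 2 => (1, 1) | 3 => (2, 1) | 4 => (1, 2) | 5 => (2, 2)
  | 6 => (0, 0) | _ => (0, 1)

theorem hu_lu {a : ℝ} (ha : 0 < a) : Hu (lu a) := by
  intro n
  unfold lu
  split
  · simp [CU]
    constructor <;> linarith
  · norm_num [CU]

theorem hv_lv {hh : ℝ} (h0 : 0 < hh) : Hv (lv hh) := by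
  intro n
  unfold lv
  dsimp only
  split
  · simp [CU]
    norm_num
  · simp [CU]
    constructor <;> linarith

theorem gp_lc (a hh : ℝ) (q : ℕ) (hq : q ≤ 7) :
    GP (lu a) (lv hh) (lc q).1 (lc q).2 =
      (armXY a hh q).1 + ((armXY a hh q).2 + 1400) * I := by
  interval_cases q <;> simp [GP, PX, lc, armXY, lu, lv, sum_range_succ] <;> ring

theorem lc_inj {q r : ℕ} (hq : q ≤ 7) (hr : r ≤ 7) (h : lc q = lc r) : q = r := by
  interval_cases q <;> interval_cases r <;> simp_all [lc]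

theorem ArmBar.gb {a d q q' e : ℕ} (h : ArmBar a d q q' e) : ∃ R, GB (lc q) (lc q') R := by
  cases h
  · exact ⟨_, GB.H 0 0⟩
  · exact ⟨_, GB.H 0 1⟩
  · exact ⟨_, GB.D 0 0⟩
  · exact ⟨_, GB.H 1 0⟩
  · exact ⟨_, GB.H 1 1⟩
  · exact ⟨_, GB.V 1 0⟩
  · exact ⟨_, GB.V 2 0⟩
  · exact ⟨_, GB.D 1 0⟩
  · exact ⟨_, GB.V 1 1⟩
  · exact ⟨_, GB.V 2 1⟩
  · exact ⟨_, GB.H 1 2⟩
  · exact ⟨_, GB.D 1 1⟩

theorem seg_arm {m : Mesh} {hh : ℝ} {A B : ℕ → ℝ} {i j : ℕ} {up : Bool} {q q' : ℕ}
    (hq : q ≤ 7) (hq' : q' ≤ 7) {z : ℂ}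
    (hz : z ∈ segment ℝ (pos m hh A B (armV (m.C i j) i j up q))
      (pos m hh A B (armV (m.C i j) i j up q'))) :
    ∃ t x y : ℝ, 0 ≤ t ∧ t ≤ 1 ∧ z = armPt (sg (m.C i j)) A B i j up x y ∧
      x = (armXY (al (m.C i j)) hh q).1 +
        t * ((armXY (al (m.C i j)) hh q').1 - (armXY (al (m.C i j)) hh q).1) ∧
      y = (armXY (al (m.C i j)) hh q).2 +
        t * ((armXY (al (m.C i j)) hh q').2 - (armXY (al (m.C i j)) hh q).2) := by
  rw [pos_armV _ _ _ _ _ _ _ _ hq, pos_armV _ _ _ _ _ _ _ _ hq'] at hz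
  obtain ⟨t, t0, t1, rfl⟩ := mem_segment_iff.1 hz
  refine ⟨t, _, _, t0, t1, ?_, rfl, rfl⟩
  cases up <;> simp only [armPt] <;> push_cast <;> ring

theorem armPt_inj {g : ℝ} (hg : g = 1 ∨ g = -1) {A B : ℕ → ℝ} {i j : ℕ} {up : Bool}
    {x y x' y' : ℝ} (h : armPt g A B i j up x y = armPt g A B i j up x' y') :
    x = x' ∧ y = y' := by
  cases up with
  | false =>
    simp only [armPt, add_right_inj] at h
    have h1 := congrArg re h
    have h2 := congrArg im h
    simp at h1 h2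
    rcases hg with rfl | rfl
    · exact ⟨by simpa using h1, h2⟩
    · exact ⟨by simpa using h1, h2⟩
  | true =>
    simp only [armPt, sub_right_inj] at h
    have h1 := congrArg re h
    have h2 := congrArg im h
    simp at h1 h2
    rcases hg with rfl | rfl
    · exact ⟨by simpa using h1, h2⟩
    · exact ⟨by simpa using h1, h2⟩

/-- Two bars of the same arm. -/
theorem arm_same (m : Mesh) {hh : ℝ} (h0 : 0 < hh) {A B : ℕ → ℝ} (i j : ℕ) (up : Bool)
    {q q' e r r' f : ℕ} (h : ArmBar (al (m.C i j)) (ad (m.C i j)) q q' e)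
    (h' : ArmBar (al (m.C i j)) (ad (m.C i j)) r r' f)
    (hne : s(armV (m.C i j) i j up q, armV (m.C i j) i j up q') ≠
      s(armV (m.C i j) i j up r, armV (m.C i j) i j up r')) {z : ℂ}
    (hz : z ∈ segment ℝ (pos m hh A B (armV (m.C i j) i j up q))
      (pos m hh A B (armV (m.C i j) i j up q')))
    (hz' : z ∈ segment ℝ (pos m hh A B (armV (m.C i j) i j up r))
      (pos m hh A B (armV (m.C i j) i j up r'))) :
    ∃ w, (w = armV (m.C i j) i j up q ∨ w = armV (m.C i j) i j up q') ∧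
      (w = armV (m.C i j) i j up r ∨ w = armV (m.C i j) i j up r') ∧ z = pos m hh A B w := by
  obtain ⟨hq, hq'⟩ := h.le7
  obtain ⟨hr, hr'⟩ := h'.le7
  obtain ⟨t, x, y, t0, t1, hz1, hx, hy⟩ := seg_arm hq hq' hz
  obtain ⟨t', x', y', t0', t1', hz1', hx', hy'⟩ := seg_arm hr hr' hz'
  obtain ⟨rfl, rfl⟩ := armPt_inj (sg_cases _) (hz1.symm.trans hz1')
  have ha : (0 : ℝ) < al (m.C i j) := by
    have := (al_le (m.C i j)).2
    exact_mod_cast (by omega : 0 < al (m.C i j))
  obtain ⟨R, hR⟩ := h.gb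
  obtain ⟨R', hR'⟩ := h'.gb
  have hne' : s(lc q, lc q') ≠ s(lc r, lc r') := by
    intro hcon
    apply hne
    rw [Sym2.eq_iff] at hcon ⊢
    rcases hcon with ⟨h1, h2⟩ | ⟨h1, h2⟩
    · left
      rw [lc_inj hq hr h1, lc_inj hq' hr' h2]
      exact ⟨rfl, rfl⟩
    · right
      rw [lc_inj hq hr' h1, lc_inj hq' hr h2]
      exact ⟨rfl, rfl⟩
  obtain ⟨w, hw, hw', hzw⟩ := grid_nc (hu_lu ha) (hv_lv h0) hR hR' hne'
    (z := (x : ℂ) + (y + 1400) * I)
    (by
      rw [gp_lc _ _ _ hq, gp_lc _ _ _ hq']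
      apply mem_segment_iff.2
      refine ⟨t, t0, t1, ?_⟩
      rw [hx, hy]
      push_cast
      ring)
    (by
      rw [gp_lc _ _ _ hr, gp_lc _ _ _ hr']
      apply mem_segment_iff.2
      refine ⟨t', t0', t1', ?_⟩
      rw [hx', hy']
      push_cast
      ring)
  have hp : ∀ p, p ≤ 7 → w = lc p → z = pos m hh A B (armV (m.C i j) i j up p) := by
    intro p hp hwp
    rw [hwp, gp_lc _ _ _ hp] at hzw
    have h1 := congrArg re hzw
    have h2 := congrArg im hzw
    simp at h1 h2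
    rw [pos_armV _ _ _ _ _ _ _ _ hp, hz1, ← h1, ← h2]
  rcases hw with hw | hw <;> rcases hw' with hw' | hw'
  · have := lc_inj hq hr (hw.symm.trans hw')
    subst this
    exact ⟨_, Or.inl rfl, Or.inl rfl, hp _ hq hw⟩
  · have := lc_inj hq hr' (hw.symm.trans hw')
    subst this
    exact ⟨_, Or.inl rfl, Or.inr rfl, hp _ hq hw⟩
  · have := lc_inj hq' hr (hw.symm.trans hw')
    subst this
    exact ⟨_, Or.inr rfl, Or.inl rfl, hp _ hq' hw⟩
  · have := lc_inj hq' hr' (hw.symm.trans hw')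
    subst this
    exact ⟨_, Or.inr rfl, Or.inr rfl, hp _ hq' hw⟩

/-- Bars of the two arms of a hole. -/
theorem arm_diff (m : Mesh) {hh : ℝ} (h0 : 0 < hh) (h1 : hh ≤ 1890) {A B : ℕ → ℝ}
    (hA : ∀ j, |A j| < 20 / 101) (hB : ∀ j, |B j| < 20 / 101) (i j : ℕ)
    (hF : Free (m.C i j) hh (A j) (B i))
    {q q' e r r' f : ℕ} (h : ArmBar (al (m.C i j)) (ad (m.C i j)) q q' e)
    (h' : ArmBar (al (m.C i j)) (ad (m.C i j)) r r' f) {z : ℂ}
    (hz : z ∈ segment ℝ (pos m hh A B (armV (m.C i j) i j false q))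
      (pos m hh A B (armV (m.C i j) i j false q')))
    (hz' : z ∈ segment ℝ (pos m hh A B (armV (m.C i j) i j true r))
      (pos m hh A B (armV (m.C i j) i j true r'))) : False := by
  obtain ⟨hq, hq'⟩ := h.le7
  obtain ⟨hr, hr'⟩ := h'.le7
  obtain ⟨t, x, y, t0, t1, hz1, hx, hy⟩ := seg_arm hq hq' hz
  obtain ⟨t', x', y', t0', t1', hz1', hx', hy'⟩ := seg_arm hr hr' hz'
  have ha : 1 ≤ al (m.C i j) := by
    have := (al_le (m.C i j)).2
    omega
  obtain ⟨-, p2, p3, p4, p5, p6⟩ := armBar_box h ha h0 t0 t1 hx hy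
  obtain ⟨-, p2', p3', p4', p5', p6'⟩ := armBar_box h' ha h0 t0' t1' hx' hy'
  have e1 : GP (sX A) (sY B) (2 * j + 2) (6 * i + 5) =
      GP (sX A) (sY B) (2 * j + 1) (6 * i + 5) + sX A (2 * j + 1) :=
    GP_succ_left (sX A) (sY B) (2 * j + 1) (6 * i + 5)
  have e2 : GP (sX A) (sY B) (2 * j + 2) (6 * i + 6) =
      GP (sX A) (sY B) (2 * j + 1) (6 * i + 6) + sX A (2 * j + 1) :=
    GP_succ_left (sX A) (sY B) (2 * j + 1) (6 * i + 6)
  have e3 : GP (sX A) (sY B) (2 * j + 1) (6 * i + 6) =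
      GP (sX A) (sY B) (2 * j + 1) (6 * i + 5) + sY B (6 * i + 5) :=
    GP_succ_right (sX A) (sY B) (2 * j + 1) (6 * i + 5)
  have hg1 : ¬ ((-1 : ℝ) = 1) := by norm_num
  have hX : x + x' = 3400 * (√(1 - A j ^ 2) - sg (m.C i j) * B i) ∧
      y + y' = 3400 * (sg (m.C i j) * A j + √(1 - B i ^ 2)) := by
    have hzz := hz1.symm.trans hz1'
    rcases sg_cases (m.C i j) with hg | hg
    · rw [hg] at hzz ⊢
      simp only [armPt, if_true, e2, e3, sX_odd, sY_five] at hzz
      have k1 := congrArg re hzz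
      have k2 := congrArg im hzz
      simp at k1 k2
      constructor <;> linarith
    · rw [hg] at hzz ⊢
      simp only [armPt, if_neg hg1, e1, e3, sX_odd, sY_five] at hzz
      have k1 := congrArg re hzz
      have k2 := congrArg im hzz
      simp at k1 k2
      constructor <;> linarith
  obtain ⟨hX1, hY1⟩ := hX
  have hY2 : 2659 < y + y' := by
    rw [hY1]
    have q1 := abs_lt.1 (hA j)
    have q2 := sqrt_gt (hB i)
    rcases sg_cases (m.C i j) with hg | hg <;> rw [hg] <;> linarith [q1.1, q1.2]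
  apply hF
  rcases p6 with p6 | p6
  · linarith
  rcases p6' with p6' | p6'
  · linarith
  refine ⟨?_, ?_, ?_⟩ <;> linarith

theorem loc_arm (m : Mesh) {hh : ℝ} (h0 : 0 < hh) (h1 : hh ≤ 1890) {A B : ℕ → ℝ}
    (hA : ∀ j, |A j| < 20 / 101) (hB : ∀ j, |B j| < 20 / 101) (i j : ℕ) (up : Bool)
    {q q' e : ℕ} (h : ArmBar (al (m.C i j)) (ad (m.C i j)) q q' e) :
    Loc m hh A B (armV (m.C i j) i j up q) (armV (m.C i j) i j up q')
      (.F (2 * j + 1) (6 * i + 3) 5) := by
  intro z hz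
  obtain ⟨hq, hq'⟩ := h.le7
  obtain ⟨t, x, y, t0, t1, hz1, hx, hy⟩ := seg_arm hq hq' hz
  obtain ⟨ha2, ha1⟩ := al_le (m.C i j)
  obtain ⟨p1, p2, p3, p4, p5, p6⟩ := armBar_box h (by omega) h0 t0 t1 hx hy
  have ha2' : (al (m.C i j) : ℝ) ≤ 2250 := by exact_mod_cast ha2
  have ha1' : (1050 : ℝ) ≤ al (m.C i j) := by exact_mod_cast ha1
  rcases eq_or_lt_of_le p2 with hx0 | hx0
  · left
    obtain ⟨ht, hq6⟩ := p1 hx0.symm
    obtain ⟨a, b, e1, e2⟩ := armV_six (m.C i j) i j up q hq6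
    refine ⟨a, b, ?_, Or.inl e1.symm⟩
    rw [e2 (al (m.C i j)) hh, hz1, hx, hy, ht]
    simp
  · right
    rw [hz1]
    apply arm_in_F hA hB i j up (sg_cases _) hx0 (by linarith) p4 (by linarith)
    rcases p6 with p6 | p6
    · exact Or.inl p6
    · exact Or.inr (by linarith)

end LockPl
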