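import Pool.Agent.Lib.MP_14e06f_lc.Plane.BarListDef

set_option autoImplicit false

/-!
# The list of the bars of a mesh given by a code
-/

namespace LockPl

/-! ### Membership -/

theorem mem_armBars (a d q q' n : ℕ) : (q, (q', n)) ∈ armBars a d ↔ ArmBar a d q q' n := by
  constructor
  · intro h
    simp only [armBars, List.mem_cons, Prod.mk.injEq, List.not_mem_nil, or_false] at h
    rcases h with ⟨rfl, rfl, rfl⟩ | ⟨rfl, rfl, rfl⟩ | ⟨rfl, rfl, rfl⟩ | ⟨rfl, rfl, rfl⟩ |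
      ⟨rfl, rfl, rfl⟩ | ⟨rfl, rfl, rfl⟩ | ⟨rfl, rfl, rfl⟩ | ⟨rfl, rfl, rfl⟩ | ⟨rfl, rfl, rfl⟩ |
      ⟨rfl, rfl, rfl⟩ | ⟨rfl, rfl, rfl⟩ | ⟨rfl, rfl, rfl⟩ <;> constructor
  · intro h
    cases h <;> simp [armBars]

theorem ArmBar.le {a d q q' n : ℕ} (h : ArmBar a d q q' n) : q ≤ 7 ∧ q' ≤ 7 := by
  cases h <;> omega

theorem place_armW (o : Option (SignType × Bool)) (i j : ℕ) (up : Bool) (q : ℕ) (hq : q ≤ 7) :
    place i j (armW o up q) = armV o i j up q := by
  interval_cases q <;> cases up <;> rcases o with _ | ⟨s, _ | _⟩ <;> rfl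

theorem mem_plateT (t : Tmpl) : t ∈ plateT ↔
    (∃ l < 6, t = ((0, 0, 2 * l), (0, 0, 2 * l + 1), 480)) ∨
    (∃ l < 5, ∃ c < 2, t = ((0, 0, 2 * l + c), (0, 0, 2 * (l + 1) + c), hgt l)) ∨
    (∃ l < 5, t = ((0, 0, 2 * l), (0, 0, 2 * (l + 1) + 1), dg l)) := by
  unfold plateT
  simp only [List.mem_append, List.mem_map, List.mem_flatMap, List.mem_range, or_assoc, eq_comm]

theorem mem_hT (t : Tmpl) : t ∈ hT ↔
    (∃ l, (l = 2 ∨ l = 3) ∧ t = ((0, 0, 2 * l + 1), (0, 1, 2 * l), 3400)) ∨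
    (∃ l, (l = 2 ∨ l = 3) ∧ t = ((0, 0, 2 * l + 1), (0, 0, 12), 505)) := by
  unfold hT
  rw [List.mem_append, List.mem_map, List.mem_map]
  constructor
  · rintro (⟨l, hl, rfl⟩ | ⟨l, hl, rfl⟩)
    · exact Or.inl ⟨l, by simpa using hl, rfl⟩
    · exact Or.inr ⟨l, by simpa using hl, rfl⟩
  · rintro (⟨l, hl, rfl⟩ | ⟨l, hl, rfl⟩)
    · exact Or.inl ⟨l, by simpa using hl, rfl⟩
    · exact Or.inr ⟨l, by simpa using hl, rfl⟩

theorem mem_vT (t : Tmpl) : t ∈ vT ↔
    (∃ c < 2, t = ((0, 0, 10 + c), (1, 0, c), 3400)) ∨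
    (∃ c < 2, t = ((0, 0, 10 + c), (0, 0, 13), 1212)) := by
  unfold vT
  simp only [List.mem_append, List.mem_map, List.mem_range, eq_comm]

theorem mem_armT (o : Option (SignType × Bool)) (t : Tmpl) : t ∈ armT o ↔
    ∃ up q q' n, ArmBar (al o) (ad o) q q' n ∧ t = (armW o up q, armW o up q', n) := by
  unfold armT
  rw [List.mem_flatMap]
  constructor
  · rintro ⟨up, -, h⟩
    obtain ⟨⟨q, q', n⟩, hb, rfl⟩ := List.mem_map.1 h
    exact ⟨up, q, q', n, (mem_armBars _ _ _ _ _).1 hb, rfl⟩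
  · rintro ⟨up, q, q', n, hb, rfl⟩
    refine ⟨up, by cases up <;> simp, List.mem_map.2 ⟨(q, q', n), (mem_armBars _ _ _ _ _).2 hb, rfl⟩⟩

theorem mem_cellT (a b : Bool) (o : Option (SignType × Bool)) (t : Tmpl) : t ∈ cellT a b o ↔
    t ∈ plateT ∨ (b = true ∧ t ∈ hT) ∨ (a = true ∧ t ∈ vT) ∨ (a = true ∧ b = true ∧ t ∈ armT o) := by
  unfold cellT
  rw [List.mem_append, List.mem_append, List.mem_append]
  cases a <;> cases b <;> simp

theorem mem_barList' (c : MeshCode) (u v : Vtx) (n : ℕ) : ((u, v), n) ∈ barList c ↔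
    ∃ i ≤ c.2.length, ∃ j ≤ c.1, ∃ t ∈ cellT (decide (i < c.2.length)) (decide (j < c.1)) (c.sc i j),
      u = place i j t.1 ∧ v = place i j t.2.1 ∧ n = t.2.2 := by
  unfold barList
  rw [List.mem_flatMap]
  constructor
  · rintro ⟨i, hi, h⟩
    rw [List.mem_flatMap] at h
    obtain ⟨j, hj, h⟩ := h
    obtain ⟨t, ht, h⟩ := List.mem_map.1 h
    rw [List.mem_range] at hi hj
    simp only [Prod.mk.injEq] at h
    exact ⟨i, by omega, j, by omega, t, ht, h.1.1.symm, h.1.2.symm, h.2.symm⟩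
  · rintro ⟨i, hi, j, hj, t, ht, rfl, rfl, rfl⟩
    refine ⟨i, List.mem_range.2 (by omega), ?_⟩
    rw [List.mem_flatMap]
    exact ⟨j, List.mem_range.2 (by omega), List.mem_map.2 ⟨t, ht, rfl⟩⟩

/-- The list contains exactly the bars. -/
theorem mem_barList (c : MeshCode) (u v : Vtx) (n : ℕ) :
    ((u, v), n) ∈ barList c ↔ Bar (meshOf c) u v n := by
  rw [mem_barList']
  constructor
  · rintro ⟨i, hi, j, hj, t, ht, rfl, rfl, rfl⟩
    rw [mem_cellT] at ht
    rcases ht with ht | ⟨hb, ht⟩ | ⟨ha, ht⟩ | ⟨ha, hb, ht⟩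
    · rcases (mem_plateT t).1 ht with ⟨l, hl, rfl⟩ | ⟨l, hl, e, he, rfl⟩ | ⟨l, hl, rfl⟩
      · exact Bar.plateH (m := meshOf c) hi hj hl
      · exact Bar.plateV (m := meshOf c) hi hj hl he
      · exact Bar.plateD (m := meshOf c) hi hj hl
    · have hb' : j < c.1 := of_decide_eq_true hb
      rcases (mem_hT t).1 ht with ⟨l, hl, rfl⟩ | ⟨l, hl, rfl⟩
      · exact Bar.crankH (m := meshOf c) hi hb' hl
      · exact Bar.stopH (m := meshOf c) hi hb' hl
    · have ha' : i < c.2.length := of_decide_eq_true ha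
      rcases (mem_vT t).1 ht with ⟨l, hl, rfl⟩ | ⟨l, hl, rfl⟩
      · have := Bar.crankV (m := meshOf c) ha' hj hl
        exact this
      · exact Bar.stopV (m := meshOf c) ha' hj hl
    · have ha' : i < c.2.length := of_decide_eq_true ha
      have hb' : j < c.1 := of_decide_eq_true hb
      obtain ⟨up, q, q', n, h, rfl⟩ := (mem_armT _ t).1 ht
      show Bar (meshOf c) (place i j (armW (c.sc i j) up q)) (place i j (armW (c.sc i j) up q')) n
      rw [place_armW _ _ _ _ _ h.le.1, place_armW _ _ _ _ _ h.le.2]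
      exact Bar.arm (m := meshOf c) ha' hb' up h
  · intro h
    cases h with
    | @plateH i j l hi hj hl =>
      exact ⟨i, hi, j, hj, _, (mem_cellT _ _ _ _).2 (Or.inl ((mem_plateT _).2 (Or.inl ⟨l, hl, rfl⟩))),
        rfl, rfl, rfl⟩
    | @plateV i j l e hi hj hl he =>
      exact ⟨i, hi, j, hj, _, (mem_cellT _ _ _ _).2 (Or.inl ((mem_plateT _).2
        (Or.inr (Or.inl ⟨l, hl, e, he, rfl⟩)))), rfl, rfl, rfl⟩
    | @plateD i j l hi hj hl =>
      exact ⟨i, hi, j, hj, _, (mem_cellT _ _ _ _).2 (Or.inl ((mem_plateT _).2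
        (Or.inr (Or.inr ⟨l, hl, rfl⟩)))), rfl, rfl, rfl⟩
    | @crankH i j l hi hj hl =>
      exact ⟨i, hi, j, le_of_lt hj, _, (mem_cellT _ _ _ _).2 (Or.inr (Or.inl ⟨decide_eq_true hj,
        (mem_hT _).2 (Or.inl ⟨l, hl, rfl⟩)⟩)), rfl, rfl, rfl⟩
    | @stopH i j l hi hj hl =>
      exact ⟨i, hi, j, le_of_lt hj, _, (mem_cellT _ _ _ _).2 (Or.inr (Or.inl ⟨decide_eq_true hj,
        (mem_hT _).2 (Or.inr ⟨l, hl, rfl⟩)⟩)), rfl, rfl, rfl⟩
    | @crankV i j e hi hj he =>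
      refine ⟨i, le_of_lt hi, j, hj, _, (mem_cellT _ _ _ _).2 (Or.inr (Or.inr (Or.inl
        ⟨decide_eq_true hi, (mem_vT _).2 (Or.inl ⟨e, he, rfl⟩)⟩))), rfl, rfl, rfl⟩
    | @stopV i j e hi hj he =>
      exact ⟨i, le_of_lt hi, j, hj, _, (mem_cellT _ _ _ _).2 (Or.inr (Or.inr (Or.inl
        ⟨decide_eq_true hi, (mem_vT _).2 (Or.inr ⟨e, he, rfl⟩)⟩))), rfl, rfl, rfl⟩
    | @arm i j q q' d hi hj up h =>
      refine ⟨i, le_of_lt hi, j, le_of_lt hj, (armW (c.sc i j) up q, armW (c.sc i j) up q', n),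
        (mem_cellT _ _ _ _).2 (Or.inr (Or.inr (Or.inr ⟨decide_eq_true hi, decide_eq_true hj,
        (mem_armT _ _).2 ⟨up, q, q', n, h, rfl⟩⟩))), ?_, ?_, rfl⟩
      · exact (place_armW _ _ _ _ _ h.le.1).symm
      · exact (place_armW _ _ _ _ _ h.le.2).symm

/-! ### Validity -/

theorem label_inj {M : ℕ} {u v : Vtx} (hu : u.2.1 ≤ M) (hv : v.2.1 ≤ M) (hu' : u.2.2 < 26)
    (hv' : v.2.2 < 26) (h : label M u = label M v) : u = v := by
  obtain ⟨i, j, t⟩ := u
  obtain ⟨i', j', t'⟩ := v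
  unfold label at h
  dsimp only at hu hv hu' hv' h
  have h1 : t = t' := by omega
  have h2 : i * (M + 1) + j = i' * (M + 1) + j' := by omega
  have h3 : j = j' := by
    have := congrArg (· % (M + 1)) h2
    simpa [Nat.mul_add_mod_self_right, Nat.mod_eq_of_lt (show j < M + 1 by omega),
      Nat.mod_eq_of_lt (show j' < M + 1 by omega)] using this
  have h4 : i = i' := by
    subst h3
    have := Nat.add_right_cancel h2
    exact Nat.eq_of_mul_eq_mul_right (Nat.succ_pos M) this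
  rw [h1, h3, h4]

/-- the properties of the templates -/
def goodT (b : Bool) (t : Tmpl) : Prop :=
  min t.1.1 t.2.1.1 = 0 ∧ min t.1.2.1 t.2.1.2.1 = 0 ∧ t.1.2.2 < 26 ∧ t.2.1.2.2 < 26 ∧
    t.1.2.1 ≤ b.toNat ∧ t.2.1.2.1 ≤ b.toNat ∧ t.1 ≠ t.2.1 ∧ 0 < t.2.2

instance (b : Bool) (t : Tmpl) : Decidable (goodT b t) := by
  unfold goodT
  infer_instance

theorem good_cellT (a b : Bool) (o : Option (SignType × Bool)) : ∀ t ∈ cellT a b o, goodT b t := by
  rcases o with _ | ⟨s, v⟩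
  · cases a <;> cases b <;> decide +kernel
  · cases s <;> cases v <;> cases a <;> cases b <;> decide +kernel

theorem nodup_cellT (a b : Bool) (o : Option (SignType × Bool)) :
    ((cellT a b o).map (fun t => s(t.1, t.2.1))).Nodup := by
  rcases o with _ | ⟨s, v⟩
  · cases a <;> cases b <;> decide +kernel
  · cases s <;> cases v <;> cases a <;> cases b <;> decide +kernel

theorem sym2_min {i j i' j' : ℕ} {b b' : Bool} {t t' : Tmpl} (ht : goodT b t) (ht' : goodT b' t')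
    (h : s(place i j t.1, place i j t.2.1) = s(place i' j' t'.1, place i' j' t'.2.1)) :
    i = i' ∧ j = j' ∧ s(t.1, t.2.1) = s(t'.1, t'.2.1) := by
  obtain ⟨⟨a1, a2, a3⟩, ⟨b1, b2, b3⟩, n⟩ := t
  obtain ⟨⟨c1, c2, c3⟩, ⟨d1, d2, d3⟩, n'⟩ := t'
  obtain ⟨h1, h2, -⟩ := ht
  obtain ⟨h3, h4, -⟩ := ht'
  dsimp only at h1 h2 h3 h4 h ⊢
  rw [Sym2.eq_iff] at h ⊢
  simp only [place, Prod.mk.injEq] at h ⊢
  rcases h with ⟨⟨e1, e2, e3⟩, ⟨f1, f2, f3⟩⟩ | ⟨⟨e1, e2, e3⟩, ⟨f1, f2, f3⟩⟩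
  · have hi : i = i' := by omega
    have hj : j = j' := by omega
    subst hi hj
    exact ⟨rfl, rfl, Or.inl ⟨⟨by omega, by omega, e3⟩, ⟨by omega, by omega, f3⟩⟩⟩
  · have hi : i = i' := by omega
    have hj : j = j' := by omega
    subst hi hj
    exact ⟨rfl, rfl, Or.inr ⟨⟨by omega, by omega, e3⟩, ⟨by omega, by omega, f3⟩⟩⟩

theorem le_col {M : ℕ} (j0 : ℕ) (h0 : j0 ≤ M) (x : ℕ) (hx : x ≤ (decide (j0 < M)).toNat) :
    j0 + x ≤ M := by
  by_cases hlt : j0 < M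
  · rw [decide_eq_true hlt, Bool.toNat_true] at hx
    omega
  · rw [decide_eq_false hlt, Bool.toNat_false] at hx
    omega

theorem label_place {M i j i' j' : ℕ} {t t' : Tmpl} (hj : j ≤ M) (hj' : j' ≤ M)
    (ht : goodT (decide (j < M)) t) (ht' : goodT (decide (j' < M)) t')
    (h : s(label M (place i j t.1), label M (place i j t.2.1)) =
      s(label M (place i' j' t'.1), label M (place i' j' t'.2.1))) :
    i = i' ∧ j = j' ∧ s(t.1, t.2.1) = s(t'.1, t'.2.1) := by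
  refine sym2_min ht ht' ?_
  obtain ⟨-, -, h1, h2, h3, h4, -⟩ := ht
  obtain ⟨-, -, h1', h2', h3', h4', -⟩ := ht'
  rw [Sym2.eq_iff] at h ⊢
  rcases h with ⟨e1, e2⟩ | ⟨e1, e2⟩
  · exact Or.inl ⟨label_inj (le_col j hj _ h3) (le_col j' hj' _ h3') h1 h1' e1,
      label_inj (le_col j hj _ h4) (le_col j' hj' _ h4') h2 h2' e2⟩
  · exact Or.inr ⟨label_inj (le_col j hj _ h3) (le_col j' hj' _ h4') h1 h2' e1,
      label_inj (le_col j hj _ h4) (le_col j' hj' _ h3') h2 h1' e2⟩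

theorem nodup_cell (M i j : ℕ) (hj : j ≤ M) (a : Bool) (o : Option (SignType × Bool)) :
    ((cellT a (decide (j < M)) o).map
      (fun t => s(label M (place i j t.1), label M (place i j t.2.1)))).Nodup := by
  have h1 := nodup_cellT a (decide (j < M)) o
  refine List.Nodup.map_on (fun t ht t' ht' h => ?_) h1.of_map
  exact List.inj_on_of_nodup_map h1 ht ht' (label_place hj hj (good_cellT _ _ _ t ht)
    (good_cellT _ _ _ t' ht') h).2.2

/-- The list of bars is valid. -/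
theorem barsOf_valid (c : MeshCode) : (barsOf c).Valid := by
  constructor
  · intro b hb
    obtain ⟨⟨⟨u, v⟩, n⟩, hx, rfl⟩ := List.mem_map.1 hb
    obtain ⟨i, hi, j, hj, t, ht, rfl, rfl, rfl⟩ := (mem_barList' c u v n).1 hx
    have hg := good_cellT _ _ _ t ht
    refine ⟨fun h => ?_, hg.2.2.2.2.2.2.2, Nat.one_pos⟩
    obtain ⟨-, -, h1, h2, h3, h4, hne, -⟩ := hg
    have h5 : place i j t.1 = place i j t.2.1 :=
      label_inj (le_col j hj _ h3) (le_col j hj _ h4) h1 h2 h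
    apply hne
    obtain ⟨⟨a1, a2, a3⟩, ⟨b1, b2, b3⟩, n⟩ := t
    simp only [place, Prod.mk.injEq] at h5 ⊢
    omega
  · have e : (barsOf c).map (fun b => s(b.1.1, b.1.2)) =
        (List.range (c.2.length + 1)).flatMap (fun i => (List.range (c.1 + 1)).flatMap (fun j =>
          (cellT (decide (i < c.2.length)) (decide (j < c.1)) (c.sc i j)).map
          (fun t => s(label c.1 (place i j t.1), label c.1 (place i j t.2.1))))) := by
      unfold barsOf barList
      rw [List.map_map, List.map_flatMap]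
      refine List.flatMap_congr (fun i _ => ?_)
      rw [List.map_flatMap]
      refine List.flatMap_congr (fun j _ => ?_)
      rw [List.map_map]
      rfl
    rw [e, List.nodup_flatMap]
    refine ⟨fun i _ => ?_, ?_⟩
    · rw [List.nodup_flatMap]
      refine ⟨fun j hj => nodup_cell _ _ _ (by rw [List.mem_range] at hj; omega) _ _, ?_⟩
      refine List.Pairwise.imp_of_mem (fun {j j'} hj hj' hne => ?_) (List.nodup_range (n := c.1 + 1))
      rw [List.mem_range] at hj hj'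
      intro x hx hx'
      obtain ⟨t, ht, rfl⟩ := List.mem_map.1 hx
      obtain ⟨t', ht', h⟩ := List.mem_map.1 hx'
      exact hne (label_place (by omega) (by omega) (good_cellT _ _ _ t ht)
        (good_cellT _ _ _ t' ht') h.symm).2.1
    · refine List.Pairwise.imp_of_mem (fun {i i'} hi hi' hne => ?_)
        (List.nodup_range (n := c.2.length + 1))
      intro x hx hx'
      obtain ⟨j, hj, hx⟩ := List.mem_flatMap.1 hx
      obtain ⟨j', hj', hx'⟩ := List.mem_flatMap.1 hx'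
      obtain ⟨t, ht, rfl⟩ := List.mem_map.1 hx
      obtain ⟨t', ht', h⟩ := List.mem_map.1 hx'
      rw [List.mem_range] at hj hj'
      exact hne (label_place (by omega) (by omega) (good_cellT _ _ _ t ht)
        (good_cellT _ _ _ t' ht') h.symm).1

end LockPl
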