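import Pool.Agent.Lib.MP_14e06f_lc.Plane.Comb

set_option autoImplicit false

/-!
# The list of the bars of a mesh given by a code: definitions
-/

namespace LockPl

/-- The number of a vertex (`M` columns). -/
def label (M : ℕ) (v : Vtx) : ℕ := (v.1 * (M + 1) + v.2.1) * 26 + v.2.2

/-- A bar relative to a cell: two vertices relative to the cell, and the length. -/
abbrev Tmpl : Type := (ℕ × (ℕ × ℕ)) × ((ℕ × (ℕ × ℕ)) × ℕ)

/-- the vertex `w` relative to the cell `(i, j)` -/
def place (i j : ℕ) (w : ℕ × (ℕ × ℕ)) : Vtx := (i + w.1, j + w.2.1, w.2.2)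

/-- the bars of a plate -/
def plateT : List Tmpl :=
  (List.range 6).map (fun l => ((0, 0, 2 * l), (0, 0, 2 * l + 1), 480)) ++
  (List.range 5).flatMap (fun l => (List.range 2).map
    (fun c => ((0, 0, 2 * l + c), (0, 0, 2 * (l + 1) + c), hgt l))) ++
  (List.range 5).map (fun l => ((0, 0, 2 * l), (0, 0, 2 * (l + 1) + 1), dg l))

/-- the cranks and stops to the right -/
def hT : List Tmpl :=
  [2, 3].map (fun l => ((0, 0, 2 * l + 1), (0, 1, 2 * l), 3400)) ++
  [2, 3].map (fun l => ((0, 0, 2 * l + 1), (0, 0, 12), 505))

/-- the cranks and stops upwards -/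
def vT : List Tmpl :=
  (List.range 2).map (fun c => ((0, 0, 10 + c), (1, 0, c), 3400)) ++
  (List.range 2).map (fun c => ((0, 0, 10 + c), (0, 0, 13), 1212))

/-- the bars of an arm in local labels -/
def armBars (a d : ℕ) : List (ℕ × (ℕ × ℕ)) :=
  [(6, 0, a), (7, 2, a), (6, 2, d), (0, 1, 480), (2, 3, 480), (0, 2, 1400), (1, 3, 1400),
    (0, 3, 1480), (2, 4, 1890), (3, 5, 1890), (4, 5, 480), (2, 5, 1950)]

/-- the vertex with local label `q` of an arm, relative to the cell -/
def armW (o : Option (SignType × Bool)) : Bool → ℕ → ℕ × (ℕ × ℕ)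
  | false, 6 => match o with
    | some (_, false) => (0, 1, 8)
    | _ => (0, 0, 9)
  | false, 7 => match o with
    | some (_, false) => (0, 1, 10)
    | _ => (0, 0, 11)
  | true, 6 => match o with
    | some (_, false) => (1, 0, 3)
    | _ => (1, 1, 2)
  | true, 7 => match o with
    | some (_, false) => (1, 0, 1)
    | _ => (1, 1, 0)
  | false, q => (0, 0, 14 + q)
  | true, q => (0, 0, 20 + q)

/-- the bars of the two arms of a hole with constraint `o` -/
def armT (o : Option (SignType × Bool)) : List Tmpl :=
  [false, true].flatMap (fun up => (armBars (al o) (ad o)).map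
    (fun b => (armW o up b.1, armW o up b.2.1, b.2.2)))

/-- the bars of the cell `(i, j)`; `a`: there is a cell above, `b`: there is a cell to the right -/
def cellT (a b : Bool) (o : Option (SignType × Bool)) : List Tmpl :=
  plateT ++ ((if b then hT else []) ++ ((if a then vT else []) ++ (if a && b then armT o else [])))

/-- the constraint of the hole `(i, j)` with signs -/
def MeshCode.sc (c : MeshCode) (i j : ℕ) : Option (SignType × Bool) :=
  (c.con i j).map (fun e => (posOf e.1, e.2))

/-- All bars of the mesh of a code. -/
def barList (c : MeshCode) : List ((Vtx × Vtx) × ℕ) :=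
  (List.range (c.2.length + 1)).flatMap (fun i => (List.range (c.1 + 1)).flatMap (fun j =>
    (cellT (decide (i < c.2.length)) (decide (j < c.1)) (c.sc i j)).map
      (fun t => ((place i j t.1, place i j t.2.1), t.2.2))))

/-- All bars of the mesh of a code, with numbers of vertices. -/
def barsOf (c : MeshCode) : LinkCode :=
  (barList c).map (fun x => ((label c.1 x.1.1, label c.1 x.1.2), (x.2, 1)))

/-! To prove in `BarList.lean`:

theorem mem_barList (c : MeshCode) (u v : Vtx) (n : ℕ) :
    ((u, v), n) ∈ barList c ↔ Bar (meshOf c) u v n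

theorem barsOf_valid (c : MeshCode) : (barsOf c).Valid

Suggestion for the second: the cell of a bar is the coordinatewise minimum of its two vertices (each
template has nonnegative offsets with minimum `(0, 0)`), inside a cell the template list has no
duplicates (`decide` for the 7 constraints and the 4 values of `a, b`), `label` is injective on
vertices with column `≤ M` and tag `< 26`. -/

end LockPl
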