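import Pool.Agent.Lib.MP_14e06f_lc.Plane.CombPT
import Pool.Agent.Lib.MP_14e06f_lc.Plane.BarList

set_option autoImplicit false

/-!
# The linkage of a formula is computed in polynomial time
-/

namespace LockPl

open Pool.Agent.Lib.MP_0f8b55_lc Pool.Agent.Lib.PolyTime

variable {α : Type} [Enc α]

/-- the output entry of a template -/
def outT (M i j : ℕ) (t : Tmpl) : (ℕ × ℕ) × (List ℕ × List ℕ) :=
  ((label M (place i j t.1), label M (place i j t.2.1)), (Nat.digits 2 t.2.2, Nat.digits 2 1))

theorem pt_label {M i j : α → ℕ} (hM : PT M) (hi : PT i) (hj : PT j) (w : ℕ × (ℕ × ℕ)) :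
    PT (fun x => label (M x) (place (i x) (j x) w)) :=
  (((((hi.addConst w.1).mul (hM.addConst 1)).add (hj.addConst w.2.1)).mul
    (PT.const 26)).addConst w.2.2)

theorem pt_outT {M i j : α → ℕ} (hM : PT M) (hi : PT i) (hj : PT j) (t : Tmpl) :
    PT (fun x => outT (M x) (i x) (j x) t) :=
  ((pt_label hM hi hj t.1).pair (pt_label hM hi hj t.2.1)).pair (PT.const _)

theorem pt_outL {M i j : α → ℕ} (hM : PT M) (hi : PT i) (hj : PT j) (L : List Tmpl) :
    PT (fun x => L.map (outT (M x) (i x) (j x))) :=
  PT.mapConst L (f := fun t x => outT (M x) (i x) (j x) t) (fun t _ => pt_outT hM hi hj t)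

/-- a number for every constraint -/
def kindOf : Option (ℕ × Bool) → ℕ
  | none => 0
  | some (p, true) => if p = 0 then 1 else if p = 2 then 2 else 3
  | some (p, false) => if p = 0 then 4 else if p = 2 then 5 else 6

/-- the templates of a kind -/
def kindT (k : ℕ) : List Tmpl :=
  if k = 0 then armT none else if k = 1 then armT (some (-1, true))
  else if k = 2 then armT (some (1, true)) else if k = 3 then armT (some (0, true))
  else if k = 4 then armT (some (-1, false)) else if k = 5 then armT (some (1, false))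
  else armT (some (0, false))

theorem posOf_other {p : ℕ} (h0 : p ≠ 0) (h2 : p ≠ 2) : posOf p = 0 := by
  unfold posOf
  split
  · exact absurd rfl h0
  · exact absurd rfl h2
  · rfl

theorem kindT_kindOf (o : Option (ℕ × Bool)) :
    kindT (kindOf o) = armT (o.map (fun e => (posOf e.1, e.2))) := by
  rcases o with _ | ⟨p, v⟩
  · rfl
  · by_cases h0 : p = 0
    · subst h0
      cases v <;> rfl
    · by_cases h2 : p = 2
      · subst h2
        cases v <;> rfl
      · have h1 : posOf p = 0 := posOf_other h0 h2
        cases v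
        · have h3 : kindOf (some (p, false)) = 6 := by
            show (if p = 0 then 4 else if p = 2 then 5 else 6) = 6
            rw [if_neg h0, if_neg h2]
          rw [h3, Option.map_some]
          dsimp only
          rw [h1]
          rfl
        · have h3 : kindOf (some (p, true)) = 3 := by
            show (if p = 0 then 1 else if p = 2 then 2 else 3) = 3
            rw [if_neg h0, if_neg h2]
          rw [h3, Option.map_some]
          dsimp only
          rw [h1]
          rfl

theorem pt_kindOf {o : α → Option (ℕ × Bool)} (ho : PT o) : PT (fun x => kindOf (o x)) := by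
  have h := PT.optCases (f := o) (g := fun _ => (0 : ℕ))
    (h := fun _ (e : ℕ × Bool) => if e.2 = true then
      (if e.1 = 0 then 1 else if e.1 = 2 then 2 else 3) else
      (if e.1 = 0 then 4 else if e.1 = 2 then 5 else 6)) ho (PT.const 0)
    (PT.ite (c := fun x : α × (ℕ × Bool) => x.2.2 = true) (PT.snd.snd'.congr (fun a => by simp))
      (PT.ite (c := fun x : α × (ℕ × Bool) => x.2.1 = 0) (PT.eq PT.snd.fst' (PT.const 0))
        (PT.const 1) (PT.ite (c := fun x : α × (ℕ × Bool) => x.2.1 = 2)
          (PT.eq PT.snd.fst' (PT.const 2)) (PT.const 2) (PT.const 3)))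
      (PT.ite (c := fun x : α × (ℕ × Bool) => x.2.1 = 0) (PT.eq PT.snd.fst' (PT.const 0))
        (PT.const 4) (PT.ite (c := fun x : α × (ℕ × Bool) => x.2.1 = 2)
          (PT.eq PT.snd.fst' (PT.const 2)) (PT.const 5) (PT.const 6))))
  refine h.congr (fun x => ?_)
  rcases o x with _ | ⟨p, v⟩
  · rfl
  · cases v <;> rfl

theorem pt_kindT {M i j k : α → ℕ} (hM : PT M) (hi : PT i) (hj : PT j) (hk : PT k) :
    PT (fun x => (kindT (k x)).map (outT (M x) (i x) (j x))) := by
  have h := PT.ite (c := fun x => k x = 0) (PT.eq hk (PT.const 0)) (pt_outL hM hi hj (armT none))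
    (PT.ite (c := fun x => k x = 1) (PT.eq hk (PT.const 1)) (pt_outL hM hi hj (armT (some (-1, true))))
    (PT.ite (c := fun x => k x = 2) (PT.eq hk (PT.const 2)) (pt_outL hM hi hj (armT (some (1, true))))
    (PT.ite (c := fun x => k x = 3) (PT.eq hk (PT.const 3)) (pt_outL hM hi hj (armT (some (0, true))))
    (PT.ite (c := fun x => k x = 4) (PT.eq hk (PT.const 4))
      (pt_outL hM hi hj (armT (some (-1, false))))
    (PT.ite (c := fun x => k x = 5) (PT.eq hk (PT.const 5))
      (pt_outL hM hi hj (armT (some (1, false)))) (pt_outL hM hi hj (armT (some (0, false)))))))))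
  refine h.congr (fun x => ?_)
  unfold kindT
  split_ifs <;> rfl

/-- the output for a cell -/
theorem pt_cell {M N i j : α → ℕ} {o : α → Option (ℕ × Bool)} (hM : PT M) (hN : PT N) (hi : PT i)
    (hj : PT j) (ho : PT o) : PT (fun x =>
      (cellT (decide (i x < N x)) (decide (j x < M x)) ((o x).map (fun e => (posOf e.1, e.2)))).map
        (outT (M x) (i x) (j x))) := by
  have hiN : PT (fun x => decide (i x < N x)) := PT.lt hi hN
  have hjM : PT (fun x => decide (j x < M x)) := PT.lt hj hM
  have h1 := pt_outL hM hi hj plateT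
  have h2 := PT.ite (c := fun x => j x < M x) hjM (pt_outL hM hi hj hT)
    (PT.const ([] : List ((ℕ × ℕ) × (List ℕ × List ℕ))))
  have h3 := PT.ite (c := fun x => i x < N x) hiN (pt_outL hM hi hj vT)
    (PT.const ([] : List ((ℕ × ℕ) × (List ℕ × List ℕ))))
  have h4 := PT.ite (c := fun x => i x < N x) hiN (PT.ite (c := fun x => j x < M x) hjM
    (pt_kindT hM hi hj (pt_kindOf ho)) (PT.const ([] : List ((ℕ × ℕ) × (List ℕ × List ℕ)))))
    (PT.const ([] : List ((ℕ × ℕ) × (List ℕ × List ℕ))))
  refine (h1.append (h2.append (h3.append h4))).congr (fun x => ?_)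
  unfold cellT
  rw [← kindT_kindOf]
  by_cases hi' : i x < N x <;> by_cases hj' : j x < M x <;> simp [hi', hj']

/-- The list of bars with binary digits. -/
def barsD (c : MeshCode) : List ((ℕ × ℕ) × (List ℕ × List ℕ)) :=
  (List.range (c.2.length + 1)).flatMap (fun i => (List.range (c.1 + 1)).flatMap (fun j =>
    (cellT (decide (i < c.2.length)) (decide (j < c.1)) (c.sc i j)).map (outT c.1 i j)))

theorem barsD_eq (c : MeshCode) : barsD c =
    (barsOf c).map (fun b => (b.1, (Nat.digits 2 b.2.1, Nat.digits 2 b.2.2))) := by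
  unfold barsD barsOf barList
  rw [List.map_flatMap, List.map_flatMap]
  refine List.flatMap_congr (fun i _ => ?_)
  rw [List.map_flatMap, List.map_flatMap]
  refine List.flatMap_congr (fun j _ => ?_)
  rw [List.map_map, List.map_map]
  rfl

theorem pt_barsD {c : α → MeshCode} (hc : PT c) : PT (fun x => barsD (c x)) := by
  refine PT.flatMap (f := fun x => List.range ((c x).2.length + 1))
    (g := fun x i => (List.range ((c x).1 + 1)).flatMap (fun j =>
    (cellT (decide (i < (c x).2.length)) (decide (j < (c x).1)) ((c x).sc i j)).map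
      (outT (c x).1 i j))) (hc.snd'.length.addConst 1).range ?_
  refine PT.flatMap (f := fun y : α × ℕ => List.range ((c y.1).1 + 1))
    (g := fun y j => (cellT (decide (y.2 < (c y.1).2.length)) (decide (j < (c y.1).1))
      ((c y.1).sc y.2 j)).map (outT (c y.1).1 y.2 j)) (((hc.comp PT.fst).fst'.addConst 1).range) ?_
  have hc' : PT (fun z : (α × ℕ) × ℕ => c z.1.1) := hc.comp PT.fst.fst'
  exact pt_cell hc'.fst' hc'.snd'.length PT.fst.snd' PT.snd (pt_con hc' PT.fst.snd' PT.snd)

/-- the code of a quantified Boolean formula is the code of the toolkit -/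
theorem code_qbf (I : QBF) : TQBF.enc I = code I := by
  have hb : ∀ b : Bool, codeBool b = code b := by intro b; cases b <;> rfl
  have hl : ∀ l : Lit, codeLit l = code l := codePair_eq codeNat_eq hb
  exact codePair_eq (codeList_eq hb) (codeList_eq (codePair_eq hl (codePair_eq hl hl))) I

theorem codeBin_eq (n : ℕ) : codeBin n = code (Nat.digits 2 n) := codeList_eq codeNat_eq _

/-- The code of a list of bars. -/
theorem code_bars (l : LinkCode) :
    codeList (codePair (codePair codeNat codeNat) (codePair codeBin codeBin)) l =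
      code (l.map (fun b => (b.1, (Nat.digits 2 b.2.1, Nat.digits 2 b.2.2)))) := by
  induction l with
  | nil => rfl
  | cons b l ih =>
    rw [List.map_cons, codeList, ih]
    have h1 : codePair (codePair codeNat codeNat) (codePair codeBin codeBin) b =
        code ((b.1, (Nat.digits 2 b.2.1, Nat.digits 2 b.2.2)) : (ℕ × ℕ) × (List ℕ × List ℕ)) := by
      rw [← codePair_eq (c := codePair codeNat codeNat)
        (c' := codePair (codeList codeNat) (codeList codeNat))
        (codePair_eq codeNat_eq codeNat_eq)
        (codePair_eq (codeList_eq codeNat_eq) (codeList_eq codeNat_eq))]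
      rfl
    rw [h1]
    rfl

theorem exists_barsOf : ∃ f : QBF → LinkCode,
    Nonempty (Turing.TM2ComputableInPolyTime TQBF.enc
      (codeList (codePair (codePair codeNat codeNat) (codePair codeBin codeBin))) f) ∧
    ∀ I, (f I).Valid ∧ ∀ a b n d, ((a, b), (n, d)) ∈ f I ↔
      d = 1 ∧ ∃ u v, Bar (meshOf (selOf (relOf I))) u v n ∧
        a = label (selOf (relOf I)).1 u ∧ b = label (selOf (relOf I)).1 v := by
  refine ⟨fun I => barsOf (selOf (relOf I)), ?_, fun I => ⟨barsOf_valid _, fun a b n d => ?_⟩⟩
  · obtain ⟨K, _, _, P, k₀, T, h⟩ : PT (fun I : QBF => barsD (selOf (relOf I))) :=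
      pt_barsD (pt_selOf (pt_relOf PT.id))
    refine computable_of_run _ _ _ P k₀ T (fun I => ?_)
    obtain ⟨t, h1, h2⟩ := h I
    refine ⟨t, ?_, ?_⟩
    · rw [code_qbf]
      exact h1
    · rw [code_qbf, code_bars, ← barsD_eq]
      exact h2
  · unfold barsOf
    rw [List.mem_map]
    constructor
    · rintro ⟨⟨⟨u, v⟩, m⟩, hx, h⟩
      simp only [Prod.mk.injEq] at h
      obtain ⟨⟨rfl, rfl⟩, rfl, rfl⟩ := h
      exact ⟨rfl, u, v, (mem_barList _ _ _ _).1 hx, rfl, rfl⟩
    · rintro ⟨rfl, u, v, hB, rfl, rfl⟩
      exact ⟨((u, v), n), (mem_barList _ _ _ _).2 hB, rfl⟩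

end LockPl
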