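import Pool.Agent.Lib.MP_0f8b55_lc.Defs
import Mathlib.Combinatorics.SimpleGraph.Paths
import Mathlib.Analysis.Convex.Segment
import Mathlib.Analysis.Complex.Basic
import Mathlib.Topology.Connected.PathConnected

set_option autoImplicit false

/-!
# Locked linkages in the plane, and quantified Boolean formulas

All definitions used in the statement of the result are in this file, except `Problem`, `Reduces`
and the codes of numbers, pairs and lists, which are in `Pool.Agent.Lib.MP_0f8b55_lc.Defs`.
The Euclidean plane is `ℂ`.
-/

namespace LockPl

open Pool.Agent.Lib.MP_0f8b55_lc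

/-! ### Linkages in the plane -/

/-- A linkage: a finite graph with a positive rational length assigned to each edge (bar). -/
structure Linkage where
  /-- the vertices -/
  V : Type
  /-- there are finitely many vertices -/
  fin : Finite V
  /-- the underlying graph; its edges are the bars -/
  graph : SimpleGraph V
  /-- the lengths of the bars (the value is irrelevant for non-adjacent vertices) -/
  len : V → V → ℚ
  /-- the length does not depend on the orientation of the bar -/
  len_symm : ∀ u v, len u v = len v u
  /-- the lengths of the bars are positive -/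
  len_pos : ∀ u v, graph.Adj u v → 0 < len u v

/-- `p` draws the graph `G` without crossings: two different edges meet only at a shared
endpoint. -/
def NonCrossing {V : Type} (G : SimpleGraph V) (p : V → ℂ) : Prop :=
  ∀ u v x y, G.Adj u v → G.Adj x y → s(u, v) ≠ s(x, y) →
    ∀ z, z ∈ segment ℝ (p u) (p v) → z ∈ segment ℝ (p x) (p y) →
      ∃ w, (w = u ∨ w = v) ∧ (w = x ∨ w = y) ∧ z = p w

/-- `p` is a configuration of `L` in the plane: every bar has its prescribed length, and two
different bars meet only at a shared endpoint. -/
def Linkage.IsConfig (L : Linkage) (p : L.V → ℂ) : Prop :=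
  (∀ u v, L.graph.Adj u v → dist (p u) (p v) = (L.len u v : ℝ)) ∧ NonCrossing L.graph p

/-- The configuration space in the plane. -/
def Linkage.configSpace (L : Linkage) : Set (L.V → ℂ) := {p | L.IsConfig p}

/-- Twice the signed area of the polygon into which `p` maps a closed walk (the shoelace formula):
the sum of the `x y' - y x'` over its edges from `(x, y)` to `(x', y')`. For a cycle drawn without
crossings it is positive if the cycle is traversed counterclockwise, negative if clockwise. -/
noncomputable def area {V : Type} {G : SimpleGraph V} (p : V → ℂ) {u : V} (c : G.Walk u u) : ℝ :=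
  (c.darts.map (fun d => (p d.fst).re * (p d.snd).im - (p d.fst).im * (p d.snd).re)).sum

/-- `p` and `q` give every cycle of `G` the same orientation. -/
def SameOrientation {V : Type} (G : SimpleGraph V) (p q : V → ℂ) : Prop :=
  ∀ (u : V) (c : G.Walk u u), c.IsCycle → (0 < area p c ↔ 0 < area q c)

/-- `L` is locked in the plane: it has two configurations that give every cycle the same
orientation but are not joined by a motion (a continuous path of configurations). -/
def Linkage.Locked (L : Linkage) : Prop :=
  ∃ p q, L.IsConfig p ∧ L.IsConfig q ∧ SameOrientation L.graph p q ∧ ¬ JoinedIn L.configSpace p q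

/-! ### The decision problem -/

/-- A list of bars `((u, v), (a, b))`: the bar joins the vertices `u` and `v` and has length
`a / b`. -/
abbrev LinkCode : Type := List ((ℕ × ℕ) × (ℕ × ℕ))

/-- A list of bars is valid if every bar joins two different vertices and has positive numerator and
denominator, and no pair of vertices is joined by two bars of the list. -/
def LinkCode.Valid (c : LinkCode) : Prop :=
  (∀ b ∈ c, b.1.1 ≠ b.1.2 ∧ 0 < b.2.1 ∧ 0 < b.2.2) ∧
  (c.map (fun b => s(b.1.1, b.1.2))).Nodup

/-- The vertices: the numbers that occur as an endpoint of a bar. -/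
def LinkCode.Vert (c : LinkCode) : Type := {v : ℕ // ∃ b ∈ c, v = b.1.1 ∨ v = b.1.2}

/-- The length of the bar joining `u` and `v`. -/
def LinkCode.length (c : LinkCode) (u v : ℕ) : ℚ :=
  match c.find? (fun b => decide (s(b.1.1, b.1.2) = s(u, v))) with
  | some b => (b.2.1 : ℚ) / b.2.2
  | none => 1

theorem LinkCode.finite_vert (c : LinkCode) : Finite c.Vert := by
  have h : {v : ℕ | ∃ b ∈ c, v = b.1.1 ∨ v = b.1.2}.Finite := by
    apply ((c.map (fun b => b.1.1)).toFinset ∪ (c.map (fun b => b.1.2)).toFinset).finite_toSet.subset
    rintro v ⟨b, hb, h⟩
    simp only [Finset.coe_union, List.coe_toFinset, Set.mem_union, Set.mem_setOf_eq, List.mem_map]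
    rcases h with h | h
    · exact Or.inl ⟨b, hb, h.symm⟩
    · exact Or.inr ⟨b, hb, h.symm⟩
  exact h.to_subtype

theorem LinkCode.length_symm (c : LinkCode) (u v : ℕ) : c.length u v = c.length v u := by
  unfold LinkCode.length
  rw [Sym2.eq_swap]

/-- The graph of a list of bars. -/
def LinkCode.graph (c : LinkCode) : SimpleGraph c.Vert :=
  SimpleGraph.fromRel (fun u v => ∃ b ∈ c, s(b.1.1, b.1.2) = s(u.1, v.1))

theorem LinkCode.length_pos (c : LinkCode) (hc : c.Valid) (u v : c.Vert) (h : c.graph.Adj u v) :
    0 < c.length u.1 v.1 := by
  have h1 : ∃ b ∈ c, s(b.1.1, b.1.2) = s(u.1, v.1) := by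
    rcases (SimpleGraph.fromRel_adj _ _ _).1 h with ⟨-, h | ⟨b, hb, h⟩⟩
    · exact h
    · exact ⟨b, hb, by rw [h, Sym2.eq_swap]⟩
  obtain ⟨b, hb, h1⟩ := h1
  unfold LinkCode.length
  cases hf : c.find? (fun b => decide (s(b.1.1, b.1.2) = s(u.1, v.1))) with
  | none =>
    rw [List.find?_eq_none] at hf
    exact absurd (decide_eq_true h1) (hf b hb)
  | some b' =>
    have hb' := List.mem_of_find?_eq_some hf
    obtain ⟨-, h2, h3⟩ := hc.1 b' hb'
    show (0 : ℚ) < (b'.2.1 : ℚ) / b'.2.2
    positivity

/-- The linkage given by a valid list of bars. -/
def LinkCode.linkage (c : LinkCode) (hc : c.Valid) : Linkage where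
  V := c.Vert
  fin := c.finite_vert
  graph := c.graph
  len := fun u v => c.length u.1 v.1
  len_symm := fun u v => c.length_symm u.1 v.1
  len_pos := c.length_pos hc

/-- The binary code of a natural number. -/
def codeBin (n : ℕ) : List Bool := codeList codeNat (Nat.digits 2 n)

theorem selfDelimiting_bin : SelfDelimiting codeBin := by
  intro a b s t h
  obtain ⟨h1, h2⟩ := selfDelimiting_nat.list _ _ _ _ h
  exact ⟨Nat.digits_inj_iff.1 h1, h2⟩

/-- The problem: is a given linkage locked in the plane? The lengths are given as quotients of two
natural numbers in binary. -/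
def LOCKED : Problem where
  Inst := {c : LinkCode // c.Valid}
  Letter := Bool
  fin := inferInstance
  enc := fun c => codeList (codePair (codePair codeNat codeNat) (codePair codeBin codeBin)) c.1
  inj := fun _ _ h => Subtype.ext
    (((selfDelimiting_nat.pair selfDelimiting_nat).pair
      (selfDelimiting_bin.pair selfDelimiting_bin)).list.injective h)
  Yes := fun c => (c.1.linkage c.2).Locked

/-! ### Quantified Boolean formulas -/

/-- A literal `(i, b)`: the variable `x_i` has the value `b`. -/
abbrev Lit : Type := ℕ × Bool

/-- A prenex quantified Boolean formula: the prefix is the list of the quantifiers of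
`x_0, x_1, …` (`true` for `∀`, `false` for `∃`), the matrix a list of clauses of three literals. -/
abbrev QBF : Type := List Bool × List (Lit × (Lit × Lit))

/-- The assignment `x` satisfies the matrix. -/
def MatrixHolds (cl : List (Lit × (Lit × Lit))) (x : ℕ → Bool) : Prop :=
  ∀ c ∈ cl, x c.1.1 = c.1.2 ∨ x c.2.1.1 = c.2.1.2 ∨ x c.2.2.1 = c.2.2.2

/-- Truth of the formula whose prefix quantifies the variables `x_k, x_{k+1}, …`, for the values
`x` of the other variables. -/
def QTrue (cl : List (Lit × (Lit × Lit))) : List Bool → ℕ → (ℕ → Bool) → Prop
  | [], _, x => MatrixHolds cl x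
  | true :: q, k, x => ∀ b : Bool, QTrue cl q (k + 1) (Function.update x k b)
  | false :: q, k, x => ∃ b : Bool, QTrue cl q (k + 1) (Function.update x k b)

/-- The code of a truth value. -/
def codeBool (b : Bool) : List Bool := codeNat b.toNat

theorem selfDelimiting_bool : SelfDelimiting codeBool := by
  intro a b s t h
  obtain ⟨h1, h2⟩ := selfDelimiting_nat _ _ _ _ h
  refine ⟨?_, h2⟩
  cases a <;> cases b <;> simp_all

/-- The code of a literal. -/
def codeLit : Lit → List Bool := codePair codeNat codeBool

theorem selfDelimiting_lit : SelfDelimiting codeLit := selfDelimiting_nat.pair selfDelimiting_bool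

/-- True quantified Boolean formulas (variables that are not quantified have the value `false`). -/
def TQBF : Problem where
  Inst := QBF
  Letter := Bool
  fin := inferInstance
  enc := codePair (codeList codeBool) (codeList (codePair codeLit (codePair codeLit codeLit)))
  inj := (selfDelimiting_bool.list.pair
    (selfDelimiting_lit.pair (selfDelimiting_lit.pair selfDelimiting_lit)).list).injective
  Yes := fun I => QTrue I.2 I.1 0 (fun _ => false)

/-- A problem is `PSPACE`-hard if the `PSPACE`-complete problem `TQBF` reduces to it by a polynomial
time many-one reduction. -/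
def PSPACEHard (P : Problem) : Prop := Reduces TQBF P

end LockPl
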