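import Pool.Agent.Lib.MP_14e06f_lc.Plane.Mesh
import Pool.Agent.Lib.MP_14e06f_lc.Plane.Problem

set_option autoImplicit false

/-!
# From quantified Boolean formulas to selector systems: the maps
-/

namespace LockPl

/-! ### Codes of selector systems -/

/-- A code of a selector system: the number of columns and the list of rows; a row is a list of
constraints `(column, (position, value))`, the position being `0` (`neg`), `1` (`zero`) or `2`
(`pos`). -/
abbrev MeshCode : Type := ℕ × List (List (ℕ × (ℕ × Bool)))

/-- the position with a given number -/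
def posOf : ℕ → SignType
  | 0 => -1
  | 2 => 1
  | _ => 0

/-- The constraint of the hole `(i, j)`. -/
def MeshCode.con (c : MeshCode) (i j : ℕ) : Option (ℕ × Bool) :=
  (((c.2.getD i []).filter (fun e => decide (e.1 = j))).map (fun e => e.2)).head?

/-- The selector system of a code. -/
def meshOf (c : MeshCode) : Mesh where
  N := c.2.length
  M := c.1
  C := fun i j => (c.con i j).map (fun e => (posOf e.1, e.2))

/-! ### Relations given by constraints in disjunctive normal form -/

/-- `(m, (K, D))`: `m` node bits; `K` variables, namely the bits `0, …, m-1` of the first node, the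
bits `m, …, 2m-1` of the second node, and auxiliary variables; `D` is a list of constraints, each a
list of cubes, each a list of literals. -/
abbrev DSys : Type := ℕ × (ℕ × List (List (List (ℕ × Bool))))

/-- every constraint has a satisfied cube -/
def DSys.Holds (S : DSys) (g : ℕ → Bool) : Prop :=
  ∀ c ∈ S.2.2, ∃ q ∈ c, ∀ l ∈ q, g l.1 = l.2

/-- the relation on bit vectors of length `m` -/
def DSys.E (S : DSys) (x y : Fin S.1 → Bool) : Prop :=
  ∃ g : ℕ → Bool, (∀ i : Fin S.1, g i = x i) ∧ (∀ i : Fin S.1, g (S.1 + i) = y i) ∧ S.Holds g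

/-- well-formedness -/
def DSys.WF (S : DSys) : Prop :=
  2 * S.1 ≤ S.2.1 ∧ ∀ c ∈ S.2.2, 2 ≤ c.length ∧ ∀ q ∈ c,
    (q.map Prod.fst).Nodup ∧ ∀ l ∈ q, l.1 < S.2.1

/-- the graph of the relation is connected -/
def DSys.Connected (S : DSys) : Prop := ∀ x y : Fin S.1 → Bool, Relation.EqvGen S.E x y

/-! ### The selector system of a relation -/

/-- the cubes of a constraint with the flags `first`, `last` -/
def flagged (c : List (List (ℕ × Bool))) : List ((Bool × Bool) × List (ℕ × Bool)) :=
  c.zipIdx.map (fun p => ((decide (p.2 = 0), decide (p.2 + 1 = c.length)), p.1))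

/-- all cubes with their flags -/
def DSys.cubes (S : DSys) : List ((Bool × Bool) × List (ℕ × Bool)) := S.2.2.flatMap flagged

/-- The row of the cube with global index `g`. Column `K` is `e`, the auxiliary columns of the cubes
start at `Z = K + 3 + 2m`. Position `neg`: the cube; `pos`: the next cube is used (or `e` is off, for
the last cube); `zero`: the previous link is off (or `e` is off, for the first cube). -/
def cubeRow (K Z : ℕ) (p : ((Bool × Bool) × List (ℕ × Bool)) × ℕ) : List (ℕ × (ℕ × Bool)) :=
  (if p.1.1.2 then (K, (2, false)) else (Z + p.2, (2, true))) ::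
  (if p.1.1.1 then (K, (1, false)) else (Z + (p.2 - 1), (1, false))) ::
  p.1.2.map (fun l => (l.1, (0, l.2)))

/-- The two rows that lock column `z` with the help of column `b`, unless all of `U` holds. -/
def lockRows (z b : ℕ) (U : List (ℕ × Bool)) : List (List (ℕ × (ℕ × Bool))) :=
  [(z, (0, false)) :: (b, (2, true)) :: U.map (fun l => (l.1, (1, l.2))),
   (b, (0, false)) :: (z, (2, true)) :: U.map (fun l => (l.1, (1, l.2)))]

/-- The selector system of a relation. Columns: the variables `0, …, K-1`; `K` is `e` (evaluation is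
on); `K+1` is `h` (the state represents the second node); `K+2` the help column of the lock of `h`;
`K+3+i` (`i < 2m`) the help column of the lock of node bit `i`; then the links of the cubes.
The bits of the first node are unlocked iff `h = 1`, `e = 0`; those of the second node iff `h = 0`,
`e = 0`; `h` is unlocked iff `e = 1`. -/
def selOf (S : DSys) : MeshCode :=
  (S.2.1 + 3 + 2 * S.1 + S.cubes.length,
   lockRows (S.2.1 + 1) (S.2.1 + 2) [(S.2.1, true)] ++
   (List.range S.1).flatMap
     (fun i => lockRows i (S.2.1 + 3 + i) [(S.2.1 + 1, true), (S.2.1, false)]) ++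
   (List.range S.1).flatMap
     (fun i => lockRows (S.1 + i) (S.2.1 + 3 + (S.1 + i)) [(S.2.1 + 1, false), (S.2.1, false)]) ++
   S.cubes.zipIdx.map (cubeRow S.2.1 (S.2.1 + 3 + 2 * S.1)))

/-! ### The relation of a quantified Boolean formula

Node bits (`n` variables): `0` hub flag `f`; `1` hub value `v`; `2+k` the bit `x_k`; `2+n+k` the
stored value `R_k` of the first subtree at level `k`. `m = 2 + 2n`. Second node: the same plus `m`.
Auxiliary variables from `2m` on: `2m` a variable with value `false`; `2m+1 … 2m+5` the modes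
(equal, step, finish, hub, start); `2m+6+k` (`k ≤ n`) the carry `c_k`; `2m+7+n+k` (`k ≤ n`) the
values `w_k`; then six variables for every clause `t`, from `G = 2m+8+2n` on: `G+6t, G+6t+1, G+6t+2`
the values of its literals, `G+6t+3` the value of the first two, `G+6t+4` the value of the clause,
`G+6t+5` the value of the conjunction of the clauses `0 … t`. -/

/-- `z = a ∧ b` -/
def gAnd (z a b : ℕ) : List (List (ℕ × Bool)) :=
  [[(z, true), (a, true), (b, true)], [(z, false), (a, false)], [(z, false), (b, false)]]

/-- `z = a ∨ b` -/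
def gOr (z a b : ℕ) : List (List (ℕ × Bool)) :=
  [[(z, false), (a, false), (b, false)], [(z, true), (a, true)], [(z, true), (b, true)]]

/-- `z = a` -/
def gEq (z a : ℕ) : List (List (ℕ × Bool)) :=
  [[(z, true), (a, true)], [(z, false), (a, false)]]

/-- `z` has the value `b` -/
def gConst (z : ℕ) (b : Bool) : List (List (ℕ × Bool)) := [[(z, b)], [(z, b)]]

/-- `z` is true iff the literal `l` holds; `zero` is a variable with value `false` used for
unquantified variables -/
def gLit (n zero z : ℕ) (l : ℕ × Bool) : List (List (ℕ × Bool)) :=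
  [[(z, true), (if l.1 < n then 2 + l.1 else zero, l.2)],
   [(z, false), (if l.1 < n then 2 + l.1 else zero, !l.2)]]

/-- if mode variable `μ` is on then one of the cubes holds -/
def gIf (μ : ℕ) (c : List (List (ℕ × Bool))) : List (List (ℕ × Bool)) := [(μ, false)] :: c

/-- the constraints of clause number `t` -/
def clauseD (n m : ℕ) (p : (Lit × (Lit × Lit)) × ℕ) : List (List (List (ℕ × Bool))) :=
  [gLit n (2 * m) (2 * m + 8 + 2 * n + 6 * p.2) p.1.1,
   gLit n (2 * m) (2 * m + 8 + 2 * n + 6 * p.2 + 1) p.1.2.1,
   gLit n (2 * m) (2 * m + 8 + 2 * n + 6 * p.2 + 2) p.1.2.2,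
   gOr (2 * m + 8 + 2 * n + 6 * p.2 + 3) (2 * m + 8 + 2 * n + 6 * p.2)
     (2 * m + 8 + 2 * n + 6 * p.2 + 1),
   gOr (2 * m + 8 + 2 * n + 6 * p.2 + 4) (2 * m + 8 + 2 * n + 6 * p.2 + 3)
     (2 * m + 8 + 2 * n + 6 * p.2 + 2),
   if p.2 = 0 then gEq (2 * m + 8 + 2 * n + 6 * p.2 + 5) (2 * m + 8 + 2 * n + 6 * p.2 + 4)
   else gAnd (2 * m + 8 + 2 * n + 6 * p.2 + 5) (2 * m + 8 + 2 * n + 6 * p.2 + 4)
     (2 * m + 8 + 2 * n + 6 * p.2 - 1)]

/-- the constraints of level `k` with quantifier `q` (`true` for `∀`) -/
def levelD (n m : ℕ) (p : Bool × ℕ) : List (List (List (ℕ × Bool))) :=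
  [ -- carry: c_k = c_{k+1} ∧ x_k
   gAnd (2 * m + 6 + p.2) (2 * m + 6 + p.2 + 1) (2 + p.2),
   -- value: w_k = R_k ∧ w_{k+1} or R_k ∨ w_{k+1}
   if p.1 then gAnd (2 * m + 7 + n + p.2) (2 * m + 7 + n + p.2 + 1) (2 + n + p.2)
   else gOr (2 * m + 7 + n + p.2) (2 * m + 7 + n + p.2 + 1) (2 + n + p.2),
   -- step mode
   gIf (2 * m + 2)
     [[(2 * m + 6 + p.2 + 1, false), (2 + p.2, false), (m + 2 + p.2, false),
        (2 + n + p.2, false), (m + 2 + n + p.2, false)],
      [(2 * m + 6 + p.2 + 1, false), (2 + p.2, false), (m + 2 + p.2, false),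
        (2 + n + p.2, true), (m + 2 + n + p.2, true)],
      [(2 * m + 6 + p.2 + 1, false), (2 + p.2, true), (m + 2 + p.2, true),
        (2 + n + p.2, false), (m + 2 + n + p.2, false)],
      [(2 * m + 6 + p.2 + 1, false), (2 + p.2, true), (m + 2 + p.2, true),
        (2 + n + p.2, true), (m + 2 + n + p.2, true)],
      [(2 * m + 6 + p.2 + 1, true), (2 + p.2, false), (m + 2 + p.2, true),
        (2 * m + 7 + n + p.2 + 1, false), (m + 2 + n + p.2, false)],
      [(2 * m + 6 + p.2 + 1, true), (2 + p.2, false), (m + 2 + p.2, true),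
        (2 * m + 7 + n + p.2 + 1, true), (m + 2 + n + p.2, true)],
      [(2 * m + 6 + p.2 + 1, true), (2 + p.2, true), (m + 2 + p.2, false)]],
   -- start mode
   gIf (2 * m + 5) [[(2 + p.2, false)]]]

/-- the remaining constraints; `v` is the variable that holds the value of the matrix (or `none` if
there are no clauses) -/
def globalD (n m : ℕ) (v : Option ℕ) : List (List (List (ℕ × Bool))) :=
  [gConst (2 * m) false,
   -- some mode is on
   [[(2 * m + 1, true)], [(2 * m + 2, true)], [(2 * m + 3, true)], [(2 * m + 4, true)],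
     [(2 * m + 5, true)]],
   -- c_n = 1, w_n = value of the matrix
   gConst (2 * m + 6 + n) true,
   match v with
   | none => gConst (2 * m + 7 + n + n) true
   | some g => gEq (2 * m + 7 + n + n) g,
   -- step: both nodes are no hubs, and c_0 = 0
   gIf (2 * m + 2) [[(0, false), (m, false), (2 * m + 6, false)]],
   -- finish: from a state with c_0 = 1 to the hub with value w_0
   gIf (2 * m + 3)
     [[(0, false), (m, true), (2 * m + 6, true), (2 * m + 7 + n, false), (m + 1, false)],
      [(0, false), (m, true), (2 * m + 6, true), (2 * m + 7 + n, true), (m + 1, true)]],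
   -- hub: two hub nodes with the same value
   gIf (2 * m + 4)
     [[(0, true), (m, true), (1, false), (m + 1, false)],
      [(0, true), (m, true), (1, true), (m + 1, true)]],
   -- start: from the initial state to the hub with value 1
   gIf (2 * m + 5) [[(0, false), (m, true), (m + 1, true)]]]

/-- the constraint of the mode equal for node bit `i` -/
def eqD (m i : ℕ) : List (List (ℕ × Bool)) :=
  gIf (2 * m + 1) [[(i, false), (m + i, false)], [(i, true), (m + i, true)]]

/-- The relation of a quantified Boolean formula. -/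
def relOf (I : QBF) : DSys :=
  (2 + 2 * I.1.length, (2 * (2 + 2 * I.1.length) + 8 + 2 * I.1.length + 6 * I.2.length,
   globalD I.1.length (2 + 2 * I.1.length)
     (if I.2.length = 0 then none
      else some (2 * (2 + 2 * I.1.length) + 8 + 2 * I.1.length + 6 * I.2.length - 1)) ++
   (List.range (2 + 2 * I.1.length)).map (eqD (2 + 2 * I.1.length)) ++
   I.1.zipIdx.flatMap (levelD I.1.length (2 + 2 * I.1.length)) ++
   I.2.zipIdx.flatMap (clauseD I.1.length (2 + 2 * I.1.length))))

end LockPl
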