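import Pool.Agent.Lib.MP_14e06f_lc.Plane.Comb
import Pool.Agent.Lib.MP_0f8b55_lc.Code
import Pool.Agent.Lib.PolyTime

set_option autoImplicit false

/-!
# The maps from formulas to relations and selector systems are computed in polynomial time
-/

namespace LockPl

open Pool.Agent.Lib.MP_0f8b55_lc Pool.Agent.Lib.PolyTime

variable {α : Type} [Enc α]

/-- literals -/
theorem pt_lit {z : α → ℕ} (b : Bool) (hz : PT z) : PT (fun a => (z a, b)) := hz.pair (PT.const b)

theorem pt_gAnd {z a b : α → ℕ} (hz : PT z) (ha : PT a) (hb : PT b) :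
    PT (fun x => gAnd (z x) (a x) (b x)) :=
  PT.cons (PT.cons (pt_lit true hz) (PT.cons (pt_lit true ha) (PT.cons (pt_lit true hb)
    (PT.const [])))) (PT.cons (PT.cons (pt_lit false hz) (PT.cons (pt_lit false ha) (PT.const [])))
    (PT.cons (PT.cons (pt_lit false hz) (PT.cons (pt_lit false hb) (PT.const []))) (PT.const [])))

theorem pt_gOr {z a b : α → ℕ} (hz : PT z) (ha : PT a) (hb : PT b) :
    PT (fun x => gOr (z x) (a x) (b x)) :=
  PT.cons (PT.cons (pt_lit false hz) (PT.cons (pt_lit false ha) (PT.cons (pt_lit false hb)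
    (PT.const [])))) (PT.cons (PT.cons (pt_lit true hz) (PT.cons (pt_lit true ha) (PT.const [])))
    (PT.cons (PT.cons (pt_lit true hz) (PT.cons (pt_lit true hb) (PT.const []))) (PT.const [])))

theorem pt_gEq {z a : α → ℕ} (hz : PT z) (ha : PT a) : PT (fun x => gEq (z x) (a x)) :=
  PT.cons (PT.cons (pt_lit true hz) (PT.cons (pt_lit true ha) (PT.const [])))
    (PT.cons (PT.cons (pt_lit false hz) (PT.cons (pt_lit false ha) (PT.const []))) (PT.const []))

theorem pt_gConst {z : α → ℕ} (b : Bool) (hz : PT z) : PT (fun x => gConst (z x) b) :=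
  PT.cons (PT.cons (pt_lit b hz) (PT.const [])) (PT.cons (PT.cons (pt_lit b hz) (PT.const []))
    (PT.const []))

theorem pt_gLit {n o z : α → ℕ} {l : α → ℕ × Bool} (hn : PT n) (ho : PT o) (hz : PT z)
    (hl : PT l) : PT (fun x => gLit (n x) (o x) (z x) (l x)) := by
  have h1 : PT (fun x => if (l x).1 < n x then 2 + (l x).1 else o x) :=
    PT.ite (c := fun x => (l x).1 < n x) (PT.lt hl.fst' hn) ((PT.const 2).add hl.fst') ho
  exact PT.cons (PT.cons (pt_lit true hz) (PT.cons (h1.pair hl.snd') (PT.const [])))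
    (PT.cons (PT.cons (pt_lit false hz) (PT.cons (h1.pair hl.snd'.not) (PT.const [])))
      (PT.const []))

theorem pt_gIf {μ : α → ℕ} {c : α → List (List (ℕ × Bool))} (hμ : PT μ) (hc : PT c) :
    PT (fun x => gIf (μ x) (c x)) :=
  PT.cons (PT.cons (pt_lit false hμ) (PT.const [])) hc

theorem pt_clauseD {n m : α → ℕ} {p : α → (Lit × (Lit × Lit)) × ℕ} (hn : PT n) (hm : PT m)
    (hp : PT p) : PT (fun x => clauseD (n x) (m x) (p x)) := by
  have g0 : PT (fun x => 2 * m x + 8 + 2 * n x + 6 * (p x).2) :=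
    (((hm.mulConst 2).addConst 8).add (hn.mulConst 2)).add (hp.snd'.mulConst 6)
  have g1 := g0.addConst 1
  have g2 := g0.addConst 2
  have g3 := g0.addConst 3
  have g4 := g0.addConst 4
  have g5 := g0.addConst 5
  have z0 : PT (fun x => 2 * m x) := hm.mulConst 2
  exact PT.cons (pt_gLit hn z0 g0 hp.fst'.fst') (PT.cons (pt_gLit hn z0 g1 hp.fst'.snd'.fst')
    (PT.cons (pt_gLit hn z0 g2 hp.fst'.snd'.snd') (PT.cons (pt_gOr g3 g0 g1)
    (PT.cons (pt_gOr g4 g3 g2) (PT.cons (PT.ite (c := fun x => (p x).2 = 0)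
      (PT.eq hp.snd' (PT.const 0)) (pt_gEq g5 g4) (pt_gAnd g5 g4 g0.pred)) (PT.const []))))))

theorem pt_levelD {n m : α → ℕ} {p : α → Bool × ℕ} (hn : PT n) (hm : PT m)
    (hp : PT p) : PT (fun x => levelD (n x) (m x) (p x)) := by
  have k := hp.snd'
  have c0 : PT (fun x => 2 * m x + 6 + (p x).2) := ((hm.mulConst 2).addConst 6).add k
  have c1 := c0.addConst 1
  have w0 : PT (fun x => 2 * m x + 7 + n x + (p x).2) := (((hm.mulConst 2).addConst 7).add hn).add k
  have w1 := w0.addConst 1
  have x0 : PT (fun x => 2 + (p x).2) := (PT.const 2).add k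
  have r0 : PT (fun x => 2 + n x + (p x).2) := ((PT.const 2).add hn).add k
  have x1 : PT (fun x => m x + 2 + (p x).2) := (hm.addConst 2).add k
  have r1 : PT (fun x => m x + 2 + n x + (p x).2) := ((hm.addConst 2).add hn).add k
  have μ2 : PT (fun x => 2 * m x + 2) := (hm.mulConst 2).addConst 2
  have μ5 : PT (fun x => 2 * m x + 5) := (hm.mulConst 2).addConst 5
  have q5 : ∀ {a b c d e : α → ℕ} (va vb vc vd ve : Bool), PT a → PT b → PT c → PT d → PT e →
      PT (fun x => [(a x, va), (b x, vb), (c x, vc), (d x, vd), (e x, ve)]) :=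
    fun va vb vc vd ve ha hb hc hd he => PT.cons (pt_lit va ha) (PT.cons (pt_lit vb hb)
      (PT.cons (pt_lit vc hc) (PT.cons (pt_lit vd hd) (PT.cons (pt_lit ve he) (PT.const [])))))
  exact PT.cons (pt_gAnd c0 c1 x0) (PT.cons (PT.ite (c := fun x => (p x).1 = true)
      (hp.fst'.congr (fun a => by simp)) (pt_gAnd w0 w1 r0) (pt_gOr w0 w1 r0))
    (PT.cons (pt_gIf μ2 (PT.cons (q5 _ _ _ _ _ c1 x0 x1 r0 r1)
      (PT.cons (q5 _ _ _ _ _ c1 x0 x1 r0 r1) (PT.cons (q5 _ _ _ _ _ c1 x0 x1 r0 r1)
      (PT.cons (q5 _ _ _ _ _ c1 x0 x1 r0 r1) (PT.cons (q5 _ _ _ _ _ c1 x0 x1 w1 r1)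
      (PT.cons (q5 _ _ _ _ _ c1 x0 x1 w1 r1) (PT.cons (PT.cons (pt_lit _ c1)
        (PT.cons (pt_lit _ x0) (PT.cons (pt_lit _ x1) (PT.const [])))) (PT.const [])))))))))
    (PT.cons (pt_gIf μ5 (PT.cons (PT.cons (pt_lit _ x0) (PT.const [])) (PT.const [])))
      (PT.const []))))

theorem pt_globalD {n m : α → ℕ} {v : α → Option ℕ} (hn : PT n) (hm : PT m)
    (hv : PT v) : PT (fun x => globalD (n x) (m x) (v x)) := by
  have z0 : PT (fun x => 2 * m x) := hm.mulConst 2
  have z1 := z0.addConst 1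
  have z2 := z0.addConst 2
  have z3 := z0.addConst 3
  have z4 := z0.addConst 4
  have z5 := z0.addConst 5
  have z6 := z0.addConst 6
  have z6n : PT (fun x => 2 * m x + 6 + n x) := z6.add hn
  have z7n : PT (fun x => 2 * m x + 7 + n x) := (z0.addConst 7).add hn
  have z7nn : PT (fun x => 2 * m x + 7 + n x + n x) := z7n.add hn
  have m1 := hm.addConst 1
  have k0 : PT (fun _ : α => 0) := PT.const 0
  have k1 : PT (fun _ : α => 1) := PT.const 1
  have hmatch := PT.optCases (f := v) (g := fun x => gConst (2 * m x + 7 + n x + n x) true)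
      (h := fun x g => gEq (2 * m x + 7 + n x + n x) g) hv (pt_gConst true z7nn)
      (pt_gEq (z7nn.comp PT.fst) PT.snd)
  have one : ∀ {a : α → ℕ} (va : Bool), PT a → PT (fun x => [(a x, va)]) :=
    fun va ha => PT.cons (pt_lit va ha) (PT.const [])
  have q5 : ∀ {a b c d e : α → ℕ} (va vb vc vd ve : Bool), PT a → PT b → PT c → PT d → PT e →
      PT (fun x => [(a x, va), (b x, vb), (c x, vc), (d x, vd), (e x, ve)]) :=
    fun va vb vc vd ve ha hb hc hd he => PT.cons (pt_lit va ha) (PT.cons (pt_lit vb hb)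
      (PT.cons (pt_lit vc hc) (PT.cons (pt_lit vd hd) (PT.cons (pt_lit ve he) (PT.const [])))))
  have q4 : ∀ {a b c d : α → ℕ} (va vb vc vd : Bool), PT a → PT b → PT c → PT d →
      PT (fun x => [(a x, va), (b x, vb), (c x, vc), (d x, vd)]) :=
    fun va vb vc vd ha hb hc hd => PT.cons (pt_lit va ha) (PT.cons (pt_lit vb hb)
      (PT.cons (pt_lit vc hc) (PT.cons (pt_lit vd hd) (PT.const []))))
  have q3 : ∀ {a b c : α → ℕ} (va vb vc : Bool), PT a → PT b → PT c →
      PT (fun x => [(a x, va), (b x, vb), (c x, vc)]) :=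
    fun va vb vc ha hb hc => PT.cons (pt_lit va ha) (PT.cons (pt_lit vb hb)
      (PT.cons (pt_lit vc hc) (PT.const [])))
  refine PT.congr (PT.cons (pt_gConst false z0) (PT.cons (PT.cons (one true z1)
      (PT.cons (one true z2)
      (PT.cons (one true z3) (PT.cons (one true z4) (PT.cons (one true z5) (PT.const []))))))
    (PT.cons (pt_gConst true z6n) (PT.cons hmatch
    (PT.cons (pt_gIf z2 (PT.cons (q3 false false false k0 hm z6) (PT.const [])))
    (PT.cons (pt_gIf z3 (PT.cons (q5 false true true false false k0 hm z6 z7n m1)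
      (PT.cons (q5 false true true true true k0 hm z6 z7n m1) (PT.const []))))
    (PT.cons (pt_gIf z4 (PT.cons (q4 true true false false k0 hm k1 m1)
      (PT.cons (q4 true true true true k0 hm k1 m1) (PT.const []))))
    (PT.cons (pt_gIf z5 (PT.cons (q3 false true true k0 hm m1) (PT.const [])))
      (PT.const []))))))))) (fun x => ?_)
  unfold globalD
  cases v x <;> rfl

theorem pt_eqD {m i : α → ℕ} (hm : PT m) (hi : PT i) : PT (fun x => eqD (m x) (i x)) :=
  pt_gIf ((hm.mulConst 2).addConst 1) (PT.cons (PT.cons (pt_lit false hi)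
    (PT.cons (pt_lit false (hm.add hi)) (PT.const []))) (PT.cons (PT.cons (pt_lit true hi)
    (PT.cons (pt_lit true (hm.add hi)) (PT.const []))) (PT.const [])))

theorem pt_relOf {I : α → QBF} (hI : PT I) : PT (fun x => relOf (I x)) := by
  have hn : PT (fun x => (I x).1.length) := hI.fst'.length
  have hT : PT (fun x => (I x).2.length) := hI.snd'.length
  have hm : PT (fun x => 2 + 2 * (I x).1.length) := (PT.const 2).add (hn.mulConst 2)
  have hK : PT (fun x => 2 * (2 + 2 * (I x).1.length) + 8 + 2 * (I x).1.length +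
      6 * (I x).2.length) :=
    (((hm.mulConst 2).addConst 8).add (hn.mulConst 2)).add (hT.mulConst 6)
  have hv : PT (fun x => (if (I x).2.length = 0 then none
      else some (2 * (2 + 2 * (I x).1.length) + 8 + 2 * (I x).1.length +
        6 * (I x).2.length - 1) : Option ℕ)) :=
    PT.ite (c := fun x => (I x).2.length = 0) (PT.eq hT (PT.const 0)) (PT.const none)
      (PT.some hK.pred)
  have h1 := pt_globalD hn hm hv
  have h2 : PT (fun x => (List.range (2 + 2 * (I x).1.length)).map
      (eqD (2 + 2 * (I x).1.length))) :=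
    PT.map (f := fun x => List.range (2 + 2 * (I x).1.length))
      (g := fun x i => eqD (2 + 2 * (I x).1.length) i) hm.range
      (pt_eqD (hm.comp PT.fst) PT.snd)
  have h3 : PT (fun x => (I x).1.zipIdx.flatMap (levelD (I x).1.length
      (2 + 2 * (I x).1.length))) :=
    PT.flatMap (f := fun x => (I x).1.zipIdx)
      (g := fun x p => levelD (I x).1.length (2 + 2 * (I x).1.length) p) hI.fst'.zipIdx
      (pt_levelD (hn.comp PT.fst) (hm.comp PT.fst) PT.snd)
  have h4 : PT (fun x => (I x).2.zipIdx.flatMap (clauseD (I x).1.length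
      (2 + 2 * (I x).1.length))) :=
    PT.flatMap (f := fun x => (I x).2.zipIdx)
      (g := fun x p => clauseD (I x).1.length (2 + 2 * (I x).1.length) p) hI.snd'.zipIdx
      (pt_clauseD (hn.comp PT.fst) (hm.comp PT.fst) PT.snd)
  exact hm.pair (hK.pair (((h1.append h2).append h3).append h4))

theorem pt_flagged {c : α → List (List (ℕ × Bool))} (hc : PT c) : PT (fun x => flagged (c x)) := by
  refine PT.map (f := fun x => (c x).zipIdx)
    (g := fun x p => ((decide (p.2 = 0), decide (p.2 + 1 = (c x).length)), p.1)) hc.zipIdx ?_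
  exact ((PT.eq PT.snd.snd' (PT.const 0)).pair (PT.eq PT.snd.snd'.succ
    (hc.length.comp PT.fst))).pair PT.snd.fst'

theorem pt_cubes {S : α → DSys} (hS : PT S) : PT (fun x => (S x).cubes) :=
  PT.flatMap (f := fun x => (S x).2.2) (g := fun _ c => flagged c) hS.snd'.snd'
    (pt_flagged PT.snd)

theorem pt_cubeRow {K Z : α → ℕ} {p : α → ((Bool × Bool) × List (ℕ × Bool)) × ℕ} (hK : PT K)
    (hZ : PT Z) (hp : PT p) : PT (fun x => cubeRow (K x) (Z x) (p x)) := by
  have h1 : PT (fun x => if (p x).1.1.2 then (K x, ((2 : ℕ), false)) else (Z x + (p x).2, (2, true))) :=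
    PT.ite (c := fun x => (p x).1.1.2 = true) (hp.fst'.fst'.snd'.congr (fun a => by simp))
      (hK.pair (PT.const _)) ((hZ.add hp.snd').pair (PT.const _))
  have h2 : PT (fun x => if (p x).1.1.1 then (K x, ((1 : ℕ), false))
      else (Z x + ((p x).2 - 1), (1, false))) :=
    PT.ite (c := fun x => (p x).1.1.1 = true) (hp.fst'.fst'.fst'.congr (fun a => by simp))
      (hK.pair (PT.const _)) ((hZ.add hp.snd'.pred).pair (PT.const _))
  have h3 : PT (fun x => (p x).1.2.map (fun l => (l.1, ((0 : ℕ), l.2)))) :=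
    PT.map (f := fun x => (p x).1.2) (g := fun _ l => (l.1, ((0 : ℕ), l.2))) hp.fst'.snd'
      (PT.snd.fst'.pair ((PT.const 0).pair PT.snd.snd'))
  exact PT.cons h1 (PT.cons h2 h3)

theorem pt_lockRows {z b : α → ℕ} {U : α → List (ℕ × Bool)} (hz : PT z) (hb : PT b) (hU : PT U) :
    PT (fun x => lockRows (z x) (b x) (U x)) := by
  have h3 : PT (fun x => (U x).map (fun l => (l.1, ((1 : ℕ), l.2)))) :=
    PT.map (f := U) (g := fun _ l => (l.1, ((1 : ℕ), l.2))) hU
      (PT.snd.fst'.pair ((PT.const 1).pair PT.snd.snd'))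
  exact PT.cons (PT.cons (hz.pair (PT.const _)) (PT.cons (hb.pair (PT.const _)) h3))
    (PT.cons (PT.cons (hb.pair (PT.const _)) (PT.cons (hz.pair (PT.const _)) h3)) (PT.const []))

theorem pt_selOf {S : α → DSys} (hS : PT S) : PT (fun x => selOf (S x)) := by
  have hm : PT (fun x => (S x).1) := hS.fst'
  have hK : PT (fun x => (S x).2.1) := hS.snd'.fst'
  have hc := pt_cubes hS
  have hK1 := hK.addConst 1
  have hK2 := hK.addConst 2
  have hK3 := hK.addConst 3
  have hZ : PT (fun x => (S x).2.1 + 3 + 2 * (S x).1) := hK3.add (hm.mulConst 2)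
  have hM : PT (fun x => (S x).2.1 + 3 + 2 * (S x).1 + (S x).cubes.length) := hZ.add hc.length
  have r1 : PT (fun x => lockRows ((S x).2.1 + 1) ((S x).2.1 + 2) [((S x).2.1, true)]) :=
    pt_lockRows hK1 hK2 (PT.cons (pt_lit true hK) (PT.const []))
  have r2 : PT (fun x => (List.range (S x).1).flatMap (fun i => lockRows i ((S x).2.1 + 3 + i)
      [((S x).2.1 + 1, true), ((S x).2.1, false)])) :=
    PT.flatMap (f := fun x => List.range (S x).1) (g := fun x i => lockRows i ((S x).2.1 + 3 + i)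
      [((S x).2.1 + 1, true), ((S x).2.1, false)]) hm.range
      (pt_lockRows PT.snd ((hK3.comp PT.fst).add PT.snd) (PT.cons (pt_lit true (hK1.comp PT.fst))
        (PT.cons (pt_lit false (hK.comp PT.fst)) (PT.const []))))
  have r3 : PT (fun x => (List.range (S x).1).flatMap (fun i => lockRows ((S x).1 + i)
      ((S x).2.1 + 3 + ((S x).1 + i)) [((S x).2.1 + 1, false), ((S x).2.1, false)])) :=
    PT.flatMap (f := fun x => List.range (S x).1) (g := fun x i => lockRows ((S x).1 + i)
      ((S x).2.1 + 3 + ((S x).1 + i)) [((S x).2.1 + 1, false), ((S x).2.1, false)]) hm.range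
      (pt_lockRows ((hm.comp PT.fst).add PT.snd) ((hK3.comp PT.fst).add ((hm.comp PT.fst).add PT.snd))
        (PT.cons (pt_lit false (hK1.comp PT.fst)) (PT.cons (pt_lit false (hK.comp PT.fst))
          (PT.const []))))
  have r4 : PT (fun x => (S x).cubes.zipIdx.map (cubeRow (S x).2.1 ((S x).2.1 + 3 +
      2 * (S x).1))) :=
    PT.map (f := fun x => (S x).cubes.zipIdx)
      (g := fun x p => cubeRow (S x).2.1 ((S x).2.1 + 3 + 2 * (S x).1) p) hc.zipIdx
      (pt_cubeRow (hK.comp PT.fst) (hZ.comp PT.fst) PT.snd)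
  exact hM.pair (((r1.append r2).append r3).append r4)

theorem pt_con {c : α → MeshCode} {i j : α → ℕ} (hc : PT c) (hi : PT i) (hj : PT j) :
    PT (fun x => (c x).con (i x) (j x)) := by
  have h1 : PT (fun x => (c x).2.getD (i x) []) := by
    refine (PT.optCases (f := fun x => (c x).2[i x]?) (g := fun _ => ([] : List (ℕ × (ℕ × Bool))))
      (h := fun _ r => r) (PT.getElem? hi hc.snd') (PT.const _) PT.snd).congr (fun x => ?_)
    rw [List.getD_eq_getElem?_getD]
    cases (c x).2[i x]? <;> rfl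
  have h2 : PT (fun x => ((c x).2.getD (i x) []).filter (fun e => decide (e.1 = j x))) :=
    PT.filter (f := fun x => (c x).2.getD (i x) []) (p := fun x e => decide (e.1 = j x)) h1
      (PT.eq PT.snd.fst' (hj.comp PT.fst))
  exact PT.head? (PT.map h2 (g := fun _ e => e.2) PT.snd.snd')

end LockPl
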