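import Pool.Agent.Lib.MP_14e06f_lc.Plane.Arms

set_option autoImplicit false

/-!
# The standard drawings have no crossings
-/

namespace LockPl

open Complex Finset

theorem loc_kd (m : Mesh) {hh : ℝ} (h0 : 0 < hh) (h1 : hh ≤ 1890) {A B : ℕ → ℝ}
    (hA : ∀ j, |A j| < 20 / 101) (hB : ∀ j, |B j| < 20 / 101) {u v : Vtx} {R : Reg}
    (h : Kd m u v R) : Loc m hh A B u v R := by
  cases h with
  | grid h hR => exact loc_grid m hh A B h
  | sh i j l hl => exact loc_sh m hh hA i j l hl
  | sv i j c hc => exact loc_sv m hh hB i j c hc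
  | arm i j up q q' d hi hj h => exact loc_arm m h0 h1 hA hB i j up h

/-- an end of a region is an end of the bar -/
theorem Kd.end {m : Mesh} {u v : Vtx} {R : Reg} (h : Kd m u v R) {a b : ℕ} (hR : R.End a b) :
    vtx a b = u ∨ vtx a b = v := by
  cases h with
  | grid h hR' =>
    rcases h.end hR with h | h
    · left; rw [← h]
    · right; rw [← h]
  | sh i j l hl => exact hR.elim
  | sv i j c hc => exact hR.elim
  | arm i j up q q' d hi hj h => exact hR.elim

theorem same_sh (m : Mesh) (hh : ℝ) (A B : ℕ → ℝ) (i j : ℕ) {z : ℂ}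
    (hz : z ∈ segment ℝ (pos m hh A B (vtx (2 * j + 1) (6 * i + 2))) (pos m hh A B (i, j, 12)))
    (hz' : z ∈ segment ℝ (pos m hh A B (vtx (2 * j + 1) (6 * i + 3))) (pos m hh A B (i, j, 12))) :
    z = pos m hh A B (i, j, 12) := by
  have hv : sY B (6 * i + 2) = 200 * I := by
    rw [sY_of_lt B i 2 (by norm_num)]
    simp [hgt]
  rw [pos_vtx, pos_12] at *
  rw [show 6 * i + 3 = 6 * i + 2 + 1 from rfl, GP_succ_right, hv] at hz'
  obtain ⟨t, t0, t1, rfl⟩ := mem_segment_iff.1 hz
  obtain ⟨t', t0', t1', hz'⟩ := mem_segment_iff.1 hz'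
  have h1 := congrArg re hz'
  have h2 := congrArg im hz'
  simp at h1 h2
  have h3 : t = 1 := by linarith
  rw [h3]
  simp

theorem same_sv (m : Mesh) (hh : ℝ) (A B : ℕ → ℝ) (i j : ℕ) {z : ℂ}
    (hz : z ∈ segment ℝ (pos m hh A B (vtx (2 * j) (6 * i + 5))) (pos m hh A B (i, j, 13)))
    (hz' : z ∈ segment ℝ (pos m hh A B (vtx (2 * j + 1) (6 * i + 5))) (pos m hh A B (i, j, 13))) :
    z = pos m hh A B (i, j, 13) := by
  rw [pos_vtx, pos_13] at *
  rw [GP_succ_left, sX_even] at hz'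
  obtain ⟨t, t0, t1, rfl⟩ := mem_segment_iff.1 hz
  obtain ⟨t', t0', t1', hz'⟩ := mem_segment_iff.1 hz'
  have h1 := congrArg re hz'
  have h2 := congrArg im hz'
  simp at h1 h2
  have h3 : t = 1 := by linarith
  rw [h3]
  simp

theorem same_region (m : Mesh) {hh : ℝ} (h0 : 0 < hh) (h1 : hh ≤ 1890) {A B : ℕ → ℝ}
    (hA : ∀ j, |A j| < 20 / 101) (hB : ∀ j, |B j| < 20 / 101)
    (hF : ∀ i < m.N, ∀ j < m.M, Free (m.C i j) hh (A j) (B i)) {u v x y : Vtx} {R R' : Reg}
    (hRR : R = R') (h : Kd m u v R) (h' : Kd m x y R') (hne : s(u, v) ≠ s(x, y)) {z : ℂ}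
    (hz : z ∈ segment ℝ (pos m hh A B u) (pos m hh A B v))
    (hz' : z ∈ segment ℝ (pos m hh A B x) (pos m hh A B y)) :
    ∃ w, (w = u ∨ w = v) ∧ (w = x ∨ w = y) ∧ z = pos m hh A B w := by
  cases h with
  | grid h hR =>
    cases h' with
    | grid h' hR' =>
      subst hRR
      obtain ⟨rfl, rfl⟩ := h.inj h'
      exact absurd rfl hne
    | sh i' j' l' hl' => exact absurd hRR (h.notF _ _ _)
    | sv i' j' c' hc' => exact absurd hRR (h.notF _ _ _)
    | arm i' j' up' q' r' d' hi' hj' h' => exact absurd hRR (h.notF _ _ _)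
  | sh i j l hl =>
    cases h' with
    | grid h' hR' => exact absurd hRR.symm (h'.notF _ _ _)
    | sh i' j' l' hl' =>
      simp only [Reg.F.injEq] at hRR
      have hi : i' = i := by omega
      have hj : j' = j := by omega
      subst hi hj
      rcases hl with rfl | rfl <;> rcases hl' with rfl | rfl
      · exact absurd rfl hne
      · exact ⟨_, Or.inr rfl, Or.inr rfl, same_sh m hh A B i' j' hz hz'⟩
      · exact ⟨_, Or.inr rfl, Or.inr rfl, same_sh m hh A B i' j' hz' hz⟩
      · exact absurd rfl hne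
    | sv i' j' c' hc' =>
      simp only [Reg.F.injEq] at hRR
      omega
    | arm i' j' up' q' r' d' hi' hj' h' =>
      simp only [Reg.F.injEq] at hRR
      omega
  | sv i j c hc =>
    cases h' with
    | grid h' hR' => exact absurd hRR.symm (h'.notF _ _ _)
    | sh i' j' l' hl' =>
      simp only [Reg.F.injEq] at hRR
      omega
    | sv i' j' c' hc' =>
      simp only [Reg.F.injEq] at hRR
      have hi : i' = i := by omega
      have hj : j' = j := by omega
      subst hi hj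
      interval_cases c <;> interval_cases c'
      · exact absurd rfl hne
      · exact ⟨_, Or.inr rfl, Or.inr rfl, same_sv m hh A B i' j' hz hz'⟩
      · exact ⟨_, Or.inr rfl, Or.inr rfl, same_sv m hh A B i' j' hz' hz⟩
      · exact absurd rfl hne
    | arm i' j' up' q' r' d' hi' hj' h' =>
      simp only [Reg.F.injEq] at hRR
      omega
  | arm i j up q q' d hi hj h =>
    cases h' with
    | grid h' hR' => exact absurd hRR.symm (h'.notF _ _ _)
    | sh i' j' l' hl' =>
      simp only [Reg.F.injEq] at hRR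
      omega
    | sv i' j' c' hc' =>
      simp only [Reg.F.injEq] at hRR
      omega
    | arm i' j' up' r r' d' hi' hj' h' =>
      simp only [Reg.F.injEq] at hRR
      have ei : i' = i := by omega
      have ej : j' = j := by omega
      subst ei ej
      cases up <;> cases up'
      · exact arm_same m h0 i' j' false h h' hne hz hz'
      · exact (arm_diff m h0 h1 hA hB i' j' (hF i' hi j' hj) h h' hz hz').elim
      · exact (arm_diff m h0 h1 hA hB i' j' (hF i' hi j' hj) h' h hz' hz).elim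
      · exact arm_same m h0 i' j' true h h' hne hz hz'

/-- The standard drawings of allowed parameters have no crossings. -/
theorem nc_pos (m : Mesh) {hh : ℝ} (h0 : 0 < hh) (h1 : hh ≤ 1890) {x : (ℕ → ℝ) × (ℕ → ℝ)}
    (hx : Box x) (ha : Allowed m hh x) : NC m (pos m hh x.1 x.2) := by
  intro u v d u' v' d' hb hb' hne z hz hz'
  obtain ⟨hA, hB⟩ := hx
  have hu := hu_sX hA
  have hv := hv_sY hB
  obtain ⟨R, hk⟩ := kd_of_bar hb
  obtain ⟨R', hk'⟩ := kd_of_bar hb'
  rcases loc_kd m h0 h1 hA hB hk z hz with ⟨a, b, hzab, hab⟩ | ⟨X, Y, hat, hM⟩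
  · have hat : At (sX x.1) (sY x.2) z a b := by rw [hzab]; exact at_gp _ _ _ _
    have hzp : z = pos m hh x.1 x.2 (vtx a b) := by rw [pos_vtx]; exact hzab
    rcases loc_kd m h0 h1 hA hB hk' z hz' with ⟨a', b', hzab', hab'⟩ | ⟨X', Y', hat', hM'⟩
    · have hat' : At (sX x.1) (sY x.2) z a' b' := by rw [hzab']; exact at_gp _ _ _ _
      obtain ⟨e1, e2⟩ := hat.unique hu hv hat'
      have e1' : a = a' := by exact_mod_cast e1
      have e2' : b = b' := by exact_mod_cast e2
      subst e1' e2'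
      exact ⟨vtx a b, hab, hab', hzp⟩
    · obtain ⟨e1, e2⟩ := hat.unique hu hv hat'
      rw [← e1, ← e2] at hM'
      exact ⟨vtx a b, hab, hk'.end (Reg.end_of_mem hM'), hzp⟩
  · rcases loc_kd m h0 h1 hA hB hk' z hz' with ⟨a', b', hzab', hab'⟩ | ⟨X', Y', hat', hM'⟩
    · have hat' : At (sX x.1) (sY x.2) z a' b' := by rw [hzab']; exact at_gp _ _ _ _
      have hzp : z = pos m hh x.1 x.2 (vtx a' b') := by rw [pos_vtx]; exact hzab'
      obtain ⟨e1, e2⟩ := hat.unique hu hv hat'
      rw [e1, e2] at hM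
      exact ⟨vtx a' b', hk.end (Reg.end_of_mem hM), hab', hzp⟩
    · obtain ⟨rfl, rfl⟩ := hat.unique hu hv hat'
      rcases Reg.meet_ok hM hM' hk.ok hk'.ok with hRR | ⟨a, b, rfl, rfl⟩
      · exact same_region m h0 h1 hA hB ha hRR hk hk' hne hz hz'
      · refine ⟨vtx a b, hk.end (Reg.end_of_mem hM), hk'.end (Reg.end_of_mem hM'), ?_⟩
        rw [pos_vtx]
        exact hat.eq_gp

/-! ### Lengths -/

theorem al_ad (o : Option (SignType × Bool)) : al o ^ 2 + 1400 ^ 2 = ad o ^ 2 := by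
  unfold al ad
  split <;> norm_num

/-- The displacement along a bar. -/
theorem bar_diff (m : Mesh) (hh : ℝ) {A B : ℕ → ℝ} (hA : ∀ j, |A j| < 20 / 101)
    (hB : ∀ j, |B j| < 20 / 101) {u v : Vtx} {d : ℕ} (h : Bar m u v d) :
    ∃ a b : ℝ, pos m hh A B v - pos m hh A B u = a + b * I ∧ (0 < hh → 0 < a ^ 2 + b ^ 2) ∧
      (hh = 1890 → a ^ 2 + b ^ 2 = d ^ 2) := by
  have hgt0 : ∀ l, (0 : ℝ) < hgt l := by
    intro l
    unfold hgt
    split <;> norm_num
  cases h with
  | @plateH i j l hi hj hl =>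
    rw [show (i, j, 2 * l) = vtx (2 * j) (6 * i + l) from
      (vtx_mk i j l 0 hl (by norm_num)).symm, show (i, j, 2 * l + 1) = vtx (2 * j + 1) (6 * i + l)
      from (vtx_mk i j l 1 hl (by norm_num)).symm, pos_vtx, pos_vtx, GP_succ_left, sX_even]
    refine ⟨480, 0, by push_cast; ring, by norm_num, by norm_num⟩
  | @plateV i j l c hi hj hl hc =>
    rw [show (i, j, 2 * l + c) = vtx (2 * j + c) (6 * i + l) from
      (vtx_mk i j l c (by omega) hc).symm, show (i, j, 2 * (l + 1) + c) =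
      vtx (2 * j + c) (6 * i + l + 1) from (vtx_mk i j (l + 1) c (by omega) hc).symm,
      pos_vtx, pos_vtx, GP_succ_right, sY_of_lt B i l hl]
    refine ⟨0, hgt l, by push_cast; ring, fun _ => ?_, fun _ => by ring⟩
    have := hgt0 l
    positivity
  | @plateD i j l hi hj hl =>
    rw [show (i, j, 2 * l) = vtx (2 * j) (6 * i + l) from
      (vtx_mk i j l 0 (by omega) (by norm_num)).symm, show (i, j, 2 * (l + 1) + 1) =
      vtx (2 * j + 1) (6 * i + l + 1) from (vtx_mk i j (l + 1) 1 (by omega) (by norm_num)).symm,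
      pos_vtx, pos_vtx, GP_succ_right, GP_succ_left, sY_of_lt B i l hl, sX_even]
    refine ⟨480, hgt l, by push_cast; ring, fun _ => ?_, fun _ => ?_⟩
    · have := hgt0 l
      positivity
    · interval_cases l <;> norm_num [hgt, dg]
  | @crankH i j l hi hj hl =>
    rw [show (i, j, 2 * l + 1) = vtx (2 * j + 1) (6 * i + l) from
      (vtx_mk i j l 1 (by omega) (by norm_num)).symm, show (i, j + 1, 2 * l) =
      vtx (2 * j + 1 + 1) (6 * i + l) from (vtx_mk i (j + 1) l 0 (by omega) (by norm_num)).symm,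
      pos_vtx, pos_vtx, GP_succ_left, sX_odd]
    have h1 := sq_sqrt' (hA j)
    have e : (3400 * √(1 - A j ^ 2)) ^ 2 + (3400 * A j) ^ 2 = 3400 ^ 2 := by
      rw [mul_pow, h1]
      ring
    refine ⟨3400 * √(1 - A j ^ 2), 3400 * A j, by push_cast; ring, fun _ => ?_, fun _ => ?_⟩
    · rw [e]; norm_num
    · rw [e]; norm_num
  | @stopH i j l hi hj hl =>
    have hv : sY B (6 * i + 2) = 200 * I := by
      rw [sY_of_lt B i 2 (by norm_num)]
      simp [hgt]
    rw [show (i, j, 2 * l + 1) = vtx (2 * j + 1) (6 * i + l) from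
      (vtx_mk i j l 1 (by omega) (by norm_num)).symm, pos_vtx, pos_12]
    rcases hl with rfl | rfl
    · refine ⟨495, 100, by push_cast; ring, by norm_num, by norm_num⟩
    · rw [show 6 * i + 3 = 6 * i + 2 + 1 from rfl,
        GP_succ_right (sX A) (sY B) (2 * j + 1) (6 * i + 2), hv]
      refine ⟨495, -100, by push_cast; ring, by norm_num, by norm_num⟩
  | @crankV i j c hi hj hc =>
    rw [show (i, j, 10 + c) = vtx (2 * j + c) (6 * i + 5) from
      (vtx_mk i j 5 c (by omega) hc).symm, show (i + 1, j, c) =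
      vtx (2 * j + c) (6 * i + 5 + 1) from by
        have := vtx_mk (i + 1) j 0 c (by omega) hc
        rw [show 6 * (i + 1) + 0 = 6 * i + 5 + 1 from by ring,
          show 2 * 0 + c = c from by ring] at this
        exact this.symm,
      pos_vtx, pos_vtx, GP_succ_right, sY_five]
    have h1 := sq_sqrt' (hB i)
    have e : (-(3400 * B i)) ^ 2 + (3400 * √(1 - B i ^ 2)) ^ 2 = 3400 ^ 2 := by
      rw [mul_pow, h1]
      ring
    refine ⟨-(3400 * B i), 3400 * √(1 - B i ^ 2), by push_cast; ring, fun _ => ?_, fun _ => ?_⟩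
    · rw [e]; norm_num
    · rw [e]; norm_num
  | @stopV i j c hi hj hc =>
    rw [show (i, j, 10 + c) = vtx (2 * j + c) (6 * i + 5) from
      (vtx_mk i j 5 c (by omega) hc).symm, pos_vtx, pos_13]
    interval_cases c
    · rw [add_zero]
      refine ⟨240, 1188, by push_cast; ring, by norm_num, by norm_num⟩
    · rw [GP_succ_left, sX_even]
      refine ⟨-240, 1188, by push_cast; ring, by norm_num, by norm_num⟩
  | @arm i j q q' d hi hj up h =>
    obtain ⟨hq, hq'⟩ := h.le7
    rw [pos_armV _ _ _ _ _ _ _ _ hq, pos_armV _ _ _ _ _ _ _ _ hq']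
    have hal : (1050 : ℝ) ≤ al (m.C i j) := by exact_mod_cast (al_le (m.C i j)).2
    have had : (al (m.C i j) : ℝ) ^ 2 + 1400 ^ 2 = ad (m.C i j) ^ 2 := by
      exact_mod_cast al_ad (m.C i j)
    obtain ⟨σ, hσ, key⟩ : ∃ σ : ℝ, σ ^ 2 = 1 ∧ ∀ x y x' y' : ℝ,
        armPt (sg (m.C i j)) A B i j up x' y' - armPt (sg (m.C i j)) A B i j up x y =
        ((σ * sg (m.C i j) * (x' - x) : ℝ) : ℂ) + ((σ * (y' - y) : ℝ) : ℂ) * I := by
      cases up
      · refine ⟨1, by norm_num, fun x y x' y' => ?_⟩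
        simp only [armPt]
        push_cast
        ring
      · refine ⟨-1, by norm_num, fun x y x' y' => ?_⟩
        simp only [armPt]
        push_cast
        ring
    refine ⟨_, _, key _ _ _ _, ?_, ?_⟩
    all_goals
      have hg : sg (m.C i j) ^ 2 = 1 := by
        rcases sg_cases (m.C i j) with hg | hg <;> rw [hg] <;> norm_num
      rw [mul_pow, mul_pow, mul_pow, hσ, hg, one_mul, one_mul, one_mul]
    · intro h0
      cases h <;> simp only [armXY] <;> norm_num <;> (try positivity)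
    · intro h1890
      subst h1890
      cases h <;> simp only [armXY] <;> norm_num <;> linarith

theorem normSq_mk (a b : ℝ) : ‖(a : ℂ) + b * I‖ ^ 2 = a ^ 2 + b ^ 2 := by
  rw [← Complex.normSq_eq_norm_sq, Complex.normSq_add_mul_I]

/-- The bars have the right lengths in the standard drawings. -/
theorem dist_pos (m : Mesh) {x : (ℕ → ℝ) × (ℕ → ℝ)} (hx : Box x) {u v : Vtx} {d : ℕ}
    (h : Bar m u v d) : dist (pos m 1890 x.1 x.2 u) (pos m 1890 x.1 x.2 v) = d := by
  obtain ⟨a, b, h1, -, h2⟩ := bar_diff m 1890 hx.1 hx.2 h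
  rw [dist_comm, dist_eq_norm, h1]
  have h3 := h2 rfl
  rw [← normSq_mk] at h3
  exact (sq_eq_sq₀ (norm_nonneg _) (Nat.cast_nonneg _)).1 h3

theorem pos_ne (m : Mesh) {hh : ℝ} (h0 : 0 < hh) {x : (ℕ → ℝ) × (ℕ → ℝ)} (hx : Box x)
    {u v : Vtx} {d : ℕ} (h : Bar m u v d) : pos m hh x.1 x.2 u ≠ pos m hh x.1 x.2 v := by
  obtain ⟨a, b, h1, h2, -⟩ := bar_diff m hh hx.1 hx.2 h
  intro he
  rw [he, sub_self] at h1
  have h3 := h2 h0
  rw [← normSq_mk, ← h1] at h3
  simp at h3

theorem continuous_pos (m : Mesh) (v : Vtx) :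
    Continuous (fun y : ℝ × ((ℕ → ℝ) × (ℕ → ℝ)) => pos m y.1 y.2.1 y.2.2 v) := by
  have hcol : ∀ j, Continuous (fun y : ℝ × ((ℕ → ℝ) × (ℕ → ℝ)) => colX y.2.1 j) := by
    intro j
    unfold colX
    fun_prop
  have hrow : ∀ j, Continuous (fun y : ℝ × ((ℕ → ℝ) × (ℕ → ℝ)) => rowY y.2.2 j) := by
    intro j
    unfold rowY
    fun_prop
  have hpl : ∀ i j l c, Continuous (fun y : ℝ × ((ℕ → ℝ) × (ℕ → ℝ)) => plate y.2.1 y.2.2 i j l c) := by
    intro i j l c
    unfold plate
    have := hcol j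
    have := hrow i
    fun_prop
  have hxy : ∀ (a : ℝ) (q : ℕ), Continuous (fun hh : ℝ => armXY a hh q) := by
    intro a q
    unfold armXY
    split <;> fun_prop
  unfold pos
  split_ifs
  · exact hpl _ _ _ _
  · exact (hpl _ _ _ _).add continuous_const
  · exact (hpl _ _ _ _).add continuous_const
  · simp only [armPos]
    have h1 := (hxy (al (m.C v.1 v.2.1)) (v.2.2 - 14)).comp
      (continuous_fst (X := ℝ) (Y := (ℕ → ℝ) × (ℕ → ℝ)))
    have h1a := h1.fst
    have h1b := h1.snd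
    simp only [Function.comp] at h1a h1b
    split_ifs
    · have := hpl v.1 v.2.1 5 1
      fun_prop
    · have := hpl v.1 (v.2.1 + 1) 5 0
      fun_prop
  · simp only [armPos]
    have h1 := (hxy (al (m.C v.1 v.2.1)) (v.2.2 - 20)).comp
      (continuous_fst (X := ℝ) (Y := (ℕ → ℝ) × (ℕ → ℝ)))
    have h1a := h1.fst
    have h1b := h1.snd
    simp only [Function.comp] at h1a h1b
    split_ifs
    · have := hpl (v.1 + 1) (v.2.1 + 1) 0 0
      fun_prop
    · have := hpl (v.1 + 1) v.2.1 0 1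
      fun_prop

end LockPl
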