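import Pool.Agent.Lib.MP_14e06f_lc.Plane.Problem
import Mathlib

/-!
# A simple closed polygon has nonzero signed area
-/

set_option autoImplicit false

namespace LockPl.Orient

open Finset

/-! ### Alternating signs on a line -/

theorem nonneg_aux {ι : Type} [DecidableEq ι] (X s : ι → ℝ) (κ : ℝ) (hκ : κ = 1 / 2 ∨ κ = -1 / 2)
    (S : Finset ι) : Set.InjOn X S → (∀ i ∈ S, s i = 1 ∨ s i = -1) →
    (∀ i ∈ S, ∑ j ∈ S.filter (fun j => X j < X i), s j = κ - s i / 2) →
    ∀ M : ℝ, (∀ i ∈ S, X i ≤ M) → 0 ≤ -(2 * κ) * ∑ i ∈ S, s i * (X i - M) := by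
  induction S using Finset.induction_on_max_value X with
  | empty => intros; simp
  | insert a S ha hmax ih =>
    intro hX hs h M hM
    have hlt : ∀ i ∈ S, X i < X a := by
      intro i hi
      refine lt_of_le_of_ne (hmax i hi) fun he => ha ?_
      have := hX (by simp [hi]) (by simp) he
      rwa [this] at hi
    have ih' := ih (hX.mono (by simp)) (fun i hi => hs i (mem_insert_of_mem hi)) (by
      intro i hi
      have h1 := h i (mem_insert_of_mem hi)
      rwa [filter_insert, if_neg (not_lt.2 (hmax i hi))] at h1) (X a) hmax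
    have h2 : ∑ j ∈ S, s j = κ - s a / 2 := by
      have h1 := h a (mem_insert_self _ _)
      rw [filter_insert, if_neg (lt_irrefl _), filter_true_of_mem hlt] at h1
      exact h1
    rw [sum_insert ha]
    have h3 : ∑ i ∈ S, s i * (X i - M) = ∑ i ∈ S, s i * (X i - X a) +
        (X a - M) * ∑ i ∈ S, s i := by
      rw [mul_sum, ← sum_add_distrib]
      exact sum_congr rfl fun i _ => by ring
    rw [h3, h2]
    have hM' := hM a (mem_insert_self _ _)
    have h4 : -(2 * κ) * (s a * (X a - M) + (∑ i ∈ S, s i * (X i - X a) +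
        (X a - M) * (κ - s a / 2))) = -(2 * κ) * ∑ i ∈ S, s i * (X i - X a) +
        (M - X a) * (2 * κ ^ 2 + κ * s a) := by ring
    rw [h4]
    have h5 : 0 ≤ 2 * κ ^ 2 + κ * s a := by
      rcases hκ with h | h <;> rcases hs a (mem_insert_self _ _) with h' | h' <;> rw [h, h'] <;>
        norm_num
    have := mul_nonneg (sub_nonneg.2 hM') h5
    linarith

theorem pos_aux {ι : Type} [DecidableEq ι] (X s : ι → ℝ) (κ : ℝ)
    (S : Finset ι) (hX : Set.InjOn X S) (hs : ∀ i ∈ S, s i = 1 ∨ s i = -1)
    (h : ∀ i ∈ S, ∑ j ∈ S.filter (fun j => X j < X i), s j = κ - s i / 2)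
    (hne : S.Nonempty) (h0 : ∑ i ∈ S, s i = 0) :
    0 < -(2 * κ) * ∑ i ∈ S, s i * X i := by
  obtain ⟨a, ha, hmax⟩ := exists_max_image S X hne
  set T := S.erase a with hT
  have hlt : ∀ i ∈ T, X i < X a := by
    intro i hi
    rw [hT, mem_erase] at hi
    exact lt_of_le_of_ne (hmax i hi.2) fun he => hi.1 (hX (mem_coe.2 hi.2) (mem_coe.2 ha) he)
  have hST : S = insert a T := (insert_erase ha).symm
  have haT : a ∉ T := notMem_erase _ _
  have h2 : ∑ j ∈ T, s j = κ - s a / 2 := by
    have h1 := h a ha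
    rwa [hST, filter_insert, if_neg (lt_irrefl _), filter_true_of_mem hlt] at h1
  have h3 : κ = - s a / 2 := by
    rw [hST, sum_insert haT, h2] at h0
    linarith
  have hsa := hs a ha
  have hκ : κ = 1 / 2 ∨ κ = -1 / 2 := by
    rcases hsa with h | h <;> rw [h3, h] <;> norm_num
  have hTne : T.Nonempty := by
    rw [nonempty_iff_ne_empty]
    intro he
    rw [he, sum_empty, h3] at h2
    rcases hsa with h | h <;> rw [h] at h2 <;> norm_num at h2
  obtain ⟨b, hb, hbmax⟩ := exists_max_image T X hTne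
  have hTS : T ⊆ S := erase_subset _ _
  have h4 := nonneg_aux X s κ hκ T (hX.mono (by exact_mod_cast hTS)) (fun i hi => hs i (hTS hi)) (by
    intro i hi
    have h1 := h i (hTS hi)
    rwa [hST, filter_insert, if_neg (not_lt.2 (hlt i hi).le)] at h1) (X b) hbmax
  have h5 : ∑ i ∈ S, s i * X i = ∑ i ∈ T, s i * (X i - X b) + (X b - X a) * (- s a) := by
    have h6 : ∑ j ∈ T, s j = - s a := by rw [h2, h3]; ring
    have h7 : ∑ i ∈ T, s i * (X i - X b) = ∑ i ∈ T, s i * X i - (∑ i ∈ T, s i) * X b := by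
      rw [sum_mul, ← sum_sub_distrib]
      exact sum_congr rfl fun i _ => by ring
    rw [hST, sum_insert haT, h7, h6]
    ring
  have h8 := hlt b hb
  have h9 : -(2 * κ) * ∑ i ∈ S, s i * X i =
      -(2 * κ) * ∑ i ∈ T, s i * (X i - X b) + (X a - X b) := by
    rw [h5, h3]
    rcases hsa with h | h <;> rw [h] <;> ring
  rw [h9]
  linarith

open Finset Complex

/-- The angle under which the segment from `a` to `b` is seen from `z`. -/
noncomputable def A (a b z : ℂ) : ℝ := arg ((b - z) / (a - z))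

theorem slit_of_not_mem {a b z : ℂ} (h : z ∉ segment ℝ a b) : (b - z) / (a - z) ∈ slitPlane := by
  rw [mem_slitPlane_iff_not_le_zero]
  intro hle
  apply h
  have haz : a - z ≠ 0 := by
    intro h0
    apply h
    rw [← sub_eq_zero.1 h0]
    exact left_mem_segment _ _ _
  rw [Complex.le_def] at hle
  simp only [zero_re, zero_im] at hle
  set r : ℝ := -((b - z) / (a - z)).re with hr
  have hr0 : 0 ≤ r := by rw [hr]; linarith [hle.1]
  have h1 : (b - z) / (a - z) = -(r : ℂ) := by
    apply Complex.ext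
    · simp [hr]
    · simp [hle.2]
  have h2 : b - z = -(r : ℂ) * (a - z) := by
    rw [← h1]
    field_simp
  have hr1 : (1 : ℝ) + r ≠ 0 := by positivity
  refine ⟨r / (1 + r), 1 / (1 + r), by positivity, by positivity, by field_simp; ring, ?_⟩
  simp only [real_smul]
  have h3 : ((1 : ℂ) + r) ≠ 0 := by exact_mod_cast hr1
  push_cast
  field_simp
  linear_combination h2

theorem continuousAt_A {a b z : ℂ} (h : z ∉ segment ℝ a b) : ContinuousAt (A a b) z := by
  have haz : a - z ≠ 0 := by
    intro h0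
    apply h
    rw [← sub_eq_zero.1 h0]
    exact left_mem_segment _ _ _
  have h1 : ContinuousAt (fun z => (b - z) / (a - z)) z :=
    (continuousAt_const.sub continuousAt_id).div (continuousAt_const.sub continuousAt_id) haz
  exact ContinuousAt.comp (f := fun z => (b - z) / (a - z)) (g := arg)
    (continuousAt_arg (slit_of_not_mem h)) h1

theorem angle_A {a b z : ℂ} (ha : a ≠ z) (hb : b ≠ z) :
    (A a b z : Real.Angle) = (arg (b - z) : Real.Angle) - arg (a - z) :=
  arg_div_coe_angle (sub_ne_zero.2 hb) (sub_ne_zero.2 ha)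

/-- A continuous real function with constant class modulo `2π` is constant. -/
theorem const_of_angle {f : ℝ → ℝ} (hf : ContinuousOn f (Set.Ioo 0 1)) {θ : Real.Angle}
    (h : ∀ t ∈ Set.Ioo (0 : ℝ) 1, (f t : Real.Angle) = θ) {s t : ℝ} (hs : s ∈ Set.Ioo (0 : ℝ) 1)
    (ht : t ∈ Set.Ioo (0 : ℝ) 1) : f s = f t := by
  have key : ∀ s ∈ Set.Ioo (0 : ℝ) 1, ∀ t ∈ Set.Ioo (0 : ℝ) 1, ¬ f s < f t := by
    intro s hs t ht hlt
    have h1 : (Set.Icc (f s) (f t)) ⊆ f '' (Set.Ioo 0 1) :=
      isPreconnected_Ioo.intermediate_value hs ht hf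
    set v : ℝ := min (f t) (f s + 1) with hv
    have hv1 : f s < v := lt_min hlt (by linarith)
    have hv2 : v ≤ f s + 1 := min_le_right _ _
    obtain ⟨x, hx, hxv⟩ := h1 ⟨hv1.le, min_le_left _ _⟩
    have h2 : (f x : Real.Angle) = f s := by rw [h x hx, h s hs]
    rw [hxv, Real.Angle.angle_eq_iff_two_pi_dvd_sub] at h2
    obtain ⟨k, hk⟩ := h2
    have hpi := Real.pi_gt_three
    have hk0 : 0 < k := by
      by_contra hk0
      have : (k : ℝ) ≤ 0 := by exact_mod_cast not_lt.1 hk0
      nlinarith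
    have hk1 : (1 : ℝ) ≤ k := by exact_mod_cast hk0
    nlinarith
  exact le_antisymm (not_lt.1 (key t ht s hs)) (not_lt.1 (key s hs t ht))

/-- Crossing the horizontal line through `0` downwards. -/
theorem A_down {a b z : ℂ} (ha : z.im < a.im) (hb : b.im < z.im) :
    (0 < (a - z).re * (b - z).im - (a - z).im * (b - z).re →
      A a b z = arg (b - z) - arg (a - z) + 2 * Real.pi) ∧
    ((a - z).re * (b - z).im - (a - z).im * (b - z).re < 0 →
      A a b z = arg (b - z) - arg (a - z)) := by
  set u := a - z with hu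
  set v := b - z with hv
  have hui : 0 < u.im := by rw [hu, sub_im]; linarith
  have hvi : v.im < 0 := by rw [hv, sub_im]; linarith
  have hu0 : u ≠ 0 := fun h => by rw [h] at hui; simp at hui
  have hv0 : v ≠ 0 := fun h => by rw [h] at hvi; simp at hvi
  have h1 : ((arg (v / u) : ℝ) : Real.Angle) = ((arg v - arg u : ℝ) : Real.Angle) := by
    rw [arg_div_coe_angle hv0 hu0, Real.Angle.coe_sub]
  rw [Real.Angle.angle_eq_iff_two_pi_dvd_sub] at h1
  obtain ⟨k, hk⟩ := h1
  have hau : 0 < arg u := by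
    rcases (arg_nonneg_iff.2 hui.le).lt_or_eq with h | h
    · exact h
    · exfalso
      have := (arg_eq_zero_iff.1 h.symm).2
      linarith
  have hau' : arg u < Real.pi := arg_lt_pi_iff.2 (Or.inr hui.ne')
  have hav : arg v < 0 := arg_neg_iff.2 hvi
  have hav' : -Real.pi < arg v := neg_pi_lt_arg v
  have him : (v / u).im = (u.re * v.im - u.im * v.re) / normSq u := by
    rw [div_im]
    have := normSq_pos.2 hu0
    field_simp
  have hn := normSq_pos.2 hu0
  have hpi := Real.pi_pos
  have hA : A a b z = arg (v / u) := rfl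
  constructor
  · intro h
    have h2 : 0 < (v / u).im := by rw [him]; positivity
    have h3 : 0 < arg (v / u) := by
      rcases (arg_nonneg_iff.2 h2.le).lt_or_eq with h | h
      · exact h
      · exfalso
        have := (arg_eq_zero_iff.1 h.symm).2
        linarith
    have h4 : arg (v / u) < Real.pi := arg_lt_pi_iff.2 (Or.inr h2.ne')
    have hk1 : 0 < k := by
      by_contra hk0
      have : (k : ℝ) ≤ 0 := by exact_mod_cast not_lt.1 hk0
      nlinarith
    have hk2 : k < 2 := by
      by_contra hk0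
      have : (2 : ℝ) ≤ k := by exact_mod_cast not_lt.1 hk0
      nlinarith
    have hk3 : k = 1 := by omega
    rw [hA]
    rw [hk3] at hk
    push_cast at hk
    linarith
  · intro h
    have h2 : (v / u).im < 0 := by
      rw [him]
      exact div_neg_of_neg_of_pos h hn
    have h3 : arg (v / u) < 0 := arg_neg_iff.2 h2
    have h4 : -Real.pi < arg (v / u) := neg_pi_lt_arg _
    have hk1 : -1 < k := by
      by_contra hk0
      have : (k : ℝ) ≤ -1 := by exact_mod_cast not_lt.1 hk0
      nlinarith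
    have hk2 : k < 1 := by
      by_contra hk0
      have : (1 : ℝ) ≤ k := by exact_mod_cast not_lt.1 hk0
      nlinarith
    have hk3 : k = 0 := by omega
    rw [hA]
    rw [hk3] at hk
    push_cast at hk
    linarith

theorem A_up {a b z : ℂ} (ha : a.im < z.im) (hb : z.im < b.im) :
    ((a - z).re * (b - z).im - (a - z).im * (b - z).re < 0 →
      A a b z = arg (b - z) - arg (a - z) - 2 * Real.pi) ∧
    (0 < (a - z).re * (b - z).im - (a - z).im * (b - z).re →
      A a b z = arg (b - z) - arg (a - z)) := by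
  have h1 : ∀ w : ℂ, w.im ≠ 0 → arg w⁻¹ = - arg w := by
    intro w hw
    rw [arg_inv, if_neg]
    intro h
    rw [arg_eq_pi_iff] at h
    exact hw h.2
  have h2 : (a - z).re * (b - z).im - (a - z).im * (b - z).re ≠ 0 → A a b z = - A b a z := by
    intro h
    unfold A
    rw [← inv_div, h1]
    intro h0
    apply h
    rw [div_im] at h0
    have hb0 : b - z ≠ 0 := by
      intro h'
      have : (b - z).im = 0 := by rw [h']; simp
      rw [sub_im] at this
      linarith
    have hn := normSq_pos.2 hb0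
    field_simp at h0
    linarith
  have h3 := A_down hb ha
  constructor
  · intro h
    rw [h2 h.ne, h3.1 (by linarith)]
    ring
  · intro h
    rw [h2 h.ne', h3.2 (by linarith)]
    ring

theorem A_same {a b z : ℂ} (h : (z.im < a.im ∧ z.im < b.im) ∨ (a.im < z.im ∧ b.im < z.im)) :
    A a b z = arg (b - z) - arg (a - z) := by
  set u := a - z with hu
  set v := b - z with hv
  have hu0 : u ≠ 0 := fun h' => by
    have : u.im = 0 := by rw [h']; simp
    rw [hu, sub_im] at this
    rcases h with h | h <;> linarith [h.1]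
  have hv0 : v ≠ 0 := fun h' => by
    have : v.im = 0 := by rw [h']; simp
    rw [hv, sub_im] at this
    rcases h with h | h <;> linarith [h.2]
  have h1 : ((arg (v / u) : ℝ) : Real.Angle) = ((arg v - arg u : ℝ) : Real.Angle) := by
    rw [arg_div_coe_angle hv0 hu0, Real.Angle.coe_sub]
  rw [Real.Angle.angle_eq_iff_two_pi_dvd_sub] at h1
  obtain ⟨k, hk⟩ := h1
  have h2 : |arg v - arg u| < Real.pi := by
    rw [abs_lt]
    rcases h with h | h
    · have hui : 0 < u.im := by rw [hu, sub_im]; linarith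
      have hvi : 0 < v.im := by rw [hv, sub_im]; linarith
      have h3 := arg_nonneg_iff.2 hui.le
      have h4 := arg_nonneg_iff.2 hvi.le
      have h5 : arg u < Real.pi := arg_lt_pi_iff.2 (Or.inr hui.ne')
      have h6 : arg v < Real.pi := arg_lt_pi_iff.2 (Or.inr hvi.ne')
      constructor <;> linarith
    · have hui : u.im < 0 := by rw [hu, sub_im]; linarith
      have hvi : v.im < 0 := by rw [hv, sub_im]; linarith
      have h3 := arg_neg_iff.2 hui
      have h4 := arg_neg_iff.2 hvi
      have h5 := neg_pi_lt_arg u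
      have h6 := neg_pi_lt_arg v
      constructor <;> linarith
  rw [abs_lt] at h2
  have h3 := neg_pi_lt_arg (v / u)
  have h4 := arg_le_pi (v / u)
  have hpi := Real.pi_pos
  have hk1 : -1 < k := by
    by_contra hk0
    have : (k : ℝ) ≤ -1 := by exact_mod_cast not_lt.1 hk0
    nlinarith
  have hk2 : k < 1 := by
    by_contra hk0
    have : (1 : ℝ) ≤ k := by exact_mod_cast not_lt.1 hk0
    nlinarith
  have hk3 : k = 0 := by omega
  rw [hk3] at hk
  push_cast at hk
  show arg (v / u) = _
  linarith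


/-! ### Simple polygons -/

structure SPoly (n : ℕ) (q : ℕ → ℂ) : Prop where
  three : 3 ≤ n
  closed : q n = q 0
  ne : ∀ i < n, q i ≠ q (i + 1)
  nc : ∀ i j, i < j → j < n → ∀ z, z ∈ segment ℝ (q i) (q (i + 1)) →
    z ∈ segment ℝ (q j) (q (j + 1)) → (j = i + 1 ∧ z = q (i + 1)) ∨ (i = 0 ∧ j + 1 = n ∧ z = q 0)

/-- The point at time `t` on the segment from `a` to `b`. -/
noncomputable def pt (a b : ℂ) (t : ℝ) : ℂ := a + t * (b - a)

theorem pt_mem {a b : ℂ} {t : ℝ} (h0 : 0 ≤ t) (h1 : t ≤ 1) : pt a b t ∈ segment ℝ a b := by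
  refine ⟨1 - t, t, by linarith, h0, by ring, ?_⟩
  simp only [real_smul, pt]
  push_cast
  ring

theorem pt_ne_left {a b : ℂ} {t : ℝ} (hab : a ≠ b) (h0 : t ≠ 0) : pt a b t ≠ a := by
  intro h
  unfold pt at h
  have h1 : (t : ℂ) * (b - a) = 0 := by linear_combination h
  rcases mul_eq_zero.1 h1 with h | h
  · exact h0 (by exact_mod_cast h)
  · exact hab (sub_eq_zero.1 h).symm

theorem pt_ne_right {a b : ℂ} {t : ℝ} (hab : a ≠ b) (h0 : t ≠ 1) : pt a b t ≠ b := by
  intro h
  unfold pt at h
  have h1 : ((1 : ℂ) - t) * (b - a) = 0 := by linear_combination -h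
  rcases mul_eq_zero.1 h1 with h | h
  · apply h0
    have : (t : ℂ) = 1 := by linear_combination -h
    exact_mod_cast this
  · exact hab (sub_eq_zero.1 h).symm

variable {n : ℕ} {q : ℕ → ℂ}

namespace SPoly

theorem nc' (h : SPoly n q) {i j : ℕ} (hi : i < n) (hj : j < n) (hij : i ≠ j) {z : ℂ}
    (h1 : z ∈ segment ℝ (q i) (q (i + 1))) (h2 : z ∈ segment ℝ (q j) (q (j + 1))) :
    z = q i ∨ z = q (i + 1) := by
  rcases lt_or_gt_of_ne hij with h3 | h3
  · rcases h.nc i j h3 hj z h1 h2 with ⟨-, h4⟩ | ⟨h4, -, h5⟩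
    · exact Or.inr h4
    · left; rw [h5, h4]
  · rcases h.nc j i h3 hi z h2 h1 with ⟨h4, h5⟩ | ⟨h4, h6, h5⟩
    · left; rw [h5, h4]
    · right; rw [h5, h6, h.closed]

theorem open_not_mem (h : SPoly n q) {i j : ℕ} (hi : i < n) (hj : j < n) (hij : i ≠ j) {t : ℝ}
    (h0 : 0 < t) (h1 : t < 1) : pt (q i) (q (i + 1)) t ∉ segment ℝ (q j) (q (j + 1)) := by
  intro h2
  rcases h.nc' hi hj hij (pt_mem h0.le h1.le) h2 with h3 | h3
  · exact pt_ne_left (h.ne i hi) h0.ne' h3
  · exact pt_ne_right (h.ne i hi) h1.ne h3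

theorem vertex_not_mem (h : SPoly n q) {i j : ℕ} (hi : i + 1 < n) (hj : j < n) (hij : j ≠ i)
    (hij' : j ≠ i + 1) : q (i + 1) ∉ segment ℝ (q j) (q (j + 1)) := by
  intro h2
  rcases h.nc' (by omega : i < n) hj hij.symm (right_mem_segment _ _ _) h2 with h3 | h3
  · exact h.ne i (by omega) h3.symm
  · rcases lt_or_gt_of_ne hij with h4 | h4
    · rcases h.nc j (i + 1) (by omega) hi _ h2 (left_mem_segment _ _ _) with ⟨h5, -⟩ | ⟨h5, h6, h7⟩
      · omega
      · -- `j = 0`, `i + 2 = n`; use edges `0` and `i`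
        rcases h.nc j i h4 (by omega) _ h2 (right_mem_segment _ _ _) with ⟨h8, h9⟩ | ⟨-, h8, -⟩
        · exact h.ne i (by omega) (by rw [h9, h8])
        · omega
    · rcases h.nc (i + 1) j (by omega) hj _ (left_mem_segment _ _ _) h2 with ⟨h5, h6⟩ | ⟨h5, -, -⟩
      · exact h.ne (i + 1) hi h6
      · omega

/-- Consecutive edges do not overlap. -/
theorem turn (h : SPoly n q) {i : ℕ} (hi : i + 1 < n) :
    (q (i + 2) - q (i + 1)) / (q (i + 1) - q i) ∈ slitPlane := by
  rw [mem_slitPlane_iff_not_le_zero]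
  intro hle
  have hd : q (i + 1) - q i ≠ 0 := sub_ne_zero.2 (h.ne i (by omega)).symm
  have hd' : q (i + 2) - q (i + 1) ≠ 0 := sub_ne_zero.2 (h.ne (i + 1) hi).symm
  rw [Complex.le_def] at hle
  simp only [zero_re, zero_im] at hle
  set r : ℝ := -((q (i + 2) - q (i + 1)) / (q (i + 1) - q i)).re with hr
  have hr0 : 0 ≤ r := by rw [hr]; linarith [hle.1]
  have h1 : (q (i + 2) - q (i + 1)) / (q (i + 1) - q i) = -(r : ℂ) := by
    apply Complex.ext
    · simp [hr]
    · simp [hle.2]
  have h2 : q (i + 2) - q (i + 1) = -(r : ℂ) * (q (i + 1) - q i) := by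
    rw [← h1]
    field_simp
  have hr1 : 0 < r := by
    refine lt_of_le_of_ne hr0 fun h0 => hd' ?_
    rw [h2, ← h0]
    simp
  -- the common point
  set ε : ℝ := min 1 (1 / r) / 2 with hε
  have hε0 : 0 < ε := by positivity
  have hε1 : ε < 1 := by
    have := min_le_left 1 (1 / r)
    linarith
  have hε2 : ε * r < 1 := by
    have h3 := min_le_right 1 (1 / r)
    have h4 : ε * r ≤ 1 / r / 2 * r := mul_le_mul_of_nonneg_right (by rw [hε]; linarith) hr0
    have h5 : 1 / r / 2 * r = 1 / 2 := by field_simp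
    linarith
  set z := pt (q (i + 1)) (q (i + 2)) ε with hz
  have hz1 : z ∈ segment ℝ (q (i + 1)) (q (i + 1 + 1)) := pt_mem hε0.le hε1.le
  have hz2 : z = pt (q i) (q (i + 1)) (1 - ε * r) := by
    rw [hz]
    unfold pt
    push_cast
    linear_combination (ε : ℂ) * h2
  exact h.open_not_mem (by omega : i < n) hi (by omega) (t := 1 - ε * r) (by linarith)
    (by nlinarith [mul_pos hε0 hr1]) (hz2 ▸ hz1)

/-- The sum of the angles under which the edges other than `i` are seen from `z`. -/
noncomputable def L (_ : SPoly n q) (i : ℕ) (z : ℂ) : ℝ :=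
  ∑ j ∈ (range n).erase i, A (q j) (q (j + 1)) z

theorem continuousOn_L (h : SPoly n q) {i : ℕ} (hi : i < n) :
    ContinuousOn (fun t => h.L i (pt (q i) (q (i + 1)) t)) (Set.Ioo 0 1) := by
  unfold L
  refine continuousOn_finsetSum _ fun j hj => ?_
  rw [mem_erase, mem_range] at hj
  intro t ht
  apply ContinuousAt.continuousWithinAt
  have h1 := continuousAt_A (h.open_not_mem hi hj.2 (Ne.symm hj.1) ht.1 ht.2)
  have h2 : ContinuousAt (fun t : ℝ => pt (q i) (q (i + 1)) t) t := by
    unfold pt
    fun_prop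
  exact ContinuousAt.comp (f := fun t : ℝ => pt (q i) (q (i + 1)) t)
    (g := A (q j) (q (j + 1))) h1 h2

theorem sum_erase_sub (h : SPoly n q) {M : Type} [AddCommGroup M] (f : ℂ → M) {i : ℕ}
    (hi : i < n) :
    ∑ j ∈ (range n).erase i, (f (q (j + 1)) - f (q j)) = -(f (q (i + 1)) - f (q i)) := by
  have h1 : ∑ j ∈ range n, (f (q (j + 1)) - f (q j)) = 0 := by
    rw [sum_range_sub (fun j => f (q j)), h.closed, sub_self]
  have h2 := add_sum_erase (range n) (fun j => f (q (j + 1)) - f (q j)) (mem_range.2 hi)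
  rw [h1] at h2
  exact (neg_eq_of_add_eq_zero_right h2).symm

theorem vertex_ne (h : SPoly n q) {i j : ℕ} (hi : i < n) (hj : j ≤ n) {t : ℝ}
    (h0 : 0 < t) (h1 : t < 1) : q j ≠ pt (q i) (q (i + 1)) t := by
  intro he
  by_cases hji : j = i
  · subst hji
    exact pt_ne_left (h.ne j hi) h0.ne' he.symm
  · by_cases hji' : j = n
    · subst hji'
      rw [h.closed] at he
      by_cases hi0 : i = 0
      · subst hi0
        exact pt_ne_left (h.ne 0 hi) h0.ne' he.symm
      · exact h.open_not_mem hi (by omega : 0 < j) hi0 h0 h1 (he ▸ left_mem_segment _ _ _)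
    · exact h.open_not_mem hi (by omega : j < n) (Ne.symm hji) h0 h1 (he ▸ left_mem_segment _ _ _)

theorem angle_L (h : SPoly n q) {i : ℕ} (hi : i < n) {t : ℝ} (h0 : 0 < t) (h1 : t < 1) :
    (h.L i (pt (q i) (q (i + 1)) t) : Real.Angle) = (Real.pi : Real.Angle) := by
  set z := pt (q i) (q (i + 1)) t with hz
  have h2 : (h.L i z : Real.Angle) = ∑ j ∈ (range n).erase i,
      ((arg (q (j + 1) - z) : Real.Angle) - arg (q j - z)) := by
    unfold L
    rw [← Real.Angle.coe_coeHom, map_sum]
    refine sum_congr rfl fun j hj => ?_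
    rw [mem_erase, mem_range] at hj
    rw [Real.Angle.coe_coeHom]
    exact angle_A (h.vertex_ne hi hj.2.le h0 h1) (h.vertex_ne hi (by omega) h0 h1)
  rw [h2, h.sum_erase_sub (fun w => (arg (w - z) : Real.Angle)) hi]
  have hd : q (i + 1) - q i ≠ 0 := sub_ne_zero.2 (h.ne i hi).symm
  have h3 : q (i + 1) - z = ((1 - t : ℝ) : ℂ) * (q (i + 1) - q i) := by
    rw [hz]
    unfold pt
    push_cast
    ring
  have h4 : q i - z = -((t : ℂ) * (q (i + 1) - q i)) := by
    rw [hz]
    unfold pt
    ring
  rw [h3, h4, arg_real_mul _ (by linarith), arg_neg_coe_angle (mul_ne_zero (by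
    exact_mod_cast h0.ne') hd), arg_real_mul _ h0, sub_add_cancel_left, neg_neg]

theorem L_const (h : SPoly n q) {i : ℕ} (hi : i < n) {s t : ℝ} (hs : s ∈ Set.Ioo (0 : ℝ) 1)
    (ht : t ∈ Set.Ioo (0 : ℝ) 1) :
    h.L i (pt (q i) (q (i + 1)) s) = h.L i (pt (q i) (q (i + 1)) t) :=
  const_of_angle (h.continuousOn_L hi) (fun _ ht => h.angle_L hi ht.1 ht.2) hs ht

/-- The common limit at the vertex `q (i + 1)`. -/
noncomputable def lim (_ : SPoly n q) (i : ℕ) : ℝ :=
  ∑ j ∈ ((range n).erase i).erase (i + 1), A (q j) (q (j + 1)) (q (i + 1)) +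
    arg ((q (i + 2) - q (i + 1)) / (q (i + 1) - q i))

theorem tendsto_rest (h : SPoly n q) {i : ℕ} (hi : i + 1 < n) {f : ℝ → ℂ} {t : ℝ} {s : Set ℝ}
    (hf : Filter.Tendsto f (nhdsWithin t s) (nhds (q (i + 1)))) :
    Filter.Tendsto (fun u => ∑ j ∈ ((range n).erase i).erase (i + 1), A (q j) (q (j + 1)) (f u))
      (nhdsWithin t s) (nhds (∑ j ∈ ((range n).erase i).erase (i + 1),
        A (q j) (q (j + 1)) (q (i + 1)))) := by
  refine tendsto_finsetSum _ fun j hj => ?_
  rw [mem_erase, mem_erase, mem_range] at hj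
  exact (continuousAt_A (h.vertex_not_mem hi hj.2.2 hj.2.1 hj.1)).tendsto.comp hf

theorem tendsto_left (h : SPoly n q) {i : ℕ} (hi : i + 1 < n) :
    Filter.Tendsto (fun t => h.L i (pt (q i) (q (i + 1)) t)) (nhdsWithin 1 (Set.Iio 1))
      (nhds (h.lim i)) := by
  have hc : Filter.Tendsto (fun t : ℝ => pt (q i) (q (i + 1)) t) (nhdsWithin 1 (Set.Iio 1))
      (nhds (q (i + 1))) := by
    have h1 : ContinuousAt (fun t : ℝ => pt (q i) (q (i + 1)) t) 1 := by
      unfold pt
      fun_prop
    have h2 : pt (q i) (q (i + 1)) 1 = q (i + 1) := by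
      unfold pt
      push_cast
      ring
    have h3 := h1.tendsto.mono_left (nhdsWithin_le_nhds (s := Set.Iio 1))
    rwa [h2] at h3
  have hd : q (i + 1) - q i ≠ 0 := sub_ne_zero.2 (h.ne i (by omega)).symm
  have h1 : Filter.Tendsto (fun t : ℝ =>
      arg ((q (i + 2) - q (i + 1)) / (q (i + 1) - q i) + ((1 - t : ℝ) : ℂ)))
      (nhdsWithin 1 (Set.Iio 1)) (nhds (arg ((q (i + 2) - q (i + 1)) / (q (i + 1) - q i)))) := by
    have h2 : ContinuousAt (fun t : ℝ =>
      arg ((q (i + 2) - q (i + 1)) / (q (i + 1) - q i) + ((1 - t : ℝ) : ℂ))) 1 := by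
      refine ContinuousAt.comp (g := arg) (f := fun t : ℝ =>
        (q (i + 2) - q (i + 1)) / (q (i + 1) - q i) + ((1 - t : ℝ) : ℂ)) ?_ (by fun_prop)
      apply continuousAt_arg
      simpa using h.turn hi
    have h3 := h2.tendsto.mono_left (nhdsWithin_le_nhds (s := Set.Iio 1))
    simpa using h3
  have h2 : (fun t => h.L i (pt (q i) (q (i + 1)) t)) =ᶠ[nhdsWithin 1 (Set.Iio 1)] (fun t : ℝ =>
      ∑ j ∈ ((range n).erase i).erase (i + 1), A (q j) (q (j + 1)) (pt (q i) (q (i + 1)) t) +
      arg ((q (i + 2) - q (i + 1)) / (q (i + 1) - q i) + ((1 - t : ℝ) : ℂ))) := by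
    filter_upwards [self_mem_nhdsWithin] with t ht
    have ht' : 0 < 1 - t := by
      have : t < 1 := ht
      linarith
    unfold L
    have h5 : i + 1 ∈ (range n).erase i := by
      rw [mem_erase, mem_range]
      omega
    rw [← sum_erase_add _ _ h5]
    congr 1
    unfold A
    have h6 : (1 - t : ℂ) ≠ 0 := by exact_mod_cast ht'.ne'
    have h7 : (q (i + 1 + 1) - pt (q i) (q (i + 1)) t) / (q (i + 1) - pt (q i) (q (i + 1)) t) =
        (((1 - t)⁻¹ : ℝ) : ℂ) * ((q (i + 2) - q (i + 1)) / (q (i + 1) - q i) +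
          ((1 - t : ℝ) : ℂ)) := by
      have h8 : q (i + 1) - pt (q i) (q (i + 1)) t = (1 - t) * (q (i + 1) - q i) := by
        unfold pt
        ring
      have h9 : q (i + 1 + 1) - pt (q i) (q (i + 1)) t =
          (q (i + 2) - q (i + 1)) + (1 - t) * (q (i + 1) - q i) := by
        unfold pt
        ring
      rw [h8, h9]
      push_cast
      field_simp
    rw [h7, arg_real_mul _ (inv_pos.2 ht')]
  exact (Filter.tendsto_congr' h2).2 ((h.tendsto_rest hi hc).add h1)

theorem tendsto_right (h : SPoly n q) {i : ℕ} (hi : i + 1 < n) :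
    Filter.Tendsto (fun t => h.L (i + 1) (pt (q (i + 1)) (q (i + 1 + 1)) t))
      (nhdsWithin 0 (Set.Ioi 0)) (nhds (h.lim i)) := by
  have hc : Filter.Tendsto (fun t : ℝ => pt (q (i + 1)) (q (i + 1 + 1)) t)
      (nhdsWithin 0 (Set.Ioi 0)) (nhds (q (i + 1))) := by
    have h1 : ContinuousAt (fun t : ℝ => pt (q (i + 1)) (q (i + 1 + 1)) t) 0 := by
      unfold pt
      fun_prop
    have h2 : pt (q (i + 1)) (q (i + 1 + 1)) 0 = q (i + 1) := by
      unfold pt
      push_cast
      ring
    have h3 := h1.tendsto.mono_left (nhdsWithin_le_nhds (s := Set.Ioi 0))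
    rwa [h2] at h3
  have hd : q (i + 1) - q i ≠ 0 := sub_ne_zero.2 (h.ne i (by omega)).symm
  have hd' : q (i + 2) - q (i + 1) ≠ 0 := sub_ne_zero.2 (h.ne (i + 1) hi).symm
  have h1 : Filter.Tendsto (fun t : ℝ =>
      arg ((q (i + 2) - q (i + 1)) / ((q (i + 1) - q i) + (t : ℂ) * (q (i + 2) - q (i + 1)))))
      (nhdsWithin 0 (Set.Ioi 0)) (nhds (arg ((q (i + 2) - q (i + 1)) / (q (i + 1) - q i)))) := by
    have h2 : ContinuousAt (fun t : ℝ =>
      arg ((q (i + 2) - q (i + 1)) /
        ((q (i + 1) - q i) + (t : ℂ) * (q (i + 2) - q (i + 1))))) 0 := by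
      refine ContinuousAt.comp (g := arg) (f := fun t : ℝ => (q (i + 2) - q (i + 1)) /
        ((q (i + 1) - q i) + (t : ℂ) * (q (i + 2) - q (i + 1)))) ?_ ?_
      · apply continuousAt_arg
        simpa using h.turn hi
      · refine ContinuousAt.div (by fun_prop) (by fun_prop) ?_
        simpa using hd
    have h3 := h2.tendsto.mono_left (nhdsWithin_le_nhds (s := Set.Ioi 0))
    simpa using h3
  have h2 : (fun t => h.L (i + 1) (pt (q (i + 1)) (q (i + 1 + 1)) t))
      =ᶠ[nhdsWithin 0 (Set.Ioi 0)] (fun t : ℝ =>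
      ∑ j ∈ ((range n).erase i).erase (i + 1), A (q j) (q (j + 1))
        (pt (q (i + 1)) (q (i + 1 + 1)) t) +
      arg ((q (i + 2) - q (i + 1)) / ((q (i + 1) - q i) + (t : ℂ) * (q (i + 2) - q (i + 1))))) := by
    filter_upwards [self_mem_nhdsWithin] with t ht
    have ht' : 0 < t := ht
    unfold L
    have h5 : i ∈ (range n).erase (i + 1) := by
      rw [mem_erase, mem_range]
      omega
    rw [← sum_erase_add _ _ h5, erase_right_comm]
    congr 1
    unfold A
    have h7 : (q (i + 1) - pt (q (i + 1)) (q (i + 1 + 1)) t) /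
        (q i - pt (q (i + 1)) (q (i + 1 + 1)) t) =
        (t : ℂ) * ((q (i + 2) - q (i + 1)) /
          ((q (i + 1) - q i) + (t : ℂ) * (q (i + 2) - q (i + 1)))) := by
      have h8 : q (i + 1) - pt (q (i + 1)) (q (i + 1 + 1)) t = -(t * (q (i + 2) - q (i + 1))) := by
        unfold pt
        ring
      have h9 : q i - pt (q (i + 1)) (q (i + 1 + 1)) t =
          -((q (i + 1) - q i) + (t : ℂ) * (q (i + 2) - q (i + 1))) := by
        unfold pt
        ring
      rw [h8, h9, neg_div_neg_eq, mul_div_assoc]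
    rw [h7, arg_real_mul _ ht']
  exact (Filter.tendsto_congr' h2).2 ((h.tendsto_rest hi hc).add h1)

theorem L_step (h : SPoly n q) {i : ℕ} (hi : i + 1 < n) {s t : ℝ} (hs : s ∈ Set.Ioo (0 : ℝ) 1)
    (ht : t ∈ Set.Ioo (0 : ℝ) 1) :
    h.L i (pt (q i) (q (i + 1)) s) = h.L (i + 1) (pt (q (i + 1)) (q (i + 1 + 1)) t) := by
  have h1 : h.L i (pt (q i) (q (i + 1)) s) = h.lim i := by
    refine tendsto_nhds_unique ?_ (h.tendsto_left hi)
    refine (Filter.tendsto_congr' ?_).2 tendsto_const_nhds
    have : Set.Ioo (0 : ℝ) 1 ∈ nhdsWithin (1 : ℝ) (Set.Iio 1) := Ioo_mem_nhdsLT one_pos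
    filter_upwards [this] with u hu
    exact h.L_const (by omega) hu hs
  have h2 : h.L (i + 1) (pt (q (i + 1)) (q (i + 1 + 1)) t) = h.lim i := by
    refine tendsto_nhds_unique ?_ (h.tendsto_right hi)
    refine (Filter.tendsto_congr' ?_).2 tendsto_const_nhds
    have : Set.Ioo (0 : ℝ) 1 ∈ nhdsWithin (0 : ℝ) (Set.Ioi 0) := Ioo_mem_nhdsGT one_pos
    filter_upwards [this] with u hu
    exact h.L_const hi hu ht
  rw [h1, h2]

theorem L_eq (h : SPoly n q) : ∃ l : ℝ, ∀ i < n, ∀ t ∈ Set.Ioo (0 : ℝ) 1,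
    h.L i (pt (q i) (q (i + 1)) t) = l := by
  refine ⟨h.L 0 (pt (q 0) (q 1) (1 / 2)), ?_⟩
  have hh : (1 / 2 : ℝ) ∈ Set.Ioo (0 : ℝ) 1 := by norm_num
  intro i
  induction i with
  | zero =>
    intro hi t ht
    exact h.L_const hi ht hh
  | succ i ih =>
    intro hi t ht
    rw [← h.L_step hi hh ht]
    exact ih (by omega) _ hh

end SPoly

/-! ### Horizontal lines -/

/-- `1` if `a` is at height at least `y`, otherwise `0`. -/
noncomputable def H (a : ℂ) (y : ℝ) : ℝ := if y ≤ a.im then 1 else 0

/-- The abscissa of the point of height `y` on the line through `a` and `b`. -/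
noncomputable def X (a b : ℂ) (y : ℝ) : ℝ :=
  a.re + (y - a.im) * ((b.re - a.re) / (b.im - a.im))

/-- `1` if the edge crosses the height `y` upwards, `-1` if downwards, `0` otherwise. -/
noncomputable def sg (a b : ℂ) (y : ℝ) : ℝ := H b y - H a y

theorem sg_up {a b : ℂ} {y : ℝ} (h1 : a.im < y) (h2 : y < b.im) : sg a b y = 1 := by
  unfold sg H
  rw [if_pos h2.le, if_neg (not_le.2 h1), sub_zero]

theorem sg_down {a b : ℂ} {y : ℝ} (h1 : b.im < y) (h2 : y < a.im) : sg a b y = -1 := by
  unfold sg H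
  rw [if_neg (not_le.2 h1), if_pos h2.le, zero_sub]

theorem sg_ne {a b : ℂ} {y : ℝ} (ha : a.im ≠ y) (hb : b.im ≠ y) (h : sg a b y ≠ 0) :
    (a.im < y ∧ y < b.im) ∨ (b.im < y ∧ y < a.im) := by
  unfold sg H at h
  by_cases h1 : y ≤ b.im
  · by_cases h2 : y ≤ a.im
    · rw [if_pos h1, if_pos h2] at h
      exact absurd (sub_self _) h
    · exact Or.inl ⟨not_le.1 h2, lt_of_le_of_ne h1 (Ne.symm hb)⟩
  · by_cases h2 : y ≤ a.im
    · exact Or.inr ⟨not_le.1 h1, lt_of_le_of_ne h2 (Ne.symm ha)⟩
    · rw [if_neg h1, if_neg h2] at h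
      exact absurd (sub_self _) h

theorem sg_eq_zero {a b : ℂ} {y : ℝ} (ha : a.im ≠ y) (hb : b.im ≠ y) (h : sg a b y = 0) :
    (y < a.im ∧ y < b.im) ∨ (a.im < y ∧ b.im < y) := by
  rcases lt_or_gt_of_ne ha with h1 | h1 <;> rcases lt_or_gt_of_ne hb with h2 | h2
  · exact Or.inr ⟨h1, h2⟩
  · rw [sg_up h1 h2] at h
    norm_num at h
  · rw [sg_down h2 h1] at h
    norm_num at h
  · exact Or.inl ⟨h1, h2⟩

/-- The angle in terms of the crossing of the ray to the west of `z`. -/
theorem A_eq {a b z : ℂ} (ha : a.im ≠ z.im) (hb : b.im ≠ z.im)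
    (hX : sg a b z.im ≠ 0 → X a b z.im ≠ z.re) :
    A a b z = arg (b - z) - arg (a - z) -
      2 * Real.pi * (if X a b z.im < z.re then sg a b z.im else 0) := by
  by_cases h0 : sg a b z.im = 0
  · rw [h0, ite_self, mul_zero, sub_zero]
    exact A_same (sg_eq_zero ha hb h0)
  · have hX' := hX h0
    have hcr : ∀ {D : ℝ}, b.im - a.im = D → D ≠ 0 →
        (a - z).re * (b - z).im - (a - z).im * (b - z).re = D * (X a b z.im - z.re) := by
      intro D hD hD0
      unfold X
      rw [hD]
      simp only [sub_re, sub_im]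
      field_simp
      rw [← hD]
      ring
    rcases sg_ne ha hb h0 with ⟨h1, h2⟩ | ⟨h1, h2⟩
    · have hD : 0 < b.im - a.im := by linarith
      have hc := hcr rfl hD.ne'
      rw [sg_up h1 h2]
      rcases lt_or_gt_of_ne hX' with h3 | h3
      · rw [if_pos h3, (A_up h1 h2).1 (by rw [hc]; exact mul_neg_of_pos_of_neg hD (by linarith))]
        ring
      · rw [if_neg (not_lt.2 h3.le), (A_up h1 h2).2 (by rw [hc]; exact mul_pos hD (by linarith))]
        ring
    · have hD : b.im - a.im < 0 := by linarith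
      have hc := hcr rfl hD.ne
      rw [sg_down h1 h2]
      rcases lt_or_gt_of_ne hX' with h3 | h3
      · rw [if_pos h3, (A_down h2 h1).1 (by
          rw [hc]; exact mul_pos_of_neg_of_neg hD (by linarith))]
        ring
      · rw [if_neg (not_lt.2 h3.le), (A_down h2 h1).2 (by
          rw [hc]; exact mul_neg_of_neg_of_pos hD (by linarith))]
        ring

/-- The crossing point. -/
theorem cross_pt {a b : ℂ} {y : ℝ} (h : (a.im < y ∧ y < b.im) ∨ (b.im < y ∧ y < a.im)) :
    ∃ t ∈ Set.Ioo (0 : ℝ) 1, pt a b t = ⟨X a b y, y⟩ := by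
  have hD : b.im - a.im ≠ 0 := by
    rcases h with h | h
    · have : 0 < b.im - a.im := by linarith [h.1, h.2]
      exact this.ne'
    · have : b.im - a.im < 0 := by linarith [h.1, h.2]
      exact this.ne
  refine ⟨(y - a.im) / (b.im - a.im), ?_, ?_⟩
  · rcases h with ⟨h1, h2⟩ | ⟨h1, h2⟩
    · have : 0 < b.im - a.im := by linarith
      exact ⟨div_pos (by linarith) this, by rw [div_lt_one this]; linarith⟩
    · have : b.im - a.im < 0 := by linarith
      exact ⟨div_pos_of_neg_of_neg (by linarith) this, by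
        rw [div_lt_one_of_neg this]; linarith⟩
  · apply Complex.ext
    · unfold pt X
      simp only [add_re, mul_re, ofReal_re, ofReal_im, sub_re, sub_im]
      field_simp
      ring
    · unfold pt
      simp only [add_im, mul_im, ofReal_re, ofReal_im, sub_re, sub_im]
      field_simp
      ring

namespace SPoly

/-- On a generic horizontal line the signed sum of the abscissas of the crossing points has a
constant sign. -/
theorem slice (h : SPoly n q) {l : ℝ} (hl : ∀ i < n, ∀ t ∈ Set.Ioo (0 : ℝ) 1,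
    h.L i (pt (q i) (q (i + 1)) t) = l) {y : ℝ} (hy : ∀ j ≤ n, (q j).im ≠ y)
    (hex : ∃ i < n, sg (q i) (q (i + 1)) y ≠ 0) :
    0 < l / Real.pi * ∑ i ∈ range n, sg (q i) (q (i + 1)) y * X (q i) (q (i + 1)) y := by
  set s : ℕ → ℝ := fun i => sg (q i) (q (i + 1)) y with hs
  set x : ℕ → ℝ := fun i => X (q i) (q (i + 1)) y with hx
  set S := (range n).filter (fun i => s i ≠ 0) with hS
  have hpi := Real.pi_pos
  have hmem : ∀ i, i ∈ S ↔ i < n ∧ s i ≠ 0 := fun i => by rw [hS, mem_filter, mem_range]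
  have hcase : ∀ i ∈ S, ((q i).im < y ∧ y < (q (i + 1)).im) ∨
      ((q (i + 1)).im < y ∧ y < (q i).im) := fun i hi =>
    sg_ne (hy i ((hmem i).1 hi).1.le) (hy (i + 1) ((hmem i).1 hi).1) ((hmem i).1 hi).2
  have hsS : ∀ i ∈ S, s i = 1 ∨ s i = -1 := by
    intro i hi
    rcases hcase i hi with h1 | h1
    · exact Or.inl (sg_up h1.1 h1.2)
    · exact Or.inr (sg_down h1.1 h1.2)
  have hinj : Set.InjOn x S := by
    intro i hi j hj hij
    by_contra hne
    obtain ⟨t, ht, h1⟩ := cross_pt (hcase i hi)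
    obtain ⟨u, hu, h2⟩ := cross_pt (hcase j hj)
    have h3 : pt (q i) (q (i + 1)) t = pt (q j) (q (j + 1)) u := by
      rw [h1, h2]
      have : X (q i) (q (i + 1)) y = X (q j) (q (j + 1)) y := hij
      rw [this]
    exact h.open_not_mem ((hmem i).1 hi).1 ((hmem j).1 hj).1 hne ht.1 ht.2
      (h3 ▸ pt_mem hu.1.le hu.2.le)
  have h0 : ∑ i ∈ S, s i = 0 := by
    rw [hS, sum_filter_ne_zero]
    rw [hs]
    simp only [sg]
    rw [sum_range_sub (fun j => H (q j) y), h.closed, sub_self]
  have hkey : ∀ i ∈ S, ∑ j ∈ S.filter (fun j => x j < x i), s j = -l / (2 * Real.pi) - s i / 2 := by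
    intro i hi
    obtain ⟨t, ht, hz⟩ := cross_pt (hcase i hi)
    set z : ℂ := ⟨X (q i) (q (i + 1)) y, y⟩ with hzdef
    have hin := ((hmem i).1 hi).1
    have h1 := hl i hin t ht
    rw [hz] at h1
    unfold L at h1
    have h2 : ∑ j ∈ (range n).erase i, A (q j) (q (j + 1)) z =
        ∑ j ∈ (range n).erase i, (arg (q (j + 1) - z) - arg (q j - z)) -
        2 * Real.pi * ∑ j ∈ (range n).erase i, (if x j < x i then s j else 0) := by
      rw [mul_sum, ← sum_sub_distrib]
      refine sum_congr rfl fun j hj => ?_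
      rw [mem_erase, mem_range] at hj
      have h3 : sg (q j) (q (j + 1)) z.im ≠ 0 → X (q j) (q (j + 1)) z.im ≠ z.re := by
        intro h4 h5
        exact hj.1 (hinj (mem_coe.2 ((hmem j).2 ⟨hj.2, h4⟩)) (mem_coe.2 hi) h5)
      exact A_eq (hy j hj.2.le) (hy (j + 1) hj.2) h3
    rw [h2, h.sum_erase_sub (fun w => arg (w - z)) hin] at h1
    have h4 : ∑ j ∈ (range n).erase i, (if x j < x i then s j else 0) =
        ∑ j ∈ S.filter (fun j => x j < x i), s j := by
      rw [sum_ite, sum_const_zero, add_zero]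
      symm
      apply sum_subset_zero_on_sdiff
      · intro j hj
        rw [mem_filter, hmem] at hj
        rw [mem_filter, mem_erase, mem_range]
        refine ⟨⟨?_, hj.1.1⟩, hj.2⟩
        rintro rfl
        exact lt_irrefl _ hj.2
      · intro j hj
        rw [mem_sdiff, mem_filter, mem_filter, mem_erase, mem_range, hmem] at hj
        by_contra h5
        exact hj.2 ⟨⟨hj.1.1.2, h5⟩, hj.1.2⟩
      · intro j _
        rfl
    rw [h4] at h1
    have h5 : arg (q (i + 1) - z) - arg (q i - z) = s i * Real.pi := by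
      have hd : q (i + 1) - z = ((1 - t : ℝ) : ℂ) * (q (i + 1) - q i) := by
        rw [← hz]
        unfold pt
        push_cast
        ring
      have hd' : q i - z = (t : ℂ) * (-(q (i + 1) - q i)) := by
        rw [← hz]
        unfold pt
        ring
      rw [hd, hd', arg_real_mul _ (by linarith [ht.2]), arg_real_mul _ ht.1]
      rcases hcase i hi with h6 | h6
      · have h7 : s i = 1 := sg_up h6.1 h6.2
        rw [arg_neg_eq_arg_sub_pi_of_im_pos (by rw [sub_im]; linarith [h6.1, h6.2]), h7]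
        ring
      · have h7 : s i = -1 := sg_down h6.1 h6.2
        rw [arg_neg_eq_arg_add_pi_of_im_neg (by rw [sub_im]; linarith [h6.1, h6.2]), h7]
        ring
    rw [h5] at h1
    field_simp
    linarith
  have hne : S.Nonempty := by
    obtain ⟨i, hi, h1⟩ := hex
    exact ⟨i, (hmem i).2 ⟨hi, h1⟩⟩
  have h1 := pos_aux x s _ S hinj hsS hkey hne h0
  have h2 : ∑ i ∈ range n, s i * x i = ∑ i ∈ S, s i * x i := by
    rw [hS, sum_filter]
    refine sum_congr rfl fun i _ => ?_
    by_cases h3 : s i = 0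
    · rw [if_neg (not_not.2 h3), h3, zero_mul]
    · rw [if_pos h3]
  rw [h2]
  have h3 : -(2 * (-l / (2 * Real.pi))) = l / Real.pi := by
    field_simp
  rwa [h3] at h1

theorem exists_sg (_ : SPoly n q) {y : ℝ} {i j : ℕ} (hi : i ≤ n) (hj : j ≤ n) (h1 : (q i).im < y)
    (h2 : y < (q j).im) : ∃ i < n, sg (q i) (q (i + 1)) y ≠ 0 := by
  by_contra hcon
  push Not at hcon
  have h3 : ∀ k ≤ n, H (q k) y = H (q 0) y := by
    intro k
    induction k with
    | zero => intro _; rfl
    | succ k ih =>
      intro hk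
      have := hcon k (by omega)
      unfold sg at this
      rw [← ih (by omega)]
      linarith
  have h4 := (h3 i hi).trans (h3 j hj).symm
  unfold H at h4
  rw [if_neg (not_le.2 h1), if_pos h2.le] at h4
  norm_num at h4

theorem exists_heights (h : SPoly n q) : ∃ i < n, ∃ j < n, (q i).im < (q j).im := by
  by_contra hcon
  push Not at hcon
  have him : ∀ i < n, ∀ j < n, (q i).im = (q j).im := fun i hi j hj =>
    le_antisymm (hcon j hj i hi) (hcon i hi j hj)
  have h3 := h.three
  have him' : ∀ i ≤ n, (q i).im = (q 0).im := by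
    intro i hi
    rcases hi.lt_or_eq with h1 | h1
    · exact him i h1 0 (by omega)
    · rw [h1, h.closed]
  have h4 : ∀ i < n, q (i + 1) - q i = (((q (i + 1)).re - (q i).re : ℝ) : ℂ) := by
    intro i hi
    apply Complex.ext
    · simp
    · simp [him' i hi.le, him' (i + 1) hi]
  have h5 : ∀ i < n, 0 < ((q (i + 1)).re - (q i).re) * ((q 1).re - (q 0).re) := by
    intro i
    induction i with
    | zero =>
      intro hi
      have h6 : (q (0 + 1)).re - (q 0).re ≠ 0 := by
        intro h7
        have h8 := h4 0 hi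
        rw [h7] at h8
        exact h.ne 0 hi (sub_eq_zero.1 (by simpa using h8)).symm
      exact mul_self_pos.2 h6
    | succ i ih =>
      intro hi
      have h6 := ih (by omega)
      have h7 := h.turn hi
      have h8 : i + 2 = i + 1 + 1 := rfl
      rw [h8, h4 (i + 1) hi, h4 i (by omega), ← ofReal_div] at h7
      have h9 : 0 < ((q (i + 1 + 1)).re - (q (i + 1)).re) / ((q (i + 1)).re - (q i).re) := by
        rcases mem_slitPlane_iff.1 h7 with h10 | h10
        · rwa [ofReal_re] at h10
        · rw [ofReal_im] at h10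
          exact absurd rfl h10
      have h10 : (q (i + 1)).re - (q i).re ≠ 0 := by
        intro h11
        rw [h11, zero_mul] at h6
        exact lt_irrefl _ h6
      have h12 := mul_pos h9 h6
      have h13 : ((q (i + 1 + 1)).re - (q (i + 1)).re) / ((q (i + 1)).re - (q i).re) *
          (((q (i + 1)).re - (q i).re) * ((q 1).re - (q 0).re)) =
          ((q (i + 1 + 1)).re - (q (i + 1)).re) * ((q 1).re - (q 0).re) := by
        field_simp
      rwa [h13] at h12
  have h6 : 0 < ∑ i ∈ range n, ((q (i + 1)).re - (q i).re) * ((q 1).re - (q 0).re) :=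
    sum_pos (fun i hi => h5 i (mem_range.1 hi)) ⟨0, mem_range.2 (by omega)⟩
  rw [← sum_mul, sum_range_sub (fun i => (q i).re), h.closed, sub_self, zero_mul] at h6
  exact lt_irrefl _ h6

end SPoly

/-! ### The area as an integral over the heights -/

open MeasureTheory intervalIntegral

theorem continuous_X (a b : ℂ) : Continuous (X a b) := by
  unfold X
  fun_prop

theorem integral_X (a b : ℂ) :
    ∫ y in a.im..b.im, X a b y = (a.re + b.re) * (b.im - a.im) / 2 := by
  by_cases h : b.im - a.im = 0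
  · have h1 : b.im = a.im := by linarith
    rw [h1, integral_same]
    ring
  · have h1 : ∀ y : ℝ, HasDerivAt (fun y => a.re * y + (y - a.im) ^ 2 / 2 *
        ((b.re - a.re) / (b.im - a.im))) (X a b y) y := by
      intro y
      have h2 : HasDerivAt (fun y : ℝ => (y - a.im) ^ 2 / 2) (y - a.im) y := by
        have h3 := (((hasDerivAt_id y).sub_const a.im).pow 2).div_const 2
        have h4 : (2 : ℕ) * (id y - a.im) ^ (2 - 1) * 1 / 2 = y - a.im := by
          simp
        rw [h4] at h3
        exact h3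
      have h3 := ((hasDerivAt_id y).const_mul a.re).add
        (h2.mul_const ((b.re - a.re) / (b.im - a.im)))
      simp only [id, mul_one] at h3
      exact h3
    rw [integral_eq_sub_of_hasDerivAt (fun y _ => h1 y)
      ((continuous_X a b).intervalIntegrable _ _)]
    field_simp
    ring

theorem H_mul (a : ℂ) (f : ℝ → ℝ) :
    (fun y => H a y * f y) = Set.indicator {y | y ≤ a.im} f := by
  funext y
  unfold H
  by_cases h : y ≤ a.im
  · rw [if_pos h, one_mul, Set.indicator_of_mem (by exact h)]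
  · rw [if_neg h, zero_mul, Set.indicator_of_notMem (by exact h)]

theorem integrable_H (a : ℂ) {f : ℝ → ℝ} (hf : Continuous f) (m M : ℝ) :
    IntervalIntegrable (fun y => H a y * f y) volume m M := by
  rw [H_mul]
  have h1 := hf.intervalIntegrable (μ := volume) m M
  rw [intervalIntegrable_iff] at h1 ⊢
  exact Integrable.indicator h1 measurableSet_Iic

theorem integral_H (a : ℂ) (f : ℝ → ℝ) {m M : ℝ} (h : a.im ∈ Set.Icc m M) :
    ∫ y in m..M, H a y * f y = ∫ y in m..a.im, f y := by
  rw [H_mul]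
  exact integral_indicator h

theorem integral_sg (a b : ℂ) {m M : ℝ} (ha : a.im ∈ Set.Icc m M) (hb : b.im ∈ Set.Icc m M) :
    ∫ y in m..M, sg a b y * X a b y = (a.re + b.re) * (b.im - a.im) / 2 := by
  have h1 : (fun y => sg a b y * X a b y) = fun y => H b y * X a b y - H a y * X a b y := by
    funext y
    unfold sg
    ring
  rw [h1, integral_sub (integrable_H b (continuous_X a b) m M)
    (integrable_H a (continuous_X a b) m M), integral_H b _ hb, integral_H a _ ha,
    integral_interval_sub_left ((continuous_X a b).intervalIntegrable _ _)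
    ((continuous_X a b).intervalIntegrable _ _), integral_X]

theorem integrable_sg (a b : ℂ) (m M : ℝ) :
    IntervalIntegrable (fun y => sg a b y * X a b y) volume m M := by
  have h1 : (fun y => sg a b y * X a b y) = fun y => H b y * X a b y - H a y * X a b y := by
    funext y
    unfold sg
    ring
  rw [h1]
  exact (integrable_H b (continuous_X a b) m M).sub (integrable_H a (continuous_X a b) m M)

/-- A simple closed polygon has nonzero signed area. -/
theorem SPoly.area_ne (h : SPoly n q) :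
    ∑ i ∈ range n, ((q i).re * (q (i + 1)).im - (q i).im * (q (i + 1)).re) ≠ 0 := by
  obtain ⟨l, hl⟩ := h.L_eq
  have hn : (range n).Nonempty := ⟨0, mem_range.2 (by have := h.three; omega)⟩
  obtain ⟨i, hi, hmin⟩ := exists_min_image (range n) (fun j => (q j).im) hn
  obtain ⟨j, hj, hmax⟩ := exists_max_image (range n) (fun j => (q j).im) hn
  rw [mem_range] at hi hj
  set m := (q i).im with hm
  set M := (q j).im with hM
  have hq : ∀ k ≤ n, (q k).im ∈ Set.Icc m M := by
    intro k hk
    rcases hk.lt_or_eq with h1 | h1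
    · exact ⟨hmin k (mem_range.2 h1), hmax k (mem_range.2 h1)⟩
    · have h2 : 0 ∈ range n := mem_range.2 (by omega)
      rw [h1, h.closed]
      exact ⟨hmin 0 h2, hmax 0 h2⟩
  have hmM : m < M := by
    obtain ⟨a, ha, b, hb, hab⟩ := h.exists_heights
    exact lt_of_le_of_lt (hq a ha.le).1 (lt_of_lt_of_le hab (hq b hb.le).2)
  set g : ℝ → ℝ := fun y => ∑ i ∈ range n, sg (q i) (q (i + 1)) y * X (q i) (q (i + 1)) y with hg
  have hgi : IntervalIntegrable g volume m M := by
    have h1 := IntervalIntegrable.sum (μ := volume) (a := m) (b := M) (range n)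
      (f := fun i y => sg (q i) (q (i + 1)) y * X (q i) (q (i + 1)) y)
      fun i _ => integrable_sg (q i) (q (i + 1)) m M
    have h2 : g = ∑ i ∈ range n, fun y => sg (q i) (q (i + 1)) y * X (q i) (q (i + 1)) y := by
      funext y
      rw [hg, Finset.sum_apply]
    rw [h2]
    exact h1
  have hint : ∫ y in m..M, g y =
      (∑ i ∈ range n, ((q i).re * (q (i + 1)).im - (q i).im * (q (i + 1)).re)) / 2 := by
    rw [hg]
    simp only
    rw [integral_finsetSum fun i _ => integrable_sg _ _ _ _, sum_div]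
    have h1 : ∀ i ∈ range n, ∫ y in m..M, sg (q i) (q (i + 1)) y * X (q i) (q (i + 1)) y =
        ((q i).re * (q (i + 1)).im - (q i).im * (q (i + 1)).re) / 2 +
        ((q (i + 1)).re * (q (i + 1)).im / 2 - (q i).re * (q i).im / 2) := by
      intro i hi
      rw [mem_range] at hi
      rw [integral_sg _ _ (hq i hi.le) (hq (i + 1) hi)]
      ring
    rw [sum_congr rfl h1, sum_add_distrib, sum_range_sub (fun i => (q i).re * (q i).im / 2),
      h.closed, sub_self, add_zero]
  -- the function is positive off a finite set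
  set F : Set ℝ := ↑((range (n + 1)).image fun j => (q j).im) with hF
  have hFfin : F.Finite := finite_toSet _
  have hpos : ∀ y ∈ Set.Ioo m M, y ∉ F → 0 < l / Real.pi * g y := by
    intro y hy hyF
    have hy' : ∀ j ≤ n, (q j).im ≠ y := by
      intro j hj he
      apply hyF
      rw [hF, mem_coe, mem_image]
      exact ⟨j, mem_range.2 (by omega), he⟩
    exact h.slice hl hy' (h.exists_sg hi.le hj.le hy.1 hy.2)
  classical
  have h1 : 0 < ∫ y in m..M, (if y ∈ F then 1 else l / Real.pi * g y) := by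
    refine intervalIntegral_pos_of_pos_on ?_ ?_ hmM
    · refine (hgi.const_mul (l / Real.pi)).congr_ae ?_
      have h2 : ∀ᵐ y ∂(volume : Measure ℝ), y ∉ F := hFfin.countable.ae_notMem _
      refine ae_restrict_of_ae (h2.mono fun y hy => ?_)
      simp only
      rw [if_neg hy]
    · intro y hy
      by_cases hyF : y ∈ F
      · rw [if_pos hyF]
        exact one_pos
      · rw [if_neg hyF]
        exact hpos y hy hyF
  have h2 : ∫ y in m..M, (if y ∈ F then 1 else l / Real.pi * g y) =
      ∫ y in m..M, l / Real.pi * g y := by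
    refine integral_congr_ae ?_
    have h3 : ∀ᵐ y ∂(volume : Measure ℝ), y ∉ F := hFfin.countable.ae_notMem _
    refine h3.mono fun y hy _ => ?_
    rw [if_neg hy]
  rw [h2, intervalIntegral.integral_const_mul, hint] at h1
  intro h0
  rw [h0, zero_div, mul_zero] at h1
  exact lt_irrefl _ h1

end LockPl.Orient

namespace LockPl

open Orient

theorem sum_darts {V : Type} {G : SimpleGraph V} (f : V → V → ℝ) {u v : V} (c : G.Walk u v) :
    (c.darts.map (fun d => f d.fst d.snd)).sum =
      ∑ i ∈ Finset.range c.length, f (c.getVert i) (c.getVert (i + 1)) := by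
  induction c with
  | nil => simp
  | cons h p ih =>
    rw [SimpleGraph.Walk.darts_cons, List.map_cons, List.sum_cons, ih,
      SimpleGraph.Walk.length_cons, Finset.sum_range_succ']
    simp only [SimpleGraph.Walk.getVert_cons_succ, SimpleGraph.Walk.getVert_zero]
    rw [add_comm]

theorem spoly {V : Type} {G : SimpleGraph V} {p : V → ℂ}
    (hp : ∀ u v, G.Adj u v → p u ≠ p v) (hnc : NonCrossing G p) {u : V} (c : G.Walk u u)
    (hc : c.IsCycle) : SPoly c.length (fun i => p (c.getVert i)) where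
  three := hc.three_le_length
  closed := by simp
  ne := fun i hi => hp _ _ (c.adj_getVert_succ hi)
  nc := by
    intro i j hij hj z h1 h2
    have h3 := hc.three_le_length
    have hi : i < c.length := by omega
    have hinj : ∀ a b, a < c.length → b < c.length → c.getVert a = c.getVert b → a = b := by
      intro a b ha hb hab
      exact hc.getVert_injOn' (by simp only [Set.mem_ofPred_eq]; omega)
        (by simp only [Set.mem_ofPred_eq]; omega) hab
    have hinj' : ∀ a b, 1 ≤ a → a ≤ c.length → 1 ≤ b → b ≤ c.length →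
        c.getVert a = c.getVert b → a = b := by
      intro a b ha ha' hb hb' hab
      exact hc.getVert_injOn (by simp only [Set.mem_ofPred_eq]; omega)
        (by simp only [Set.mem_ofPred_eq]; omega) hab
    have hedge : s(c.getVert i, c.getVert (i + 1)) ≠ s(c.getVert j, c.getVert (j + 1)) := by
      intro he
      have h4 : i < c.edges.length := by rw [SimpleGraph.Walk.length_edges]; exact hi
      have h5 : j < c.edges.length := by rw [SimpleGraph.Walk.length_edges]; exact hj
      rw [← SimpleGraph.Walk.getElem_edges h4, ← SimpleGraph.Walk.getElem_edges h5] at he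
      have h6 := (List.Nodup.getElem_inj_iff hc.edges_nodup).1 he
      omega
    obtain ⟨w, h4, h5, rfl⟩ := hnc _ _ _ _ (c.adj_getVert_succ hi) (c.adj_getVert_succ hj) hedge z
      h1 h2
    rcases h4 with rfl | rfl
    · rcases h5 with h5 | h5
      · have := hinj _ _ hi hj h5
        omega
      · right
        by_cases h6 : j + 1 = c.length
        · rw [h6, SimpleGraph.Walk.getVert_length] at h5
          have h7 : i = 0 := by
            rcases (hc.getVert_endpoint_iff hi.le).1 h5 with h8 | h8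
            · exact h8
            · omega
          subst h7
          exact ⟨rfl, h6, rfl⟩
        · have := hinj _ _ hi (by omega) h5
          omega
    · rcases h5 with h5 | h5
      · left
        have h6 := hinj' _ _ (by omega) (by omega) (by omega) (by omega) h5
        exact ⟨h6.symm, rfl⟩
      · have h6 := hinj' _ _ (by omega) (by omega) (by omega) (by omega) h5
        omega

/-- A cycle that is drawn without crossings has nonzero signed area. -/
theorem area_ne_zero {V : Type} {G : SimpleGraph V} {p : V → ℂ}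
    (hp : ∀ u v, G.Adj u v → p u ≠ p v) (hnc : NonCrossing G p) {u : V} (c : G.Walk u u)
    (hc : c.IsCycle) : area p c ≠ 0 := by
  unfold area
  rw [sum_darts (fun a b => (p a).re * (p b).im - (p a).im * (p b).re)]
  exact (spoly hp hnc c hc).area_ne

theorem sameOrientation_of_isotopy {V : Type} {G : SimpleGraph V} (P : ℝ → V → ℂ)
    (hcont : ∀ v, ContinuousOn (fun t => P t v) (Set.Icc 0 1))
    (h : ∀ t ∈ Set.Icc (0:ℝ) 1, NonCrossing G (P t) ∧ ∀ u v, G.Adj u v → P t u ≠ P t v) :
    SameOrientation G (P 0) (P 1) := by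
  intro u c hc
  have h1 : ContinuousOn (fun t => area (P t) c) (Set.Icc 0 1) := by
    have h2 : (fun t => area (P t) c) = fun t => ∑ i ∈ Finset.range c.length,
        ((P t (c.getVert i)).re * (P t (c.getVert (i + 1))).im -
          (P t (c.getVert i)).im * (P t (c.getVert (i + 1))).re) := by
      funext t
      unfold area
      rw [sum_darts (fun a b => (P t a).re * (P t b).im - (P t a).im * (P t b).re)]
    rw [h2]
    refine continuousOn_finsetSum _ fun i _ => ?_
    have hre : ∀ v, ContinuousOn (fun t => (P t v).re) (Set.Icc 0 1) := fun v =>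
      Complex.continuous_re.comp_continuousOn (hcont v)
    have him : ∀ v, ContinuousOn (fun t => (P t v).im) (Set.Icc 0 1) := fun v =>
      Complex.continuous_im.comp_continuousOn (hcont v)
    exact ((hre _).mul (him _)).sub ((him _).mul (hre _))
  have h3 : ∀ t ∈ Set.Icc (0 : ℝ) 1, area (P t) c ≠ 0 := fun t ht =>
    area_ne_zero (h t ht).2 (h t ht).1 c hc
  have h0 : (0 : ℝ) ∈ Set.Icc (0 : ℝ) 1 := by norm_num
  have h01 : (1 : ℝ) ∈ Set.Icc (0 : ℝ) 1 := by norm_num
  have hpre : IsPreconnected (Set.Icc (0 : ℝ) 1) := isPreconnected_Icc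
  constructor
  · intro h4
    by_contra h5
    have h6 := hpre.intermediate_value h01 h0 h1
    obtain ⟨t, ht, h7⟩ := h6 ⟨not_lt.1 h5, h4.le⟩
    exact h3 t ht h7
  · intro h4
    by_contra h5
    have h6 := hpre.intermediate_value h0 h01 h1
    obtain ⟨t, ht, h7⟩ := h6 ⟨not_lt.1 h5, h4.le⟩
    exact h3 t ht h7

end LockPl
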