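import Pool.Agent.Lib.MP_14e06f_lc.Plane.Mesh
import Mathlib.Analysis.Convex.PathConnected
import Mathlib.Topology.LocallyConstant.Basic

set_option autoImplicit false

/-!
# The components of the parameter space of a mesh
-/

namespace LockPl

/-! ### Compatible states -/

theorem exists_compat (m : Mesh) (x : (ℕ → ℝ) × (ℕ → ℝ)) : ∃ s, Compat m x s := by
  classical
  refine ⟨(fun j => decide (0 ≤ x.1 j), fun i => if 11 / 100 ≤ x.2 i then 1 else
    if x.2 i ≤ -(11 / 100) then -1 else 0), ?_, ?_⟩
  · intro j _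
    constructor
    · intro h; simpa using h
    · intro h
      have : ¬ 0 ≤ x.1 j := by simpa using h
      linarith
  · intro i _
    by_cases h1 : 11 / 100 ≤ x.2 i
    · simp [h1]
    · by_cases h2 : x.2 i ≤ -(11 / 100)
      · simp [h1, h2]
      · simp only [h1, h2, if_false]
        refine ⟨by decide, by decide, fun _ => ?_⟩
        rw [abs_le]
        constructor <;> linarith

/-! ### Numerical bounds -/

theorem sqrt_lb {a : ℝ} (h : |a| < 20 / 101) : 99 / 101 < √(1 - a ^ 2) := by
  have h2 : a ^ 2 < (20 / 101) ^ 2 := by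
    rw [← sq_abs a]
    exact pow_lt_pow_left₀ h (abs_nonneg a) (by norm_num)
  apply Real.lt_sqrt_of_sq_lt
  norm_num at h2 ⊢
  linarith

theorem sqrt_ub (a : ℝ) : √(1 - a ^ 2) ≤ 1 := by
  apply Real.sqrt_le_one.2
  nlinarith [sq_nonneg a]

theorem sqrt_lb' {a : ℝ} (h : |a| ≤ 9 / 50) : 98 / 100 < √(1 - a ^ 2) := by
  have h2 : a ^ 2 ≤ (9 / 50) ^ 2 := by
    rw [← sq_abs a]
    exact pow_le_pow_left₀ (abs_nonneg a) h 2
  apply Real.lt_sqrt_of_sq_lt
  norm_num at h2 ⊢
  linarith

theorem sqrt_anti {a b : ℝ} (h : |a| ≤ |b|) : √(1 - b ^ 2) ≤ √(1 - a ^ 2) := by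
  apply Real.sqrt_le_sqrt
  have := sq_le_sq' (a := |a|) (b := |b|) (by linarith [abs_nonneg a, abs_nonneg b]) h
  rw [sq_abs, sq_abs] at this
  linarith

theorem sqrt_conc {a a' t : ℝ} (ha : |a| < 20 / 101) (ha' : |a'| < 20 / 101)
    (h0 : 0 ≤ t) (h1 : t ≤ 1) :
    (1 - t) * √(1 - a ^ 2) + t * √(1 - a' ^ 2) ≤ √(1 - ((1 - t) * a + t * a') ^ 2) := by
  have e1 : a ^ 2 ≤ 1 := by
    rw [← sq_abs a]; nlinarith [abs_nonneg a]
  have e2 : a' ^ 2 ≤ 1 := by
    rw [← sq_abs a']; nlinarith [abs_nonneg a']
  set c := √(1 - a ^ 2) with hc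
  set c' := √(1 - a' ^ 2) with hc'
  have hc2 : c ^ 2 = 1 - a ^ 2 := Real.sq_sqrt (by linarith)
  have hc2' : c' ^ 2 = 1 - a' ^ 2 := Real.sq_sqrt (by linarith)
  apply Real.le_sqrt_of_sq_le
  nlinarith [mul_nonneg (mul_nonneg h0 (sub_nonneg.2 h1))
    (add_nonneg (sq_nonneg (c - c')) (sq_nonneg (a - a')))]

/-! ### Free -/

theorem free_false (σ : SignType) (hh A B : ℝ) :
    Free (some (σ, false)) hh A B ↔ Free (some (-σ, true)) hh (-A) (-B) := by
  unfold Free
  cases σ <;> simp [al, sg]

theorem free_none {A B : ℝ} (hB : |B| < 20 / 101) : Free none 1890 A B := by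
  intro h
  have h1 := h.1
  have h2 := sqrt_ub A
  have := abs_lt.1 hB
  simp [al, sg] at h1
  linarith

theorem free_iff (σ : SignType) (A B : ℝ) : Free (some (σ, true)) 1890 A B ↔
    (189 / 170 < A + √(1 - B ^ 2)) ∨ (√(1 - A ^ 2) - B < 2 * (al (some (σ, true)) : ℝ) / 3400) ∨
      (2 * ((al (some (σ, true)) : ℝ) + 480) / 3400 < √(1 - A ^ 2) - B) := by
  unfold Free
  have : sg (some (σ, true)) = 1 := rfl
  rw [this]
  constructor
  · intro h
    by_contra hc
    push Not at hc
    obtain ⟨h1, h2, h3⟩ := hc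
    apply h
    refine ⟨?_, ?_, ?_⟩ <;> linarith
  · rintro (h | h | h) ⟨h1, h2, h3⟩ <;> linarith

theorem al_pos : (al (some (1, true)) : ℝ) = 1050 := by
  norm_num [al, show (1 : SignType) = SignType.pos from rfl]

theorem al_neg : (al (some (-1, true)) : ℝ) = 1710 := by
  norm_num [al, show (-1 : SignType) = SignType.neg from rfl]

theorem al_zero : (al (some (0, true)) : ℝ) = 1470 := by
  norm_num [al, show (0 : SignType) = SignType.zero from rfl]

theorem free_pos (A B : ℝ) : Free (some (1, true)) 1890 A B ↔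
    (189 / 170 < A + √(1 - B ^ 2)) ∨ (√(1 - A ^ 2) - B < 21 / 34) ∨
      (9 / 10 < √(1 - A ^ 2) - B) := by
  rw [free_iff, al_pos]
  norm_num

theorem free_neg (A B : ℝ) : Free (some (-1, true)) 1890 A B ↔
    (189 / 170 < A + √(1 - B ^ 2)) ∨ (√(1 - A ^ 2) - B < 171 / 170) ∨
      (219 / 170 < √(1 - A ^ 2) - B) := by
  rw [free_iff, al_neg]
  norm_num

theorem free_zero (A B : ℝ) : Free (some (0, true)) 1890 A B ↔
    (189 / 170 < A + √(1 - B ^ 2)) ∨ (√(1 - A ^ 2) - B < 147 / 170) ∨
      (39 / 34 < √(1 - A ^ 2) - B) := by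
  rw [free_iff, al_zero]
  norm_num

/-- A compatible state satisfies the constraint (true case). -/
theorem ok_true {σ : SignType} {A B : ℝ} (hA : |A| < 20 / 101) (hB : |B| < 20 / 101)
    (hf : Free (some (σ, true)) 1890 A B) (h1 : σ = 1 → 11 / 100 ≤ B)
    (h2 : σ = -1 → B ≤ -(11 / 100)) (h3 : σ = 0 → |B| ≤ 11 / 100) : 0 < A := by
  by_contra hc
  push Not at hc
  have a1 := sqrt_lb hA
  have a2 := sqrt_ub A
  have a3 := sqrt_ub B
  have b := abs_lt.1 hB
  rcases SignType.trichotomy σ with h | h | h <;> subst h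
  · rw [free_neg] at hf
    have := h2 rfl
    rcases hf with hf | hf | hf <;> linarith
  · rw [free_zero] at hf
    have := abs_le.1 (h3 rfl)
    rcases hf with hf | hf | hf <;> linarith
  · rw [free_pos] at hf
    have := h1 rfl
    rcases hf with hf | hf | hf <;> linarith

theorem compat_ok (m : Mesh) {x : (ℕ → ℝ) × (ℕ → ℝ)} {s : State} (hx : x ∈ ParamSet m)
    (h : Compat m x s) : StOK m s := by
  intro i hi j hj σ v hC hσ
  have hA := hx.1.1 j
  have hB := hx.1.2 i
  have hf := hx.2 i hi j hj
  rw [hC] at hf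
  have hc := h.1 j hj
  have hr := h.2 i hi
  subst hσ
  cases v
  · rw [free_false] at hf
    by_contra hv
    have hv : s.1 j = true := by simpa using hv
    have h0 := hc.1 hv
    have := ok_true (by rwa [abs_neg]) (by rwa [abs_neg]) hf
      (fun e => by
        have := hr.2.1 (by rw [← neg_neg (s.2 i), e])
        linarith)
      (fun e => by
        have := hr.1 (by rw [← neg_neg (s.2 i), e]; rfl)
        linarith)
      (fun e => by
        rw [abs_neg]
        exact hr.2.2 (by rw [← neg_neg (s.2 i), e]; rfl))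
    linarith
  · by_contra hv
    have hv : s.1 j = false := by simpa using hv
    have h0 := hc.2 hv
    have := ok_true hA hB hf hr.1 hr.2.1 hr.2.2
    linarith

/-- Two states compatible with the same parameters are connected. -/
theorem compat_conn (m : Mesh) {x : (ℕ → ℝ) × (ℕ → ℝ)} {s t : State} (hx : x ∈ ParamSet m)
    (h : Compat m x s) (h' : Compat m x t) : StConn m s t := by
  -- change the columns one after the other
  let u : ℕ → State := fun k => (fun j => if j < k then t.1 j else s.1 j, s.2)
  have hu : ∀ k, Compat m x (u k) := by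
    intro k
    refine ⟨fun j hj => ?_, h.2⟩
    by_cases hk : j < k
    · simpa [u, hk] using h'.1 j hj
    · simpa [u, hk] using h.1 j hj
  have h1 : ∀ k, StConn m s (u k) := by
    intro k
    induction k with
    | zero =>
      have : u 0 = s := by simp [u]
      rw [this]
      exact Relation.EqvGen.refl _
    | succ k ih =>
      refine Relation.EqvGen.trans _ _ _ ih (Relation.EqvGen.rel _ _ ⟨compat_ok m hx (hu k),
        compat_ok m hx (hu (k + 1)), Or.inl ⟨fun i _ => rfl, k, fun j _ hjk => ?_⟩⟩)
      simp only [u]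
      by_cases hk : j < k
      · simp [hk, show j < k + 1 by omega]
      · simp [hk, show ¬ j < k + 1 by omega]
  -- change the rows one after the other
  let w : ℕ → State := fun k => (t.1, fun i => if i < k then t.2 i else s.2 i)
  have hw : ∀ k, Compat m x (w k) := by
    intro k
    refine ⟨h'.1, fun i hi => ?_⟩
    by_cases hk : i < k
    · simpa [w, hk] using h'.2 i hi
    · simpa [w, hk] using h.2 i hi
  have h2 : ∀ k, StConn m (w 0) (w k) := by
    intro k
    induction k with
    | zero => exact Relation.EqvGen.refl _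
    | succ k ih =>
      refine Relation.EqvGen.trans _ _ _ ih ?_
      by_cases hkN : k < m.N
      · have hsk := h.2 k hkN
        have htk := h'.2 k hkN
        have hcase : s.2 k = t.2 k ∨ (s.2 k = 0 ∨ t.2 k = 0) := by
          rcases SignType.trichotomy (s.2 k) with e | e | e <;>
            rcases SignType.trichotomy (t.2 k) with e' | e' | e' <;> rw [e, e']
          · left; rfl
          · right; right; rfl
          · have := hsk.2.1 e
            have := htk.1 e'
            linarith
          · right; left; rfl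
          · left; rfl
          · right; left; rfl
          · have := hsk.1 e
            have := htk.2.1 e'
            linarith
          · right; right; rfl
          · left; rfl
        rcases hcase with e | e
        · have : w (k + 1) = w k := by
            simp only [w, Prod.mk.injEq, true_and]
            funext i
            by_cases hi : i < k
            · simp [hi, show i < k + 1 by omega]
            · by_cases hi' : i = k
              · subst hi'; simp [e]
              · simp [hi, show ¬ i < k + 1 by omega]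
          rw [this]
          exact Relation.EqvGen.refl _
        · refine Relation.EqvGen.rel _ _ ⟨compat_ok m hx (hw k), compat_ok m hx (hw (k + 1)),
            Or.inr ⟨fun j _ => rfl, k, fun i _ hik => ?_, ?_⟩⟩
          · simp only [w]
            by_cases hk : i < k
            · simp [hk, show i < k + 1 by omega]
            · simp [hk, show ¬ i < k + 1 by omega]
          · simpa [w] using e
      · refine Relation.EqvGen.rel _ _ ⟨compat_ok m hx (hw k), compat_ok m hx (hw (k + 1)),
            Or.inl ⟨fun i hi => ?_, 0, fun j _ _ => rfl⟩⟩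
        simp only [w]
        by_cases hk : i < k
        · simp [hk, show i < k + 1 by omega]
        · omega
  -- glue
  have h3 : StConn m (u m.M) (w 0) := by
    refine Relation.EqvGen.rel _ _ ⟨compat_ok m hx (hu m.M), compat_ok m hx (hw 0),
      Or.inl ⟨fun i _ => ?_, 0, fun j hj _ => ?_⟩⟩
    · simp [u, w]
    · simp [u, w, hj]
  have h4 : StConn m (w m.N) t := by
    refine Relation.EqvGen.rel _ _ ⟨compat_ok m hx (hw m.N), compat_ok m hx h',
      Or.inl ⟨fun i hi => ?_, 0, fun j hj _ => rfl⟩⟩
    simp [w, hi]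
  exact Relation.EqvGen.trans _ _ _ (h1 m.M) (Relation.EqvGen.trans _ _ _ h3
    (Relation.EqvGen.trans _ _ _ (h2 m.N) h4))

/-! ### Separation -/

theorem compat_near (m : Mesh) (x : (ℕ → ℝ) × (ℕ → ℝ)) :
    ∀ᶠ y in nhds x, ∀ t, Compat m y t → Compat m x t := by
  have c1 : ∀ j, Continuous (fun y : (ℕ → ℝ) × (ℕ → ℝ) => y.1 j) := fun j =>
    (continuous_apply j).comp continuous_fst
  have c2 : ∀ i, Continuous (fun y : (ℕ → ℝ) × (ℕ → ℝ) => y.2 i) := fun i =>
    (continuous_apply i).comp continuous_snd
  have gt : ∀ (f : (ℕ → ℝ) × (ℕ → ℝ) → ℝ) (_ : Continuous f) (c : ℝ),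
      ∀ᶠ y in nhds x, (f x < c → f y < c) := by
    intro f hf c
    by_cases h : f x < c
    · filter_upwards [hf.continuousAt.eventually_lt_const h] with y hy _ using hy
    · filter_upwards with y hy using absurd hy h
  have lt : ∀ (f : (ℕ → ℝ) × (ℕ → ℝ) → ℝ) (_ : Continuous f) (c : ℝ),
      ∀ᶠ y in nhds x, (c < f x → c < f y) := by
    intro f hf c
    by_cases h : c < f x
    · filter_upwards [hf.continuousAt.eventually_const_lt h] with y hy _ using hy
    · filter_upwards with y hy using absurd hy h
  have e1 : ∀ᶠ y in nhds x, ∀ j ∈ Finset.range m.M,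
      (x.1 j < 0 → y.1 j < 0) ∧ (0 < x.1 j → 0 < y.1 j) := by
    rw [Filter.eventually_all_finset]
    intro j _
    exact (gt _ (c1 j) 0).and (lt _ (c1 j) 0)
  have e2 : ∀ᶠ y in nhds x, ∀ i ∈ Finset.range m.N,
      ((x.2 i < 11 / 100 → y.2 i < 11 / 100) ∧ (x.2 i < -(11 / 100) → y.2 i < -(11 / 100))) ∧
      ((11 / 100 < x.2 i → 11 / 100 < y.2 i) ∧ (-(11 / 100) < x.2 i → -(11 / 100) < y.2 i)) := by
    rw [Filter.eventually_all_finset]
    intro i _
    exact ((gt _ (c2 i) _).and (gt _ (c2 i) _)).and ((lt _ (c2 i) _).and (lt _ (c2 i) _))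
  filter_upwards [e1, e2] with y h1 h2 t ht
  refine ⟨fun j hj => ⟨fun hb => ?_, fun hb => ?_⟩, fun i hi => ⟨fun hb => ?_, fun hb => ?_,
    fun hb => ?_⟩⟩
  · by_contra hc
    have := (h1 j (Finset.mem_range.2 hj)).1 (by linarith)
    have := (ht.1 j hj).1 hb
    linarith
  · by_contra hc
    have := (h1 j (Finset.mem_range.2 hj)).2 (by linarith)
    have := (ht.1 j hj).2 hb
    linarith
  · by_contra hc
    have := (h2 i (Finset.mem_range.2 hi)).1.1 (by linarith)
    have := (ht.2 i hi).1 hb
    linarith
  · by_contra hc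
    have := (h2 i (Finset.mem_range.2 hi)).2.2 (by linarith)
    have := (ht.2 i hi).2.1 hb
    linarith
  · have h3 := abs_le.1 ((ht.2 i hi).2.2 hb)
    rw [abs_le]
    constructor
    · by_contra hc
      have := (h2 i (Finset.mem_range.2 hi)).1.2 (by linarith)
      linarith
    · by_contra hc
      have := (h2 i (Finset.mem_range.2 hi)).2.1 (by linarith)
      linarith

theorem sep (m : Mesh) {x y : (ℕ → ℝ) × (ℕ → ℝ)} {s t : State}
    (hxy : JoinedIn (ParamSet m) x y) (h : Compat m x s) (h' : Compat m y t) :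
    StConn m s t := by
  obtain ⟨γ, hγ⟩ := hxy
  choose c hc using fun x => exists_compat m x
  let S : Setoid State := Relation.EqvGen.setoid (StMove m)
  let f : unitInterval → Quotient S := fun τ => Quotient.mk S (c (γ τ))
  have hf : IsLocallyConstant f := by
    rw [IsLocallyConstant.iff_eventually_eq]
    intro τ
    have := γ.continuous.continuousAt.eventually (compat_near m (γ τ))
    filter_upwards [this] with τ' hτ'
    apply Quotient.sound
    exact compat_conn m (hγ τ) (hτ' _ (hc _)) (hc _)
  have h01 : f 0 = f 1 := hf.apply_eq_of_preconnectedSpace 0 1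
  have hcc : StConn m (c (γ 0)) (c (γ 1)) := Quotient.exact h01
  have hx := hγ 0
  have hy := hγ 1
  rw [γ.source] at hcc hx
  rw [γ.target] at hcc hy
  exact Relation.EqvGen.trans _ _ _ (compat_conn m hx h (hc x))
    (Relation.EqvGen.trans _ _ _ hcc (compat_conn m hy (hc y) h'))

/-! ### Free along segments -/

/-- Far from the thresholds the constraint decides (true case). -/
theorem far_true (σ r : SignType) {A B : ℝ} (hA : |A| < 20 / 101) (hB : |B| < 20 / 101)
    (hb : 9 / 50 ≤ A ∨ r ≠ σ)
    (hr : (r = 1 → 9 / 50 ≤ B) ∧ (r = -1 → B ≤ -(9 / 50)) ∧ (r = 0 → B = 0)) :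
    Free (some (σ, true)) 1890 A B := by
  have a1 := sqrt_lb hA
  have a2 := sqrt_ub A
  have b1 := sqrt_lb hB
  rcases hb with hb | hb
  · rw [free_iff]
    left
    linarith
  · have b := abs_lt.1 hB
    rcases SignType.trichotomy σ with h | h | h <;>
      rcases SignType.trichotomy r with h' | h' | h' <;> subst h <;> subst h' <;>
      first
      | exact absurd rfl hb
      | skip
    · rw [free_neg]
      have := hr.2.2 rfl
      right; left; linarith
    · rw [free_neg]
      have := hr.1 rfl
      right; left; linarith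
    · rw [free_zero]
      have := hr.2.1 rfl
      right; right; linarith
    · rw [free_zero]
      have := hr.1 rfl
      right; left; linarith
    · rw [free_pos]
      have := hr.2.1 rfl
      right; right; linarith
    · rw [free_pos]
      have := hr.2.2 rfl
      right; right; linarith

/-- Far from the thresholds the constraint decides. -/
theorem far (o : Option (SignType × Bool)) (b : Bool) (r : SignType) {A B : ℝ}
    (hA : |A| < 20 / 101) (hB : |B| < 20 / 101)
    (hb : (b = true → 9 / 50 ≤ A) ∧ (b = false → A ≤ -(9 / 50)))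
    (hr : (r = 1 → 9 / 50 ≤ B) ∧ (r = -1 → B ≤ -(9 / 50)) ∧ (r = 0 → B = 0))
    (hok : ∀ σ v, o = some (σ, v) → r = σ → b = v) : Free o 1890 A B := by
  rcases o with _ | ⟨σ, v⟩
  · exact free_none hB
  · have hok := hok σ v rfl
    cases v
    · rw [free_false]
      refine far_true (-σ) (-r) (by rwa [abs_neg]) (by rwa [abs_neg]) ?_ ⟨?_, ?_, ?_⟩
      · cases b
        · left; have := hb.2 rfl; linarith
        · right
          intro e
          exact absurd (hok (neg_injective e)) (by decide)
      · intro e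
        have := hr.2.1 (by rw [← neg_neg r, e])
        linarith
      · intro e
        have := hr.1 (by rw [← neg_neg r, e]; rfl)
        linarith
      · intro e
        have := hr.2.2 (by rw [← neg_neg r, e]; rfl)
        linarith
    · refine far_true σ r hA hB ?_ hr
      cases b
      · right
        intro e
        exact absurd (hok e) (by decide)
      · left; exact hb.1 rfl

theorem abs_conv {a a' t c : ℝ} (ha : |a| < c) (ha' : |a'| < c) (h0 : 0 ≤ t) (h1 : t ≤ 1) :
    |(1 - t) * a + t * a'| < c := by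
  rw [abs_lt] at *
  constructor
  · by_cases h : t = 0
    · subst h; linarith
    · have : 0 < t := lt_of_le_of_ne h0 (Ne.symm h)
      nlinarith
  · by_cases h : t = 0
    · subst h; linarith
    · have : 0 < t := lt_of_le_of_ne h0 (Ne.symm h)
      nlinarith

/-- Moving away from the thresholds (true case). -/
theorem near_true (σ : SignType) {A B A' B' t : ℝ} (hA : |A| < 20 / 101) (hB : |B| < 20 / 101)
    (hA' : |A'| < 20 / 101) (hB' : |B'| < 20 / 101)
    (hAA : (0 ≤ A ∧ A ≤ A' ∧ 9 / 50 ≤ A') ∨ (A ≤ 0 ∧ A' ≤ A ∧ A' ≤ -(9 / 50)))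
    (hBB : (11 / 100 ≤ B ∧ B ≤ B' ∧ 9 / 50 ≤ B') ∨
      (B ≤ -(11 / 100) ∧ B' ≤ B ∧ B' ≤ -(9 / 50)) ∨ (|B| ≤ 11 / 100 ∧ B' = 0))
    (h0 : 0 ≤ t) (h1 : t ≤ 1) (hf : Free (some (σ, true)) 1890 A B) :
    Free (some (σ, true)) 1890 ((1 - t) * A + t * A') ((1 - t) * B + t * B') := by
  have h1' : 0 ≤ 1 - t := by linarith
  have At := abs_conv hA hA' h0 h1
  have Bt := abs_conv hB hB' h0 h1
  have cA := sqrt_conc hA hA' h0 h1
  have cB := sqrt_conc hB hB' h0 h1
  have lA := sqrt_lb hA
  have lA' := sqrt_lb hA'
  have lB' := sqrt_lb hB'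
  have lAt := sqrt_lb At
  have uAt := sqrt_ub ((1 - t) * A + t * A')
  have uB := sqrt_ub B
  have uA := sqrt_ub A
  have bA := abs_lt.1 hA
  have bB := abs_lt.1 hB
  have bB' := abs_lt.1 hB'
  have mono : √(1 - ((1 - t) * A + t * A') ^ 2) ≤ √(1 - A ^ 2) := by
    apply sqrt_anti
    rcases hAA with ⟨p, q, _⟩ | ⟨p, q, _⟩
    · rw [abs_of_nonneg p, abs_of_nonneg (by nlinarith)]
      nlinarith
    · rw [abs_of_nonpos p, abs_of_nonpos (by nlinarith)]
      nlinarith
  by_cases hY : 189 / 170 < A + √(1 - B ^ 2)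
  · -- Y stays large
    have hA0 : 9 / 50 ≤ A' := by
      rcases hAA with ⟨_, _, h⟩ | ⟨h, _, _⟩
      · exact h
      · linarith
    rw [free_iff]
    left
    have e1 : 0 ≤ (1 - t) * (A + √(1 - B ^ 2) - 189 / 170) :=
      mul_nonneg h1' (by linarith)
    have e2 : 0 ≤ t * (A' + √(1 - B' ^ 2) - 189 / 170) := mul_nonneg h0 (by linarith)
    by_cases ht : t = 0
    · subst ht
      norm_num
      linarith
    · have : 0 < t * (A' + √(1 - B' ^ 2) - 189 / 170) :=
        mul_pos (lt_of_le_of_ne h0 (Ne.symm ht)) (by linarith)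
      nlinarith
  · rcases SignType.trichotomy σ with h | h | h <;> subst h
    · -- neg
      rw [free_neg] at hf ⊢
      right; left
      have hX : √(1 - A ^ 2) - B < 171 / 170 := by
        rcases hf with hf | hf | hf
        · exact absurd hf hY
        · exact hf
        · linarith
      rcases hBB with ⟨p, q, r⟩ | ⟨p, q, r⟩ | ⟨p, q⟩
      · have : 0 ≤ t * (B' - B) := mul_nonneg h0 (by linarith)
        nlinarith
      · linarith
      · subst q
        rcases le_total B 0 with hB0 | hB0
        · have : 0 ≤ t * (0 - B) := mul_nonneg h0 (by linarith)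
          nlinarith
        · have : 0 ≤ (1 - t) * B := mul_nonneg h1' hB0
          nlinarith
    · -- zero
      rw [free_zero] at hf ⊢
      rcases hBB with ⟨p, q, r⟩ | ⟨p, q, r⟩ | ⟨p, q⟩
      · right; left
        have hX : √(1 - A ^ 2) - B < 147 / 170 := by
          rcases hf with hf | hf | hf
          · exact absurd hf hY
          · exact hf
          · linarith
        have : 0 ≤ t * (B' - B) := mul_nonneg h0 (by linarith)
        nlinarith
      · right; right
        have hX : 39 / 34 < √(1 - A ^ 2) - B := by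
          rcases hf with hf | hf | hf
          · exact absurd hf hY
          · linarith
          · exact hf
        have e1 : 0 ≤ (1 - t) * (√(1 - A ^ 2) - B - 39 / 34) := mul_nonneg h1' (by linarith)
        have e2 : 0 ≤ t * (√(1 - A' ^ 2) - B' - 39 / 34) := mul_nonneg h0 (by linarith)
        by_cases ht : t = 0
        · subst ht
          norm_num
          linarith
        · have : 0 < t * (√(1 - A' ^ 2) - B' - 39 / 34) :=
            mul_pos (lt_of_le_of_ne h0 (Ne.symm ht)) (by linarith)
          nlinarith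
      · exfalso
        have := abs_le.1 p
        rcases hf with hf | hf | hf
        · exact hY hf
        · linarith
        · linarith
    · -- pos
      rw [free_pos] at hf ⊢
      right; right
      have hX : 9 / 10 < √(1 - A ^ 2) - B := by
        rcases hf with hf | hf | hf
        · exact absurd hf hY
        · linarith
        · exact hf
      rcases hBB with ⟨p, q, r⟩ | ⟨p, q, r⟩ | ⟨p, q⟩
      · linarith
      · have : 0 ≤ t * (B - B') := mul_nonneg h0 (by linarith)
        nlinarith
      · subst q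
        have e1 : 0 ≤ (1 - t) * (√(1 - A ^ 2) - B - 9 / 10) := mul_nonneg h1' (by linarith)
        by_cases ht : t = 0
        · subst ht
          norm_num
          linarith
        · have : 0 < t * (√(1 - A' ^ 2) - 9 / 10) :=
            mul_pos (lt_of_le_of_ne h0 (Ne.symm ht)) (by linarith)
          nlinarith

/-- Moving away from the thresholds. -/
theorem near (o : Option (SignType × Bool)) {A B A' B' t : ℝ} (hA : |A| < 20 / 101)
    (hB : |B| < 20 / 101) (hA' : |A'| < 20 / 101) (hB' : |B'| < 20 / 101)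
    (hAA : (0 ≤ A ∧ A ≤ A' ∧ 9 / 50 ≤ A') ∨ (A ≤ 0 ∧ A' ≤ A ∧ A' ≤ -(9 / 50)))
    (hBB : (11 / 100 ≤ B ∧ B ≤ B' ∧ 9 / 50 ≤ B') ∨
      (B ≤ -(11 / 100) ∧ B' ≤ B ∧ B' ≤ -(9 / 50)) ∨ (|B| ≤ 11 / 100 ∧ B' = 0))
    (h0 : 0 ≤ t) (h1 : t ≤ 1) (hf : Free o 1890 A B) :
    Free o 1890 ((1 - t) * A + t * A') ((1 - t) * B + t * B') := by
  rcases o with _ | ⟨σ, v⟩
  · exact free_none (abs_conv hB hB' h0 h1)
  · cases v
    · rw [free_false] at hf ⊢
      have := near_true (-σ) (A := -A) (B := -B) (A' := -A') (B' := -B') (t := t)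
        (by rwa [abs_neg]) (by rwa [abs_neg]) (by rwa [abs_neg]) (by rwa [abs_neg]) (by
          rcases hAA with ⟨p, q, r⟩ | ⟨p, q, r⟩
          · right; refine ⟨?_, ?_, ?_⟩ <;> linarith
          · left; refine ⟨?_, ?_, ?_⟩ <;> linarith) (by
          rcases hBB with ⟨p, q, r⟩ | ⟨p, q, r⟩ | ⟨p, q⟩
          · right; left; refine ⟨?_, ?_, ?_⟩ <;> linarith
          · left; refine ⟨?_, ?_, ?_⟩ <;> linarith
          · right; right; exact ⟨by rwa [abs_neg], by linarith⟩) h0 h1 hf
      convert this using 1 <;> ring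
    · exact near_true σ hA hB hA' hB' hAA hBB h0 h1 hf

/-- A row move with a column in the wrong position (true case). -/
theorem row_true (σ r : SignType) {A B : ℝ} (hA : |A| < 20 / 101) (hB : |B| ≤ 9 / 50)
    (hb : 9 / 50 ≤ A ∨ (σ ≠ 0 ∧ r ≠ σ ∧ r ≠ 0))
    (hr : (r = 1 → 0 ≤ B) ∧ (r = -1 → B ≤ 0)) :
    Free (some (σ, true)) 1890 A B := by
  have a1 := sqrt_lb hA
  have a2 := sqrt_ub A
  have b1 := sqrt_lb' hB
  rcases hb with hb | ⟨hb1, hb2, hb3⟩
  · rw [free_iff]
    left
    linarith
  · rcases SignType.trichotomy σ with h | h | h <;>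
      rcases SignType.trichotomy r with h' | h' | h' <;> subst h <;> subst h' <;>
      first
      | exact absurd rfl hb1
      | exact absurd rfl hb2
      | exact absurd rfl hb3
      | skip
    · rw [free_neg]
      have := hr.1 rfl
      right; left; linarith
    · rw [free_pos]
      have := hr.2 rfl
      right; right; linarith

/-- A column move: the row is not in the position of the constraint (true case). -/
theorem col_true (σ r : SignType) {A B : ℝ} (hA : |A| ≤ 9 / 50) (hB : |B| ≤ 9 / 50)
    (hb : r ≠ σ)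
    (hr : (r = 1 → B = 9 / 50) ∧ (r = -1 → B = -(9 / 50)) ∧ (r = 0 → B = 0)) :
    Free (some (σ, true)) 1890 A B := by
  refine far_true σ r (by linarith) (by linarith) (Or.inr hb) ⟨fun h => ?_, fun h => ?_, hr.2.2⟩
  · rw [hr.1 h]
  · rw [hr.2.1 h]

/-! ### Paths in the parameter space -/

theorem box_conv {x y : (ℕ → ℝ) × (ℕ → ℝ)} (hx : Box x) (hy : Box y) {t : ℝ} (h0 : 0 ≤ t)
    (h1 : t ≤ 1) : Box ((1 - t) • x + t • y) := by
  refine ⟨fun j => ?_, fun i => ?_⟩
  · simpa using abs_conv (hx.1 j) (hy.1 j) h0 h1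
  · simpa using abs_conv (hx.2 i) (hy.2 i) h0 h1

/-- A segment along which every hole stays free is a path of the parameter space. -/
theorem joined_of_free (m : Mesh) {x y : (ℕ → ℝ) × (ℕ → ℝ)} (hx : Box x) (hy : Box y)
    (h : ∀ t : ℝ, 0 ≤ t → t ≤ 1 → ∀ i < m.N, ∀ j < m.M,
      Free (m.C i j) 1890 ((1 - t) * x.1 j + t * y.1 j) ((1 - t) * x.2 i + t * y.2 i)) :
    JoinedIn (ParamSet m) x y := by
  apply JoinedIn.of_segment_subset
  rintro z ⟨a, b, ha, hb, hab, rfl⟩
  have ha' : a = 1 - b := by linarith
  subst ha'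
  refine ⟨box_conv hx hy hb (by linarith), fun i hi j hj => ?_⟩
  simpa using h b hb (by linarith) i hi j hj

theorem sign_val (r : SignType) : (r = 1 ∧ ((r : ℤ) : ℝ) = 1) ∨ (r = 0 ∧ ((r : ℤ) : ℝ) = 0) ∨
    (r = -1 ∧ ((r : ℤ) : ℝ) = -1) := by
  rcases SignType.trichotomy r with h | h | h <;> subst h <;> simp

theorem box_canon (s : State) : Box (canon s) := by
  refine ⟨fun j => ?_, fun i => ?_⟩
  · simp only [canon]
    split <;> rw [abs_lt] <;> constructor <;> norm_num
  · simp only [canon]
    rcases sign_val (s.2 i) with h | h | h <;> rw [h.2, abs_lt] <;> constructor <;> norm_num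

theorem canon_row (s : State) (i : ℕ) : (s.2 i = 1 → (canon s).2 i = 9 / 50) ∧
    (s.2 i = -1 → (canon s).2 i = -(9 / 50)) ∧ (s.2 i = 0 → (canon s).2 i = 0) := by
  refine ⟨fun h => ?_, fun h => ?_, fun h => ?_⟩ <;> simp only [canon, h] <;> norm_num

theorem canon_col (s : State) (j : ℕ) : (s.1 j = true → (canon s).1 j = 9 / 50) ∧
    (s.1 j = false → (canon s).1 j = -(9 / 50)) := by
  refine ⟨fun h => ?_, fun h => ?_⟩ <;> simp [canon, h]

theorem canon_mem (m : Mesh) {s : State} (h : StOK m s) : canon s ∈ ParamSet m := by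
  refine ⟨box_canon s, fun i hi j hj => ?_⟩
  have hc := canon_col s j
  have hr := canon_row s i
  exact far _ (s.1 j) (s.2 i) ((box_canon s).1 j) ((box_canon s).2 i)
    ⟨fun e => (hc.1 e).ge, fun e => (hc.2 e).le⟩
    ⟨fun e => (hr.1 e).ge, fun e => (hr.2.1 e).le, hr.2.2⟩
    (fun σ v hC hσ => h i hi j hj σ v hC hσ)

theorem canon_compat (m : Mesh) (s : State) : Compat m (canon s) s := by
  refine ⟨fun j _ => ⟨fun e => ?_, fun e => ?_⟩, fun i _ => ⟨fun e => ?_, fun e => ?_,
    fun e => ?_⟩⟩
  · rw [(canon_col s j).1 e]; norm_num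
  · rw [(canon_col s j).2 e]; norm_num
  · rw [(canon_row s i).1 e]; norm_num
  · rw [(canon_row s i).2.1 e]; norm_num
  · rw [(canon_row s i).2.2 e]; norm_num

theorem reach (m : Mesh) {x : (ℕ → ℝ) × (ℕ → ℝ)} (hx : x ∈ ParamSet m) :
    ∃ s, StOK m s ∧ Compat m x s ∧ JoinedIn (ParamSet m) x (canon s) := by
  classical
  let s : State := (fun j => decide (0 ≤ x.1 j), fun i => if 11 / 100 ≤ x.2 i then 1 else
    if x.2 i ≤ -(11 / 100) then -1 else 0)
  let y : (ℕ → ℝ) × (ℕ → ℝ) :=
    (fun j => if 0 ≤ x.1 j then max (x.1 j) (9 / 50) else min (x.1 j) (-(9 / 50)),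
     fun i => if 11 / 100 ≤ x.2 i then max (x.2 i) (9 / 50) else
      if x.2 i ≤ -(11 / 100) then min (x.2 i) (-(9 / 50)) else 0)
  -- columns
  have hcol : ∀ j, (s.1 j = true ∧ 0 ≤ x.1 j ∧ x.1 j ≤ y.1 j ∧ 9 / 50 ≤ y.1 j) ∨
      (s.1 j = false ∧ x.1 j ≤ 0 ∧ y.1 j ≤ x.1 j ∧ y.1 j ≤ -(9 / 50)) := by
    intro j
    by_cases h : 0 ≤ x.1 j
    · left
      refine ⟨by simp [s, h], h, ?_, ?_⟩ <;> simp [y, h]
    · right
      have h' : x.1 j < 0 := not_le.1 h
      refine ⟨by simp [s, h'], h'.le, ?_, ?_⟩ <;> simp [y, h]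
  have hrow : ∀ i, (s.2 i = 1 ∧ 11 / 100 ≤ x.2 i ∧ x.2 i ≤ y.2 i ∧ 9 / 50 ≤ y.2 i) ∨
      (s.2 i = -1 ∧ x.2 i ≤ -(11 / 100) ∧ y.2 i ≤ x.2 i ∧ y.2 i ≤ -(9 / 50)) ∨
      (s.2 i = 0 ∧ |x.2 i| ≤ 11 / 100 ∧ y.2 i = 0) := by
    intro i
    by_cases h : 11 / 100 ≤ x.2 i
    · left
      refine ⟨by simp [s, h], h, ?_, ?_⟩ <;> simp [y, h]
    · right
      by_cases h' : x.2 i ≤ -(11 / 100)
      · left
        refine ⟨by simp [s, h, h'], h', ?_, ?_⟩ <;> simp [y, h, h']
      · right
        refine ⟨by simp [s, h, h'], ?_, by simp [y, h, h']⟩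
        rw [abs_le]
        constructor <;> linarith
  have hcs : Compat m x s := by
    refine ⟨fun j _ => ?_, fun i _ => ?_⟩
    · rcases hcol j with h | h
      · exact ⟨fun _ => h.2.1, fun e => by rw [h.1] at e; exact absurd e (by decide)⟩
      · exact ⟨fun e => by rw [h.1] at e; exact absurd e (by decide), fun _ => h.2.1⟩
    · rcases hrow i with h | h | h
      · exact ⟨fun _ => h.2.1, fun e => by rw [h.1] at e; exact absurd e (by decide),
          fun e => by rw [h.1] at e; exact absurd e (by decide)⟩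
      · exact ⟨fun e => by rw [h.1] at e; exact absurd e (by decide), fun _ => h.2.1,
          fun e => by rw [h.1] at e; exact absurd e (by decide)⟩
      · exact ⟨fun e => by rw [h.1] at e; exact absurd e (by decide),
          fun e => by rw [h.1] at e; exact absurd e (by decide), fun _ => h.2.1⟩
  have hs := compat_ok m hx hcs
  have hy : Box y := by
    refine ⟨fun j => ?_, fun i => ?_⟩
    · have := abs_lt.1 (hx.1.1 j)
      rw [abs_lt]
      simp only [y]
      split
      · refine ⟨lt_max_of_lt_left (by linarith), max_lt (by linarith) (by norm_num)⟩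
      · refine ⟨lt_min (by linarith) (by norm_num), min_lt_of_left_lt (by linarith)⟩
    · have := abs_lt.1 (hx.1.2 i)
      rw [abs_lt]
      simp only [y]
      split
      · refine ⟨lt_max_of_lt_left (by linarith), max_lt (by linarith) (by norm_num)⟩
      · split
        · refine ⟨lt_min (by linarith) (by norm_num), min_lt_of_left_lt (by linarith)⟩
        · norm_num
  have hj1 : JoinedIn (ParamSet m) x y := by
    refine joined_of_free m hx.1 hy fun t h0 h1 i hi j hj => ?_
    refine near _ (hx.1.1 j) (hx.1.2 i) (hy.1 j) (hy.2 i) ?_ ?_ h0 h1 (hx.2 i hi j hj)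
    · rcases hcol j with h | h
      · left; exact h.2
      · right; exact h.2
    · rcases hrow i with h | h | h
      · left; exact h.2
      · right; left; exact h.2
      · right; right; exact h.2
  have hj2 : JoinedIn (ParamSet m) y (canon s) := by
    refine joined_of_free m hy (box_canon s) fun t h0 h1 i hi j hj => ?_
    have hc := canon_col s j
    have hr := canon_row s i
    have h1' : 0 ≤ 1 - t := by linarith
    refine far _ (s.1 j) (s.2 i) (abs_conv (hy.1 j) ((box_canon s).1 j) h0 h1)
      (abs_conv (hy.2 i) ((box_canon s).2 i) h0 h1) ⟨fun e => ?_, fun e => ?_⟩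
      ⟨fun e => ?_, fun e => ?_, fun e => ?_⟩ (fun σ v hC hσ => hs i hi j hj σ v hC hσ)
    · rw [hc.1 e]
      rcases hcol j with h | h
      · nlinarith [h.2.2.2]
      · rw [h.1] at e; exact absurd e (by decide)
    · rw [hc.2 e]
      rcases hcol j with h | h
      · rw [h.1] at e; exact absurd e (by decide)
      · nlinarith [h.2.2.2]
    · rw [hr.1 e]
      rcases hrow i with h | h | h
      · nlinarith [h.2.2.2]
      · rw [h.1] at e; exact absurd e (by decide)
      · rw [h.1] at e; exact absurd e (by decide)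
    · rw [hr.2.1 e]
      rcases hrow i with h | h | h
      · rw [h.1] at e; exact absurd e (by decide)
      · nlinarith [h.2.2.2]
      · rw [h.1] at e; exact absurd e (by decide)
    · rw [hr.2.2 e]
      rcases hrow i with h | h | h
      · rw [h.1] at e; exact absurd e (by decide)
      · rw [h.1] at e; exact absurd e (by decide)
      · rw [h.2.2]; ring
  exact ⟨s, hs, hcs, hj1.trans hj2⟩

theorem bool_ne {a b : Bool} (h : a ≠ b) : (a = true ∧ b = false) ∨ (a = false ∧ b = true) := by
  cases a <;> cases b <;> simp_all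

theorem move (m : Mesh) {s t : State} (h : StMove m s t) :
    JoinedIn (ParamSet m) (canon s) (canon t) := by
  obtain ⟨hs, ht, h⟩ := h
  refine joined_of_free m (box_canon s) (box_canon t) fun τ h0 h1 i hi j hj => ?_
  have h1' : 0 ≤ 1 - τ := by linarith
  have hA := abs_conv ((box_canon s).1 j) ((box_canon t).1 j) h0 h1
  have hB := abs_conv ((box_canon s).2 i) ((box_canon t).2 i) h0 h1
  have cs := canon_col s j
  have ct := canon_col t j
  have rs := canon_row s i
  have rt := canon_row t i
  by_cases hcol : s.1 j = t.1 j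
  · have hA1 : (1 - τ) * (canon s).1 j + τ * (canon t).1 j = (canon s).1 j := by
      have : (canon t).1 j = (canon s).1 j := by simp [canon, hcol]
      rw [this]; ring
    rw [hA1]
    by_cases hrow : s.2 i = t.2 i
    · -- nothing moves
      have hB1 : (1 - τ) * (canon s).2 i + τ * (canon t).2 i = (canon s).2 i := by
        have : (canon t).2 i = (canon s).2 i := by simp [canon, hrow]
        rw [this]; ring
      rw [hB1]
      exact (canon_mem m hs).2 i hi j hj
    · -- a row move
      have hz : s.2 i = 0 ∨ t.2 i = 0 := by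
        rcases h with ⟨h, _⟩ | ⟨_, i0, h, h'⟩
        · exact absurd (h i hi) hrow
        · by_cases hii : i = i0
          · subst hii; exact h'
          · exact absurd (h i hi hii) hrow
      rcases ho : m.C i j with _ | ⟨σ, v⟩
      · exact free_none hB
      · have os := hs i hi j hj σ v ho
        have ot := ht i hi j hj σ v ho
        rw [← hcol] at ot
        -- the nonzero position
        obtain ⟨r, hr0, hr, hB0⟩ : ∃ r : SignType, r ≠ 0 ∧ ((s.2 i = r ∧ t.2 i = 0) ∨
            (s.2 i = 0 ∧ t.2 i = r)) ∧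
            ((r = 1 → 0 ≤ (1 - τ) * (canon s).2 i + τ * (canon t).2 i) ∧
             (r = -1 → (1 - τ) * (canon s).2 i + τ * (canon t).2 i ≤ 0)) := by
          rcases hz with hz | hz
          · refine ⟨t.2 i, fun e => hrow (by rw [hz, e]), Or.inr ⟨hz, rfl⟩, fun e => ?_,
              fun e => ?_⟩
            · rw [rs.2.2 hz, rt.1 e]; nlinarith
            · rw [rs.2.2 hz, rt.2.1 e]; nlinarith
          · refine ⟨s.2 i, fun e => hrow (by rw [hz, e]), Or.inl ⟨rfl, hz⟩, fun e => ?_,
              fun e => ?_⟩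
            · rw [rt.2.2 hz, rs.1 e]; nlinarith
            · rw [rt.2.2 hz, rs.2.1 e]; nlinarith
        have hBle : |(1 - τ) * (canon s).2 i + τ * (canon t).2 i| ≤ 9 / 50 := by
          have b1 : |(canon s).2 i| ≤ 9 / 50 := by
            simp only [canon]
            rcases sign_val (s.2 i) with h | h | h <;> rw [h.2, abs_le] <;> constructor <;>
              norm_num
          have b2 : |(canon t).2 i| ≤ 9 / 50 := by
            simp only [canon]
            rcases sign_val (t.2 i) with h | h | h <;> rw [h.2, abs_le] <;> constructor <;>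
              norm_num
          rw [abs_le] at *
          constructor <;> nlinarith
        have hno : s.1 j = v ∨ (σ ≠ 0 ∧ r ≠ σ) := by
          by_cases hv : s.1 j = v
          · left; exact hv
          · right
            have a1 : s.2 i ≠ σ := fun e => hv (os e)
            have a2 : t.2 i ≠ σ := fun e => hv (ot e)
            rcases hr with ⟨e1, e2⟩ | ⟨e1, e2⟩
            · rw [e1] at a1; rw [e2] at a2
              exact ⟨fun e => a2 e.symm, a1⟩
            · rw [e1] at a1; rw [e2] at a2
              exact ⟨fun e => a1 e.symm, a2⟩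
        cases v
        · rw [free_false]
          refine row_true (-σ) (-r) (by rw [abs_neg]; exact (box_canon s).1 j)
            (by rw [abs_neg]; exact hBle) ?_ ⟨fun e => ?_, fun e => ?_⟩
          · rcases hno with hv | ⟨p, q⟩
            · left; rw [cs.2 hv]; norm_num
            · right
              refine ⟨fun e => p ?_, fun e => q (neg_injective e), fun e => hr0 ?_⟩
              · rw [← neg_neg σ, e]; rfl
              · rw [← neg_neg r, e]; rfl
          · have := hB0.2 (by rw [← neg_neg r, e])
            linarith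
          · have := hB0.1 (by rw [← neg_neg r, e]; rfl)
            linarith
        · refine row_true σ r ((box_canon s).1 j) hBle ?_ hB0
          rcases hno with hv | ⟨p, q⟩
          · left; rw [cs.1 hv]
          · right; exact ⟨p, q, hr0⟩
  · -- a column move
    have hrow : s.2 i = t.2 i := by
      rcases h with ⟨h, _⟩ | ⟨h, _⟩
      · exact h i hi
      · exact absurd (h j hj) hcol
    have hB1 : (1 - τ) * (canon s).2 i + τ * (canon t).2 i = (canon s).2 i := by
      have : (canon t).2 i = (canon s).2 i := by simp [canon, hrow]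
      rw [this]; ring
    rw [hB1]
    rcases ho : m.C i j with _ | ⟨σ, v⟩
    · exact free_none ((box_canon s).2 i)
    · have os := hs i hi j hj σ v ho
      have ot := ht i hi j hj σ v ho
      rw [← hrow] at ot
      have hne : s.2 i ≠ σ := fun e => hcol (by rw [os e, ot e])
      have hAle : |(1 - τ) * (canon s).1 j + τ * (canon t).1 j| ≤ 9 / 50 := by
        have b1 : |(canon s).1 j| ≤ 9 / 50 := by
          simp only [canon]
          split <;> rw [abs_le] <;> constructor <;> norm_num
        have b2 : |(canon t).1 j| ≤ 9 / 50 := by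
          simp only [canon]
          split <;> rw [abs_le] <;> constructor <;> norm_num
        rw [abs_le] at *
        constructor <;> nlinarith
      have hBle : |(canon s).2 i| ≤ 9 / 50 := by
        simp only [canon]
        rcases sign_val (s.2 i) with h | h | h <;> rw [h.2, abs_le] <;> constructor <;>
          norm_num
      cases v
      · rw [free_false]
        refine col_true (-σ) (-(s.2 i)) (by rw [abs_neg]; exact hAle)
          (by rw [abs_neg]; exact hBle) (fun e => hne (neg_injective e))
          ⟨fun e => ?_, fun e => ?_, fun e => ?_⟩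
        · rw [rs.2.1 (by rw [← neg_neg (s.2 i), e])]; norm_num
        · rw [rs.1 (by rw [← neg_neg (s.2 i), e]; rfl)]
        · rw [rs.2.2 (by rw [← neg_neg (s.2 i), e]; rfl)]; norm_num
      · exact col_true σ (s.2 i) hAle hBle hne rs

theorem joined_of_stConn (m : Mesh) {s t : State} (hs : StOK m s) (h : StConn m s t) :
    StOK m t ∧ JoinedIn (ParamSet m) (canon s) (canon t) := by
  have key : ∀ a b, StConn m a b → (StOK m a ↔ StOK m b) ∧
      (StOK m a → JoinedIn (ParamSet m) (canon a) (canon b)) := by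
    intro a b hab
    induction hab with
    | rel a b h => exact ⟨⟨fun _ => h.2.1, fun _ => h.1⟩, fun _ => move m h⟩
    | refl a => exact ⟨Iff.rfl, fun ha => JoinedIn.refl (canon_mem m ha)⟩
    | symm a b _ ih => exact ⟨ih.1.symm, fun hb => (ih.2 (ih.1.2 hb)).symm⟩
    | trans a b c _ _ ih1 ih2 =>
      exact ⟨ih1.1.trans ih2.1, fun ha => (ih1.2 ha).trans (ih2.2 (ih1.1.1 ha))⟩
  exact ⟨(key s t h).1.1 hs, (key s t h).2 hs⟩

theorem joined_of_conn (m : Mesh) (h : ∀ s t, StOK m s → StOK m t → StConn m s t)
    {x y : (ℕ → ℝ) × (ℕ → ℝ)} (hx : x ∈ ParamSet m) (hy : y ∈ ParamSet m) :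
    JoinedIn (ParamSet m) x y := by
  obtain ⟨s, hs, _, js⟩ := reach m hx
  obtain ⟨t, ht, _, jt⟩ := reach m hy
  exact (js.trans (joined_of_stConn m hs (h s t hs ht)).2).trans jt.symm

end LockPl
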