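import Pool.Agent.Lib.MP_14e06f_lc.Plane.Problem
import Pool.Agent.Lib.MP_14e06f_lc.Plane.NCPos
import Pool.Agent.Lib.MP_14e06f_lc.Plane.Topo
import Pool.Agent.Lib.MP_14e06f_lc.Plane.Orient
import Mathlib.Analysis.Normed.Module.Connected

set_option autoImplicit false

/-!
# The linkage of a mesh
-/

namespace LockPl

open Complex

/-- the rigidity statement -/
def RigidStmt (m : Mesh) : Prop :=
  ∀ p : Vtx → ℂ, (∀ u v d, Bar m u v d → dist (p u) (p v) = d) → NC m p →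
    ∃ (z ω : ℂ) (x : (ℕ → ℝ) × (ℕ → ℝ)), ‖ω‖ = 1 ∧ x ∈ ParamSet m ∧
      ((∀ v, IsVert m v → p v = z + ω * pos m 1890 x.1 x.2 v) ∨
       (∀ v, IsVert m v → p v = z + ω * (starRingEnd ℂ) (pos m 1890 x.1 x.2 v)))

/-- The list of bars `c` describes the mesh `m`, with labels `lab`. -/
structure Codes (c : LinkCode) (m : Mesh) (lab : Vtx → ℕ) : Prop where
  spec : ∀ a b n d, ((a, b), (n, d)) ∈ c ↔
    d = 1 ∧ ∃ u v, Bar m u v n ∧ a = lab u ∧ b = lab v
  inj : ∀ u v, IsVert m u → IsVert m v → lab u = lab v → u = v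

theorem Bar.isVert_left {m : Mesh} {u v : Vtx} {d : ℕ} (h : Bar m u v d) : IsVert m u :=
  ⟨v, d, Or.inl h⟩

theorem Bar.isVert_right {m : Mesh} {u v : Vtx} {d : ℕ} (h : Bar m u v d) : IsVert m v :=
  ⟨u, d, Or.inr h⟩

section

variable {c : LinkCode} {m : Mesh} {lab : Vtx → ℕ}

theorem Codes.mem_vert (h : Codes c m lab) {w : Vtx} (hw : IsVert m w) :
    ∃ b ∈ c, lab w = b.1.1 ∨ lab w = b.1.2 := by
  obtain ⟨u, d, hb | hb⟩ := hw
  · exact ⟨((lab w, lab u), (d, 1)), (h.spec _ _ _ _).2 ⟨rfl, w, u, hb, rfl, rfl⟩, Or.inl rfl⟩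
  · exact ⟨((lab u, lab w), (d, 1)), (h.spec _ _ _ _).2 ⟨rfl, u, w, hb, rfl, rfl⟩, Or.inr rfl⟩

/-- the vertex of the linkage with a given name -/
def Codes.vt (h : Codes c m lab) (w : Vtx) (hw : IsVert m w) : c.Vert := ⟨lab w, h.mem_vert hw⟩

theorem Codes.exists_vtx (h : Codes c m lab) (v : c.Vert) : ∃ w, IsVert m w ∧ lab w = v.1 := by
  obtain ⟨v, ⟨⟨⟨a, b⟩, ⟨n, d⟩⟩, hb, hv⟩⟩ := v
  obtain ⟨-, u, w, hbar, ha, hb'⟩ := (h.spec _ _ _ _).1 hb
  rcases hv with hv | hv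
  · exact ⟨u, hbar.isVert_left, ha.symm.trans hv.symm⟩
  · exact ⟨w, hbar.isVert_right, hb'.symm.trans hv.symm⟩

/-- the name of a vertex of the linkage -/
noncomputable def Codes.nm (h : Codes c m lab) (v : c.Vert) : Vtx := (h.exists_vtx v).choose

theorem Codes.nm_isVert (h : Codes c m lab) (v : c.Vert) : IsVert m (h.nm v) :=
  (h.exists_vtx v).choose_spec.1

theorem Codes.lab_nm (h : Codes c m lab) (v : c.Vert) : lab (h.nm v) = v.1 :=
  (h.exists_vtx v).choose_spec.2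

theorem Codes.nm_vt (h : Codes c m lab) (w : Vtx) (hw : IsVert m w) : h.nm (h.vt w hw) = w :=
  h.inj _ _ (h.nm_isVert _) hw (h.lab_nm _)

theorem Codes.nm_inj (h : Codes c m lab) {u v : c.Vert} (huv : h.nm u = h.nm v) : u = v := by
  apply Subtype.ext
  rw [← h.lab_nm u, ← h.lab_nm v, huv]

/-- length of a bar -/
theorem LinkCode.length_eq {c : LinkCode} (hc : c.Valid) {b : (ℕ × ℕ) × (ℕ × ℕ)} (hb : b ∈ c)
    {u v : ℕ} (huv : s(b.1.1, b.1.2) = s(u, v)) : c.length u v = (b.2.1 : ℚ) / b.2.2 := by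
  unfold LinkCode.length
  cases hf : c.find? (fun b => decide (s(b.1.1, b.1.2) = s(u, v))) with
  | none =>
    rw [List.find?_eq_none] at hf
    exact absurd (decide_eq_true huv) (hf b hb)
  | some b' =>
    have hb' := List.mem_of_find?_eq_some hf
    have h2 := List.find?_some hf
    simp only [decide_eq_true_eq] at h2
    have h3 : b' = b := List.inj_on_of_nodup_map hc.2 hb' hb (by rw [h2, huv])
    rw [h3]

theorem Codes.adj_iff (h : Codes c m lab) (hv : c.Valid) (u v : c.Vert) :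
    c.graph.Adj u v ↔ ∃ d, Bar m (h.nm u) (h.nm v) d ∨ Bar m (h.nm v) (h.nm u) d := by
  have key : ∀ u v : c.Vert, (∃ b ∈ c, s(b.1.1, b.1.2) = s(u.1, v.1)) ↔
      ∃ d, Bar m (h.nm u) (h.nm v) d ∨ Bar m (h.nm v) (h.nm u) d := by
    intro u v
    constructor
    · rintro ⟨⟨⟨a, b⟩, ⟨n, d⟩⟩, hb, he⟩
      obtain ⟨-, u', v', hbar, ha, hb'⟩ := (h.spec _ _ _ _).1 hb
      simp only [ha, hb'] at he
      rw [← h.lab_nm u, ← h.lab_nm v, Sym2.eq_iff] at he
      rcases he with ⟨h1, h2⟩ | ⟨h1, h2⟩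
      · have e1 := h.inj _ _ hbar.isVert_left (h.nm_isVert u) h1
        have e2 := h.inj _ _ hbar.isVert_right (h.nm_isVert v) h2
        rw [← e1, ← e2]
        exact ⟨n, Or.inl hbar⟩
      · have e1 := h.inj _ _ hbar.isVert_left (h.nm_isVert v) h1
        have e2 := h.inj _ _ hbar.isVert_right (h.nm_isVert u) h2
        rw [← e1, ← e2]
        exact ⟨n, Or.inr hbar⟩
    · rintro ⟨d, hb | hb⟩
      · exact ⟨((u.1, v.1), (d, 1)), (h.spec _ _ _ _).2
          ⟨rfl, _, _, hb, (h.lab_nm u).symm, (h.lab_nm v).symm⟩, rfl⟩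
      · exact ⟨((v.1, u.1), (d, 1)), (h.spec _ _ _ _).2
          ⟨rfl, _, _, hb, (h.lab_nm v).symm, (h.lab_nm u).symm⟩, Sym2.eq_swap⟩
  unfold LinkCode.graph
  rw [SimpleGraph.fromRel_adj]
  constructor
  · rintro ⟨-, h1 | h1⟩
    · exact (key u v).1 h1
    · obtain ⟨d, hd⟩ := (key v u).1 h1
      exact ⟨d, hd.symm⟩
  · intro h1
    obtain ⟨b, hb, he⟩ := (key u v).2 h1
    refine ⟨?_, Or.inl ⟨b, hb, he⟩⟩
    intro huv
    have h3 := (hv.1 b hb).1
    rw [huv, Sym2.eq_iff] at he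
    rcases he with ⟨h4, h5⟩ | ⟨h4, h5⟩ <;> exact h3 (h4.trans h5.symm)

theorem Codes.length_eq (h : Codes c m lab) (hv : c.Valid) {u v : c.Vert} {d : ℕ}
    (hb : Bar m (h.nm u) (h.nm v) d ∨ Bar m (h.nm v) (h.nm u) d) :
    c.length u.1 v.1 = d := by
  rcases hb with hb | hb
  · have := LinkCode.length_eq hv ((h.spec _ _ _ _).2
      ⟨rfl, _, _, hb, (h.lab_nm u).symm, (h.lab_nm v).symm⟩) (u := u.1) (v := v.1) rfl
    rw [this]
    simp
  · have := LinkCode.length_eq hv ((h.spec _ _ _ _).2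
      ⟨rfl, _, _, hb, (h.lab_nm v).symm, (h.lab_nm u).symm⟩) (u := u.1) (v := v.1) Sym2.eq_swap
    rw [this]
    simp

/-- the symmetric form of `NC` -/
theorem NC.symm' {q : Vtx → ℂ} (hq : NC m q) {u v x y : Vtx} {d e : ℕ}
    (h1 : Bar m u v d ∨ Bar m v u d) (h2 : Bar m x y e ∨ Bar m y x e) (hne : s(u, v) ≠ s(x, y))
    {z : ℂ} (hz : z ∈ segment ℝ (q u) (q v)) (hz' : z ∈ segment ℝ (q x) (q y)) :
    ∃ w, (w = u ∨ w = v) ∧ (w = x ∨ w = y) ∧ z = q w := by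
  rcases h1 with h1 | h1 <;> rcases h2 with h2 | h2
  · exact hq u v d x y e h1 h2 hne z hz hz'
  · obtain ⟨w, h3, h4, h5⟩ := hq u v d y x e h1 h2 (by rwa [Sym2.eq_swap (a := y)]) z hz
      (by rwa [segment_symm])
    exact ⟨w, h3, h4.symm, h5⟩
  · obtain ⟨w, h3, h4, h5⟩ := hq v u d x y e h1 h2 (by rwa [Sym2.eq_swap (a := v)]) z
      (by rwa [segment_symm]) hz'
    exact ⟨w, h3.symm, h4, h5⟩
  · obtain ⟨w, h3, h4, h5⟩ := hq v u d y x e h1 h2
      (by rwa [Sym2.eq_swap (a := v), Sym2.eq_swap (a := y)]) z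
      (by rwa [segment_symm]) (by rwa [segment_symm])
    exact ⟨w, h3.symm, h4.symm, h5⟩

theorem Codes.nonCrossing (h : Codes c m lab) (hv : c.Valid) {q : Vtx → ℂ} (hq : NC m q) :
    NonCrossing c.graph (fun v => q (h.nm v)) := by
  intro u v x y h1 h2 hne z hz hz'
  obtain ⟨d, h1⟩ := (h.adj_iff hv u v).1 h1
  obtain ⟨e, h2⟩ := (h.adj_iff hv x y).1 h2
  have hne' : s(h.nm u, h.nm v) ≠ s(h.nm x, h.nm y) := by
    intro he
    apply hne
    rw [Sym2.eq_iff] at he ⊢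
    rcases he with ⟨h3, h4⟩ | ⟨h3, h4⟩
    · exact Or.inl ⟨h.nm_inj h3, h.nm_inj h4⟩
    · exact Or.inr ⟨h.nm_inj h3, h.nm_inj h4⟩
  obtain ⟨w, h3, h4, h5⟩ := hq.symm' h1 h2 hne' hz hz'
  rcases h3 with rfl | rfl
  · refine ⟨u, Or.inl rfl, ?_, h5⟩
    rcases h4 with h4 | h4
    · exact Or.inl (h.nm_inj h4)
    · exact Or.inr (h.nm_inj h4)
  · refine ⟨v, Or.inr rfl, ?_, h5⟩
    rcases h4 with h4 | h4
    · exact Or.inl (h.nm_inj h4)
    · exact Or.inr (h.nm_inj h4)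

theorem Codes.isConfig (h : Codes c m lab) (hv : c.Valid) {q : Vtx → ℂ}
    (hlen : ∀ u v d, Bar m u v d → dist (q u) (q v) = d) (hq : NC m q) :
    (c.linkage hv).IsConfig (fun v => q (h.nm v)) := by
  refine ⟨?_, h.nonCrossing hv hq⟩
  intro u v huv
  obtain ⟨d, h1⟩ := (h.adj_iff hv u v).1 huv
  have h2 : (c.linkage hv).len u v = d := h.length_eq hv h1
  rw [h2]
  rcases h1 with h1 | h1
  · rw [hlen _ _ _ h1]
    simp
  · rw [dist_comm, hlen _ _ _ h1]
    simp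

open Classical in
/-- extension of a configuration to all names -/
noncomputable def Codes.ext (h : Codes c m lab) (p : c.Vert → ℂ) (w : Vtx) : ℂ :=
  if hw : IsVert m w then p (h.vt w hw) else 0

theorem Codes.ext_eq (h : Codes c m lab) (p : c.Vert → ℂ) {w : Vtx} (hw : IsVert m w) :
    h.ext p w = p (h.vt w hw) := by
  unfold Codes.ext
  rw [dif_pos hw]

theorem Codes.ext_nm (h : Codes c m lab) (p : c.Vert → ℂ) (v : c.Vert) :
    h.ext p (h.nm v) = p v := by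
  rw [h.ext_eq p (h.nm_isVert v)]
  congr 1
  exact h.nm_inj (h.nm_vt _ _)

theorem Codes.of_isConfig (h : Codes c m lab) (hv : c.Valid) {p : c.Vert → ℂ}
    (hp : (c.linkage hv).IsConfig p) :
    (∀ u v d, Bar m u v d → dist (h.ext p u) (h.ext p v) = d) ∧ NC m (h.ext p) := by
  constructor
  · intro u v d hb
    have hu := hb.isVert_left
    have hw := hb.isVert_right
    have hb' : Bar m (h.nm (h.vt u hu)) (h.nm (h.vt v hw)) d := by
      rwa [h.nm_vt, h.nm_vt]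
    have hadj := (h.adj_iff hv (h.vt u hu) (h.vt v hw)).2 ⟨d, Or.inl hb'⟩
    have h1 := hp.1 _ _ hadj
    have h2 : (c.linkage hv).len (h.vt u hu) (h.vt v hw) = d := h.length_eq hv (Or.inl hb')
    rw [h2] at h1
    rw [h.ext_eq p hu, h.ext_eq p hw, h1]
    simp
  · intro u v d x y e hb hb' hne z hz hz'
    have hu := hb.isVert_left
    have hw := hb.isVert_right
    have hx := hb'.isVert_left
    have hy := hb'.isVert_right
    rw [h.ext_eq p hu, h.ext_eq p hw] at hz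
    rw [h.ext_eq p hx, h.ext_eq p hy] at hz'
    have hadj := (h.adj_iff hv (h.vt u hu) (h.vt v hw)).2 ⟨d, Or.inl (by rwa [h.nm_vt, h.nm_vt])⟩
    have hadj' := (h.adj_iff hv (h.vt x hx) (h.vt y hy)).2 ⟨e, Or.inl (by rwa [h.nm_vt, h.nm_vt])⟩
    have hne' : s(h.vt u hu, h.vt v hw) ≠ s(h.vt x hx, h.vt y hy) := by
      intro he
      apply hne
      rw [Sym2.eq_iff] at he ⊢
      have hi : ∀ {a b : Vtx} {ha : IsVert m a} {hb : IsVert m b}, h.vt a ha = h.vt b hb → a = b := by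
        intro a b ha hb hab
        rw [← h.nm_vt a ha, ← h.nm_vt b hb, hab]
      rcases he with ⟨h3, h4⟩ | ⟨h3, h4⟩
      · exact Or.inl ⟨hi h3, hi h4⟩
      · exact Or.inr ⟨hi h3, hi h4⟩
    obtain ⟨w, h3, h4, h5⟩ := hp.2 _ _ _ _ hadj hadj' hne' z hz hz'
    refine ⟨h.nm w, ?_, ?_, ?_⟩
    · rcases h3 with rfl | rfl
      · exact Or.inl (h.nm_vt _ _)
      · exact Or.inr (h.nm_vt _ _)
    · rcases h4 with rfl | rfl
      · exact Or.inl (h.nm_vt _ _)
      · exact Or.inr (h.nm_vt _ _)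
    · exact h5.trans (h.ext_nm p w).symm

/-! ### Similar drawings -/

/-- an isometry of the plane given by `z`, `ω`; `ε = true` preserves the orientation -/
noncomputable def iso (z ω : ℂ) (ε : Bool) (w : ℂ) : ℂ :=
  z + ω * (if ε then w else (starRingEnd ℂ) w)

theorem iso_seg {z ω : ℂ} {ε : Bool} {a b w : ℂ} (hw : w ∈ segment ℝ (iso z ω ε a) (iso z ω ε b)) :
    ∃ w' ∈ segment ℝ a b, w = iso z ω ε w' := by
  obtain ⟨t, t0, t1, rfl⟩ := mem_segment_iff.1 hw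
  refine ⟨a + t * (b - a), mem_segment_iff.2 ⟨t, t0, t1, rfl⟩, ?_⟩
  unfold iso
  cases ε
  · simp
    ring
  · simp
    ring

theorem iso_inj {z ω : ℂ} (hω : ‖ω‖ = 1) {ε : Bool} {a b : ℂ} (h : iso z ω ε a = iso z ω ε b) :
    a = b := by
  have h0 : ω ≠ 0 := by
    intro h0
    rw [h0] at hω
    simp at hω
  unfold iso at h
  cases ε
  · have h1 : (starRingEnd ℂ) a = (starRingEnd ℂ) b := by simpa [h0] using h
    have h2 := congrArg (starRingEnd ℂ) h1
    simpa using h2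
  · simpa [h0] using h

theorem iso_dist {z ω : ℂ} (hω : ‖ω‖ = 1) {ε : Bool} (a b : ℂ) :
    dist (iso z ω ε a) (iso z ω ε b) = dist a b := by
  unfold iso
  rw [dist_eq_norm, dist_eq_norm]
  cases ε
  · have e : z + ω * (if false = true then a else (starRingEnd ℂ) a) -
      (z + ω * (if false = true then b else (starRingEnd ℂ) b)) =
        ω * (starRingEnd ℂ) (a - b) := by
      simp
      ring
    rw [e, norm_mul, hω, one_mul, Complex.norm_conj]
  · have e : z + ω * (if true = true then a else (starRingEnd ℂ) a) -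
      (z + ω * (if true = true then b else (starRingEnd ℂ) b)) = ω * (a - b) := by
      simp
      ring
    rw [e, norm_mul, hω, one_mul]

theorem NC.iso {q : Vtx → ℂ} (hq : NC m q) {z ω : ℂ} (hω : ‖ω‖ = 1) {ε : Bool} :
    NC m (fun v => iso z ω ε (q v)) := by
  intro u v d x y e h1 h2 hne w hw hw'
  obtain ⟨w1, hw1, rfl⟩ := iso_seg hw
  obtain ⟨w2, hw2, he⟩ := iso_seg hw'
  have := iso_inj hω he
  subst this
  obtain ⟨v', h3, h4, h5⟩ := hq u v d x y e h1 h2 hne w1 hw1 hw2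
  exact ⟨v', h3, h4, by rw [h5]⟩

/-- the standard configurations of the linkage -/
noncomputable def Codes.cfg (h : Codes c m lab) (ε : Bool)
    (y : ℂ × (ℂ × ((ℕ → ℝ) × (ℕ → ℝ)))) : c.Vert → ℂ :=
  fun v => iso y.1 y.2.1 ε (pos m 1890 y.2.2.1 y.2.2.2 (h.nm v))

/-- the parameters of the configurations -/
def Par (m : Mesh) : Set (ℂ × (ℂ × ((ℕ → ℝ) × (ℕ → ℝ)))) :=
  Set.univ ×ˢ (Metric.sphere (0 : ℂ) 1 ×ˢ ParamSet m)

theorem continuous_cfg1 (m : Mesh) (w : Vtx) : Continuous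
    (fun y : ℂ × (ℂ × ((ℕ → ℝ) × (ℕ → ℝ))) => pos m 1890 y.2.2.1 y.2.2.2 w) := by
  have h1 := (continuous_pos m w).comp
    ((continuous_const (y := (1890 : ℝ))).prodMk
      ((continuous_snd (X := ℂ) (Y := (ℕ → ℝ) × (ℕ → ℝ))).comp (continuous_snd (X := ℂ))))
  simpa only [Function.comp_def] using h1

theorem continuous_iso (ε : Bool) {f : ℂ × (ℂ × ((ℕ → ℝ) × (ℕ → ℝ))) → ℂ} (hf : Continuous f) :
    Continuous (fun y : ℂ × (ℂ × ((ℕ → ℝ) × (ℕ → ℝ))) => iso y.1 y.2.1 ε (f y)) := by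
  unfold iso
  cases ε
  · simp only [Bool.false_eq_true, if_false]
    have h2 := Complex.continuous_conj.comp hf
    simp only [Function.comp_def] at h2
    fun_prop
  · simp only [if_true]
    fun_prop

theorem Codes.continuous_cfg (h : Codes c m lab) (ε : Bool) : Continuous (h.cfg ε) := by
  apply continuous_pi
  intro v
  exact continuous_iso ε (continuous_cfg1 m (h.nm v))

theorem Codes.cfg_mem (h : Codes c m lab) (hv : c.Valid) (ε : Bool)
    {y : ℂ × (ℂ × ((ℕ → ℝ) × (ℕ → ℝ)))} (hy : y ∈ Par m) :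
    h.cfg ε y ∈ (c.linkage hv).configSpace := by
  obtain ⟨-, h1, h2⟩ := hy
  have h3 : ‖y.2.1‖ = 1 := by simpa using h1
  apply h.isConfig hv (q := fun w => iso y.1 y.2.1 ε (pos m 1890 y.2.2.1 y.2.2.2 w))
  · intro u v d hb
    rw [iso_dist h3]
    exact dist_pos m h2.1 hb
  · exact (nc_pos m (by norm_num) le_rfl h2.1 h2.2).iso h3

theorem Codes.exists_cfg (h : Codes c m lab) (hv : c.Valid) (hr : RigidStmt m)
    {p : c.Vert → ℂ} (hp : (c.linkage hv).IsConfig p) : ∃ ε, ∃ y ∈ Par m, p = h.cfg ε y := by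
  obtain ⟨h1, h2⟩ := h.of_isConfig hv hp
  obtain ⟨z, ω, x, hω, hx, h3 | h3⟩ := hr _ h1 h2
  · refine ⟨true, (z, ω, x), ⟨trivial, by simpa using hω, hx⟩, ?_⟩
    funext v
    rw [← h.ext_nm p v, h3 _ (h.nm_isVert v)]
    rfl
  · refine ⟨false, (z, ω, x), ⟨trivial, by simpa using hω, hx⟩, ?_⟩
    funext v
    rw [← h.ext_nm p v, h3 _ (h.nm_isVert v)]
    rfl

theorem Codes.cfg_joined (h : Codes c m lab) (hv : c.Valid) (ε : Bool)
    {y y' : ℂ × (ℂ × ((ℕ → ℝ) × (ℕ → ℝ)))} (hy : y ∈ Par m) (hy' : y' ∈ Par m)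
    (hj : JoinedIn (ParamSet m) y.2.2 y'.2.2) :
    JoinedIn (c.linkage hv).configSpace (h.cfg ε y) (h.cfg ε y') := by
  have h1 : JoinedIn (Set.univ : Set ℂ) y.1 y'.1 :=
    isPathConnected_univ.joinedIn _ trivial _ trivial
  have h2 : JoinedIn (Metric.sphere (0 : ℂ) 1) y.2.1 y'.2.1 := by
    have hs : IsPathConnected (Metric.sphere (0 : ℂ) 1) := by
      apply isPathConnected_sphere _ _ zero_le_one
      rw [Complex.rank_real_complex]
      norm_num
    exact hs.joinedIn _ hy.2.1 _ hy'.2.1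
  have h3 : JoinedIn (Par m) (y.1, (y.2.1, y.2.2)) (y'.1, (y'.2.1, y'.2.2)) :=
    h1.prod (h2.prod hj)
  have h4 := h3.map (h.continuous_cfg ε)
  apply h4.mono
  rintro _ ⟨y, hy, rfl⟩
  exact h.cfg_mem hv ε hy

end

end LockPl
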