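import Pool.Agent.Lib.MP_14e06f_lc.Plane.Mesh

set_option autoImplicit false

/-!
# The mesh is connected
-/

namespace LockPl

/-- connected by bars -/
def CB (m : Mesh) : Vtx → Vtx → Prop := Relation.EqvGen (fun a b => ∃ d, Bar m a b d)

theorem CB.bar {m : Mesh} {u v : Vtx} {d : ℕ} (h : Bar m u v d) : CB m u v :=
  Relation.EqvGen.rel _ _ ⟨d, h⟩

theorem CB.symm {m : Mesh} {u v : Vtx} (h : CB m u v) : CB m v u := Relation.EqvGen.symm _ _ h

theorem CB.trans {m : Mesh} {u v w : Vtx} (h : CB m u v) (h' : CB m v w) : CB m u w :=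
  Relation.EqvGen.trans _ _ _ h h'

theorem CB.refl {m : Mesh} (u : Vtx) : CB m u u := Relation.EqvGen.refl _

theorem cb_line {m : Mesh} {i j l : ℕ} (hi : i ≤ m.N) (hj : j ≤ m.M) (hl : l < 6) :
    CB m (i, j, 2 * l) (i, j, 0) := by
  induction l with
  | zero => exact CB.refl _
  | succ l ih =>
    have h := Bar.plateV (m := m) (i := i) (j := j) (l := l) (c := 0) hi hj (by omega) (by omega)
    exact (CB.bar h).symm.trans (ih (by omega))

theorem cb_plate {m : Mesh} {i j l c : ℕ} (hi : i ≤ m.N) (hj : j ≤ m.M) (hl : l < 6)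
    (hc : c < 2) : CB m (i, j, 2 * l + c) (i, j, 0) := by
  interval_cases c
  · exact cb_line hi hj hl
  · exact (CB.bar (Bar.plateH hi hj hl)).symm.trans (cb_line hi hj hl)

theorem cb_col {m : Mesh} {i j : ℕ} (hi : i ≤ m.N) (hj : j ≤ m.M) :
    CB m (i, j, 0) (i, 0, 0) := by
  induction j with
  | zero => exact CB.refl _
  | succ j ih =>
    have h := Bar.crankH (m := m) (i := i) (j := j) (l := 2) hi (by omega) (Or.inl rfl)
    have h1 := cb_plate (m := m) (i := i) (j := j) (l := 2) (c := 1) hi (by omega) (by omega)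
      (by omega)
    have h2 := cb_plate (m := m) (i := i) (j := j + 1) (l := 2) (c := 0) hi (by omega) (by omega)
      (by omega)
    exact h2.symm.trans ((CB.bar h).symm.trans (h1.trans (ih (by omega))))

theorem cb_row {m : Mesh} {i : ℕ} (hi : i ≤ m.N) : CB m (i, 0, 0) (0, 0, 0) := by
  induction i with
  | zero => exact CB.refl _
  | succ i ih =>
    have h := Bar.crankV (m := m) (i := i) (j := 0) (c := 0) (by omega) (by omega) (by omega)
    have h1 := cb_plate (m := m) (i := i) (j := 0) (l := 5) (c := 0) (by omega) (by omega)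
      (by omega) (by omega)
    exact (CB.bar h).symm.trans (h1.trans (ih (by omega)))

theorem cb_all {m : Mesh} {i j l c : ℕ} (hi : i ≤ m.N) (hj : j ≤ m.M) (hl : l < 6)
    (hc : c < 2) : CB m (i, j, 2 * l + c) (0, 0, 0) :=
  (cb_plate hi hj hl hc).trans ((cb_col hi hj).trans (cb_row hi))

theorem cb_arm67 {m : Mesh} {i j : ℕ} (hi : i < m.N) (hj : j < m.M) (up : Bool) (q : ℕ)
    (hq : q = 6 ∨ q = 7) : CB m (armV (m.C i j) i j up q) (0, 0, 0) := by
  rcases m.C i j with _ | ⟨s, v⟩
  · rcases hq with rfl | rfl <;> cases up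
    · exact cb_all (i := i) (j := j) (l := 4) (c := 1) (by omega) (by omega) (by omega) (by omega)
    · exact cb_all (i := i + 1) (j := j + 1) (l := 1) (c := 0) (by omega) (by omega) (by omega)
        (by omega)
    · exact cb_all (i := i) (j := j) (l := 5) (c := 1) (by omega) (by omega) (by omega) (by omega)
    · exact cb_all (i := i + 1) (j := j + 1) (l := 0) (c := 0) (by omega) (by omega) (by omega)
        (by omega)
  · cases v
    · rcases hq with rfl | rfl <;> cases up
      · exact cb_all (i := i) (j := j + 1) (l := 4) (c := 0) (by omega) (by omega) (by omega)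
          (by omega)
      · exact cb_all (i := i + 1) (j := j) (l := 1) (c := 1) (by omega) (by omega) (by omega)
          (by omega)
      · exact cb_all (i := i) (j := j + 1) (l := 5) (c := 0) (by omega) (by omega) (by omega)
          (by omega)
      · exact cb_all (i := i + 1) (j := j) (l := 0) (c := 1) (by omega) (by omega) (by omega)
          (by omega)
    · rcases hq with rfl | rfl <;> cases up
      · exact cb_all (i := i) (j := j) (l := 4) (c := 1) (by omega) (by omega) (by omega) (by omega)
      · exact cb_all (i := i + 1) (j := j + 1) (l := 1) (c := 0) (by omega) (by omega) (by omega)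
          (by omega)
      · exact cb_all (i := i) (j := j) (l := 5) (c := 1) (by omega) (by omega) (by omega) (by omega)
      · exact cb_all (i := i + 1) (j := j + 1) (l := 0) (c := 0) (by omega) (by omega) (by omega)
          (by omega)

theorem cb_arm {m : Mesh} {i j : ℕ} (hi : i < m.N) (hj : j < m.M) (up : Bool) {q q' d : ℕ}
    (h : ArmBar (al (m.C i j)) (ad (m.C i j)) q q' d) :
    CB m (armV (m.C i j) i j up q) (0, 0, 0) := by
  have b : ∀ {q q' d : ℕ}, ArmBar (al (m.C i j)) (ad (m.C i j)) q q' d →
      CB m (armV (m.C i j) i j up q) (armV (m.C i j) i j up q') :=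
    fun h => CB.bar (Bar.arm hi hj up h)
  have h6 := cb_arm67 hi hj up 6 (Or.inl rfl)
  have h7 := cb_arm67 hi hj up 7 (Or.inr rfl)
  have h0 := (b .b60).symm.trans h6
  have h2 := (b .b62).symm.trans h6
  have h1 := (b .b01).symm.trans h0
  have h3 := (b .b23).symm.trans h2
  have h4 := (b .b24).symm.trans h2
  have h5 := (b .b35).symm.trans h3
  cases h
  · exact h6
  · exact h7
  · exact h6
  · exact h0
  · exact h2
  · exact h0
  · exact h1
  · exact h0
  · exact h2
  · exact h3
  · exact h4
  · exact h2

theorem cb_bar {m : Mesh} {u v : Vtx} {d : ℕ} (h : Bar m u v d) : CB m u (0, 0, 0) := by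
  cases h with
  | @plateH i j l hi hj hl => exact cb_all (c := 0) hi hj hl (by omega)
  | @plateV i j l c hi hj hl hc => exact cb_all hi hj (by omega) hc
  | @plateD i j l hi hj hl => exact cb_all (c := 0) hi hj (by omega) (by omega)
  | @crankH i j l hi hj hl => exact cb_all (c := 1) hi (by omega) (by omega) (by omega)
  | @stopH i j l hi hj hl => exact cb_all (c := 1) hi (by omega) (by omega) (by omega)
  | @crankV i j c hi hj hc => exact cb_all (l := 5) (by omega) hj (by omega) hc
  | @stopV i j c hi hj hc => exact cb_all (l := 5) (by omega) hj (by omega) hc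
  | @arm i j q q' d hi hj up h => exact cb_arm hi hj up h

theorem mesh_connected (m : Mesh) (u v : Vtx) (hu : IsVert m u) (hv : IsVert m v) :
    Relation.EqvGen (fun a b => ∃ d, Bar m a b d) u v := by
  have key : ∀ w, IsVert m w → CB m w (0, 0, 0) := by
    rintro w ⟨x, d, h | h⟩
    · exact cb_bar h
    · exact (CB.bar h).symm.trans (cb_bar h)
  exact (key u hu).trans (key v hv).symm

end LockPl
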