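import Pool.Agent.Lib.MP_14e06f_lc.Plane.Grid

set_option autoImplicit false

/-!
# The standard drawings have no crossings
-/

namespace LockPl

open Complex Finset

/-! ### The steps of the mesh -/

/-- column steps -/
noncomputable def sX (A : ℕ → ℝ) (n : ℕ) : ℂ :=
  if n % 2 = 0 then 480 else 3400 * ((√(1 - A (n / 2) ^ 2) : ℝ) + (A (n / 2) : ℝ) * I)

/-- row steps -/
noncomputable def sY (B : ℕ → ℝ) (k : ℕ) : ℂ :=
  if k % 6 = 5 then 3400 * (-(B (k / 6) : ℝ) + (√(1 - B (k / 6) ^ 2) : ℝ) * I)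
  else (hgt (k % 6) : ℂ) * I

theorem sqrt_gt {A : ℝ} (h : |A| < 20 / 101) : 99 / 101 < √(1 - A ^ 2) := by
  apply Real.lt_sqrt_of_sq_lt
  have h1 : A ^ 2 < (20 / 101) ^ 2 := by
    rw [← sq_abs]
    have := abs_nonneg A
    nlinarith
  norm_num at h1 ⊢
  linarith

theorem sqrt_le_one' (A : ℝ) : √(1 - A ^ 2) ≤ 1 := by
  apply Real.sqrt_le_one.2
  nlinarith [sq_nonneg A]

theorem sq_sqrt' {A : ℝ} (h : |A| < 20 / 101) : √(1 - A ^ 2) ^ 2 = 1 - A ^ 2 := by
  apply Real.sq_sqrt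
  have h1 : A ^ 2 < 1 := by
    rw [← sq_abs]
    have := abs_nonneg A
    nlinarith
  linarith

theorem hu_sX {A : ℕ → ℝ} (h : ∀ j, |A j| < 20 / 101) : Hu (sX A) := by
  intro n
  unfold sX
  split
  · constructor
    · norm_num [CU]
    · norm_num
  · have h1 := sqrt_gt (h (n / 2))
    have h2 := h (n / 2)
    constructor
    · simp only [CU, mul_im, mul_re, add_re, add_im, ofReal_re, ofReal_im, I_re, I_im]
      norm_num
      linarith
    · simp only [mul_im, mul_re, add_re, add_im, ofReal_re, ofReal_im, I_re, I_im]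
      norm_num
      linarith

theorem hv_sY {B : ℕ → ℝ} (h : ∀ j, |B j| < 20 / 101) : Hv (sY B) := by
  intro n
  unfold sY
  dsimp only
  split
  · have h1 := sqrt_gt (h (n / 6))
    have h2 := h (n / 6)
    constructor
    · simp only [CU, mul_im, mul_re, add_re, add_im, ofReal_re, ofReal_im, I_re, I_im, neg_re,
        neg_im]
      norm_num
      linarith
    · simp only [mul_im, mul_re, add_re, add_im, ofReal_re, ofReal_im, I_re, I_im, neg_re,
        neg_im]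
      norm_num
      linarith
  · have h1 : (0 : ℝ) < hgt (n % 6) := by
      unfold hgt
      split <;> norm_num
    constructor
    · simp only [CU, mul_im, mul_re, natCast_re, natCast_im, I_re, I_im, neg_re, neg_im]
      norm_num
      positivity
    · simp only [mul_im, mul_re, natCast_re, natCast_im, I_re, I_im, neg_re, neg_im]
      norm_num
      exact_mod_cast h1

theorem colX_eq (A : ℕ → ℝ) (j : ℕ) : colX A j = PX (sX A) (2 * j) 0 := by
  rw [PX_zero]
  induction j with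
  | zero => simp [colX]
  | succ j ih =>
    rw [show 2 * (j + 1) = 2 * j + 1 + 1 from by ring, sum_range_succ, sum_range_succ, ← ih]
    unfold colX
    rw [sum_range_succ]
    have e1 : sX A (2 * j) = 480 := by
      unfold sX
      rw [if_pos (by omega)]
    have e2 : sX A (2 * j + 1) = 3400 * ((√(1 - A j ^ 2) : ℝ) + (A j : ℝ) * I) := by
      unfold sX
      rw [if_neg (by omega), show (2 * j + 1) / 2 = j from by omega]
    rw [e1, e2]
    ring

theorem sY_of_lt (B : ℕ → ℝ) (i l : ℕ) (hl : l < 5) : sY B (6 * i + l) = (hgt l : ℂ) * I := by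
  unfold sY
  rw [if_neg (by omega), show (6 * i + l) % 6 = l from by omega]

theorem sY_five (B : ℕ → ℝ) (i : ℕ) :
    sY B (6 * i + 5) = 3400 * (-(B i : ℝ) + (√(1 - B i ^ 2) : ℝ) * I) := by
  unfold sY
  rw [if_pos (by omega), show (6 * i + 5) / 6 = i from by omega]

theorem rowY_line (B : ℕ → ℝ) (i l : ℕ) (hl : l < 6) (h : rowY B i = PX (sY B) (6 * i) 0) :
    PX (sY B) (6 * i + l) 0 = rowY B i + lineY l * I := by
  rw [PX_zero] at *
  have h0 := sY_of_lt B i 0 (by norm_num)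
  have h1 := sY_of_lt B i 1 (by norm_num)
  have h2 := sY_of_lt B i 2 (by norm_num)
  have h3 := sY_of_lt B i 3 (by norm_num)
  have h4 := sY_of_lt B i 4 (by norm_num)
  rw [add_zero] at h0
  interval_cases l <;>
    simp only [sum_range_succ, ← h, h0, h1, h2, h3, h4, add_zero, lineY, hgt] <;> push_cast <;> ring

theorem rowY_eq (B : ℕ → ℝ) (i : ℕ) : rowY B i = PX (sY B) (6 * i) 0 := by
  induction i with
  | zero => simp [rowY, PX]
  | succ i ih =>
    have h := rowY_line B i 5 (by norm_num) ih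
    rw [PX_zero] at *
    rw [show 6 * (i + 1) = 6 * i + 5 + 1 from by ring, sum_range_succ, h, sY_five]
    rw [rowY, sum_range_succ, ← rowY]
    simp only [lineY]
    push_cast
    ring

theorem plate_eq (A B : ℕ → ℝ) (i j l c : ℕ) (hl : l < 6) (hc : c < 2) :
    plate A B i j l c = GP (sX A) (sY B) (2 * j + c) (6 * i + l) := by
  unfold plate GP
  rw [rowY_line B i l hl (rowY_eq B i), colX_eq]
  interval_cases c
  · simp
    ring
  · rw [PX_zero, PX_zero, sum_range_succ]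
    have e1 : sX A (2 * j) = 480 := by
      unfold sX
      rw [if_pos (by omega)]
    rw [e1]
    push_cast
    ring

/-- the plate vertex at the grid point `(n, k)` -/
def vtx (n k : ℕ) : Vtx := (k / 6, n / 2, 2 * (k % 6) + n % 2)

theorem vtx_mk (i j l c : ℕ) (hl : l < 6) (hc : c < 2) :
    vtx (2 * j + c) (6 * i + l) = (i, j, 2 * l + c) := by
  unfold vtx
  rw [show (6 * i + l) / 6 = i from by omega, show (2 * j + c) / 2 = j from by omega,
    show 2 * ((6 * i + l) % 6) + (2 * j + c) % 2 = 2 * l + c from by omega]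

theorem pos_vtx (m : Mesh) (hh : ℝ) (A B : ℕ → ℝ) (n k : ℕ) :
    pos m hh A B (vtx n k) = GP (sX A) (sY B) n k := by
  unfold pos vtx
  dsimp only
  rw [if_pos (by omega), plate_eq _ _ _ _ _ _ (by omega) (by omega)]
  congr 1 <;> omega

/-! ### Unit segments of the grid -/

/-- unit segments between grid points -/
inductive GB : ℕ × ℕ → ℕ × ℕ → Reg → Prop
  | H (n k : ℕ) : GB (n, k) (n + 1, k) (.H n k)
  | V (n k : ℕ) : GB (n, k) (n, k + 1) (.V n k)
  | D (n k : ℕ) : GB (n, k) (n + 1, k + 1) (.D n k)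

theorem GB.seg {u v : ℕ → ℂ} {e e' : ℕ × ℕ} {R : Reg} (h : GB e e' R) {z : ℂ}
    (hz : z ∈ segment ℝ (GP u v e.1 e.2) (GP u v e'.1 e'.2)) :
    ∃ X Y, At u v z X Y ∧ R.Mem X Y := by
  cases h with
  | H n k => exact seg_H u v n k hz
  | V n k => exact seg_V u v n k hz
  | D n k => exact seg_D u v n k hz

theorem GB.end {e e' : ℕ × ℕ} {R : Reg} (h : GB e e' R) {a b : ℕ} (hR : R.End a b) :
    (a, b) = e ∨ (a, b) = e' := by
  cases h with
  | H n k =>
    obtain ⟨h1, h2 | h2⟩ := hR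
    · left; rw [h1, h2]
    · right; rw [h1, h2]
  | V n k =>
    obtain ⟨h1, h2 | h2⟩ := hR
    · left; rw [h1, h2]
    · right; rw [h1, h2]
  | D n k =>
    obtain ⟨h1, h2⟩ | ⟨h1, h2⟩ := hR
    · left; rw [h1, h2]
    · right; rw [h1, h2]

theorem GB.notF {e e' : ℕ × ℕ} {R : Reg} (h : GB e e' R) : ∀ n k l, R ≠ .F n k l := by
  cases h <;> simp

theorem GB.inj {e e' f f' : ℕ × ℕ} {R : Reg} (h : GB e e' R) (h' : GB f f' R) :
    e = f ∧ e' = f' := by
  cases h <;> cases h' <;> simp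

theorem PX_nat {u : ℕ → ℂ} {n a : ℕ} {s : ℝ} (h0 : 0 ≤ s) (h1 : s ≤ 1) (h : (a : ℝ) = n + s) :
    PX u n s = PX u a 0 := by
  rcases nat_between (n := n) (a := a) (by linarith) (by linarith) with h4 | h4
  · subst h4
    have : s = 0 := by linarith
    rw [this]
  · subst h4
    push_cast at h
    have : s = 1 := by linarith
    rw [this, PX_one]

theorem At.eq_gp {u v : ℕ → ℂ} {z : ℂ} {a b : ℕ} (h : At u v z a b) : z = GP u v a b := by
  obtain ⟨n, k, s, r, hs0, hs1, hr0, hr1, hX, hY, rfl⟩ := h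
  rw [PX_nat hs0 hs1 hX, PX_nat hr0 hr1 hY]
  rfl

/-- Unit segments of a sheared grid meet only in common endpoints. -/
theorem grid_nc {u v : ℕ → ℂ} (hu : Hu u) (hv : Hv v) {e e' f f' : ℕ × ℕ} {R R' : Reg}
    (h : GB e e' R) (h' : GB f f' R') (hne : s(e, e') ≠ s(f, f')) {z : ℂ}
    (hz : z ∈ segment ℝ (GP u v e.1 e.2) (GP u v e'.1 e'.2))
    (hz' : z ∈ segment ℝ (GP u v f.1 f.2) (GP u v f'.1 f'.2)) :
    ∃ w, (w = e ∨ w = e') ∧ (w = f ∨ w = f') ∧ z = GP u v w.1 w.2 := by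
  obtain ⟨X, Y, hat, hM⟩ := h.seg hz
  obtain ⟨X', Y', hat', hM'⟩ := h'.seg hz'
  obtain ⟨rfl, rfl⟩ := hat.unique hu hv hat'
  rcases Reg.meet hM hM' h.notF h'.notF with rfl | ⟨a, b, rfl, rfl⟩
  · obtain ⟨rfl, rfl⟩ := h.inj h'
    exact absurd rfl hne
  · refine ⟨(a, b), h.end (Reg.end_of_mem hM), h'.end (Reg.end_of_mem hM'), ?_⟩
    exact hat.eq_gp

/-! ### The regions of the mesh -/

/-- the regions that occur in the mesh -/
def Reg.Ok : Reg → Prop
  | .H n k => n % 2 = 0 ∨ k % 6 = 2 ∨ k % 6 = 3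
  | .V _ _ => True
  | .D n k => n % 2 = 0 ∧ k % 6 < 5
  | .F n k h => (n % 2 = 1 ∧ k % 6 = 2 ∧ h = 1) ∨ (n % 2 = 0 ∧ k % 6 = 5 ∧ h = 1) ∨
      (n % 2 = 1 ∧ k % 6 = 3 ∧ h = 5)

theorem lt_of_cast {a b : ℕ} {X : ℝ} (h1 : (a : ℝ) < X) (h2 : X < b) : a < b := by
  have : (a : ℝ) < b := h1.trans h2
  exact_mod_cast this

theorem Reg.meet_F {R : Reg} {n k h : ℕ} {X Y : ℝ} (hM : R.Mem X Y)
    (hM' : (Reg.F n k h).Mem X Y) (hR : R.Ok) (hR' : (Reg.F n k h).Ok) : R = .F n k h := by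
  obtain ⟨h1, h2, h3, h4⟩ := hM'
  have hn : ∀ a : ℕ, X ≠ a := by
    intro a ha
    rw [ha] at h1 h2
    have h1' : n < a := by exact_mod_cast h1
    have h2' : a < n + 1 := by exact_mod_cast h2
    omega
  cases R with
  | H n' k' =>
    obtain ⟨m1, m2, m3⟩ := hM
    exfalso
    have e1 : n = n' := by
      have a1 : (n' : ℝ) < n + 1 := by linarith
      have a2 : (n : ℝ) < n' + 1 := by linarith
      have a1' : n' < n + 1 := by exact_mod_cast a1
      have a2' : n < n' + 1 := by exact_mod_cast a2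
      omega
    subst e1
    rw [m3] at h3 h4
    have h3' : k < k' := by exact_mod_cast h3
    have h4' : k' < k + h := by exact_mod_cast h4
    rcases hR' with ⟨q1, q2, q3⟩ | ⟨q1, q2, q3⟩ | ⟨q1, q2, q3⟩
    · omega
    · omega
    · rcases hR with q | q | q <;> omega
  | V n' k' =>
    obtain ⟨m1, m2, m3⟩ := hM
    exact absurd m1 (hn _)
  | D n' k' =>
    obtain ⟨s, s0, s1, m1, m2⟩ := hM
    exfalso
    have e1 : n = n' := by
      have b1 : s ≠ 0 := fun hs => hn n' (by rw [m1, hs, add_zero])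
      have b2 : s ≠ 1 := fun hs => hn (n' + 1) (by rw [m1, hs]; push_cast; ring)
      have b1' : 0 < s := lt_of_le_of_ne s0 (Ne.symm b1)
      have b2' : s < 1 := lt_of_le_of_ne s1 b2
      have a1 : (n' : ℝ) < n + 1 := by linarith
      have a2 : (n : ℝ) < n' + 1 := by linarith
      have a1' : n' < n + 1 := by exact_mod_cast a1
      have a2' : n < n' + 1 := by exact_mod_cast a2
      omega
    subst e1
    rcases hR' with ⟨q1, q2, q3⟩ | ⟨q1, q2, q3⟩ | ⟨q1, q2, q3⟩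
    · have := hR.1; omega
    · subst q3
      have a1 : (k : ℝ) < k' + 1 := by linarith
      have a2 : (k' : ℝ) < k + 1 := by push_cast at h4; linarith
      have a1' : k < k' + 1 := by exact_mod_cast a1
      have a2' : k' < k + 1 := by exact_mod_cast a2
      have := hR.2
      omega
    · have := hR.1; omega
  | F n' k' h' =>
    obtain ⟨m1, m2, m3, m4⟩ := hM
    have e1 : n = n' := by
      have a1 : (n' : ℝ) < n + 1 := by linarith
      have a2 : (n : ℝ) < n' + 1 := by linarith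
      have a1' : n' < n + 1 := by exact_mod_cast a1
      have a2' : n < n' + 1 := by exact_mod_cast a2
      omega
    subst e1
    have a1 : (k' : ℝ) < k + h := by linarith
    have a2 : (k : ℝ) < k' + h' := by linarith
    have a1' : k' < k + h := by exact_mod_cast a1
    have a2' : k < k' + h' := by exact_mod_cast a2
    have : k = k' ∧ h = h' := by
      rcases hR' with ⟨q1, q2, q3⟩ | ⟨q1, q2, q3⟩ | ⟨q1, q2, q3⟩ <;>
      rcases hR with ⟨r1, r2, r3⟩ | ⟨r1, r2, r3⟩ | ⟨r1, r2, r3⟩ <;> omega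
    rw [this.1, this.2]

theorem Reg.meet_ok {R R' : Reg} {X Y : ℝ} (h : R.Mem X Y) (h' : R'.Mem X Y)
    (hR : R.Ok) (hR' : R'.Ok) : R = R' ∨ ∃ a b : ℕ, X = a ∧ Y = b := by
  by_cases h1 : ∃ n k l, R = .F n k l
  · obtain ⟨n, k, l, rfl⟩ := h1
    exact Or.inl (Reg.meet_F h' h hR' hR).symm
  by_cases h2 : ∃ n k l, R' = .F n k l
  · obtain ⟨n, k, l, rfl⟩ := h2
    exact Or.inl (Reg.meet_F h h' hR hR')
  exact Reg.meet h h' (fun n k l e => h1 ⟨n, k, l, e⟩) (fun n k l e => h2 ⟨n, k, l, e⟩)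

/-- the kinds of bars -/
inductive Kd (m : Mesh) : Vtx → Vtx → Reg → Prop
  | grid {e e' : ℕ × ℕ} {R : Reg} (h : GB e e' R) (hR : R.Ok) :
      Kd m (vtx e.1 e.2) (vtx e'.1 e'.2) R
  | sh (i j l : ℕ) (hl : l = 2 ∨ l = 3) :
      Kd m (vtx (2 * j + 1) (6 * i + l)) (i, j, 12) (.F (2 * j + 1) (6 * i + 2) 1)
  | sv (i j c : ℕ) (hc : c < 2) :
      Kd m (vtx (2 * j + c) (6 * i + 5)) (i, j, 13) (.F (2 * j) (6 * i + 5) 1)
  | arm (i j : ℕ) (up : Bool) (q q' d : ℕ) (hi : i < m.N) (hj : j < m.M)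
      (h : ArmBar (al (m.C i j)) (ad (m.C i j)) q q' d) :
      Kd m (armV (m.C i j) i j up q) (armV (m.C i j) i j up q') (.F (2 * j + 1) (6 * i + 3) 5)

theorem Kd.ok {m : Mesh} {u v : Vtx} {R : Reg} (h : Kd m u v R) : R.Ok := by
  cases h with
  | grid h hR => exact hR
  | sh i j l hl => left; omega
  | sv i j c hc => right; left; omega
  | arm => right; right; omega

theorem kd_of_bar {m : Mesh} {u v : Vtx} {d : ℕ} (h : Bar m u v d) : ∃ R, Kd m u v R := by
  cases h with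
  | @plateH i j l hi hj hl =>
    refine ⟨.H (2 * j) (6 * i + l), ?_⟩
    have := Kd.grid (m := m) (GB.H (2 * j) (6 * i + l)) (Or.inl (by omega))
    rwa [show vtx (2 * j, 6 * i + l).1 (2 * j, 6 * i + l).2 = (i, j, 2 * l) from
      vtx_mk i j l 0 hl (by norm_num), show vtx (2 * j + 1, 6 * i + l).1 (2 * j + 1, 6 * i + l).2 =
      (i, j, 2 * l + 1) from vtx_mk i j l 1 hl (by norm_num)] at this
  | @plateV i j l c hi hj hl hc =>
    refine ⟨.V (2 * j + c) (6 * i + l), ?_⟩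
    have := Kd.grid (m := m) (GB.V (2 * j + c) (6 * i + l)) trivial
    rwa [show vtx (2 * j + c, 6 * i + l).1 (2 * j + c, 6 * i + l).2 = (i, j, 2 * l + c) from
      vtx_mk i j l c (by omega) hc, show vtx (2 * j + c, 6 * i + l + 1).1
      (2 * j + c, 6 * i + l + 1).2 = (i, j, 2 * (l + 1) + c) from
      vtx_mk i j (l + 1) c (by omega) hc] at this
  | @plateD i j l hi hj hl =>
    refine ⟨.D (2 * j) (6 * i + l), ?_⟩
    have := Kd.grid (m := m) (GB.D (2 * j) (6 * i + l)) (by constructor <;> omega)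
    rwa [show vtx (2 * j, 6 * i + l).1 (2 * j, 6 * i + l).2 = (i, j, 2 * l) from
      vtx_mk i j l 0 (by omega) (by norm_num), show vtx (2 * j + 1, 6 * i + l + 1).1
      (2 * j + 1, 6 * i + l + 1).2 =
      (i, j, 2 * (l + 1) + 1) from vtx_mk i j (l + 1) 1 (by omega) (by norm_num)] at this
  | @crankH i j l hi hj hl =>
    refine ⟨.H (2 * j + 1) (6 * i + l), ?_⟩
    have := Kd.grid (m := m) (GB.H (2 * j + 1) (6 * i + l)) (Or.inr (by omega))
    rwa [show vtx (2 * j + 1, 6 * i + l).1 (2 * j + 1, 6 * i + l).2 = (i, j, 2 * l + 1) from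
      vtx_mk i j l 1 (by omega) (by norm_num), show vtx (2 * j + 1 + 1, 6 * i + l).1
      (2 * j + 1 + 1, 6 * i + l).2 =
      (i, j + 1, 2 * l) from vtx_mk i (j + 1) l 0 (by omega) (by norm_num)] at this
  | @stopH i j l hi hj hl =>
    refine ⟨.F (2 * j + 1) (6 * i + 2) 1, ?_⟩
    have := Kd.sh (m := m) i j l hl
    rwa [vtx_mk i j l 1 (by omega) (by norm_num)] at this
  | @crankV i j c hi hj hc =>
    refine ⟨.V (2 * j + c) (6 * i + 5), ?_⟩
    have := Kd.grid (m := m) (GB.V (2 * j + c) (6 * i + 5)) trivial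
    rwa [show vtx (2 * j + c, 6 * i + 5).1 (2 * j + c, 6 * i + 5).2 = (i, j, 10 + c) from
      vtx_mk i j 5 c (by omega) hc, show vtx (2 * j + c, 6 * i + 5 + 1).1
      (2 * j + c, 6 * i + 5 + 1).2 = (i + 1, j, c) from by
        have := vtx_mk (i + 1) j 0 c (by omega) hc
        rwa [show 6 * (i + 1) + 0 = 6 * i + 5 + 1 from by ring,
          show 2 * 0 + c = c from by ring] at this] at this
  | @stopV i j c hi hj hc =>
    refine ⟨.F (2 * j) (6 * i + 5) 1, ?_⟩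
    have := Kd.sv (m := m) i j c hc
    rwa [vtx_mk i j 5 c (by omega) hc] at this
  | @arm i j q q' d hi hj up h => exact ⟨_, Kd.arm i j up q q' d hi hj h⟩

/-! ### Positions relative to grid points -/

theorem at_mk (u v : ℕ → ℂ) (n k : ℕ) {s r : ℝ} (hs0 : 0 ≤ s) (hs1 : s ≤ 1) (hr0 : 0 ≤ r)
    (hr1 : r ≤ 1) {z : ℂ} (hz : z = GP u v n k + s * u n + r * v k) :
    At u v z (n + s) (k + r) := by
  refine ⟨n, k, s, r, hs0, hs1, hr0, hr1, rfl, rfl, ?_⟩
  rw [hz]
  simp only [GP, PX]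
  push_cast
  ring

theorem GP_succ_left (u v : ℕ → ℂ) (n k : ℕ) : GP u v (n + 1) k = GP u v n k + u n := by
  simp only [GP, ← PX_one]
  simp only [PX]
  push_cast
  ring

theorem GP_succ_right (u v : ℕ → ℂ) (n k : ℕ) : GP u v n (k + 1) = GP u v n k + v k := by
  simp only [GP, ← PX_one]
  simp only [PX]
  push_cast
  ring

theorem sX_even (A : ℕ → ℝ) (j : ℕ) : sX A (2 * j) = 480 := by
  unfold sX
  rw [if_pos (by omega)]

theorem sX_odd (A : ℕ → ℝ) (j : ℕ) :
    sX A (2 * j + 1) = 3400 * ((√(1 - A j ^ 2) : ℝ) + (A j : ℝ) * I) := by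
  unfold sX
  rw [if_neg (by omega), show (2 * j + 1) / 2 = j from by omega]

/-- slopes of the cranks -/
theorem slope {A : ℝ} (h : |A| < 20 / 101) : |A / √(1 - A ^ 2)| < 20 / 99 := by
  have h1 := sqrt_gt h
  have h2 : 0 < √(1 - A ^ 2) := by linarith
  rw [abs_div, abs_of_pos h2, div_lt_div_iff₀ h2 (by norm_num)]
  nlinarith

theorem pos_12 (m : Mesh) (hh : ℝ) (A B : ℕ → ℝ) (i j : ℕ) :
    pos m hh A B (i, j, 12) = GP (sX A) (sY B) (2 * j + 1) (6 * i + 2) + (495 + 100 * I) := by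
  unfold pos
  norm_num
  exact plate_eq A B i j 2 1 (by norm_num) (by norm_num)

theorem pos_13 (m : Mesh) (hh : ℝ) (A B : ℕ → ℝ) (i j : ℕ) :
    pos m hh A B (i, j, 13) = GP (sX A) (sY B) (2 * j) (6 * i + 5) + (240 + 1188 * I) := by
  unfold pos
  norm_num
  exact plate_eq A B i j 5 0 (by norm_num) (by norm_num)

/-- A point of a bar is a grid point which is an end of the bar, or lies in its region. -/
def Loc (m : Mesh) (hh : ℝ) (A B : ℕ → ℝ) (u v : Vtx) (R : Reg) : Prop :=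
  ∀ z, z ∈ segment ℝ (pos m hh A B u) (pos m hh A B v) →
    (∃ a b, z = GP (sX A) (sY B) a b ∧ (vtx a b = u ∨ vtx a b = v)) ∨
      ∃ X Y, At (sX A) (sY B) z X Y ∧ R.Mem X Y

theorem loc_grid (m : Mesh) (hh : ℝ) (A B : ℕ → ℝ) {e e' : ℕ × ℕ} {R : Reg} (h : GB e e' R) :
    Loc m hh A B (vtx e.1 e.2) (vtx e'.1 e'.2) R := by
  intro z hz
  rw [pos_vtx, pos_vtx] at hz
  exact Or.inr (h.seg hz)

theorem loc_sh (m : Mesh) (hh : ℝ) {A B : ℕ → ℝ} (hA : ∀ j, |A j| < 20 / 101) (i j l : ℕ)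
    (hl : l = 2 ∨ l = 3) :
    Loc m hh A B (vtx (2 * j + 1) (6 * i + l)) (i, j, 12) (.F (2 * j + 1) (6 * i + 2) 1) := by
  intro z hz
  have hsl := abs_lt.1 (slope (hA j))
  have hc1 := sqrt_gt (hA j)
  have hc : 0 < √(1 - A j ^ 2) := by linarith
  have hv : sY B (6 * i + 2) = 200 * I := by
    rw [sY_of_lt B i 2 (by norm_num)]
    simp [hgt]
  rw [pos_vtx, pos_12] at hz
  obtain ⟨t, t0, t1, rfl⟩ := mem_segment_iff.1 hz
  clear hz
  rcases eq_or_lt_of_le t0 with ht | ht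
  · left
    exact ⟨2 * j + 1, 6 * i + l, by rw [← ht]; simp, Or.inl rfl⟩
  right
  obtain ⟨s, hs⟩ : ∃ s, s = 495 * t / (3400 * √(1 - A j ^ 2)) := ⟨_, rfl⟩
  have hs0 : 0 < s := by rw [hs]; positivity
  have hs1 : s < 1 := by
    rw [hs, div_lt_one (by positivity)]
    nlinarith
  have e1 : t * 495 = 3400 * (s * √(1 - A j ^ 2)) := by
    rw [hs]
    field_simp
  obtain ⟨κ, hκ⟩ : ∃ κ, κ = A j / √(1 - A j ^ 2) := ⟨_, rfl⟩
  rw [← hκ] at hsl
  have e2 : t * 495 * κ = 3400 * (s * A j) := by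
    rw [e1, hκ]
    field_simp
  rcases hl with rfl | rfl
  · have h1 : 0 < t * (1 / 2 - 495 / 200 * κ) := mul_pos ht (by linarith [hsl.2])
    have h2 : t * (1 / 2 - 495 / 200 * κ) < 1 := by nlinarith [hsl.1, hsl.2]
    obtain ⟨r, hr⟩ : ∃ r, r = t * (1 / 2 - 495 / 200 * κ) := ⟨_, rfl⟩
    rw [← hr] at h1 h2
    refine ⟨_, _, at_mk (sX A) (sY B) (2 * j + 1) (6 * i + 2)
      (s := s) (r := r) hs0.le hs1.le h1.le h2.le ?_, ?_⟩
    · rw [sX_odd, hv]
      apply Complex.ext <;> simp <;> linarith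
    · refine ⟨?_, ?_, ?_, ?_⟩ <;> push_cast <;> linarith
  · have h1 : 0 < t * (1 / 2 + 495 / 200 * κ) := mul_pos ht (by linarith [hsl.1])
    have h2 : t * (1 / 2 + 495 / 200 * κ) < 1 := by nlinarith [hsl.1, hsl.2]
    obtain ⟨r, hr⟩ : ∃ r, r = 1 - t * (1 / 2 + 495 / 200 * κ) := ⟨_, rfl⟩
    have h3 : 0 < r := by rw [hr]; linarith
    have h4 : r < 1 := by rw [hr]; linarith
    refine ⟨_, _, at_mk (sX A) (sY B) (2 * j + 1) (6 * i + 2)
      (s := s) (r := r) hs0.le hs1.le h3.le h4.le ?_, ?_⟩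
    · rw [show 6 * i + 3 = 6 * i + 2 + 1 from rfl, GP_succ_right, sX_odd, hv]
      apply Complex.ext <;> simp <;> linarith
    · refine ⟨?_, ?_, ?_, ?_⟩ <;> push_cast <;> linarith

theorem loc_sv (m : Mesh) (hh : ℝ) {A B : ℕ → ℝ} (hB : ∀ j, |B j| < 20 / 101) (i j c : ℕ)
    (hc : c < 2) :
    Loc m hh A B (vtx (2 * j + c) (6 * i + 5)) (i, j, 13) (.F (2 * j) (6 * i + 5) 1) := by
  intro z hz
  have hsl := abs_lt.1 (slope (hB i))
  have hc1 := sqrt_gt (hB i)
  have hc0 : 0 < √(1 - B i ^ 2) := by linarith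
  rw [pos_vtx, pos_13] at hz
  obtain ⟨t, t0, t1, rfl⟩ := mem_segment_iff.1 hz
  clear hz
  rcases eq_or_lt_of_le t0 with ht | ht
  · left
    exact ⟨2 * j + c, 6 * i + 5, by rw [← ht]; simp, Or.inl rfl⟩
  right
  obtain ⟨r, hr⟩ : ∃ r, r = 1188 * t / (3400 * √(1 - B i ^ 2)) := ⟨_, rfl⟩
  have hr0 : 0 < r := by rw [hr]; positivity
  have hr1 : r < 1 := by
    rw [hr, div_lt_one (by positivity)]
    nlinarith
  have e1 : t * 1188 = 3400 * (r * √(1 - B i ^ 2)) := by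
    rw [hr]
    field_simp
  obtain ⟨κ, hκ⟩ : ∃ κ, κ = B i / √(1 - B i ^ 2) := ⟨_, rfl⟩
  rw [← hκ] at hsl
  have e2 : t * 1188 * κ = 3400 * (r * B i) := by
    rw [e1, hκ]
    field_simp
  interval_cases c
  · have h1 : 0 < t * (1 / 2 + 1188 / 480 * κ) := mul_pos ht (by linarith [hsl.1])
    have h2 : t * (1 / 2 + 1188 / 480 * κ) < 1 := by nlinarith [hsl.1, hsl.2]
    obtain ⟨s, hs⟩ : ∃ s, s = t * (1 / 2 + 1188 / 480 * κ) := ⟨_, rfl⟩
    rw [← hs] at h1 h2
    refine ⟨_, _, at_mk (sX A) (sY B) (2 * j) (6 * i + 5)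
      (s := s) (r := r) h1.le h2.le hr0.le hr1.le ?_, ?_⟩
    · rw [add_zero, sX_even, sY_five]
      apply Complex.ext <;> simp <;> linarith
    · refine ⟨?_, ?_, ?_, ?_⟩ <;> push_cast <;> linarith
  · have h1 : 0 < t * (1 / 2 - 1188 / 480 * κ) := mul_pos ht (by linarith [hsl.2])
    have h2 : t * (1 / 2 - 1188 / 480 * κ) < 1 := by nlinarith [hsl.1, hsl.2]
    obtain ⟨s, hs⟩ : ∃ s, s = 1 - t * (1 / 2 - 1188 / 480 * κ) := ⟨_, rfl⟩
    have h3 : 0 < s := by rw [hs]; linarith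
    have h4 : s < 1 := by rw [hs]; linarith
    refine ⟨_, _, at_mk (sX A) (sY B) (2 * j) (6 * i + 5)
      (s := s) (r := r) h3.le h4.le hr0.le hr1.le ?_, ?_⟩
    · rw [GP_succ_left, sX_even, sY_five]
      apply Complex.ext <;> simp <;> linarith
    · refine ⟨?_, ?_, ?_, ?_⟩ <;> push_cast <;> linarith

end LockPl
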