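import Pool.Agent.Lib.MP_14e06f_lc.Plane.Mesh

set_option autoImplicit false

/-!
# Sheared grids in the plane

`At u v z X Y`: the point `z` has grid coordinates `(X, Y)` in the sheared grid with column steps
`u n` and row steps `v k`. The coordinates are unique if the steps lie in narrow cones.
-/

namespace LockPl

open Complex Finset

/-- the narrow horizontal cone -/
def CU (z : ℂ) : Prop := |z.im| ≤ z.re / 4

/-- the narrow vertical cone -/
def CV (z : ℂ) : Prop := |z.re| ≤ z.im / 4

theorem CU.add {z w : ℂ} (h : CU z) (h' : CU w) : CU (z + w) := by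
  unfold CU at *
  rw [add_im, add_re]
  have := abs_add_le z.im w.im
  linarith

theorem CU.smul {z : ℂ} {t : ℝ} (ht : 0 ≤ t) (h : CU z) : CU (t * z) := by
  unfold CU at *
  rw [re_ofReal_mul, im_ofReal_mul, abs_mul, abs_of_nonneg ht]
  nlinarith

theorem CU.zero : CU 0 := by simp [CU]

theorem CU.re_nonneg {z : ℂ} (h : CU z) : 0 ≤ z.re := by
  unfold CU at h
  have := abs_nonneg z.im
  linarith

/-- the partial path of the steps `u` -/
noncomputable def PX (u : ℕ → ℂ) (n : ℕ) (s : ℝ) : ℂ := ∑ t ∈ range n, u t + s * u n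

theorem PX_one (u : ℕ → ℂ) (n : ℕ) : PX u n 1 = PX u (n + 1) 0 := by
  simp [PX, sum_range_succ]

theorem PX_zero (u : ℕ → ℂ) (n : ℕ) : PX u n 0 = ∑ t ∈ range n, u t := by
  simp [PX]

/-- steps in the open horizontal cone -/
def Hu (u : ℕ → ℂ) : Prop := ∀ n, CU (u n) ∧ 0 < (u n).re

theorem PX_diff0 {u : ℕ → ℂ} (hu : Hu u) (n d : ℕ) :
    CU (PX u (n + d) 0 - PX u n 0) ∧ (0 < d → 0 < (PX u (n + d) 0 - PX u n 0).re) := by
  induction d with
  | zero => simp [CU.zero]
  | succ d ih =>
    have e : PX u (n + (d + 1)) 0 - PX u n 0 = (PX u (n + d) 0 - PX u n 0) + u (n + d) := by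
      rw [← add_assoc, ← PX_one]
      simp [PX]
      ring
    rw [e]
    refine ⟨ih.1.add (hu _).1, fun _ => ?_⟩
    rw [add_re]
    have := ih.1.re_nonneg
    have := (hu (n + d)).2
    linarith

theorem PX_mono {u : ℕ → ℂ} (hu : Hu u) {n n' : ℕ} {s s' : ℝ} (h0 : 0 ≤ s) (h1 : s ≤ 1)
    (h0' : 0 ≤ s') (h1' : s' ≤ 1) (h : (n : ℝ) + s ≤ n' + s') :
    CU (PX u n' s' - PX u n s) ∧ ((n : ℝ) + s < n' + s' → 0 < (PX u n' s' - PX u n s).re) := by
  rcases lt_trichotomy n n' with hn | hn | hn
  · obtain ⟨d, rfl⟩ : ∃ d, n' = n + 1 + d := ⟨n' - (n + 1), by omega⟩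
    have e : PX u (n + 1 + d) s' - PX u n s =
        ((1 - s : ℝ) : ℂ) * u n + (PX u (n + 1 + d) 0 - PX u (n + 1) 0) +
          (s' : ℂ) * u (n + 1 + d) := by
      rw [← PX_one]
      simp only [PX]
      push_cast
      ring
    rw [e]
    have h2 := PX_diff0 hu (n + 1) d
    refine ⟨((CU.smul (by linarith) (hu n).1).add h2.1).add (CU.smul h0' (hu _).1), fun hlt => ?_⟩
    rw [add_re, add_re, re_ofReal_mul, re_ofReal_mul]
    have h3 := h2.1.re_nonneg
    have h4 := (hu n).2
    have h5 := (hu (n + 1 + d)).2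
    by_cases hs : s < 1
    · nlinarith [mul_pos (by linarith : 0 < 1 - s) h4, mul_nonneg h0' h5.le]
    · by_cases hs' : 0 < s'
      · nlinarith [mul_pos hs' h5, mul_nonneg (by linarith : 0 ≤ 1 - s) h4.le]
      · have hd : 0 < d := by
          rcases Nat.eq_zero_or_pos d with hd | hd
          · subst hd
            push_cast at hlt
            linarith
          · exact hd
        have h6 := h2.2 hd
        nlinarith [mul_nonneg h0' h5.le, mul_nonneg (by linarith : 0 ≤ 1 - s) h4.le]
  · subst hn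
    have e : PX u n s' - PX u n s = ((s' - s : ℝ) : ℂ) * u n := by
      simp only [PX]
      push_cast
      ring
    rw [e]
    refine ⟨CU.smul (by linarith) (hu n).1, fun hlt => ?_⟩
    rw [re_ofReal_mul]
    exact mul_pos (by linarith) (hu n).2
  · have : (n' : ℝ) + 1 ≤ n := by exact_mod_cast hn
    have h2 : (n : ℝ) + s = n' + 1 := by linarith
    have h3 : n = n' + 1 := by
      have : (n : ℝ) ≤ n' + 1 := by linarith
      have h4 : n ≤ n' + 1 := by exact_mod_cast this
      omega
    subst h3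
    push_cast at *
    have h4 : s = 0 := by linarith
    have h5 : s' = 1 := by linarith
    subst h4
    subst h5
    rw [PX_one, sub_self]
    exact ⟨CU.zero, fun hlt => absurd hlt (by linarith)⟩

/-- `z` has the grid coordinates `(X, Y)`. -/
def At (u v : ℕ → ℂ) (z : ℂ) (X Y : ℝ) : Prop :=
  ∃ (n k : ℕ) (s r : ℝ), 0 ≤ s ∧ s ≤ 1 ∧ 0 ≤ r ∧ r ≤ 1 ∧ X = n + s ∧ Y = k + r ∧
    z = PX u n s + PX v k r

/-- steps in the open vertical cone -/
def Hv (v : ℕ → ℂ) : Prop := Hu (fun n => -I * v n)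

theorem PX_rot (v : ℕ → ℂ) (n : ℕ) (s : ℝ) : PX (fun n => -I * v n) n s = -I * PX v n s := by
  simp only [PX, ← mul_sum]
  ring

/-- The grid coordinates are unique. -/
theorem At.unique {u v : ℕ → ℂ} (hu : Hu u) (hv : Hv v) {z : ℂ} {X Y X' Y' : ℝ}
    (h : At u v z X Y) (h' : At u v z X' Y') : X = X' ∧ Y = Y' := by
  obtain ⟨n, k, s, r, hs0, hs1, hr0, hr1, rfl, rfl, hz⟩ := h
  obtain ⟨n', k', s', r', hs0', hs1', hr0', hr1', rfl, rfl, hz'⟩ := h'
  set dX := PX u n' s' - PX u n s with hdX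
  set dY := PX v k' r' - PX v k r with hdY
  have hsum : dX + dY = 0 := by
    rw [hdX, hdY]
    linear_combination hz - hz'
  have hX1 : |dX.im| ≤ |dX.re| / 4 := by
    rcases le_total ((n : ℝ) + s) (n' + s') with h | h
    · have h1 := (PX_mono hu hs0 hs1 hs0' hs1' h).1
      have h2 := h1.re_nonneg
      rw [abs_of_nonneg h2]
      exact h1
    · have h1 := (PX_mono hu hs0' hs1' hs0 hs1 h).1
      have h2 := h1.re_nonneg
      have e : PX u n s - PX u n' s' = -dX := by rw [hdX]; ring
      rw [e] at h1 h2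
      unfold CU at h1
      rw [neg_im, neg_re, abs_neg] at h1
      rw [neg_re] at h2
      rw [abs_of_nonpos (by linarith : dX.re ≤ 0)]
      exact h1
  have hY1 : |dY.re| ≤ |dY.im| / 4 := by
    have e0 : ∀ a b : ℂ, -I * a - -I * b = -I * (a - b) := fun a b => by ring
    rcases le_total ((k : ℝ) + r) (k' + r') with h | h
    · have h1 := (PX_mono hv hr0 hr1 hr0' hr1' h).1
      have h2 := h1.re_nonneg
      rw [PX_rot, PX_rot, e0, ← hdY] at h1 h2
      unfold CU at h1
      simp at h1 h2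
      rw [abs_of_nonneg h2]
      exact h1
    · have h1 := (PX_mono hv hr0' hr1' hr0 hr1 h).1
      have h2 := h1.re_nonneg
      have e : PX v k r - PX v k' r' = -dY := by rw [hdY]; ring
      rw [PX_rot, PX_rot, e0, e] at h1 h2
      unfold CU at h1
      simp at h1 h2
      rw [abs_of_nonpos (by linarith : dY.im ≤ 0)]
      exact h1
  have hre : dX.re = -dY.re := by
    have := congrArg Complex.re hsum
    simp at this
    linarith
  have him : dX.im = -dY.im := by
    have := congrArg Complex.im hsum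
    simp at this
    linarith
  rw [hre, him, abs_neg, abs_neg] at hX1
  have h0 : |dY.re| = 0 := by
    have := abs_nonneg dY.re
    linarith
  have h1 : |dY.im| = 0 := by
    have := abs_nonneg dY.im
    linarith
  rw [abs_eq_zero] at h0 h1
  have hXre : dX.re = 0 := by rw [hre, h0, neg_zero]
  constructor
  · rcases lt_trichotomy ((n : ℝ) + s) (n' + s') with h | h | h
    · have := (PX_mono hu hs0 hs1 hs0' hs1' h.le).2 h
      rw [← hdX, hXre] at this
      exact absurd this (lt_irrefl _)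
    · exact h
    · have := (PX_mono hu hs0' hs1' hs0 hs1 h.le).2 h
      have e : PX u n s - PX u n' s' = -dX := by rw [hdX]; ring
      rw [e, neg_re, hXre, neg_zero] at this
      exact absurd this (lt_irrefl _)
  · have e0 : ∀ a b : ℂ, -I * a - -I * b = -I * (a - b) := fun a b => by ring
    rcases lt_trichotomy ((k : ℝ) + r) (k' + r') with h | h | h
    · have := (PX_mono hv hr0 hr1 hr0' hr1' h.le).2 h
      rw [PX_rot, PX_rot, e0, ← hdY] at this
      simp [h1] at this
    · exact h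
    · have := (PX_mono hv hr0' hr1' hr0 hr1 h.le).2 h
      have e : PX v k r - PX v k' r' = -dY := by rw [hdY]; ring
      rw [PX_rot, PX_rot, e0, e] at this
      simp [h1] at this

/-! ### Regions -/

/-- regions in grid coordinates: horizontal, vertical and diagonal unit segments, and open
rectangles of width 1 -/
inductive Reg
  | H (n k : ℕ)
  | V (n k : ℕ)
  | D (n k : ℕ)
  | F (n k h : ℕ)

/-- membership -/
def Reg.Mem : Reg → ℝ → ℝ → Prop
  | .H n k, X, Y => (n : ℝ) ≤ X ∧ X ≤ n + 1 ∧ Y = k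
  | .V n k, X, Y => X = n ∧ (k : ℝ) ≤ Y ∧ Y ≤ k + 1
  | .D n k, X, Y => ∃ s : ℝ, 0 ≤ s ∧ s ≤ 1 ∧ X = n + s ∧ Y = k + s
  | .F n k h, X, Y => (n : ℝ) < X ∧ X < n + 1 ∧ (k : ℝ) < Y ∧ Y < k + h

/-- the endpoints of a segment region -/
def Reg.End : Reg → ℕ → ℕ → Prop
  | .H n k, a, b => b = k ∧ (a = n ∨ a = n + 1)
  | .V n k, a, b => a = n ∧ (b = k ∨ b = k + 1)
  | .D n k, a, b => (a = n ∧ b = k) ∨ (a = n + 1 ∧ b = k + 1)
  | .F _ _ _, _, _ => False

theorem nat_between {n a : ℕ} (h1 : (n : ℝ) ≤ a) (h2 : (a : ℝ) ≤ n + 1) : a = n ∨ a = n + 1 := by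
  have h1' : n ≤ a := by exact_mod_cast h1
  have h2' : a ≤ n + 1 := by exact_mod_cast h2
  omega

/-- A grid point in a region is an endpoint. -/
theorem Reg.end_of_mem {R : Reg} {a b : ℕ} (h : R.Mem a b) : R.End a b := by
  cases R with
  | H n k =>
    obtain ⟨h1, h2, h3⟩ := h
    exact ⟨by exact_mod_cast h3, nat_between h1 h2⟩
  | V n k =>
    obtain ⟨h1, h2, h3⟩ := h
    exact ⟨by exact_mod_cast h1, nat_between h2 h3⟩
  | D n k =>
    obtain ⟨s, h0, h1, h2, h3⟩ := h
    rcases nat_between (n := n) (a := a) (by linarith) (by linarith) with h4 | h4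
    · left
      refine ⟨h4, ?_⟩
      subst h4
      have : s = 0 := by linarith
      subst this
      have : (b : ℝ) = k := by linarith
      exact_mod_cast this
    · right
      refine ⟨h4, ?_⟩
      subst h4
      push_cast at h2
      have : s = 1 := by linarith
      subst this
      have : (b : ℝ) = (k + 1 : ℕ) := by push_cast; linarith
      exact_mod_cast this
  | F n k h =>
    obtain ⟨h1, h2, -, -⟩ := h
    have h1' : n < a := by exact_mod_cast h1
    have h2' : a < n + 1 := by exact_mod_cast h2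
    omega

/-- Two segment regions meet only in grid points unless they are equal. -/
theorem Reg.meet {R R' : Reg} {X Y : ℝ} (h : R.Mem X Y) (h' : R'.Mem X Y)
    (hR : ∀ n k l, R ≠ .F n k l) (hR' : ∀ n k l, R' ≠ .F n k l) :
    R = R' ∨ ∃ a b : ℕ, X = a ∧ Y = b := by
  have key : ∀ {n a : ℕ} {s : ℝ}, 0 ≤ s → s ≤ 1 → (a : ℝ) = n + s → s = 0 ∨ s = 1 := by
    intro n a s h0 h1 h2
    rcases nat_between (n := n) (a := a) (by linarith) (by linarith) with h4 | h4
    · left; subst h4; linarith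
    · right; subst h4; push_cast at h2; linarith
  cases R with
  | H n k =>
    obtain ⟨h1, h2, h3⟩ := h
    cases R' with
    | H n' k' =>
      obtain ⟨h1', h2', h3'⟩ := h'
      have hk : k = k' := by
        have : (k : ℝ) = k' := by rw [← h3, h3']
        exact_mod_cast this
      subst hk
      rcases lt_trichotomy n n' with hn | hn | hn
      · right
        have : (n : ℝ) + 1 ≤ n' := by exact_mod_cast hn
        exact ⟨n', k, by linarith, h3⟩
      · left; rw [hn]
      · right
        have : (n' : ℝ) + 1 ≤ n := by exact_mod_cast hn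
        exact ⟨n, k, by linarith, h3⟩
    | V n' k' => exact Or.inr ⟨n', k, h'.1, h3⟩
    | D n' k' =>
      obtain ⟨s, h0', h1', h2', h3'⟩ := h'
      right
      rcases key h0' h1' (show (k : ℝ) = k' + s by linarith) with hs | hs
      · exact ⟨n', k, by rw [h2', hs]; simp, h3⟩
      · exact ⟨n' + 1, k, by rw [h2', hs]; push_cast; ring, h3⟩
    | F n' k' l => exact absurd rfl (hR' _ _ _)
  | V n k =>
    obtain ⟨h1, h2, h3⟩ := h
    cases R' with
    | H n' k' => exact Or.inr ⟨n, k', h1, h'.2.2⟩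
    | V n' k' =>
      obtain ⟨h1', h2', h3'⟩ := h'
      have hk : n = n' := by
        have : (n : ℝ) = n' := by rw [← h1, h1']
        exact_mod_cast this
      subst hk
      rcases lt_trichotomy k k' with hn | hn | hn
      · right
        have : (k : ℝ) + 1 ≤ k' := by exact_mod_cast hn
        exact ⟨n, k', h1, by linarith⟩
      · left; rw [hn]
      · right
        have : (k' : ℝ) + 1 ≤ k := by exact_mod_cast hn
        exact ⟨n, k, h1, by linarith⟩
    | D n' k' =>
      obtain ⟨s, h0', h1', h2', h3'⟩ := h'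
      right
      rcases key h0' h1' (show (n : ℝ) = n' + s by linarith) with hs | hs
      · exact ⟨n, k', h1, by rw [h3', hs]; simp⟩
      · exact ⟨n, k' + 1, h1, by rw [h3', hs]; push_cast; ring⟩
    | F n' k' l => exact absurd rfl (hR' _ _ _)
  | D n k =>
    obtain ⟨s, h0, h1, h2, h3⟩ := h
    cases R' with
    | H n' k' =>
      obtain ⟨h1', h2', h3'⟩ := h'
      right
      rcases key h0 h1 (show (k' : ℝ) = k + s by linarith) with hs | hs
      · exact ⟨n, k', by rw [h2, hs]; simp, h3'⟩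
      · exact ⟨n + 1, k', by rw [h2, hs]; push_cast; ring, h3'⟩
    | V n' k' =>
      obtain ⟨h1', h2', h3'⟩ := h'
      right
      rcases key h0 h1 (show (n' : ℝ) = n + s by linarith) with hs | hs
      · exact ⟨n', k, h1', by rw [h3, hs]; simp⟩
      · exact ⟨n', k + 1, h1', by rw [h3, hs]; push_cast; ring⟩
    | D n' k' =>
      obtain ⟨s', h0', h1', h2', h3'⟩ := h'
      rcases lt_trichotomy n n' with hn | hn | hn
      · right
        have h5 : (n : ℝ) + 1 ≤ n' := by exact_mod_cast hn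
        have h6 : s = 1 := by linarith
        exact ⟨n + 1, k + 1, by rw [h2, h6]; push_cast; ring, by rw [h3, h6]; push_cast; ring⟩
      · left
        subst hn
        have h6 : s = s' := by linarith
        have h7 : (k : ℝ) = k' := by linarith
        have h8 : k = k' := by exact_mod_cast h7
        rw [h8]
      · right
        have h5 : (n' : ℝ) + 1 ≤ n := by exact_mod_cast hn
        have h6 : s' = 1 := by linarith
        exact ⟨n' + 1, k' + 1, by rw [h2', h6]; push_cast; ring, by rw [h3', h6]; push_cast; ring⟩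
    | F n' k' l => exact absurd rfl (hR' _ _ _)
  | F n k l => exact absurd rfl (hR _ _ _)

/-! ### Grid points and segments of the sheared grid -/

/-- the grid point `(n, k)` -/
noncomputable def GP (u v : ℕ → ℂ) (n k : ℕ) : ℂ := PX u n 0 + PX v k 0

theorem at_gp (u v : ℕ → ℂ) (n k : ℕ) : At u v (GP u v n k) n k :=
  ⟨n, k, 0, 0, le_rfl, zero_le_one, le_rfl, zero_le_one, by simp, by simp, rfl⟩

theorem mem_segment_iff {a b z : ℂ} :
    z ∈ segment ℝ a b ↔ ∃ t : ℝ, 0 ≤ t ∧ t ≤ 1 ∧ z = a + t * (b - a) := by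
  rw [segment_eq_image', Set.mem_image]
  constructor
  · rintro ⟨t, ⟨h0, h1⟩, rfl⟩
    exact ⟨t, h0, h1, by simp⟩
  · rintro ⟨t, h0, h1, rfl⟩
    exact ⟨t, ⟨h0, h1⟩, by simp⟩

theorem seg_H (u v : ℕ → ℂ) (n k : ℕ) {z : ℂ}
    (hz : z ∈ segment ℝ (GP u v n k) (GP u v (n + 1) k)) :
    ∃ X Y, At u v z X Y ∧ (Reg.H n k).Mem X Y := by
  obtain ⟨t, h0, h1, rfl⟩ := mem_segment_iff.1 hz
  refine ⟨n + t, k, ⟨n, k, t, 0, h0, h1, le_rfl, zero_le_one, rfl, by simp, ?_⟩, by linarith,
    by linarith, rfl⟩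
  simp only [GP, ← PX_one]
  simp only [PX]
  push_cast
  ring

theorem seg_V (u v : ℕ → ℂ) (n k : ℕ) {z : ℂ}
    (hz : z ∈ segment ℝ (GP u v n k) (GP u v n (k + 1))) :
    ∃ X Y, At u v z X Y ∧ (Reg.V n k).Mem X Y := by
  obtain ⟨t, h0, h1, rfl⟩ := mem_segment_iff.1 hz
  refine ⟨n, k + t, ⟨n, k, 0, t, le_rfl, zero_le_one, h0, h1, by simp, rfl, ?_⟩, rfl,
    by linarith, by linarith⟩
  simp only [GP, ← PX_one]
  simp only [PX]
  push_cast
  ring

theorem seg_D (u v : ℕ → ℂ) (n k : ℕ) {z : ℂ}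
    (hz : z ∈ segment ℝ (GP u v n k) (GP u v (n + 1) (k + 1))) :
    ∃ X Y, At u v z X Y ∧ (Reg.D n k).Mem X Y := by
  obtain ⟨t, h0, h1, rfl⟩ := mem_segment_iff.1 hz
  refine ⟨n + t, k + t, ⟨n, k, t, t, h0, h1, h0, h1, rfl, rfl, ?_⟩, t, h0, h1, rfl, rfl⟩
  simp only [GP, ← PX_one]
  simp only [PX]
  push_cast
  ring

end LockPl
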