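import Pool.Agent.Lib.MP_14e06f_lc.Plane.Config

set_option autoImplicit false

/-!
# When the linkage of a mesh is locked
-/

namespace LockPl

open Complex

/-! ### Some displacements in the standard drawings -/

theorem isVert_plate (m : Mesh) {i j l c : ℕ} (hi : i ≤ m.N) (hj : j ≤ m.M) (hl : l < 6)
    (hc : c < 2) : IsVert m (i, j, 2 * l + c) := by
  have h := Bar.plateH (m := m) hi hj hl
  interval_cases c
  · exact h.isVert_left
  · exact h.isVert_right

section

variable (m : Mesh) (hh : ℝ) (A B : ℕ → ℝ)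

theorem pos_plate (i j l c : ℕ) (hl : l < 6) (hc : c < 2) :
    pos m hh A B (i, j, 2 * l + c) = GP (sX A) (sY B) (2 * j + c) (6 * i + l) := by
  rw [← vtx_mk i j l c hl hc, pos_vtx]

theorem pos_d01 : pos m hh A B (0, 0, 1) - pos m hh A B (0, 0, 0) = 480 := by
  have h1 := pos_plate m hh A B 0 0 0 0 (by norm_num) (by norm_num)
  have h2 := pos_plate m hh A B 0 0 0 1 (by norm_num) (by norm_num)
  have h3 := GP_succ_left (sX A) (sY B) 0 0
  have h4 := sX_even A 0
  simp only [Nat.mul_zero, Nat.zero_add, Nat.add_zero] at h1 h2 h3 h4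
  rw [h1, h2, h3, h4]
  ring

theorem pos_d13 : pos m hh A B (0, 0, 3) - pos m hh A B (0, 0, 1) = 1400 * I := by
  have h1 := pos_plate m hh A B 0 0 0 1 (by norm_num) (by norm_num)
  have h2 := pos_plate m hh A B 0 0 1 1 (by norm_num) (by norm_num)
  have h3 := GP_succ_right (sX A) (sY B) 1 0
  have h4 := sY_of_lt B 0 0 (by norm_num)
  simp only [Nat.mul_zero, Nat.zero_add, Nat.add_zero, Nat.mul_one] at h1 h2 h3 h4
  rw [h1, show (0, 0, 3) = ((0, 0, 2 + 1) : Vtx) from rfl, h2, h3, h4]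
  simp [hgt]

theorem pos_crankH (j : ℕ) : pos m hh A B (0, j + 1, 4) - pos m hh A B (0, j, 5) =
    3400 * ((√(1 - A j ^ 2) : ℝ) + (A j : ℝ) * I) := by
  have h1 := pos_plate m hh A B 0 (j + 1) 2 0 (by norm_num) (by norm_num)
  have h2 := pos_plate m hh A B 0 j 2 1 (by norm_num) (by norm_num)
  have h3 := GP_succ_left (sX A) (sY B) (2 * j + 1) 2
  have e1 : ((0, j + 1, 2 * 2 + 0) : Vtx) = (0, j + 1, 4) := rfl
  have e2 : ((0, j, 2 * 2 + 1) : Vtx) = (0, j, 5) := rfl
  rw [e1] at h1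
  rw [e2] at h2
  simp only [Nat.mul_zero, Nat.zero_add, Nat.add_zero] at h1 h2
  rw [h1, h2, show 2 * (j + 1) = 2 * j + 1 + 1 from by ring, h3, sX_odd]
  ring

theorem pos_crankV (i : ℕ) : pos m hh A B (i + 1, 0, 0) - pos m hh A B (i, 0, 10) =
    3400 * (-(B i : ℝ) + (√(1 - B i ^ 2) : ℝ) * I) := by
  have h1 := pos_plate m hh A B (i + 1) 0 0 0 (by norm_num) (by norm_num)
  have h2 := pos_plate m hh A B i 0 5 0 (by norm_num) (by norm_num)
  have h3 := GP_succ_right (sX A) (sY B) 0 (6 * i + 5)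
  have e1 : ((i + 1, 0, 2 * 0 + 0) : Vtx) = (i + 1, 0, 0) := rfl
  have e2 : ((i, 0, 2 * 5 + 0) : Vtx) = (i, 0, 10) := rfl
  rw [e1] at h1
  rw [e2] at h2
  simp only [Nat.mul_zero, Nat.add_zero] at h1 h2
  rw [h1, h2, show 6 * (i + 1) = 6 * i + 5 + 1 from by ring, h3, sY_five]
  ring

end

/-! ### Parameters of a configuration -/

/-- the direction of the plates -/
noncomputable def fω (q : Vtx → ℂ) : ℂ := (q (0, 0, 1) - q (0, 0, 0)) / 480

/-- the orientation -/
noncomputable def fσ (q : Vtx → ℂ) : ℝ :=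
  ((starRingEnd ℂ) (fω q) * (q (0, 0, 3) - q (0, 0, 1))).im / 1400

/-- the parameters -/
noncomputable def fpar (m : Mesh) (q : Vtx → ℂ) : (ℕ → ℝ) × (ℕ → ℝ) :=
  (fun j => if j < m.M then
      fσ q * ((starRingEnd ℂ) (fω q) * (q (0, j + 1, 4) - q (0, j, 5))).im / 3400 else 0,
   fun i => if i < m.N then
      -((starRingEnd ℂ) (fω q) * (q (i + 1, 0, 0) - q (i, 0, 10))).re / 3400 else 0)

/-- truncation of parameters -/
noncomputable def trunc (m : Mesh) (x : (ℕ → ℝ) × (ℕ → ℝ)) : (ℕ → ℝ) × (ℕ → ℝ) :=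
  (fun j => if j < m.M then x.1 j else 0, fun i => if i < m.N then x.2 i else 0)

theorem trunc_mem {m : Mesh} {x : (ℕ → ℝ) × (ℕ → ℝ)} (hx : x ∈ ParamSet m) :
    trunc m x ∈ ParamSet m := by
  obtain ⟨⟨h1, h2⟩, h3⟩ := hx
  refine ⟨⟨?_, ?_⟩, ?_⟩
  · intro j
    simp only [trunc]
    split
    · exact h1 j
    · norm_num
  · intro i
    simp only [trunc]
    split
    · exact h2 i
    · norm_num
  · intro i hi j hj
    simp only [trunc, if_pos hi, if_pos hj]
    exact h3 i hi j hj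

theorem trunc_compat {m : Mesh} {x : (ℕ → ℝ) × (ℕ → ℝ)} {s : State} (h : Compat m x s) :
    Compat m (trunc m x) s := by
  refine ⟨?_, ?_⟩
  · intro j hj
    simp only [trunc, if_pos hj]
    exact h.1 j hj
  · intro i hi
    simp only [trunc, if_pos hi]
    exact h.2 i hi

theorem norm_conj_mul {ω : ℂ} (hω : ‖ω‖ = 1) : (starRingEnd ℂ) ω * ω = 1 := by
  rw [mul_comm, Complex.mul_conj, Complex.normSq_eq_norm_sq, hω]
  norm_num

theorem iso_sub (z ω : ℂ) (ε : Bool) (a b : ℂ) :
    iso z ω ε a - iso z ω ε b = ω * (if ε then a - b else (starRingEnd ℂ) (a - b)) := by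
  unfold iso
  cases ε
  · simp
    ring
  · simp
    ring

theorem fpar_iso (m : Mesh) {q : Vtx → ℂ} {z ω : ℂ} {ε : Bool} {x : (ℕ → ℝ) × (ℕ → ℝ)}
    (hω : ‖ω‖ = 1) (hq : ∀ v, IsVert m v → q v = iso z ω ε (pos m 1890 x.1 x.2 v)) :
    fpar m q = trunc m x := by
  have v0 : IsVert m (0, 0, 0) :=
    isVert_plate m (i := 0) (j := 0) (l := 0) (c := 0) (by omega) (by omega) (by omega) (by omega)
  have v1 : IsVert m (0, 0, 1) :=
    isVert_plate m (i := 0) (j := 0) (l := 0) (c := 1) (by omega) (by omega) (by omega) (by omega)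
  have v3 : IsVert m (0, 0, 3) :=
    isVert_plate m (i := 0) (j := 0) (l := 1) (c := 1) (by omega) (by omega) (by omega) (by omega)
  have hcω := norm_conj_mul hω
  have e1 : fω q = ω := by
    unfold fω
    rw [hq _ v1, hq _ v0, iso_sub, pos_d01]
    have h480 : (starRingEnd ℂ) (480 : ℂ) = 480 := map_ofNat _ _
    cases ε
    · simp [h480]
    · simp
  have key : ∀ a b : Vtx, IsVert m a → IsVert m b →
      (starRingEnd ℂ) (fω q) * (q a - q b) =
        if ε then pos m 1890 x.1 x.2 a - pos m 1890 x.1 x.2 b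
        else (starRingEnd ℂ) (pos m 1890 x.1 x.2 a - pos m 1890 x.1 x.2 b) := by
    intro a b ha hb
    rw [e1, hq _ ha, hq _ hb, iso_sub, ← mul_assoc, hcω, one_mul]
  have e2 : fσ q = if ε then 1 else -1 := by
    unfold fσ
    rw [key _ _ v3 v1, pos_d13]
    cases ε
    · simp
    · simp
  unfold fpar trunc
  congr 1
  · funext j
    split
    · rename_i hj
      have w1 : IsVert m (0, j + 1, 4) := isVert_plate m (i := 0) (j := j + 1) (l := 2) (c := 0)
        (by omega) (by omega) (by omega) (by omega)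
      have w2 : IsVert m (0, j, 5) := isVert_plate m (i := 0) (j := j) (l := 2) (c := 1)
        (by omega) (by omega) (by omega) (by omega)
      rw [key _ _ w1 w2, pos_crankH, e2]
      cases ε
      · simp
      · simp
    · rfl
  · funext i
    split
    · rename_i hi
      have w1 : IsVert m (i + 1, 0, 0) := isVert_plate m (i := i + 1) (j := 0) (l := 0) (c := 0)
        (by omega) (by omega) (by omega) (by omega)
      have w2 : IsVert m (i, 0, 10) := isVert_plate m (i := i) (j := 0) (l := 5) (c := 0)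
        (by omega) (by omega) (by omega) (by omega)
      rw [key _ _ w1 w2, pos_crankV]
      cases ε
      · simp
      · simp
    · rfl

theorem Codes.continuous_ext {c : LinkCode} {m : Mesh} {lab : Vtx → ℕ} (h : Codes c m lab)
    (w : Vtx) : Continuous (fun p : c.Vert → ℂ => h.ext p w) := by
  unfold Codes.ext
  split
  · exact continuous_apply _
  · exact continuous_const

theorem Codes.continuous_fpar {c : LinkCode} {m : Mesh} {lab : Vtx → ℕ} (h : Codes c m lab) :
    Continuous (fun p : c.Vert → ℂ => fpar m (h.ext p)) := by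
  have h1 : Continuous (fun p : c.Vert → ℂ => (starRingEnd ℂ) (fω (h.ext p))) := by
    unfold fω
    have a1 := h.continuous_ext (0, 0, 1)
    have a2 := h.continuous_ext (0, 0, 0)
    exact Complex.continuous_conj.comp ((a1.sub a2).div_const _)
  have h2 : Continuous (fun p : c.Vert → ℂ => fσ (h.ext p)) := by
    unfold fσ
    have a1 := h.continuous_ext (0, 0, 3)
    have a2 := h.continuous_ext (0, 0, 1)
    exact (Complex.continuous_im.comp (h1.mul (a1.sub a2))).div_const _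
  unfold fpar
  refine Continuous.prodMk (continuous_pi fun j => ?_) (continuous_pi fun i => ?_)
  · split
    · have a1 := h.continuous_ext (0, j + 1, 4)
      have a2 := h.continuous_ext (0, j, 5)
      exact (h2.mul (Complex.continuous_im.comp (h1.mul (a1.sub a2)))).div_const _
    · exact continuous_const
  · split
    · have a1 := h.continuous_ext (i + 1, 0, 0)
      have a2 := h.continuous_ext (i, 0, 10)
      exact ((Complex.continuous_re.comp (h1.mul (a1.sub a2))).neg).div_const _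
    · exact continuous_const

theorem Codes.ext_cfg {c : LinkCode} {m : Mesh} {lab : Vtx → ℕ} (h : Codes c m lab) (ε : Bool)
    (y : ℂ × (ℂ × ((ℕ → ℝ) × (ℕ → ℝ)))) {v : Vtx} (hv : IsVert m v) :
    h.ext (h.cfg ε y) v = iso y.1 y.2.1 ε (pos m 1890 y.2.2.1 y.2.2.2 v) := by
  rw [h.ext_eq _ hv]
  unfold Codes.cfg
  rw [h.nm_vt]

/-- Different classes of states give configurations that are not joined by a motion. -/
theorem Codes.not_joined {c : LinkCode} {m : Mesh} {lab : Vtx → ℕ} (h : Codes c m lab)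
    (hv : c.Valid) (hr : RigidStmt m) {x x' : (ℕ → ℝ) × (ℕ → ℝ)} {s t : State}
    (hs : Compat m x s) (ht : Compat m x' t)
    (hst : ¬ StConn m s t) :
    ¬ JoinedIn (c.linkage hv).configSpace (h.cfg true (0, (1, x))) (h.cfg true (0, (1, x'))) := by
  intro hj
  have h1 := hj.map (f := fun p : c.Vert → ℂ => fpar m (h.ext p)) h.continuous_fpar
  have h2 : ((fun p : c.Vert → ℂ => fpar m (h.ext p)) '' (c.linkage hv).configSpace) ⊆
      ParamSet m := by
    rintro _ ⟨p, hp, rfl⟩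
    obtain ⟨ε, y, hy, rfl⟩ := h.exists_cfg hv hr hp
    have h3 : fpar m (h.ext (h.cfg ε y)) = trunc m y.2.2 :=
      fpar_iso m (by simpa using hy.2.1) (fun v hv => h.ext_cfg ε y hv)
    simp only [h3]
    exact trunc_mem hy.2.2
  have h4 := h1.mono h2
  have e : ∀ x : (ℕ → ℝ) × (ℕ → ℝ), fpar m (h.ext (h.cfg true (0, (1, x)))) = trunc m x :=
    fun x => fpar_iso m (by simp) (fun v hv => h.ext_cfg true (0, (1, x)) hv)
  simp only [e] at h4
  exact hst (sep m h4 (trunc_compat hs) (trunc_compat ht))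

/-! ### Orientation -/

theorem Codes.nc_graph {c : LinkCode} {m : Mesh} {lab : Vtx → ℕ} (h : Codes c m lab)
    (hv : c.Valid) {hh : ℝ} (h0 : 0 < hh) (h1 : hh ≤ 1890) {x : (ℕ → ℝ) × (ℕ → ℝ)} (hx : Box x)
    (ha : Allowed m hh x) :
    NonCrossing c.graph (fun v => pos m hh x.1 x.2 (h.nm v)) ∧
      ∀ u v, c.graph.Adj u v → pos m hh x.1 x.2 (h.nm u) ≠ pos m hh x.1 x.2 (h.nm v) := by
  refine ⟨h.nonCrossing hv (nc_pos m h0 h1 hx ha), ?_⟩
  intro u v huv
  obtain ⟨d, hb | hb⟩ := (h.adj_iff hv u v).1 huv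
  · exact pos_ne m h0 hx hb
  · exact (pos_ne m h0 hx hb).symm

theorem Free.mono {o : Option (SignType × Bool)} {hh hh' A B : ℝ} (h : Free o hh A B)
    (hle : hh' ≤ hh) : Free o hh' A B :=
  fun hf => h ⟨hf.1, hf.2.1, hf.2.2.trans (by linarith)⟩

theorem free_low {o : Option (SignType × Bool)} {A B : ℝ} (hA : |A| < 20 / 101)
    (hB : |B| < 20 / 101) : Free o 1300 A B := by
  intro hf
  have h1 := hf.2.2
  have q1 := abs_lt.1 hA
  have q2 := sqrt_gt hB
  rcases sg_cases o with hg | hg <;> rw [hg] at h1 <;> linarith [q1.1, q1.2]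

/-- the segment between two parameters -/
noncomputable def lerp (x y : (ℕ → ℝ) × (ℕ → ℝ)) (t : ℝ) : (ℕ → ℝ) × (ℕ → ℝ) :=
  (fun j => (1 - t) * x.1 j + t * y.1 j, fun i => (1 - t) * x.2 i + t * y.2 i)

theorem lerp_zero (x y : (ℕ → ℝ) × (ℕ → ℝ)) : lerp x y 0 = x := by
  simp [lerp]

theorem lerp_one (x y : (ℕ → ℝ) × (ℕ → ℝ)) : lerp x y 1 = y := by
  simp [lerp]

theorem continuous_lerp (x y : (ℕ → ℝ) × (ℕ → ℝ)) : Continuous (lerp x y) := by
  unfold lerp
  fun_prop

theorem box_lerp {x y : (ℕ → ℝ) × (ℕ → ℝ)} (hx : Box x) (hy : Box y) {t : ℝ} (t0 : 0 ≤ t)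
    (t1 : t ≤ 1) : Box (lerp x y t) := by
  have key : ∀ a b : ℝ, |a| < 20 / 101 → |b| < 20 / 101 → |(1 - t) * a + t * b| < 20 / 101 := by
    intro a b ha hb
    rcases eq_or_lt_of_le t0 with h | h
    · rw [← h]
      simpa using ha
    · rw [abs_lt] at *
      constructor
      · nlinarith [mul_lt_mul_of_pos_left hb.1 h,
          mul_le_mul_of_nonneg_left ha.1.le (by linarith : 0 ≤ 1 - t)]
      · nlinarith [mul_lt_mul_of_pos_left hb.2 h,
          mul_le_mul_of_nonneg_left ha.2.le (by linarith : 0 ≤ 1 - t)]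
  exact ⟨fun j => key _ _ (hx.1 j) (hy.1 j), fun i => key _ _ (hx.2 i) (hy.2 i)⟩

/-- the drawing for the parameters `y` -/
noncomputable def Codes.drw {c : LinkCode} {m : Mesh} {lab : Vtx → ℕ} (h : Codes c m lab)
    (y : ℝ × ((ℕ → ℝ) × (ℕ → ℝ))) (v : c.Vert) : ℂ := pos m y.1 y.2.1 y.2.2 (h.nm v)

theorem same_path {c : LinkCode} {m : Mesh} {lab : Vtx → ℕ} (h : Codes c m lab) (hv : c.Valid)
    (γ : ℝ → ℝ × ((ℕ → ℝ) × (ℕ → ℝ))) (hγ : Continuous γ)
    (ha : ∀ t ∈ Set.Icc (0 : ℝ) 1,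
      0 < (γ t).1 ∧ (γ t).1 ≤ 1890 ∧ Box (γ t).2 ∧ Allowed m (γ t).1 (γ t).2) :
    SameOrientation c.graph (h.drw (γ 0)) (h.drw (γ 1)) := by
  apply sameOrientation_of_isotopy (fun t => h.drw (γ t))
  · intro v
    have h2 : Continuous (fun t => h.drw (γ t) v) := (continuous_pos m (h.nm v)).comp hγ
    exact h2.continuousOn
  · intro t ht
    obtain ⟨h1, h2, h3, h4⟩ := ha t ht
    exact h.nc_graph hv h1 h2 h3 h4

theorem same_change {c : LinkCode} {m : Mesh} {lab : Vtx → ℕ} (h : Codes c m lab) (hv : c.Valid)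
    {x : (ℕ → ℝ) × (ℕ → ℝ)} (hx : x ∈ ParamSet m) :
    SameOrientation c.graph (h.drw (1890, x)) (h.drw (1300, x)) := by
  have h1 := same_path h hv (fun t => ((1 - t) * 1890 + t * 1300, x)) (by fun_prop) ?_
  · have e0 : ((1 - (0 : ℝ)) * 1890 + 0 * 1300) = 1890 := by norm_num
    have e1 : ((1 - (1 : ℝ)) * 1890 + 1 * 1300) = 1300 := by norm_num
    rw [e0, e1] at h1
    exact h1
  · intro t ht
    obtain ⟨t0, t1⟩ := ht
    have h3 : (1 - t) * 1890 + t * 1300 ≤ 1890 := by linarith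
    exact ⟨by dsimp only; linarith, h3, hx.1, fun i hi j hj => (hx.2 i hi j hj).mono h3⟩

theorem same_move {c : LinkCode} {m : Mesh} {lab : Vtx → ℕ} (h : Codes c m lab) (hv : c.Valid)
    {x y : (ℕ → ℝ) × (ℕ → ℝ)} (hx : Box x) (hy : Box y) :
    SameOrientation c.graph (h.drw (1300, x)) (h.drw (1300, y)) := by
  have h1 := same_path h hv (fun t => ((1300 : ℝ), lerp x y t))
    (continuous_const.prodMk (continuous_lerp x y)) ?_
  · rw [lerp_zero, lerp_one] at h1
    exact h1
  · intro t ht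
    obtain ⟨t0, t1⟩ := ht
    have hb := box_lerp hx hy t0 t1
    exact ⟨by norm_num, by norm_num, hb, fun i _ j _ => free_low (hb.1 j) (hb.2 i)⟩

theorem SameOrientation.symm' {V : Type} {G : SimpleGraph V} {p q : V → ℂ}
    (h : SameOrientation G p q) : SameOrientation G q p := fun u c hc => (h u c hc).symm

theorem SameOrientation.trans' {V : Type} {G : SimpleGraph V} {p q r : V → ℂ}
    (h : SameOrientation G p q) (h' : SameOrientation G q r) : SameOrientation G p r :=
  fun u c hc => (h u c hc).trans (h' u c hc)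

/-- All standard configurations have the same orientation. -/
theorem same_all {c : LinkCode} {m : Mesh} {lab : Vtx → ℕ} (h : Codes c m lab) (hv : c.Valid)
    {x y : (ℕ → ℝ) × (ℕ → ℝ)} (hx : x ∈ ParamSet m) (hy : y ∈ ParamSet m) :
    SameOrientation c.graph (h.drw (1890, x)) (h.drw (1890, y)) :=
  ((same_change h hv hx).trans' (same_move h hv hx.1 hy.1)).trans' (same_change h hv hy).symm'

/-- the area of a triangle -/
theorem area_tri {V : Type} {G : SimpleGraph V} {a b d : V} (h1 : G.Adj a b) (h2 : G.Adj b d)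
    (h3 : G.Adj d a) (p : V → ℂ) :
    area p (SimpleGraph.Walk.cons h1 (.cons h2 (.cons h3 .nil))) =
      (p b - p a).re * (p d - p b).im - (p b - p a).im * (p d - p b).re := by
  simp [area]
  ring

theorem cycle_tri {V : Type} {G : SimpleGraph V} {a b d : V} (h1 : G.Adj a b) (h2 : G.Adj b d)
    (h3 : G.Adj d a) : (SimpleGraph.Walk.cons h1 (.cons h2 (.cons h3 .nil))).IsCycle := by
  rw [SimpleGraph.Walk.cons_isCycle_iff]
  have e1 := h1.ne
  have e2 := h2.ne
  have e3 := h3.ne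
  constructor
  · simp [SimpleGraph.Walk.cons_isPath_iff, e1.symm, e2, e3]
  · simp only [SimpleGraph.Walk.edges_cons, SimpleGraph.Walk.edges_nil, List.mem_cons,
      List.not_mem_nil, or_false, Sym2.eq_iff]
    tauto

theorem Codes.area_cfg {c : LinkCode} {m : Mesh} {lab : Vtx → ℕ} (h : Codes c m lab)
    (hv : c.Valid) : ∃ (u : c.Vert) (w : c.graph.Walk u u), w.IsCycle ∧
      ∀ (ε : Bool) (y : ℂ × (ℂ × ((ℕ → ℝ) × (ℕ → ℝ)))), ‖y.2.1‖ = 1 →
        (0 < area (h.cfg ε y) w ↔ ε = true) := by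
  have v0 : IsVert m (0, 0, 0) :=
    isVert_plate m (i := 0) (j := 0) (l := 0) (c := 0) (by omega) (by omega) (by omega) (by omega)
  have v1 : IsVert m (0, 0, 1) :=
    isVert_plate m (i := 0) (j := 0) (l := 0) (c := 1) (by omega) (by omega) (by omega) (by omega)
  have v3 : IsVert m (0, 0, 3) :=
    isVert_plate m (i := 0) (j := 0) (l := 1) (c := 1) (by omega) (by omega) (by omega) (by omega)
  have b1 : Bar m (0, 0, 0) (0, 0, 1) 480 :=
    Bar.plateH (i := 0) (j := 0) (l := 0) (by omega) (by omega) (by omega)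
  have b2 : Bar m (0, 0, 1) (0, 0, 3) 1400 :=
    Bar.plateV (i := 0) (j := 0) (l := 0) (c := 1) (by omega) (by omega) (by omega) (by omega)
  have b3 : Bar m (0, 0, 0) (0, 0, 3) 1480 :=
    Bar.plateD (i := 0) (j := 0) (l := 0) (by omega) (by omega) (by omega)
  have a1 : c.graph.Adj (h.vt _ v0) (h.vt _ v1) :=
    (h.adj_iff hv _ _).2 ⟨480, Or.inl (by rw [h.nm_vt, h.nm_vt]; exact b1)⟩
  have a2 : c.graph.Adj (h.vt _ v1) (h.vt _ v3) :=
    (h.adj_iff hv _ _).2 ⟨1400, Or.inl (by rw [h.nm_vt, h.nm_vt]; exact b2)⟩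
  have a3 : c.graph.Adj (h.vt _ v3) (h.vt _ v0) :=
    (h.adj_iff hv _ _).2 ⟨1480, Or.inr (by rw [h.nm_vt, h.nm_vt]; exact b3)⟩
  refine ⟨_, _, cycle_tri a1 a2 a3, ?_⟩
  intro ε y hy
  rw [area_tri]
  simp only [Codes.cfg, h.nm_vt]
  rw [iso_sub, iso_sub, pos_d01, pos_d13]
  have h1 : y.2.1.re ^ 2 + y.2.1.im ^ 2 = 1 := by
    have := Complex.normSq_eq_norm_sq y.2.1
    rw [hy, Complex.normSq_apply] at this
    nlinarith
  have h480 : (starRingEnd ℂ) (480 : ℂ) = 480 := map_ofNat _ _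
  have h1400 : (starRingEnd ℂ) (1400 : ℂ) = 1400 := map_ofNat _ _
  cases ε
  · simp [h480, h1400]
    nlinarith
  · simp
    nlinarith

/-- The linkage is locked if and only if the states are not connected by moves. -/
theorem Codes.locked_iff {c : LinkCode} {m : Mesh} {lab : Vtx → ℕ} (h : Codes c m lab)
    (hv : c.Valid) (hr : RigidStmt m) :
    (c.linkage hv).Locked ↔ ¬ ∀ s t, StOK m s → StOK m t → StConn m s t := by
  constructor
  · rintro ⟨p, q, hp, hq, hpq, hj⟩ hall
    apply hj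
    obtain ⟨ε, y, hy, rfl⟩ := h.exists_cfg hv hr hp
    obtain ⟨ε', y', hy', rfl⟩ := h.exists_cfg hv hr hq
    obtain ⟨u, w, hw, harea⟩ := h.area_cfg hv
    have h1 := harea ε y (by simpa using hy.2.1)
    have h2 := harea ε' y' (by simpa using hy'.2.1)
    have h3 := hpq u w hw
    have h4 : ε = ε' := by
      have h5 : ε = true ↔ ε' = true := h1.symm.trans (h3.trans h2)
      cases ε <;> cases ε' <;> simp_all
    subst h4
    exact h.cfg_joined hv ε hy hy' (joined_of_conn m hall hy.2.2 hy'.2.2)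
  · intro hall
    push Not at hall
    obtain ⟨s, t, hs, ht, hst⟩ := hall
    have m1 : ((0 : ℂ), ((1 : ℂ), canon s)) ∈ Par m :=
      ⟨trivial, by simp, canon_mem m hs⟩
    have m2 : ((0 : ℂ), ((1 : ℂ), canon t)) ∈ Par m :=
      ⟨trivial, by simp, canon_mem m ht⟩
    refine ⟨h.cfg true (0, (1, canon s)), h.cfg true (0, (1, canon t)), h.cfg_mem hv true m1,
      h.cfg_mem hv true m2, ?_, h.not_joined hv hr (canon_compat m s) (canon_compat m t) hst⟩
    have h1 := same_all h hv (canon_mem m hs) (canon_mem m ht)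
    have e : ∀ x : (ℕ → ℝ) × (ℕ → ℝ), h.cfg true (0, (1, x)) = h.drw (1890, x) := by
      intro x
      funext v
      simp [Codes.cfg, iso, Codes.drw]
    rw [e, e]
    exact h1

end LockPl
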