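import Pool.Agent.Lib.MP_14e06f_lc.Plane.Comb

set_option autoImplicit false

/-!
# The relation of a quantified Boolean formula
-/

namespace LockPl

/-! ### Satisfaction of the gadgets -/

/-- some cube of the constraint holds -/
def Sat (g : ℕ → Bool) (c : List (List (ℕ × Bool))) : Prop := ∃ q ∈ c, ∀ l ∈ q, g l.1 = l.2

theorem sat_gAnd (g : ℕ → Bool) (z a b : ℕ) : Sat g (gAnd z a b) ↔ g z = (g a && g b) := by
  unfold Sat gAnd
  simp only [List.mem_cons, List.not_mem_nil, or_false, exists_eq_or_imp, exists_eq_left,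
    forall_eq_or_imp, forall_eq]
  generalize g z = z', g a = a', g b = b'
  revert z' a' b'
  decide

theorem sat_gOr (g : ℕ → Bool) (z a b : ℕ) : Sat g (gOr z a b) ↔ g z = (g a || g b) := by
  unfold Sat gOr
  simp only [List.mem_cons, List.not_mem_nil, or_false, exists_eq_or_imp, exists_eq_left,
    forall_eq_or_imp, forall_eq]
  generalize g z = z', g a = a', g b = b'
  revert z' a' b'
  decide

theorem sat_gEq (g : ℕ → Bool) (z a : ℕ) : Sat g (gEq z a) ↔ g z = g a := by
  unfold Sat gEq
  simp only [List.mem_cons, List.not_mem_nil, or_false, exists_eq_or_imp, exists_eq_left,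
    forall_eq_or_imp, forall_eq]
  generalize g z = z', g a = a'
  revert z' a'
  decide

theorem sat_gConst (g : ℕ → Bool) (z : ℕ) (b : Bool) : Sat g (gConst z b) ↔ g z = b := by
  constructor
  · rintro ⟨q, hq, h⟩
    have hq' : q = [(z, b)] := by simpa [gConst] using hq
    subst hq'
    exact h (z, b) (List.mem_singleton.mpr rfl)
  · intro h
    refine ⟨[(z, b)], by simp [gConst], ?_⟩
    intro l hl
    rw [List.mem_singleton.mp hl]
    exact h

theorem sat_gLit (g : ℕ → Bool) (n o z : ℕ) (l : ℕ × Bool) : Sat g (gLit n o z l) ↔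
    g z = (g (if l.1 < n then 2 + l.1 else o) == l.2) := by
  unfold Sat gLit
  simp only [List.mem_cons, List.not_mem_nil, or_false, exists_eq_or_imp, exists_eq_left,
    forall_eq_or_imp, forall_eq]
  generalize g z = z', g (if l.1 < n then 2 + l.1 else o) = a', l.2 = b'
  revert z' a' b'
  decide

theorem sat_gIf (g : ℕ → Bool) (μ : ℕ) (c : List (List (ℕ × Bool))) :
    Sat g (gIf μ c) ↔ (g μ = true → Sat g c) := by
  unfold Sat gIf
  simp only [List.mem_cons, exists_eq_or_imp, List.not_mem_nil, or_false, forall_eq]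
  cases g μ <;> simp

theorem sat_one (g : ℕ → Bool) (q : List (ℕ × Bool)) : Sat g [q] ↔ ∀ l ∈ q, g l.1 = l.2 := by
  simp [Sat]

theorem sat_step (g : ℕ → Bool) (c x x' r r' w : ℕ) :
    Sat g [[(c, false), (x, false), (x', false), (r, false), (r', false)],
      [(c, false), (x, false), (x', false), (r, true), (r', true)],
      [(c, false), (x, true), (x', true), (r, false), (r', false)],
      [(c, false), (x, true), (x', true), (r, true), (r', true)],
      [(c, true), (x, false), (x', true), (w, false), (r', false)],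
      [(c, true), (x, false), (x', true), (w, true), (r', true)],
      [(c, true), (x, true), (x', false)]] ↔
    (g c = false ∧ g x' = g x ∧ g r' = g r) ∨
      (g c = true ∧ g x = false ∧ g x' = true ∧ g r' = g w) ∨
      (g c = true ∧ g x = true ∧ g x' = false) := by
  unfold Sat
  simp only [List.mem_cons, List.not_mem_nil, or_false, exists_eq_or_imp, exists_eq_left,
    forall_eq_or_imp, forall_eq]
  cases g c <;> cases g x <;> cases g x' <;> cases g r <;> cases g r' <;> cases g w <;> simp

/-! ### Boolean semantics -/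

/-- connective of a quantifier -/
def comb (q a b : Bool) : Bool := if q then a && b else a || b

/-- value of a clause -/
def cval (X : ℕ → Bool) (c : Lit × (Lit × Lit)) : Bool :=
  ((X c.1.1 == c.1.2) || (X c.2.1.1 == c.2.1.2)) || (X c.2.2.1 == c.2.2.2)

/-- value of the matrix -/
def mval (cl : List (Lit × (Lit × Lit))) (X : ℕ → Bool) : Bool := cl.all (cval X)

theorem mval_iff (cl : List (Lit × (Lit × Lit))) (X : ℕ → Bool) :
    mval cl X = true ↔ MatrixHolds cl X := by
  simp only [mval, cval, MatrixHolds, List.all_eq_true, Bool.or_eq_true, beq_iff_eq, or_assoc]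

/-- value of the formula -/
def tval (cl : List (Lit × (Lit × Lit))) : List Bool → ℕ → (ℕ → Bool) → Bool
  | [], _, x => mval cl x
  | q :: Q, k, x =>
    comb q (tval cl Q (k + 1) (Function.update x k false)) (tval cl Q (k + 1) (Function.update x k true))

theorem tval_iff (cl : List (Lit × (Lit × Lit))) (Q : List Bool) : ∀ (k : ℕ) (x : ℕ → Bool),
    tval cl Q k x = true ↔ QTrue cl Q k x := by
  induction Q with
  | nil => exact fun k x => mval_iff cl x
  | cons q Q ih =>
    intro k x
    cases q with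
    | true => simp only [tval, comb, QTrue, if_true, Bool.and_eq_true, ih, Bool.forall_bool]
    | false =>
      simp only [tval, comb, QTrue, Bool.exists_bool]
      simp [ih]

theorem tval_congr (cl : List (Lit × (Lit × Lit))) (Q : List Bool) : ∀ (k : ℕ) (x y : ℕ → Bool),
    (∀ j, j < k ∨ k + Q.length ≤ j → x j = y j) → tval cl Q k x = tval cl Q k y := by
  induction Q with
  | nil =>
    intro k x y h
    have : x = y := funext fun j => h j (by simp; omega)
    rw [this]
  | cons q Q ih =>
    intro k x y h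
    have h' : ∀ b, tval cl Q (k + 1) (Function.update x k b) =
        tval cl Q (k + 1) (Function.update y k b) := by
      intro b
      apply ih
      intro j hj
      by_cases hjk : j = k
      · subst hjk; simp
      · rw [Function.update_of_ne hjk, Function.update_of_ne hjk]
        apply h
        simp only [List.length_cons]
        omega
    simp only [tval, h']

/-- The value computed from the stored values. -/
def wv (cl : List (Lit × (Lit × Lit))) (X R : ℕ → Bool) : List Bool → ℕ → Bool
  | [], _ => mval cl X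
  | q :: Q, k => comb q (R k) (wv cl X R Q (k + 1))

/-- The value to which the evaluation will lead. -/
def Vv (cl : List (Lit × (Lit × Lit))) (X R : ℕ → Bool) : List Bool → ℕ → Bool
  | [], _ => mval cl X
  | q :: Q, k => if X k then comb q (R k) (Vv cl X R Q (k + 1))
    else comb q (Vv cl X R Q (k + 1)) (tval cl Q (k + 1) (Function.update X k true))

theorem Vv_zero (cl : List (Lit × (Lit × Lit))) (X R : ℕ → Bool) (Q : List Bool) : ∀ k : ℕ,
    (∀ j, k ≤ j → j < k + Q.length → X j = false) → Vv cl X R Q k = tval cl Q k X := by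
  induction Q with
  | nil => intro k _; rfl
  | cons q Q ih =>
    intro k h
    have h0 : X k = false := h k le_rfl (by simp)
    have h1 : Function.update X k false = X := by
      rw [← h0]; exact Function.update_eq_self k X
    rw [Vv, tval, h0, if_neg (by simp), ih (k + 1) (fun j hj hj' => h j (by omega)
      (by simp only [List.length_cons]; omega)), h1]

theorem Vv_one (cl : List (Lit × (Lit × Lit))) (X R : ℕ → Bool) (Q : List Bool) : ∀ k : ℕ,
    (∀ j, k ≤ j → j < k + Q.length → X j = true) → Vv cl X R Q k = wv cl X R Q k := by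
  induction Q with
  | nil => intro k _; rfl
  | cons q Q ih =>
    intro k h
    have h0 : X k = true := h k le_rfl (by simp)
    rw [Vv, wv, h0, if_pos rfl, ih (k + 1) (fun j hj hj' => h j (by omega)
      (by simp only [List.length_cons]; omega))]

/-- all bits `X j`, `k ≤ j < n`, are true -/
def Ones (n : ℕ) (X : ℕ → Bool) (k : ℕ) : Prop := ∀ j, k ≤ j → j < n → X j = true

/-- The step relation on all levels from `k` on. -/
def LevRel (cl : List (Lit × (Lit × Lit))) (n : ℕ) (X R X' R' : ℕ → Bool) : List Bool → ℕ → Prop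
  | [], _ => True
  | _ :: Q, k => ((¬ Ones n X (k + 1) ∧ X' k = X k ∧ R' k = R k) ∨
      (Ones n X (k + 1) ∧ X k = false ∧ X' k = true ∧ R' k = wv cl X R Q (k + 1)) ∨
      (Ones n X (k + 1) ∧ X k = true ∧ X' k = false)) ∧ LevRel cl n X R X' R' Q (k + 1)

theorem ones_succ {n : ℕ} {X : ℕ → Bool} {k : ℕ} (h : Ones n X k) : Ones n X (k + 1) :=
  fun j hj hj' => h j (by omega) hj'

theorem levRel_ones {cl : List (Lit × (Lit × Lit))} {n : ℕ} {X R X' R' : ℕ → Bool}
    (Q : List Bool) : ∀ k : ℕ, k + Q.length = n → LevRel cl n X R X' R' Q k → Ones n X k →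
    ∀ j, k ≤ j → j < k + Q.length → X' j = false := by
  induction Q with
  | nil => intro k _ _ _ j hj hj'; simp at hj'; omega
  | cons q Q ih =>
    intro k hk h ho j hj hj'
    simp only [List.length_cons] at hk hj'
    obtain ⟨h1, h2⟩ := h
    by_cases hjk : j = k
    · subst hjk
      rcases h1 with h1 | h1 | h1
      · exact absurd (ones_succ ho) h1.1
      · have := ho j le_rfl (by omega)
        rw [h1.2.1] at this
        exact absurd this (by simp)
      · exact h1.2.2
    · exact ih (k + 1) (by omega) h2 (ones_succ ho) j (by omega) (by omega)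

/-- A step preserves the value. -/
theorem step_inv {cl : List (Lit × (Lit × Lit))} {n : ℕ} {X R X' R' : ℕ → Bool}
    (hhigh : ∀ j, n ≤ j → X' j = X j)
    (Q : List Bool) : ∀ k : ℕ, k + Q.length = n → LevRel cl n X R X' R' Q k → ¬ Ones n X k →
    (∀ j < k, X' j = X j) → Vv cl X' R' Q k = Vv cl X R Q k := by
  induction Q with
  | nil =>
    intro k hk _ ho
    exact absurd (fun j hj hj' => by simp at hk; omega) ho
  | cons q Q ih =>
    intro k hk h ho hlow
    simp only [List.length_cons] at hk
    obtain ⟨h1, h2⟩ := h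
    by_cases hc : Ones n X (k + 1)
    · -- the stop level
      have hX : X k = false := by
        by_contra hne
        apply ho
        intro j hj hj'
        by_cases hjk : j = k
        · subst hjk; simpa using hne
        · exact hc j (by omega) hj'
      rcases h1 with h1 | h1 | h1
      · exact absurd hc h1.1
      · obtain ⟨-, -, h3, h4⟩ := h1
        rw [Vv, Vv, h3, if_pos rfl, hX, if_neg (by simp), h4,
          Vv_zero cl X' R' Q (k + 1) (levRel_ones Q (k + 1) (by omega) h2 hc),
          Vv_one cl X R Q (k + 1) (fun j hj hj' => hc j hj (by omega))]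
        congr 1
        apply tval_congr
        intro j hj
        by_cases hjk : j = k
        · subst hjk; simpa using h3
        · rw [Function.update_of_ne hjk]
          rcases hj with hj | hj
          · exact hlow j (by omega)
          · exact hhigh j (by omega)
      · rw [hX] at h1
        exact absurd h1.2.1 (by simp)
    · rcases h1 with h1 | h1 | h1
      · obtain ⟨-, h3, h4⟩ := h1
        have hlow' : ∀ j < k + 1, X' j = X j := by
          intro j hj
          by_cases hjk : j = k
          · subst hjk; exact h3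
          · exact hlow j (by omega)
        rw [Vv, Vv, h3, h4, ih (k + 1) (by omega) h2 hc hlow']
        congr 2
        apply tval_congr
        intro j hj
        by_cases hjk : j = k
        · subst hjk; simp
        · rw [Function.update_of_ne hjk, Function.update_of_ne hjk]
          rcases hj with hj | hj
          · exact hlow' j hj
          · exact hhigh j (by omega)
      · exact absurd h1.1 hc
      · exact absurd h1.1 hc

/-! ### The constraints -/

/-- the bits `x_k` of a node -/
def nX (n : ℕ) (a : ℕ → Bool) : ℕ → Bool := fun j => if j < n then a (2 + j) else false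

/-- the stored values of a node -/
def nR (n : ℕ) (a : ℕ → Bool) : ℕ → Bool := fun j => a (2 + n + j)

/-- the relation at level `k` -/
def Lev (cl : List (Lit × (Lit × Lit))) (n : ℕ) (X R X' R' : ℕ → Bool) (Q : List Bool) (k : ℕ) :
    Prop :=
  (¬ Ones n X (k + 1) ∧ X' k = X k ∧ R' k = R k) ∨
      (Ones n X (k + 1) ∧ X k = false ∧ X' k = true ∧ R' k = wv cl X R Q (k + 1)) ∨
      (Ones n X (k + 1) ∧ X k = true ∧ X' k = false)

theorem levRel_iff {cl : List (Lit × (Lit × Lit))} {n : ℕ} {X R X' R' : ℕ → Bool}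
    (Q : List Bool) : ∀ k : ℕ, LevRel cl n X R X' R' Q k ↔
      ∀ i < Q.length, Lev cl n X R X' R' (Q.drop (i + 1)) (k + i) := by
  induction Q with
  | nil => intro k; simp [LevRel]
  | cons q Q ih =>
    intro k
    rw [LevRel, ih (k + 1)]
    constructor
    · rintro ⟨h1, h2⟩ i hi
      cases i with
      | zero => simpa [Lev] using h1
      | succ i =>
        have := h2 i (by simpa using hi)
        rw [List.drop_succ_cons]
        have e : k + (i + 1) = k + 1 + i := by omega
        rw [e]
        exact this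
    · intro h
      refine ⟨by simpa [Lev] using h 0 (by simp), fun i hi => ?_⟩
      have := h (i + 1) (by simpa using hi)
      rw [List.drop_succ_cons] at this
      have e : k + (i + 1) = k + 1 + i := by omega
      rw [e] at this
      exact this

/-- The modes. -/
def ModeP (cl : List (Lit × (Lit × Lit))) (Q : List Bool) (a b : ℕ → Bool) (μ : ℕ) : Prop :=
  (μ = 1 → ∀ i < 2 + 2 * Q.length, a i = b i) ∧
  (μ = 2 → a 0 = false ∧ b 0 = false ∧ ¬ Ones Q.length (nX Q.length a) 0 ∧
    LevRel cl Q.length (nX Q.length a) (nR Q.length a) (nX Q.length b) (nR Q.length b) Q 0) ∧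
  (μ = 3 → a 0 = false ∧ b 0 = true ∧ Ones Q.length (nX Q.length a) 0 ∧
    b 1 = wv cl (nX Q.length a) (nR Q.length a) Q 0) ∧
  (μ = 4 → a 0 = true ∧ b 0 = true ∧ b 1 = a 1) ∧
  (μ = 5 → a 0 = false ∧ b 0 = true ∧ b 1 = true ∧ ∀ j < Q.length, a (2 + j) = false)

/-- The value of the variable `r` of the clause `t`. -/
def clval (cl : List (Lit × (Lit × Lit))) (X : ℕ → Bool) (t : ℕ) (ht : t < cl.length) : ℕ → Bool
  | 0 => (X cl[t].1.1 == cl[t].1.2)
  | 1 => (X cl[t].2.1.1 == cl[t].2.1.2)
  | 2 => (X cl[t].2.2.1 == cl[t].2.2.2)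
  | 3 => (X cl[t].1.1 == cl[t].1.2) || (X cl[t].2.1.1 == cl[t].2.1.2)
  | 4 => cval X cl[t]
  | _ => (cl.take (t + 1)).all (cval X)

/-- All auxiliary variables (apart from the modes) have the right values. -/
structure Aux (cl : List (Lit × (Lit × Lit))) (Q : List Bool) (g : ℕ → Bool) : Prop where
  z : g (2 * (2 + 2 * Q.length)) = false
  c : ∀ k ≤ Q.length, g (2 * (2 + 2 * Q.length) + 6 + k) = true ↔ Ones Q.length (nX Q.length g) k
  w : ∀ k ≤ Q.length, g (2 * (2 + 2 * Q.length) + 7 + Q.length + k) =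
    wv cl (nX Q.length g) (nR Q.length g) (Q.drop k) k
  cl : ∀ t (ht : t < cl.length), ∀ r < 6,
    g (2 * (2 + 2 * Q.length) + 8 + 2 * Q.length + 6 * t + r) = clval cl (nX Q.length g) t ht r

theorem holds_iff_sat (S : DSys) (g : ℕ → Bool) : S.Holds g ↔ ∀ c ∈ S.2.2, Sat g c := Iff.rfl

theorem holds_raw (Q : List Bool) (cl : List (Lit × (Lit × Lit))) (g : ℕ → Bool) :
    (relOf (Q, cl)).Holds g ↔
      (∀ c ∈ globalD Q.length (2 + 2 * Q.length)
        (if cl.length = 0 then none
          else some (2 * (2 + 2 * Q.length) + 8 + 2 * Q.length + 6 * cl.length - 1)), Sat g c) ∧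
      (∀ i < 2 + 2 * Q.length, Sat g (eqD (2 + 2 * Q.length) i)) ∧
      (∀ k (hk : k < Q.length), ∀ c ∈ levelD Q.length (2 + 2 * Q.length) (Q[k], k), Sat g c) ∧
      (∀ t (ht : t < cl.length), ∀ c ∈ clauseD Q.length (2 + 2 * Q.length) (cl[t], t), Sat g c) := by
  rw [holds_iff_sat]
  unfold relOf
  dsimp only
  simp only [List.mem_append, or_imp, forall_and, List.mem_map, List.mem_range, List.mem_flatMap]
  constructor
  · rintro ⟨⟨⟨h1, h2⟩, h3⟩, h4⟩
    refine ⟨h1, fun i hi => h2 _ ⟨i, hi, rfl⟩, fun k hk c hc => h3 c ⟨(Q[k], k), ?_, hc⟩,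
      fun t ht c hc => h4 c ⟨(cl[t], t), ?_, hc⟩⟩
    · rw [List.mk_mem_zipIdx_iff_getElem?]; simp [hk]
    · rw [List.mk_mem_zipIdx_iff_getElem?]; simp [ht]
  · rintro ⟨h1, h2, h3, h4⟩
    refine ⟨⟨⟨h1, ?_⟩, ?_⟩, ?_⟩
    · rintro c ⟨i, hi, rfl⟩
      exact h2 i hi
    · rintro c ⟨⟨q, k⟩, hk, hc⟩
      rw [List.mk_mem_zipIdx_iff_getElem?, List.getElem?_eq_some_iff] at hk
      obtain ⟨hk, rfl⟩ := hk
      exact h3 k hk c hc
    · rintro c ⟨⟨q, t⟩, ht, hc⟩
      rw [List.mk_mem_zipIdx_iff_getElem?, List.getElem?_eq_some_iff] at ht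
      obtain ⟨ht, rfl⟩ := ht
      exact h4 t ht c hc

/-- the raw equations of the clauses -/
theorem clause_raw (n m t : ℕ) (c : Lit × (Lit × Lit)) (g : ℕ → Bool) :
    (∀ C ∈ clauseD n m (c, t), Sat g C) ↔
      g (2 * m + 8 + 2 * n + 6 * t) = (g (if c.1.1 < n then 2 + c.1.1 else 2 * m) == c.1.2) ∧
      g (2 * m + 8 + 2 * n + 6 * t + 1) =
        (g (if c.2.1.1 < n then 2 + c.2.1.1 else 2 * m) == c.2.1.2) ∧
      g (2 * m + 8 + 2 * n + 6 * t + 2) =
        (g (if c.2.2.1 < n then 2 + c.2.2.1 else 2 * m) == c.2.2.2) ∧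
      g (2 * m + 8 + 2 * n + 6 * t + 3) =
        (g (2 * m + 8 + 2 * n + 6 * t) || g (2 * m + 8 + 2 * n + 6 * t + 1)) ∧
      g (2 * m + 8 + 2 * n + 6 * t + 4) =
        (g (2 * m + 8 + 2 * n + 6 * t + 3) || g (2 * m + 8 + 2 * n + 6 * t + 2)) ∧
      (if t = 0 then g (2 * m + 8 + 2 * n + 6 * t + 5) = g (2 * m + 8 + 2 * n + 6 * t + 4)
        else g (2 * m + 8 + 2 * n + 6 * t + 5) =
          (g (2 * m + 8 + 2 * n + 6 * t + 4) && g (2 * m + 8 + 2 * n + 6 * t - 1))) := by
  unfold clauseD
  dsimp only
  by_cases ht : t = 0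
  · simp only [List.forall_mem_cons, sat_gLit, sat_gOr, ht, if_true, sat_gEq]
    simp
  · simp only [List.forall_mem_cons, sat_gLit, sat_gOr, ht, if_false, sat_gAnd]
    simp

/-- the raw equations of a level -/
theorem level_raw (n m k : ℕ) (q : Bool) (g : ℕ → Bool) :
    (∀ C ∈ levelD n m (q, k), Sat g C) ↔
      g (2 * m + 6 + k) = (g (2 * m + 6 + k + 1) && g (2 + k)) ∧
      g (2 * m + 7 + n + k) = comb q (g (2 + n + k)) (g (2 * m + 7 + n + k + 1)) ∧
      (g (2 * m + 2) = true →
        ((g (2 * m + 6 + k + 1) = false ∧ g (m + 2 + k) = g (2 + k) ∧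
            g (m + 2 + n + k) = g (2 + n + k)) ∨
        (g (2 * m + 6 + k + 1) = true ∧ g (2 + k) = false ∧ g (m + 2 + k) = true ∧
          g (m + 2 + n + k) = g (2 * m + 7 + n + k + 1)) ∨
        (g (2 * m + 6 + k + 1) = true ∧ g (2 + k) = true ∧ g (m + 2 + k) = false))) ∧
      (g (2 * m + 5) = true → g (2 + k) = false) := by
  unfold levelD
  dsimp only
  have hw : Sat g (if q then gAnd (2 * m + 7 + n + k) (2 * m + 7 + n + k + 1) (2 + n + k)
    else gOr (2 * m + 7 + n + k) (2 * m + 7 + n + k + 1) (2 + n + k)) ↔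
      g (2 * m + 7 + n + k) = comb q (g (2 + n + k)) (g (2 * m + 7 + n + k + 1)) := by
    cases q
    · simp only [Bool.false_eq_true, if_false, sat_gOr, comb]
      rw [Bool.or_comm]
    · simp only [if_true, sat_gAnd, comb]
      rw [Bool.and_comm]
  simp only [List.forall_mem_cons, sat_gAnd, hw, sat_gIf, sat_step, sat_one]
  simp

/-- the raw global equations -/
theorem global_raw (n m : ℕ) (v : Option ℕ) (g : ℕ → Bool) :
    (∀ C ∈ globalD n m v, Sat g C) ↔
      g (2 * m) = false ∧
      (g (2 * m + 1) = true ∨ g (2 * m + 2) = true ∨ g (2 * m + 3) = true ∨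
        g (2 * m + 4) = true ∨ g (2 * m + 5) = true) ∧
      g (2 * m + 6 + n) = true ∧
      g (2 * m + 7 + n + n) = (match v with | none => true | some u => g u) ∧
      (g (2 * m + 2) = true → g 0 = false ∧ g m = false ∧ g (2 * m + 6) = false) ∧
      (g (2 * m + 3) = true → g 0 = false ∧ g m = true ∧ g (2 * m + 6) = true ∧
        g (m + 1) = g (2 * m + 7 + n)) ∧
      (g (2 * m + 4) = true → g 0 = true ∧ g m = true ∧ g (m + 1) = g 1) ∧
      (g (2 * m + 5) = true → g 0 = false ∧ g m = true ∧ g (m + 1) = true) := by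
  unfold globalD
  have h1 : Sat g [[(2 * m + 1, true)], [(2 * m + 2, true)], [(2 * m + 3, true)],
      [(2 * m + 4, true)], [(2 * m + 5, true)]] ↔ (g (2 * m + 1) = true ∨ g (2 * m + 2) = true ∨
        g (2 * m + 3) = true ∨ g (2 * m + 4) = true ∨ g (2 * m + 5) = true) := by
    simp [Sat]
  have h3 : Sat g [[(0, false), (m, true), (2 * m + 6, true), (2 * m + 7 + n, false), (m + 1, false)],
      [(0, false), (m, true), (2 * m + 6, true), (2 * m + 7 + n, true), (m + 1, true)]] ↔
      (g 0 = false ∧ g m = true ∧ g (2 * m + 6) = true ∧ g (m + 1) = g (2 * m + 7 + n)) := by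
    simp only [Sat, List.mem_cons, List.not_mem_nil, or_false, exists_eq_or_imp, exists_eq_left,
      forall_eq_or_imp, forall_eq]
    cases g 0 <;> cases g m <;> cases g (2 * m + 6) <;> cases g (2 * m + 7 + n) <;>
      cases g (m + 1) <;> simp
  have h4 : Sat g [[(0, true), (m, true), (1, false), (m + 1, false)],
      [(0, true), (m, true), (1, true), (m + 1, true)]] ↔
      (g 0 = true ∧ g m = true ∧ g (m + 1) = g 1) := by
    simp only [Sat, List.mem_cons, List.not_mem_nil, or_false, exists_eq_or_imp, exists_eq_left,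
      forall_eq_or_imp, forall_eq]
    cases g 0 <;> cases g m <;> cases g 1 <;> cases g (m + 1) <;> simp
  cases v with
  | none =>
    simp only [List.forall_mem_cons, sat_gConst, h1, sat_gIf, h3, h4, sat_one]
    simp
  | some u =>
    simp only [List.forall_mem_cons, sat_gConst, sat_gEq, h1, sat_gIf, h3, h4, sat_one]
    simp

/-- the raw equations of the mode equal -/
theorem eq_raw (m i : ℕ) (g : ℕ → Bool) :
    Sat g (eqD m i) ↔ (g (2 * m + 1) = true → g i = g (m + i)) := by
  unfold eqD
  rw [sat_gIf]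
  have h : Sat g [[(i, false), (m + i, false)], [(i, true), (m + i, true)]] ↔ g i = g (m + i) := by
    simp only [Sat, List.mem_cons, List.not_mem_nil, or_false, exists_eq_or_imp, exists_eq_left,
      forall_eq_or_imp, forall_eq]
    cases g i <;> cases g (m + i) <;> simp
  rw [h]

/-! ### Auxiliary variables -/

theorem ones_iff_succ {n : ℕ} {X : ℕ → Bool} {k : ℕ} (hk : k < n) :
    Ones n X k ↔ Ones n X (k + 1) ∧ X k = true := by
  constructor
  · exact fun h => ⟨ones_succ h, h k le_rfl hk⟩
  · rintro ⟨h1, h2⟩ j hj hj'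
    by_cases hjk : j = k
    · rw [hjk]; exact h2
    · exact h1 j (by omega) hj'

theorem aux_of_raw (Q : List Bool) (cl : List (Lit × (Lit × Lit))) (g : ℕ → Bool)
    (h : (relOf (Q, cl)).Holds g) : Aux cl Q g := by
  obtain ⟨h1, h2, h3, h4⟩ := (holds_raw Q cl g).mp h
  set n := Q.length with hn
  set m := 2 + 2 * n with hm
  obtain ⟨g1, -, g3, g4, -⟩ := (global_raw _ _ _ _).mp h1
  have hlev : ∀ k (hk : k < n), _ := fun k hk => (level_raw n m k (Q[k]) g).mp (h3 k hk)
  have hcl : ∀ t (ht : t < cl.length), _ := fun t ht => (clause_raw n m t (cl[t]) g).mp (h4 t ht)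
  have hXval : ∀ l : ℕ, g (if l < n then 2 + l else 2 * m) = nX n g l := by
    intro l
    unfold nX
    by_cases hl : l < n
    · rw [if_pos hl, if_pos hl]
    · rw [if_neg hl, if_neg hl, g1]
  -- clauses, first five
  have hc5 : ∀ t (ht : t < cl.length), ∀ r < 5,
      g (2 * m + 8 + 2 * n + 6 * t + r) = clval cl (nX n g) t ht r := by
    intro t ht r hr
    obtain ⟨e0, e1, e2, e3, e4, -⟩ := hcl t ht
    rw [hXval] at e0 e1 e2
    rw [e0, e1] at e3
    rw [e3, e2] at e4
    interval_cases r
    · exact e0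
    · exact e1
    · exact e2
    · exact e3
    · exact e4
  have hc6 : ∀ t (ht : t < cl.length),
      g (2 * m + 8 + 2 * n + 6 * t + 5) = (cl.take (t + 1)).all (cval (nX n g)) := by
    intro t
    induction t with
    | zero =>
      intro ht
      obtain ⟨-, -, -, -, -, e5⟩ := hcl 0 ht
      rw [if_pos rfl] at e5
      have e4 := hc5 0 ht 4 (by omega)
      rw [e5, e4]
      rw [List.take_add_one]
      simp [clval, ht]
    | succ t ih =>
      intro ht
      obtain ⟨-, -, -, -, -, e5⟩ := hcl (t + 1) ht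
      rw [if_neg (by omega)] at e5
      have e4 := hc5 (t + 1) ht 4 (by omega)
      have e : 2 * m + 8 + 2 * n + 6 * (t + 1) - 1 = 2 * m + 8 + 2 * n + 6 * t + 5 := by omega
      rw [e5, e4, e, ih (by omega)]
      rw [List.take_add_one (i := t + 1), List.all_append, Bool.and_comm]
      congr 1
      simp [clval, ht]
  refine ⟨g1, ?_, ?_, ?_⟩
  · -- carries
    intro k hk
    induction hk using Nat.decreasingInduction with
    | self =>
      rw [g3]
      simp only [true_iff]
      intro j hj hj'
      omega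
    | of_succ k hk ih =>
      have := (hlev k hk).1
      rw [this, ones_iff_succ hk, ← ih, Bool.and_eq_true]
      have e : nX n g k = g (2 + k) := if_pos hk
      rw [e]
      rfl
  · -- values
    have hwn : g (2 * m + 7 + n + n) = mval cl (nX n g) := by
      rw [g4]
      by_cases h0 : cl.length = 0
      · rw [if_pos h0]
        have : cl = [] := List.length_eq_zero_iff.mp h0
        subst this
        rfl
      · rw [if_neg h0]
        dsimp only
        have e : 2 * m + 8 + 2 * n + 6 * cl.length - 1 =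
            2 * m + 8 + 2 * n + 6 * (cl.length - 1) + 5 := by omega
        rw [e, hc6 _ (by omega)]
        have e2 : cl.length - 1 + 1 = cl.length := by omega
        rw [e2, List.take_length]
        rfl
    intro k hk
    induction hk using Nat.decreasingInduction with
    | self =>
      rw [hwn, List.drop_length]
      rfl
    | of_succ k hk ih =>
      have := (hlev k hk).2.1
      rw [this, List.drop_eq_getElem_cons hk, wv]
      have e : 2 * m + 7 + n + k + 1 = 2 * m + 7 + n + (k + 1) := by omega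
      rw [e, ih]
      rfl
  · intro t ht r hr
    by_cases hr5 : r < 5
    · exact hc5 t ht r hr5
    · have : r = 5 := by omega
      subst this
      exact hc6 t ht

/-- the step relation in raw form -/
theorem lev_raw {cl : List (Lit × (Lit × Lit))} {Q : List Bool} {g : ℕ → Bool} (h : Aux cl Q g)
    {k : ℕ} (hk : k < Q.length) :
    Lev cl Q.length (nX Q.length g) (nR Q.length g)
        (nX Q.length (fun i => g (2 + 2 * Q.length + i)))
        (nR Q.length (fun i => g (2 + 2 * Q.length + i))) (Q.drop (k + 1)) k ↔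
      ((g (2 * (2 + 2 * Q.length) + 6 + k + 1) = false ∧
          g (2 + 2 * Q.length + 2 + k) = g (2 + k) ∧
          g (2 + 2 * Q.length + 2 + Q.length + k) = g (2 + Q.length + k)) ∨
        (g (2 * (2 + 2 * Q.length) + 6 + k + 1) = true ∧ g (2 + k) = false ∧
          g (2 + 2 * Q.length + 2 + k) = true ∧
          g (2 + 2 * Q.length + 2 + Q.length + k) =
            g (2 * (2 + 2 * Q.length) + 7 + Q.length + k + 1)) ∨
        (g (2 * (2 + 2 * Q.length) + 6 + k + 1) = true ∧ g (2 + k) = true ∧
          g (2 + 2 * Q.length + 2 + k) = false)) := by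
  have hc := h.c (k + 1) hk
  have hw := h.w (k + 1) hk
  have e1 : 2 * (2 + 2 * Q.length) + 6 + k + 1 = 2 * (2 + 2 * Q.length) + 6 + (k + 1) := by omega
  have e2 : 2 * (2 + 2 * Q.length) + 7 + Q.length + k + 1 =
    2 * (2 + 2 * Q.length) + 7 + Q.length + (k + 1) := by omega
  have e3 : nX Q.length g k = g (2 + k) := if_pos hk
  have e4 : nX Q.length (fun i => g (2 + 2 * Q.length + i)) k = g (2 + 2 * Q.length + 2 + k) := by
    have : 2 + 2 * Q.length + 2 + k = 2 + 2 * Q.length + (2 + k) := by omega
    rw [this]; exact if_pos hk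
  have e5 : nR Q.length g k = g (2 + Q.length + k) := rfl
  have e6 : nR Q.length (fun i => g (2 + 2 * Q.length + i)) k =
      g (2 + 2 * Q.length + 2 + Q.length + k) := by
    have : 2 + 2 * Q.length + 2 + Q.length + k = 2 + 2 * Q.length + (2 + Q.length + k) := by omega
    rw [this]; rfl
  unfold Lev
  rw [e1, e2, hw, ← hc, e3, e4, e5, e6, Bool.not_eq_true]

theorem holds_iff_aux (Q : List Bool) (cl : List (Lit × (Lit × Lit))) (g : ℕ → Bool) :
    (relOf (Q, cl)).Holds g ↔ Aux cl Q g ∧
      (∃ μ, 1 ≤ μ ∧ μ ≤ 5 ∧ g (2 * (2 + 2 * Q.length) + μ) = true) ∧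
      (∀ μ, 1 ≤ μ → μ ≤ 5 → g (2 * (2 + 2 * Q.length) + μ) = true →
        ModeP cl Q g (fun i => g (2 + 2 * Q.length + i)) μ) := by
  constructor
  · intro h
    have hA := aux_of_raw Q cl g h
    obtain ⟨h1, h2, h3, h4⟩ := (holds_raw Q cl g).mp h
    obtain ⟨g1, g2, g3, g4, g5, g6, g7, g8⟩ := (global_raw _ _ _ _).mp h1
    refine ⟨hA, ?_, ?_⟩
    · rcases g2 with g2 | g2 | g2 | g2 | g2
      · exact ⟨1, by omega, by omega, g2⟩
      · exact ⟨2, by omega, by omega, g2⟩
      · exact ⟨3, by omega, by omega, g2⟩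
      · exact ⟨4, by omega, by omega, g2⟩
      · exact ⟨5, by omega, by omega, g2⟩
    · intro μ hμ1 hμ5 hμ
      refine ⟨?_, ?_, ?_, ?_, ?_⟩
      · rintro rfl i hi
        exact (eq_raw _ i g).mp (h2 i hi) hμ
      · rintro rfl
        obtain ⟨a1, a2, a3⟩ := g5 hμ
        refine ⟨a1, a2, ?_, ?_⟩
        · rw [← hA.c 0 (by omega)]
          simpa using a3
        · rw [levRel_iff]
          intro i hi
          rw [Nat.zero_add]
          exact (lev_raw hA hi).mpr (((level_raw _ _ i _ g).mp (h3 i hi)).2.2.1 hμ)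
      · rintro rfl
        obtain ⟨a1, a2, a3, a4⟩ := g6 hμ
        refine ⟨a1, a2, (hA.c 0 (by omega)).mp a3, ?_⟩
        have := hA.w 0 (by omega)
        rw [List.drop_zero, Nat.add_zero] at this
        rw [← this]
        exact a4
      · rintro rfl
        exact g7 hμ
      · rintro rfl
        obtain ⟨a1, a2, a3⟩ := g8 hμ
        exact ⟨a1, a2, a3, fun j hj => ((level_raw _ _ j _ g).mp (h3 j hj)).2.2.2 hμ⟩
  · rintro ⟨hA, ⟨μ, hμ1, hμ5, hμ⟩, hM⟩
    have hwn : g (2 * (2 + 2 * Q.length) + 7 + Q.length + Q.length) = mval cl (nX Q.length g) := by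
      rw [hA.w Q.length le_rfl, List.drop_length]
      rfl
    have hXval : ∀ l : ℕ, g (if l < Q.length then 2 + l else 2 * (2 + 2 * Q.length)) =
        nX Q.length g l := by
      intro l
      unfold nX
      by_cases hl : l < Q.length
      · rw [if_pos hl, if_pos hl]
      · rw [if_neg hl, if_neg hl, hA.z]
    rw [holds_raw]
    refine ⟨(global_raw _ _ _ _).mpr ⟨hA.z, ?_, ?_, ?_, ?_, ?_, ?_, ?_⟩, ?_, ?_, ?_⟩
    · interval_cases μ
      · exact Or.inl hμ
      · exact Or.inr (Or.inl hμ)
      · exact Or.inr (Or.inr (Or.inl hμ))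
      · exact Or.inr (Or.inr (Or.inr (Or.inl hμ)))
      · exact Or.inr (Or.inr (Or.inr (Or.inr hμ)))
    · exact (hA.c Q.length le_rfl).mpr (fun j hj hj' => by omega)
    · rw [hwn]
      by_cases h0 : cl.length = 0
      · rw [if_pos h0]
        have : cl = [] := List.length_eq_zero_iff.mp h0
        subst this
        rfl
      · rw [if_neg h0]
        dsimp only
        have e : 2 * (2 + 2 * Q.length) + 8 + 2 * Q.length + 6 * cl.length - 1 =
            2 * (2 + 2 * Q.length) + 8 + 2 * Q.length + 6 * (cl.length - 1) + 5 := by omega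
        rw [e, hA.cl (cl.length - 1) (by omega) 5 (by omega)]
        have e2 : cl.length - 1 + 1 = cl.length := by omega
        simp only [clval]
        rw [e2, List.take_length]
        rfl
    · intro h
      obtain ⟨a1, a2, a3, -⟩ := (hM 2 (by omega) (by omega) h).2.1 rfl
      refine ⟨a1, a2, ?_⟩
      rw [← hA.c 0 (by omega)] at a3
      simpa using a3
    · intro h
      obtain ⟨a1, a2, a3, a4⟩ := (hM 3 (by omega) (by omega) h).2.2.1 rfl
      refine ⟨a1, a2, (hA.c 0 (by omega)).mpr a3, ?_⟩
      have := hA.w 0 (by omega)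
      rw [List.drop_zero, Nat.add_zero] at this
      rw [this]
      exact a4
    · intro h
      exact (hM 4 (by omega) (by omega) h).2.2.2.1 rfl
    · intro h
      obtain ⟨a1, a2, a3, -⟩ := (hM 5 (by omega) (by omega) h).2.2.2.2 rfl
      exact ⟨a1, a2, a3⟩
    · intro i hi
      rw [eq_raw]
      intro h
      exact (hM 1 (by omega) (by omega) h).1 rfl i hi
    · intro k hk
      rw [level_raw]
      refine ⟨?_, ?_, ?_, ?_⟩
      · have h1 := hA.c k (by omega)
        have h2 := hA.c (k + 1) (by omega)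
        have e : nX Q.length g k = g (2 + k) := if_pos hk
        have e1 : 2 * (2 + 2 * Q.length) + 6 + k + 1 = 2 * (2 + 2 * Q.length) + 6 + (k + 1) := by
          omega
        rw [ones_iff_succ hk, ← h2, e, ← Bool.and_eq_true] at h1
        rw [e1]
        exact Bool.eq_iff_iff.mpr h1
      · have h1 := hA.w k (by omega)
        have h2 := hA.w (k + 1) (by omega)
        have e2 : 2 * (2 + 2 * Q.length) + 7 + Q.length + k + 1 =
          2 * (2 + 2 * Q.length) + 7 + Q.length + (k + 1) := by omega
        rw [h1, List.drop_eq_getElem_cons hk, wv, e2, h2]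
        rfl
      · intro h
        obtain ⟨-, -, -, a4⟩ := (hM 2 (by omega) (by omega) h).2.1 rfl
        rw [levRel_iff] at a4
        have := a4 k hk
        rw [Nat.zero_add] at this
        exact (lev_raw hA hk).mp this
      · intro h
        exact ((hM 5 (by omega) (by omega) h).2.2.2.2 rfl).2.2.2 k hk
    · intro t ht
      have c0 := hA.cl t ht 0 (by omega)
      have c1 := hA.cl t ht 1 (by omega)
      have c2 := hA.cl t ht 2 (by omega)
      have c3 := hA.cl t ht 3 (by omega)
      have c4 := hA.cl t ht 4 (by omega)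
      have c5 := hA.cl t ht 5 (by omega)
      rw [clause_raw, hXval, hXval, hXval]
      rw [Nat.add_zero] at c0
      refine ⟨c0, c1, c2, ?_, ?_, ?_⟩
      · rw [c3, c0, c1]; rfl
      · rw [c4, c3, c2]; rfl
      · by_cases h0 : t = 0
        · subst h0
          rw [if_pos rfl, c5, c4]
          simp only [clval]
          rw [List.take_add_one]
          simp [ht]
        · rw [if_neg h0, c5, c4]
          obtain ⟨t', rfl⟩ : ∃ t', t = t' + 1 := ⟨t - 1, by omega⟩
          have e : 2 * (2 + 2 * Q.length) + 8 + 2 * Q.length + 6 * (t' + 1) - 1 =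
            2 * (2 + 2 * Q.length) + 8 + 2 * Q.length + 6 * t' + 5 := by omega
          rw [e, hA.cl t' (by omega) 5 (by omega)]
          simp only [clval]
          rw [List.take_add_one (i := t' + 1), List.all_append, Bool.and_comm]
          congr 1
          simp [ht]

/-! ### The relation on nodes -/

theorem nX_congr {n : ℕ} {a a' : ℕ → Bool} (h : ∀ i < 2 + 2 * n, a i = a' i) :
    nX n a = nX n a' := by
  funext j
  unfold nX
  by_cases hj : j < n
  · rw [if_pos hj, if_pos hj, h _ (by omega)]
  · rw [if_neg hj, if_neg hj]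

theorem nR_congr {n : ℕ} {a a' : ℕ → Bool} (h : ∀ i < 2 + 2 * n, a i = a' i) {j : ℕ} (hj : j < n) :
    nR n a j = nR n a' j := h _ (by omega)

theorem wv_congr (cl : List (Lit × (Lit × Lit))) (X R R' : ℕ → Bool) (Q : List Bool) : ∀ k : ℕ,
    (∀ j, k ≤ j → j < k + Q.length → R j = R' j) → wv cl X R Q k = wv cl X R' Q k := by
  induction Q with
  | nil => intro k _; rfl
  | cons q Q ih =>
    intro k h
    rw [wv, wv, h k le_rfl (by simp), ih (k + 1) (fun j hj hj' => h j (by omega)
      (by simp only [List.length_cons]; omega))]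

theorem modeP_congr {cl : List (Lit × (Lit × Lit))} {Q : List Bool} {a a' b b' : ℕ → Bool} {μ : ℕ}
    (ha : ∀ i < 2 + 2 * Q.length, a i = a' i) (hb : ∀ i < 2 + 2 * Q.length, b i = b' i)
    (h : ModeP cl Q a b μ) : ModeP cl Q a' b' μ := by
  obtain ⟨h1, h2, h3, h4, h5⟩ := h
  have hw : ∀ k ≤ Q.length, wv cl (nX Q.length a) (nR Q.length a) (Q.drop k) k =
      wv cl (nX Q.length a') (nR Q.length a') (Q.drop k) k := by
    intro k hk
    rw [nX_congr ha]
    apply wv_congr
    intro j hj hj'
    rw [List.length_drop] at hj'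
    exact nR_congr ha (by omega)
  refine ⟨?_, ?_, ?_, ?_, ?_⟩
  · intro e i hi
    rw [← ha i hi, ← hb i hi]
    exact h1 e i hi
  · intro e
    obtain ⟨a1, a2, a3, a4⟩ := h2 e
    refine ⟨by rw [← ha 0 (by omega)]; exact a1, by rw [← hb 0 (by omega)]; exact a2,
      by rw [← nX_congr ha]; exact a3, ?_⟩
    rw [levRel_iff] at a4 ⊢
    intro i hi
    have := a4 i hi
    rw [Nat.zero_add] at this ⊢
    unfold Lev at this ⊢
    rw [← nX_congr ha, ← nX_congr hb, ← nR_congr ha hi, ← nR_congr hb hi]
    rw [hw (i + 1) (by omega)] at this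
    rw [← nX_congr ha] at this
    exact this
  · intro e
    obtain ⟨a1, a2, a3, a4⟩ := h3 e
    refine ⟨by rw [← ha 0 (by omega)]; exact a1, by rw [← hb 0 (by omega)]; exact a2,
      by rw [← nX_congr ha]; exact a3, ?_⟩
    have := hw 0 (by omega)
    rw [List.drop_zero] at this
    rw [← hb 1 (by omega), a4, this]
  · intro e
    rw [← ha 0 (by omega), ← hb 0 (by omega), ← ha 1 (by omega), ← hb 1 (by omega)]
    exact h4 e
  · intro e
    obtain ⟨a1, a2, a3, a4⟩ := h5 e
    rw [← ha 0 (by omega), ← hb 0 (by omega), ← hb 1 (by omega)]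
    exact ⟨a1, a2, a3, fun j hj => by rw [← ha (2 + j) (by omega)]; exact a4 j hj⟩

/-- The value of the variable `r` of the clause `t`, total version. -/
def clvalT (cl : List (Lit × (Lit × Lit))) (X : ℕ → Bool) (t r : ℕ) : Bool :=
  if ht : t < cl.length then clval cl X t ht r else false

open Classical in
/-- The assignment for two nodes and a mode. -/
noncomputable def gf (cl : List (Lit × (Lit × Lit))) (Q : List Bool) (a b : ℕ → Bool) (μ i : ℕ) :
    Bool :=
  if i < 2 + 2 * Q.length then a i
  else if i < 2 * (2 + 2 * Q.length) then b (i - (2 + 2 * Q.length))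
  else if i < 2 * (2 + 2 * Q.length) + 6 then decide (i = 2 * (2 + 2 * Q.length) + μ)
  else if i < 2 * (2 + 2 * Q.length) + 7 + Q.length then
    decide (Ones Q.length (nX Q.length a) (i - (2 * (2 + 2 * Q.length) + 6)))
  else if i < 2 * (2 + 2 * Q.length) + 8 + 2 * Q.length then
    wv cl (nX Q.length a) (nR Q.length a) (Q.drop (i - (2 * (2 + 2 * Q.length) + 7 + Q.length)))
      (i - (2 * (2 + 2 * Q.length) + 7 + Q.length))
  else clvalT cl (nX Q.length a) ((i - (2 * (2 + 2 * Q.length) + 8 + 2 * Q.length)) / 6)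
    ((i - (2 * (2 + 2 * Q.length) + 8 + 2 * Q.length)) % 6)

theorem gf_a {cl : List (Lit × (Lit × Lit))} {Q : List Bool} {a b : ℕ → Bool} {μ i : ℕ}
    (hi : i < 2 + 2 * Q.length) : gf cl Q a b μ i = a i := if_pos hi

theorem gf_b {cl : List (Lit × (Lit × Lit))} {Q : List Bool} {a b : ℕ → Bool} {μ i : ℕ}
    (hi : i < 2 + 2 * Q.length) : gf cl Q a b μ (2 + 2 * Q.length + i) = b i := by
  unfold gf
  rw [if_neg (by omega), if_pos (by omega)]
  congr 1
  omega

theorem gf_mode {cl : List (Lit × (Lit × Lit))} {Q : List Bool} {a b : ℕ → Bool} {μ i : ℕ}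
    (hi : i < 6) : gf cl Q a b μ (2 * (2 + 2 * Q.length) + i) = true ↔ i = μ := by
  unfold gf
  rw [if_neg (by omega), if_neg (by omega), if_pos (by omega)]
  simp

theorem aux_gf (cl : List (Lit × (Lit × Lit))) (Q : List Bool) (a b : ℕ → Bool) {μ : ℕ}
    (hμ : 1 ≤ μ) : Aux cl Q (gf cl Q a b μ) := by
  have hX : nX Q.length (gf cl Q a b μ) = nX Q.length a := nX_congr fun i hi => gf_a hi
  have hw : ∀ k ≤ Q.length,
      wv cl (nX Q.length a) (nR Q.length (gf cl Q a b μ)) (Q.drop k) k =
      wv cl (nX Q.length a) (nR Q.length a) (Q.drop k) k := by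
    intro k hk
    apply wv_congr
    intro j hj hj'
    rw [List.length_drop] at hj'
    exact nR_congr (fun i hi => gf_a hi) (by omega)
  refine ⟨?_, ?_, ?_, ?_⟩
  · by_contra h
    rw [Bool.not_eq_false] at h
    have := (gf_mode (i := 0) (by omega)).mp (by simpa using h)
    omega
  · intro k hk
    rw [hX]
    unfold gf
    rw [if_neg (by omega), if_neg (by omega), if_neg (by omega), if_pos (by omega),
      Nat.add_sub_cancel_left]
    simp
  · intro k hk
    rw [hX, hw k hk]
    unfold gf
    rw [if_neg (by omega), if_neg (by omega), if_neg (by omega), if_neg (by omega),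
      if_pos (by omega), Nat.add_sub_cancel_left]
  · intro t ht r hr
    rw [hX]
    unfold gf
    rw [if_neg (by omega), if_neg (by omega), if_neg (by omega), if_neg (by omega),
      if_neg (by omega)]
    have e1 : (2 * (2 + 2 * Q.length) + 8 + 2 * Q.length + 6 * t + r -
      (2 * (2 + 2 * Q.length) + 8 + 2 * Q.length)) / 6 = t := by omega
    have e2 : (2 * (2 + 2 * Q.length) + 8 + 2 * Q.length + 6 * t + r -
      (2 * (2 + 2 * Q.length) + 8 + 2 * Q.length)) % 6 = r := by omega
    rw [e1, e2, clvalT, dif_pos ht]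

/-- a node as a function on `ℕ` -/
def ext {m : ℕ} (x : Fin m → Bool) (i : ℕ) : Bool := if h : i < m then x ⟨i, h⟩ else false

theorem ext_apply {m : ℕ} (x : Fin m → Bool) (i : Fin m) : ext x i = x i := by
  unfold ext
  rw [dif_pos i.2]

theorem ext_of {m : ℕ} (a : ℕ → Bool) {i : ℕ} (hi : i < m) : ext (fun j : Fin m => a j) i = a i := by
  unfold ext
  rw [dif_pos hi]

theorem E_iff (Q : List Bool) (cl : List (Lit × (Lit × Lit)))
    (x y : Fin (2 + 2 * Q.length) → Bool) :
    (relOf (Q, cl)).E x y ↔ ∃ μ, 1 ≤ μ ∧ μ ≤ 5 ∧ ModeP cl Q (ext x) (ext y) μ := by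
  constructor
  · rintro ⟨g, hx, hy, hg⟩
    obtain ⟨-, ⟨μ, h1, h5, hμ⟩, hM⟩ := (holds_iff_aux Q cl g).mp hg
    refine ⟨μ, h1, h5, modeP_congr ?_ ?_ (hM μ h1 h5 hμ)⟩
    · intro i hi
      have h1 : g i = x ⟨i, hi⟩ := hx ⟨i, hi⟩
      rw [h1]
      exact (ext_apply x ⟨i, hi⟩).symm
    · intro i hi
      have h1 : g (2 + 2 * Q.length + i) = y ⟨i, hi⟩ := hy ⟨i, hi⟩
      rw [h1]
      exact (ext_apply y ⟨i, hi⟩).symm
  · rintro ⟨μ, h1, h5, hM⟩
    refine ⟨gf cl Q (ext x) (ext y) μ, ?_, ?_, ?_⟩
    · intro i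
      rw [gf_a i.2]
      exact ext_apply x i
    · intro i
      have : gf cl Q (ext x) (ext y) μ (2 + 2 * Q.length + i) = ext y i := gf_b i.2
      exact this.trans (ext_apply y i)
    · rw [holds_iff_aux]
      refine ⟨aux_gf cl Q _ _ h1, ⟨μ, h1, h5, (gf_mode (by omega)).mpr rfl⟩, ?_⟩
      intro ν _ hν h
      have : ν = μ := (gf_mode (by omega)).mp h
      rw [this]
      exact modeP_congr (fun i hi => (gf_a hi).symm) (fun i hi => (gf_b hi).symm) hM

/-! ### Connectedness -/

/-- The class of a node. -/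
def Cls (cl : List (Lit × (Lit × Lit))) (Q : List Bool) (a : ℕ → Bool) : Bool :=
  if a 0 then a 1 else Vv cl (nX Q.length a) (nR Q.length a) Q 0

theorem Vv_congr (cl : List (Lit × (Lit × Lit))) (X R R' : ℕ → Bool) (Q : List Bool) : ∀ k : ℕ,
    (∀ j, k ≤ j → j < k + Q.length → R j = R' j) → Vv cl X R Q k = Vv cl X R' Q k := by
  induction Q with
  | nil => intro k _; rfl
  | cons q Q ih =>
    intro k h
    rw [Vv, Vv, h k le_rfl (by simp), ih (k + 1) (fun j hj hj' => h j (by omega)
      (by simp only [List.length_cons]; omega))]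

theorem Cls_congr {cl : List (Lit × (Lit × Lit))} {Q : List Bool} {a a' : ℕ → Bool}
    (h : ∀ i < 2 + 2 * Q.length, a i = a' i) : Cls cl Q a = Cls cl Q a' := by
  unfold Cls
  rw [h 0 (by omega), h 1 (by omega), nX_congr h]
  rw [Vv_congr cl _ _ _ Q 0 (fun j _ hj => nR_congr h (by omega))]

/-- The value of the whole formula. -/
def whole (cl : List (Lit × (Lit × Lit))) (Q : List Bool) : Bool := tval cl Q 0 (fun _ => false)

theorem Cls_mode {cl : List (Lit × (Lit × Lit))} {Q : List Bool} {a b : ℕ → Bool} {μ : ℕ}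
    (h1 : 1 ≤ μ) (h4 : μ ≤ 4) (h : ModeP cl Q a b μ) : Cls cl Q a = Cls cl Q b := by
  obtain ⟨m1, m2, m3, m4, -⟩ := h
  interval_cases μ
  · exact Cls_congr (m1 rfl)
  · obtain ⟨a1, a2, a3, a4⟩ := m2 rfl
    unfold Cls
    rw [a1, a2, if_neg (by simp), if_neg (by simp)]
    symm
    apply step_inv (n := Q.length) ?_ Q 0 (by omega) a4 a3 (by omega)
    intro j hj
    unfold nX
    rw [if_neg (by omega), if_neg (by omega)]
  · obtain ⟨a1, a2, a3, a4⟩ := m3 rfl
    unfold Cls
    rw [a1, a2, if_neg (by simp), if_pos rfl, a4]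
    exact Vv_one cl _ _ Q 0 (fun j hj hj' => a3 j hj (by omega))
  · obtain ⟨a1, a2, a3⟩ := m4 rfl
    unfold Cls
    rw [a1, a2, if_pos rfl, if_pos rfl, a3]

/-- A node without bits `x_k` has the value of the formula. -/
theorem Cls_zero {cl : List (Lit × (Lit × Lit))} {Q : List Bool} {a : ℕ → Bool} (h0 : a 0 = false)
    (h : ∀ j < Q.length, a (2 + j) = false) : Cls cl Q a = whole cl Q := by
  have hX : nX Q.length a = fun _ => false := by
    funext j
    unfold nX
    by_cases hj : j < Q.length
    · rw [if_pos hj, h j hj]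
    · rw [if_neg hj]
  unfold Cls whole
  rw [h0, if_neg (by simp), hX]
  exact Vv_zero cl _ _ Q 0 (fun _ _ _ => rfl)

theorem Cls_mode5 {cl : List (Lit × (Lit × Lit))} {Q : List Bool} {a b : ℕ → Bool}
    (h : ModeP cl Q a b 5) : Cls cl Q a = whole cl Q ∧ Cls cl Q b = true := by
  obtain ⟨a1, a2, a3, a4⟩ := h.2.2.2.2 rfl
  refine ⟨Cls_zero a1 a4, ?_⟩
  unfold Cls
  rw [a2, if_pos rfl, a3]

theorem relOf_refl (I : QBF) (x : Fin (relOf I).1 → Bool) : (relOf I).E x x := by
  obtain ⟨Q, cl⟩ := I
  refine (E_iff Q cl x x).mpr ⟨1, le_rfl, by omega, fun _ i _ => rfl, ?_, ?_, ?_, ?_⟩ <;>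
  · intro h; omega

/-- the node with given bits -/
def nodeOf (n : ℕ) (a : ℕ → Bool) : Fin (2 + 2 * n) → Bool := fun i => a i

theorem E_of_mode {cl : List (Lit × (Lit × Lit))} {Q : List Bool} {a b : ℕ → Bool} {μ : ℕ}
    (h1 : 1 ≤ μ) (h5 : μ ≤ 5) (h : ModeP cl Q a b μ) :
    (relOf (Q, cl)).E (nodeOf Q.length a) (nodeOf Q.length b) :=
  (E_iff Q cl _ _).mpr ⟨μ, h1, h5, modeP_congr (fun _ hi => (ext_of a hi).symm)
    (fun _ hi => (ext_of b hi).symm) h⟩

open Classical in
/-- The next node. -/
noncomputable def succN (cl : List (Lit × (Lit × Lit))) (Q : List Bool) (a : ℕ → Bool) (i : ℕ) :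
    Bool :=
  if i < 2 then false
  else if i < 2 + Q.length then
    (if Ones Q.length (nX Q.length a) (i - 2 + 1) then !(a i) else a i)
  else
    (if Ones Q.length (nX Q.length a) (i - (2 + Q.length) + 1) ∧
        nX Q.length a (i - (2 + Q.length)) = false then
      wv cl (nX Q.length a) (nR Q.length a) (Q.drop (i - (2 + Q.length) + 1))
        (i - (2 + Q.length) + 1)
      else a i)

theorem nX_succN (cl : List (Lit × (Lit × Lit))) (Q : List Bool) (a : ℕ → Bool) {j : ℕ}
    (hj : j < Q.length) : (Ones Q.length (nX Q.length a) (j + 1) →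
      nX Q.length (succN cl Q a) j = !(nX Q.length a j)) ∧
      (¬ Ones Q.length (nX Q.length a) (j + 1) →
      nX Q.length (succN cl Q a) j = nX Q.length a j) := by
  have e : nX Q.length a j = a (2 + j) := if_pos hj
  have e' : nX Q.length (succN cl Q a) j = succN cl Q a (2 + j) := if_pos hj
  rw [e, e']
  unfold succN
  rw [if_neg (by omega), if_pos (by omega)]
  have e2 : 2 + j - 2 + 1 = j + 1 := by omega
  rw [e2]
  constructor
  · intro h; rw [if_pos h]
  · intro h; rw [if_neg h]

theorem nR_succN (cl : List (Lit × (Lit × Lit))) (Q : List Bool) (a : ℕ → Bool) {j : ℕ} :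
    (Ones Q.length (nX Q.length a) (j + 1) ∧ nX Q.length a j = false →
      nR Q.length (succN cl Q a) j =
        wv cl (nX Q.length a) (nR Q.length a) (Q.drop (j + 1)) (j + 1)) ∧
      (¬ (Ones Q.length (nX Q.length a) (j + 1) ∧ nX Q.length a j = false) →
      nR Q.length (succN cl Q a) j = nR Q.length a j) := by
  unfold nR
  unfold succN
  rw [if_neg (by omega), if_neg (by omega)]
  have e2 : 2 + Q.length + j - (2 + Q.length) = j := by omega
  rw [e2]
  constructor
  · intro h; rw [if_pos h]; rfl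
  · intro h; rw [if_neg h]

theorem modeP_succ {cl : List (Lit × (Lit × Lit))} {Q : List Bool} {a : ℕ → Bool}
    (h0 : a 0 = false) (h : ¬ Ones Q.length (nX Q.length a) 0) : ModeP cl Q a (succN cl Q a) 2 := by
  refine ⟨by omega, fun _ => ⟨h0, rfl, h, ?_⟩, by omega, by omega, by omega⟩
  rw [levRel_iff]
  intro i hi
  rw [Nat.zero_add]
  obtain ⟨x1, x2⟩ := nX_succN cl Q a hi
  obtain ⟨r1, r2⟩ := nR_succN cl Q a (j := i)
  unfold Lev
  by_cases ho : Ones Q.length (nX Q.length a) (i + 1)
  · right
    cases hX : nX Q.length a i with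
    | false => exact Or.inl ⟨ho, rfl, by rw [x1 ho, hX]; rfl, r1 ⟨ho, hX⟩⟩
    | true => exact Or.inr ⟨ho, rfl, by rw [x1 ho, hX]; rfl⟩
  · left
    exact ⟨ho, x2 ho, r2 (fun h => ho h.1)⟩

/-- From every node without hub flag one reaches a node with only ones from `k` on. -/
theorem reach_ones (cl : List (Lit × (Lit × Lit))) (Q : List Bool) {k : ℕ} (hk : k ≤ Q.length) :
    ∀ a : ℕ → Bool, a 0 = false → ∃ b : ℕ → Bool, b 0 = false ∧
      Ones Q.length (nX Q.length b) k ∧ (∀ j < k, nX Q.length b j = nX Q.length a j) ∧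
      Cls cl Q b = Cls cl Q a ∧
      Relation.EqvGen (relOf (Q, cl)).E (nodeOf Q.length a) (nodeOf Q.length b) := by
  induction hk using Nat.decreasingInduction with
  | self =>
    intro a ha
    exact ⟨a, ha, fun j hj hj' => by omega, fun _ _ => rfl, rfl, Relation.EqvGen.refl _⟩
  | of_succ k hk ih =>
    intro a ha
    obtain ⟨b, b0, b1, b2, b3, b4⟩ := ih a ha
    cases hX : nX Q.length b k with
    | true =>
      exact ⟨b, b0, (ones_iff_succ hk).mpr ⟨b1, hX⟩, fun j hj => b2 j (by omega), b3, b4⟩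
    | false =>
      have hno : ∀ j ≤ k, ¬ Ones Q.length (nX Q.length b) j := by
        intro j hj h
        rw [h k hj hk] at hX
        exact absurd hX (by simp)
      have hM : ModeP cl Q b (succN cl Q b) 2 := modeP_succ b0 (hno 0 (by omega))
      obtain ⟨c, c0, c1, c2, c3, c4⟩ := ih (succN cl Q b) rfl
      refine ⟨c, c0, (ones_iff_succ hk).mpr ⟨c1, ?_⟩, ?_, ?_, ?_⟩
      · rw [c2 k (by omega), (nX_succN cl Q b hk).1 b1, hX]
        rfl
      · intro j hj
        rw [c2 j (by omega), (nX_succN cl Q b (by omega)).2 (hno (j + 1) (by omega)),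
          b2 j (by omega)]
      · rw [c3, ← Cls_mode (by omega) (by omega) hM, b3]
      · exact b4.trans _ _ _ ((Relation.EqvGen.rel _ _ (E_of_mode (by omega) (by omega) hM)).trans
          _ _ _ c4)

/-- the hub node with value `v` -/
def hubN (v : Bool) (i : ℕ) : Bool := if i = 0 then true else if i = 1 then v else false

theorem to_hub (cl : List (Lit × (Lit × Lit))) (Q : List Bool) (a : ℕ → Bool) :
    Relation.EqvGen (relOf (Q, cl)).E (nodeOf Q.length a) (nodeOf Q.length (hubN (Cls cl Q a))) := by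
  cases h0 : a 0 with
  | true =>
    have hc : Cls cl Q a = a 1 := by unfold Cls; rw [h0, if_pos rfl]
    rw [hc]
    exact Relation.EqvGen.rel _ _ (E_of_mode (μ := 4) (by omega) (by omega)
      ⟨by omega, by omega, by omega, fun _ => ⟨h0, rfl, rfl⟩, by omega⟩)
  | false =>
    obtain ⟨b, b0, b1, -, b3, b4⟩ := reach_ones cl Q (Nat.zero_le _) a h0
    have hc : Cls cl Q b = wv cl (nX Q.length b) (nR Q.length b) Q 0 := by
      unfold Cls
      rw [b0, if_neg (by simp)]
      exact Vv_one cl _ _ Q 0 (fun j hj hj' => b1 j hj (by omega))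
    rw [← b3, hc]
    exact b4.trans _ _ _ (Relation.EqvGen.rel _ _ (E_of_mode (μ := 3) (by omega) (by omega)
      ⟨by omega, by omega, fun _ => ⟨b0, rfl, b1, rfl⟩, by omega, by omega⟩))

theorem relOf_conn (I : QBF) :
    (relOf I).Connected ↔ ¬ QTrue I.2 I.1 0 (fun _ => false) := by
  obtain ⟨Q, cl⟩ := I
  rw [← tval_iff]
  change (relOf (Q, cl)).Connected ↔ ¬ whole cl Q = true
  constructor
  · intro hC hw
    have hinv : ∀ x y : Fin (2 + 2 * Q.length) → Bool, Relation.EqvGen (relOf (Q, cl)).E x y →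
        Cls cl Q (ext x) = Cls cl Q (ext y) := by
      intro x y h
      induction h with
      | rel x y h =>
        obtain ⟨μ, h1, h5, hM⟩ := (E_iff Q cl x y).mp h
        by_cases h4 : μ ≤ 4
        · exact Cls_mode h1 h4 hM
        · have : μ = 5 := by omega
          subst this
          obtain ⟨e1, e2⟩ := Cls_mode5 hM
          rw [e1, e2, hw]
      | refl x => rfl
      | symm x y _ ih => exact ih.symm
      | trans x y z _ _ ih1 ih2 => exact ih1.trans ih2
    have h := hinv _ _ (hC (nodeOf Q.length (hubN true)) (nodeOf Q.length (hubN false)))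
    have e : ∀ v, Cls cl Q (ext (nodeOf Q.length (hubN v))) = v := by
      intro v
      have := Cls_congr (cl := cl) (Q := Q) (a := ext (nodeOf Q.length (hubN v))) (a' := hubN v)
        (fun i hi => ext_of (hubN v) hi)
      rw [this]
      rfl
    rw [e, e] at h
    exact absurd h (by simp)
  · intro hw
    rw [Bool.not_eq_true] at hw
    have hnode : ∀ x : Fin (2 + 2 * Q.length) → Bool, nodeOf Q.length (ext x) = x := by
      intro x
      funext i
      exact ext_apply x i
    have hz : Relation.EqvGen (relOf (Q, cl)).E (nodeOf Q.length (hubN true))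
        (nodeOf Q.length (hubN false)) := by
      have h1 := to_hub cl Q (fun _ => false)
      rw [Cls_zero rfl (fun _ _ => rfl), hw] at h1
      refine (Relation.EqvGen.symm _ _ (Relation.EqvGen.rel _ _ ?_)).trans _ _ _ h1
      exact E_of_mode (μ := 5) (by omega) (by omega)
        ⟨by omega, by omega, by omega, by omega, fun _ => ⟨rfl, rfl, rfl, fun _ _ => rfl⟩⟩
    have hh : ∀ v v', Relation.EqvGen (relOf (Q, cl)).E (nodeOf Q.length (hubN v))
        (nodeOf Q.length (hubN v')) := by
      intro v v'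
      cases v <;> cases v'
      · exact Relation.EqvGen.refl _
      · exact hz.symm
      · exact hz
      · exact Relation.EqvGen.refl _
    intro x y
    have hx := to_hub cl Q (ext x)
    have hy := to_hub cl Q (ext y)
    have ex : nodeOf Q.length (ext x) = x := hnode x
    have ey : nodeOf Q.length (ext y) = y := hnode y
    rw [ex] at hx
    rw [ey] at hy
    exact hx.trans _ _ _ ((hh _ _).trans _ _ _ hy.symm)

/-! ### Well-formedness -/

/-- a well-formed constraint -/
def WFc (K : ℕ) (c : List (List (ℕ × Bool))) : Prop :=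
  2 ≤ c.length ∧ ∀ q ∈ c, (q.map Prod.fst).Nodup ∧ ∀ l ∈ q, l.1 < K

theorem wf_gAnd {K z a b : ℕ} (hz : z < K) (ha : a < K) (hb : b < K) (h1 : z ≠ a) (h2 : z ≠ b)
    (h3 : a ≠ b) : WFc K (gAnd z a b) := by
  refine ⟨by simp [gAnd], ?_⟩
  simp [gAnd, hz, ha, hb, h1, h2, h3]

theorem wf_gOr {K z a b : ℕ} (hz : z < K) (ha : a < K) (hb : b < K) (h1 : z ≠ a) (h2 : z ≠ b)
    (h3 : a ≠ b) : WFc K (gOr z a b) := by
  refine ⟨by simp [gOr], ?_⟩
  simp [gOr, hz, ha, hb, h1, h2, h3]

theorem wf_gEq {K z a : ℕ} (hz : z < K) (ha : a < K) (h1 : z ≠ a) : WFc K (gEq z a) := by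
  refine ⟨by simp [gEq], ?_⟩
  simp [gEq, hz, ha, h1]

theorem wf_gConst {K z : ℕ} (b : Bool) (hz : z < K) : WFc K (gConst z b) := by
  refine ⟨by simp [gConst], ?_⟩
  intro q hq
  have hq' : q = [(z, b)] := by simpa [gConst] using hq
  subst hq'
  simp [hz]

theorem wf_gLit {K n o z : ℕ} {l : ℕ × Bool} (hz : z < K) (h1 : (if l.1 < n then 2 + l.1 else o) < K)
    (h2 : z ≠ (if l.1 < n then 2 + l.1 else o)) : WFc K (gLit n o z l) := by
  refine ⟨by simp [gLit], ?_⟩
  intro q hq
  unfold gLit at hq
  rw [List.mem_cons, List.mem_singleton] at hq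
  rcases hq with rfl | rfl
  · refine ⟨by simpa using h2, ?_⟩
    intro l' hl'
    rw [List.mem_cons, List.mem_singleton] at hl'
    rcases hl' with rfl | rfl
    · exact hz
    · exact h1
  · refine ⟨by simpa using h2, ?_⟩
    intro l' hl'
    rw [List.mem_cons, List.mem_singleton] at hl'
    rcases hl' with rfl | rfl
    · exact hz
    · exact h1

theorem wf_gIf {K μ : ℕ} {c : List (List (ℕ × Bool))} (hμ : μ < K) (hc : 1 ≤ c.length)
    (h : ∀ q ∈ c, (q.map Prod.fst).Nodup ∧ ∀ l ∈ q, l.1 < K) : WFc K (gIf μ c) := by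
  refine ⟨by simpa [gIf] using hc, ?_⟩
  intro q hq
  unfold gIf at hq
  rw [List.mem_cons] at hq
  rcases hq with rfl | hq
  · simp [hμ]
  · exact h q hq

theorem wf_global (n m K : ℕ) (v : Option ℕ) (hm : m = 2 + 2 * n) (hK : 2 * m + 8 + 2 * n ≤ K)
    (hv : ∀ u, v = some u → u < K ∧ u ≠ 2 * m + 7 + n + n) :
    ∀ c ∈ globalD n m v, WFc K c := by
  have h2 : WFc K [[(2 * m + 1, true)], [(2 * m + 2, true)], [(2 * m + 3, true)],
      [(2 * m + 4, true)], [(2 * m + 5, true)]] := by
    refine ⟨by simp, ?_⟩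
    simp only [List.mem_cons, List.not_mem_nil, or_false, forall_eq_or_imp, forall_eq,
      List.map_cons, List.map_nil, List.nodup_singleton, true_and]
    omega
  have h5 : WFc K (gIf (2 * m + 2) [[(0, false), (m, false), (2 * m + 6, false)]]) := by
    apply wf_gIf (by omega) (by simp)
    simp only [List.mem_cons, List.not_mem_nil, or_false, forall_eq_or_imp, forall_eq,
      List.map_cons, List.map_nil, List.nodup_cons, List.nodup_nil, not_or, not_false_eq_true,
      and_true]
    omega
  have h6 : WFc K (gIf (2 * m + 3)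
     [[(0, false), (m, true), (2 * m + 6, true), (2 * m + 7 + n, false), (m + 1, false)],
      [(0, false), (m, true), (2 * m + 6, true), (2 * m + 7 + n, true), (m + 1, true)]]) := by
    apply wf_gIf (by omega) (by simp)
    simp only [List.mem_cons, List.not_mem_nil, or_false, forall_eq_or_imp, forall_eq,
      List.map_cons, List.map_nil, List.nodup_cons, List.nodup_nil, not_or, not_false_eq_true,
      and_true]
    omega
  have h7 : WFc K (gIf (2 * m + 4)
     [[(0, true), (m, true), (1, false), (m + 1, false)],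
      [(0, true), (m, true), (1, true), (m + 1, true)]]) := by
    apply wf_gIf (by omega) (by simp)
    simp only [List.mem_cons, List.not_mem_nil, or_false, forall_eq_or_imp, forall_eq,
      List.map_cons, List.map_nil, List.nodup_cons, List.nodup_nil, not_or, not_false_eq_true,
      and_true]
    omega
  have h8 : WFc K (gIf (2 * m + 5) [[(0, false), (m, true), (m + 1, true)]]) := by
    apply wf_gIf (by omega) (by simp)
    simp only [List.mem_cons, List.not_mem_nil, or_false, forall_eq_or_imp, forall_eq,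
      List.map_cons, List.map_nil, List.nodup_cons, List.nodup_nil, not_or, not_false_eq_true,
      and_true]
    omega
  have h1 : WFc K (gConst (2 * m) false) := wf_gConst _ (by omega)
  have h3 : WFc K (gConst (2 * m + 6 + n) true) := wf_gConst _ (by omega)
  unfold globalD
  cases v with
  | none =>
    have h4 : WFc K (gConst (2 * m + 7 + n + n) true) := wf_gConst _ (by omega)
    simp only [List.forall_mem_cons]
    exact ⟨h1, h2, h3, h4, h5, h6, h7, h8, by simp⟩
  | some u =>
    obtain ⟨hu, hu'⟩ := hv u rfl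
    have h4 : WFc K (gEq (2 * m + 7 + n + n) u) := wf_gEq (by omega) hu (fun h => hu' h.symm)
    simp only [List.forall_mem_cons]
    exact ⟨h1, h2, h3, h4, h5, h6, h7, h8, by simp⟩

theorem wf_level (n m K k : ℕ) (q : Bool) (hm : m = 2 + 2 * n) (hK : 2 * m + 8 + 2 * n ≤ K)
    (hk : k < n) : ∀ c ∈ levelD n m (q, k), WFc K c := by
  have h1 : WFc K (gAnd (2 * m + 6 + k) (2 * m + 6 + k + 1) (2 + k)) :=
    wf_gAnd (by omega) (by omega) (by omega) (by omega) (by omega) (by omega)
  have h2 : WFc K (if q then gAnd (2 * m + 7 + n + k) (2 * m + 7 + n + k + 1) (2 + n + k)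
    else gOr (2 * m + 7 + n + k) (2 * m + 7 + n + k + 1) (2 + n + k)) := by
    cases q
    · exact wf_gOr (by omega) (by omega) (by omega) (by omega) (by omega) (by omega)
    · exact wf_gAnd (by omega) (by omega) (by omega) (by omega) (by omega) (by omega)
  have h4 : WFc K (gIf (2 * m + 5) [[(2 + k, false)]]) := by
    apply wf_gIf (by omega) (by simp)
    simp only [List.mem_cons, List.not_mem_nil, or_false, forall_eq,
      List.map_cons, List.map_nil, List.nodup_cons, List.nodup_nil, not_false_eq_true,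
      and_true, true_and]
    omega
  unfold levelD
  dsimp only
  simp only [List.forall_mem_cons]
  refine ⟨h1, h2, ?_, h4, by simp⟩
  apply wf_gIf (by omega) (by simp)
  simp only [List.mem_cons, List.not_mem_nil, or_false, forall_eq_or_imp, forall_eq,
    List.map_cons, List.map_nil, List.nodup_cons, List.nodup_nil, not_or, not_false_eq_true,
    and_true]
  omega

theorem wf_clause (n m K t T : ℕ) (c : Lit × (Lit × Lit)) (hm : m = 2 + 2 * n)
    (hK : 2 * m + 8 + 2 * n + 6 * T ≤ K) (ht : t < T) : ∀ C ∈ clauseD n m (c, t), WFc K C := by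
  have hlit : ∀ l : ℕ, (if l < n then 2 + l else 2 * m) ≤ 2 * m := by
    intro l
    split_ifs with h <;> omega
  have h0 : WFc K (gLit n (2 * m) (2 * m + 8 + 2 * n + 6 * t) c.1) :=
    wf_gLit (by omega) (by have := hlit c.1.1; omega) (by have := hlit c.1.1; omega)
  have h1 : WFc K (gLit n (2 * m) (2 * m + 8 + 2 * n + 6 * t + 1) c.2.1) :=
    wf_gLit (by omega) (by have := hlit c.2.1.1; omega) (by have := hlit c.2.1.1; omega)
  have h2 : WFc K (gLit n (2 * m) (2 * m + 8 + 2 * n + 6 * t + 2) c.2.2) :=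
    wf_gLit (by omega) (by have := hlit c.2.2.1; omega) (by have := hlit c.2.2.1; omega)
  have h3 : WFc K (gOr (2 * m + 8 + 2 * n + 6 * t + 3) (2 * m + 8 + 2 * n + 6 * t)
     (2 * m + 8 + 2 * n + 6 * t + 1)) :=
    wf_gOr (by omega) (by omega) (by omega) (by omega) (by omega) (by omega)
  have h4 : WFc K (gOr (2 * m + 8 + 2 * n + 6 * t + 4) (2 * m + 8 + 2 * n + 6 * t + 3)
     (2 * m + 8 + 2 * n + 6 * t + 2)) :=
    wf_gOr (by omega) (by omega) (by omega) (by omega) (by omega) (by omega)
  have h5 : WFc K (if t = 0 then gEq (2 * m + 8 + 2 * n + 6 * t + 5) (2 * m + 8 + 2 * n + 6 * t + 4)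
   else gAnd (2 * m + 8 + 2 * n + 6 * t + 5) (2 * m + 8 + 2 * n + 6 * t + 4)
     (2 * m + 8 + 2 * n + 6 * t - 1)) := by
    by_cases h : t = 0
    · rw [if_pos h]
      exact wf_gEq (by omega) (by omega) (by omega)
    · rw [if_neg h]
      exact wf_gAnd (by omega) (by omega) (by omega) (by omega) (by omega) (by omega)
  unfold clauseD
  dsimp only
  simp only [List.forall_mem_cons]
  exact ⟨h0, h1, h2, h3, h4, h5, by simp⟩

theorem wf_eq (m K i : ℕ) (hK : 2 * m + 2 ≤ K) (hi : i < m) : WFc K (eqD m i) := by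
  unfold eqD
  apply wf_gIf (by omega) (by simp)
  simp only [List.mem_cons, List.not_mem_nil, or_false, forall_eq_or_imp, forall_eq,
    List.map_cons, List.map_nil, List.nodup_cons, List.nodup_nil, not_false_eq_true,
    and_true]
  omega

theorem relOf_wf (I : QBF) : (relOf I).WF := by
  obtain ⟨Q, cl⟩ := I
  refine ⟨by simp only [relOf]; omega, ?_⟩
  have key : ∀ c ∈ (relOf (Q, cl)).2.2, WFc (relOf (Q, cl)).2.1 c := by
    unfold relOf
    dsimp only
    simp only [List.mem_append, or_imp, forall_and, List.mem_map, List.mem_range, List.mem_flatMap]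
    refine ⟨⟨⟨?_, ?_⟩, ?_⟩, ?_⟩
    · apply wf_global _ _ _ _ rfl (by omega)
      intro u hu
      by_cases h0 : cl.length = 0
      · rw [if_pos h0] at hu
        exact absurd hu (by simp)
      · rw [if_neg h0, Option.some_inj] at hu
        omega
    · rintro c ⟨i, hi, rfl⟩
      exact wf_eq _ _ _ (by omega) hi
    · rintro c ⟨⟨q, k⟩, hk, hc⟩
      rw [List.mk_mem_zipIdx_iff_getElem?, List.getElem?_eq_some_iff] at hk
      obtain ⟨hk, rfl⟩ := hk
      exact wf_level _ _ _ k _ rfl (by omega) hk c hc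
    · rintro c ⟨⟨q, t⟩, ht, hc⟩
      rw [List.mk_mem_zipIdx_iff_getElem?, List.getElem?_eq_some_iff] at ht
      obtain ⟨ht, rfl⟩ := ht
      exact wf_clause _ _ _ t cl.length _ rfl (by omega) ht c hc
  exact key

end LockPl
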