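import Pool.Agent.Lib.MP_14e06f_lc.Plane.RigidD

set_option autoImplicit false

/-!
# Rigidity of the mesh: every configuration is a standard drawing
-/

namespace LockPl
namespace Rig

open Complex

variable {m : Mesh} {p : Vtx → ℂ}

theorem al_pos (o : Option (SignType × Bool)) : 0 < al o := by
  unfold al
  split <;> norm_num

theorem al_ne (o : Option (SignType × Bool)) : al o ≠ 1400 := by
  unfold al
  split <;> norm_num

theorem ad_sq (o : Option (SignType × Bool)) :
    ad o * ad o = al o * al o + 1400 * 1400 := by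
  rcases o with _ | ⟨σ, v⟩
  · norm_num [ad, al]
  · cases σ <;> cases v <;> norm_num [ad, al]

theorem armV_false (o : Option (SignType × Bool)) (i j : ℕ) {q : ℕ} (hq : q < 6) :
    armV o i j false q = (i, j, 14 + q) := by
  interval_cases q <;> rfl

theorem armV_true (o : Option (SignType × Bool)) (i j : ℕ) {q : ℕ} (hq : q < 6) :
    armV o i j true q = (i, j, 20 + q) := by
  interval_cases q <;> rfl

theorem armV_cases (o : Option (SignType × Bool)) (i j : ℕ) :
    (sg o = 1 ∧ armV o i j false 6 = (i, j, 9) ∧ armV o i j false 7 = (i, j, 11) ∧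
      armV o i j true 6 = (i + 1, j + 1, 2) ∧ armV o i j true 7 = (i + 1, j + 1, 0)) ∨
    (sg o = -1 ∧ armV o i j false 6 = (i, j + 1, 8) ∧ armV o i j false 7 = (i, j + 1, 10) ∧
      armV o i j true 6 = (i + 1, j, 3) ∧ armV o i j true 7 = (i + 1, j, 1)) := by
  rcases o with _ | ⟨σ, _ | _⟩
  · left; exact ⟨rfl, rfl, rfl, rfl, rfl⟩
  · right; exact ⟨rfl, rfl, rfl, rfl, rfl⟩
  · left; exact ⟨rfl, rfl, rfl, rfl, rfl⟩

/-- the vertices of an arm and the two further vertices `x`, `y` of the cell of the plate -/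
def armW (o : Option (SignType × Bool)) (i j : ℕ) (up : Bool) (x y : Vtx) (q : ℕ) : Vtx :=
  if q < 8 then armV o i j up q else if q = 8 then x else y

theorem Conf.armLow (c : Conf m p) (h : PlateAt p 0 0) {i j : ℕ} (hi : i < m.N)
    (hj : j < m.M) : ∀ q < 6, p (i, j, 14 + q) = p (armV (m.C i j) i j false 7) +
      (sg (m.C i j) * ((armXY (al (m.C i j)) 1890 q).1 : ℝ) +
        ((armXY (al (m.C i j)) 1890 q).2 : ℝ) * I) := by
  have hj1 : j + 1 ≤ m.M := hj
  intro q hq
  set o := m.C i j with ho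
  have key : ∀ x y : Vtx, SBar m (armV o i j false 6) x 480 →
      SBar m (armV o i j false 7) y 480 → SBar m x y 1400 →
      SBar m (armV o i j false 6) (armV o i j false 7) 1400 →
      [armV o i j false 0, armV o i j false 1, armV o i j false 2, armV o i j false 3,
        armV o i j false 4, armV o i j false 5, armV o i j false 6, armV o i j false 7,
        x, y].Nodup → (sg o = 1 ∨ sg o = -1) →
      p (armV o i j false 6) = p (armV o i j false 7) - 1400 * I →
      p x = p (armV o i j false 6) - sg o * 480 →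
      p y = p (armV o i j false 7) - sg o * 480 →
      p (i, j, 14 + q) = p (armV o i j false 7) +
        (sg o * ((armXY (al o) 1890 q).1 : ℝ) + ((armXY (al o) 1890 q).2 : ℝ) * I) := by
    intro x y k1 k2 k3 k4 nd hs e6 e8 e9
    have := c.arm (armW o i j false x y) (al_pos o) (al_ne o) (ad_sq o)
      (by
        intro q q' l hqq
        have hb := Bar.arm (m := m) (i := i) (j := j) hi hj false hqq
        have hq8 : q < 8 ∧ q' < 8 := by cases hqq <;> norm_num
        simp only [armW, hq8.1, hq8.2, if_true]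
        exact Or.inl hb)
      k4 k1 k2 k3 nd (κ := 1) (σ := sg o) (Or.inl rfl) hs
      (by simpa [armW] using e6) (by simpa [armW] using e8) (by simpa [armW] using e9) q hq
    simp only [armW, show q < 8 by omega, if_true] at this
    rw [armV_false o i j hq] at this
    rw [this]
    simp
  rcases armV_cases o i j with ⟨s, a6, a7, -, -⟩ | ⟨s, a6, a7, -, -⟩
  · have hP := c.plates h hi.le hj.le
    refine key (i, j, 8) (i, j, 10) ?_ ?_ (b810 hi.le hj.le) ?_ ?_ (Or.inl s) ?_ ?_ ?_
    · rw [a6]; exact (b89 hi.le hj.le).symm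
    · rw [a7]; exact (b1011 hi.le hj.le).symm
    · rw [a6, a7]; exact b911 hi.le hj.le
    · rw [a6, a7]
      simp only [armV_false o i j (show 0 < 6 by norm_num), armV_false o i j (show 1 < 6 by norm_num),
        armV_false o i j (show 2 < 6 by norm_num), armV_false o i j (show 3 < 6 by norm_num),
        armV_false o i j (show 4 < 6 by norm_num), armV_false o i j (show 5 < 6 by norm_num)]
      simp
    · rw [a6, a7, hP.v9, hP.v11]; ring
    · rw [a6, s, hP.v8, hP.v9]; push_cast; ring
    · rw [a7, s, hP.v10, hP.v11]; push_cast; ring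
  · have hP := c.plates h hi.le hj1
    refine key (i, j + 1, 9) (i, j + 1, 11) ?_ ?_ (b911 hi.le hj1) ?_ ?_ (Or.inr s) ?_ ?_ ?_
    · rw [a6]; exact b89 hi.le hj1
    · rw [a7]; exact b1011 hi.le hj1
    · rw [a6, a7]; exact b810 hi.le hj1
    · rw [a6, a7]
      simp only [armV_false o i j (show 0 < 6 by norm_num), armV_false o i j (show 1 < 6 by norm_num),
        armV_false o i j (show 2 < 6 by norm_num), armV_false o i j (show 3 < 6 by norm_num),
        armV_false o i j (show 4 < 6 by norm_num), armV_false o i j (show 5 < 6 by norm_num)]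
      simp
    · rw [a6, a7, hP.v8, hP.v10]; ring
    · rw [a6, s, hP.v8, hP.v9]; push_cast; ring
    · rw [a7, s, hP.v10, hP.v11]; push_cast; ring

theorem Conf.armUp (c : Conf m p) (h : PlateAt p 0 0) {i j : ℕ} (hi : i < m.N)
    (hj : j < m.M) : ∀ q < 6, p (i, j, 20 + q) = p (armV (m.C i j) i j true 7) -
      (sg (m.C i j) * ((armXY (al (m.C i j)) 1890 q).1 : ℝ) +
        ((armXY (al (m.C i j)) 1890 q).2 : ℝ) * I) := by
  have hj1 : j + 1 ≤ m.M := hj
  have hi1 : i + 1 ≤ m.N := hi
  intro q hq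
  set o := m.C i j with ho
  have key : ∀ x y : Vtx, SBar m (armV o i j true 6) x 480 →
      SBar m (armV o i j true 7) y 480 → SBar m x y 1400 →
      SBar m (armV o i j true 6) (armV o i j true 7) 1400 →
      [armV o i j true 0, armV o i j true 1, armV o i j true 2, armV o i j true 3,
        armV o i j true 4, armV o i j true 5, armV o i j true 6, armV o i j true 7,
        x, y].Nodup → (sg o = 1 ∨ sg o = -1) →
      p (armV o i j true 6) = p (armV o i j true 7) + 1400 * I →
      p x = p (armV o i j true 6) + sg o * 480 →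
      p y = p (armV o i j true 7) + sg o * 480 →
      p (i, j, 20 + q) = p (armV o i j true 7) -
        (sg o * ((armXY (al o) 1890 q).1 : ℝ) + ((armXY (al o) 1890 q).2 : ℝ) * I) := by
    intro x y k1 k2 k3 k4 nd hs e6 e8 e9
    have := c.arm (armW o i j true x y) (al_pos o) (al_ne o) (ad_sq o)
      (by
        intro q q' l hqq
        have hb := Bar.arm (m := m) (i := i) (j := j) hi hj true hqq
        have hq8 : q < 8 ∧ q' < 8 := by cases hqq <;> norm_num
        simp only [armW, hq8.1, hq8.2, if_true]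
        exact Or.inl hb)
      k4 k1 k2 k3 nd (κ := -1) (σ := sg o) (Or.inr rfl) hs
      (by simpa [armW] using e6) (by simpa [armW] using e8) (by simpa [armW] using e9) q hq
    simp only [armW, show q < 8 by omega, if_true] at this
    rw [armV_true o i j hq] at this
    rw [this]
    push_cast
    ring
  rcases armV_cases o i j with ⟨s, -, -, a6, a7⟩ | ⟨s, -, -, a6, a7⟩
  · have hP := c.plates h hi1 hj1
    refine key (i + 1, j + 1, 3) (i + 1, j + 1, 1) ?_ ?_ (b13 hi1 hj1).symm ?_ ?_ (Or.inl s)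
      ?_ ?_ ?_
    · rw [a6]; exact b23 hi1 hj1
    · rw [a7]; exact b01 hi1 hj1
    · rw [a6, a7]; exact (b02 hi1 hj1).symm
    · rw [a6, a7]
      simp only [armV_true o i j (show 0 < 6 by norm_num), armV_true o i j (show 1 < 6 by norm_num),
        armV_true o i j (show 2 < 6 by norm_num), armV_true o i j (show 3 < 6 by norm_num),
        armV_true o i j (show 4 < 6 by norm_num), armV_true o i j (show 5 < 6 by norm_num)]
      simp
    · rw [a6, a7, hP.v2]
    · rw [a6, s, hP.v2, hP.v3]; push_cast; ring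
    · rw [a7, s, hP.v1]; push_cast; ring
  · have hP := c.plates h hi1 hj.le
    refine key (i + 1, j, 2) (i + 1, j, 0) ?_ ?_ (b02 hi1 hj.le).symm ?_ ?_ (Or.inr s)
      ?_ ?_ ?_
    · rw [a6]; exact (b23 hi1 hj.le).symm
    · rw [a7]; exact (b01 hi1 hj.le).symm
    · rw [a6, a7]; exact (b13 hi1 hj.le).symm
    · rw [a6, a7]
      simp only [armV_true o i j (show 0 < 6 by norm_num), armV_true o i j (show 1 < 6 by norm_num),
        armV_true o i j (show 2 < 6 by norm_num), armV_true o i j (show 3 < 6 by norm_num),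
        armV_true o i j (show 4 < 6 by norm_num), armV_true o i j (show 5 < 6 by norm_num)]
      simp
    · rw [a6, a7, hP.v3, hP.v1]; ring
    · rw [a6, s, hP.v2, hP.v3]; push_cast; ring
    · rw [a7, s, hP.v1]; push_cast; ring

/-- the vector between the roots of the two arms -/
theorem Conf.roots (c : Conf m p) (h : PlateAt p 0 0) {i j : ℕ} (hi : i < m.N) (hj : j < m.M) :
    p (armV (m.C i j) i j true 7) - p (armV (m.C i j) i j false 7) =
      ((sg (m.C i j) * (3400 * (√(1 - Ap m p j ^ 2) - sg (m.C i j) * Bp m p i)) : ℝ) : ℂ) +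
      ((3400 * (sg (m.C i j) * Ap m p j + √(1 - Bp m p i ^ 2)) : ℝ) : ℂ) * I := by
  have hj1 : j + 1 ≤ m.M := hj
  have hi1 : i + 1 ≤ m.N := hi
  have h00 := c.plates h hi.le hj.le
  have h01 := c.plates h hi.le hj1
  have h10 := c.plates h hi1 hj.le
  have h11 := c.plates h hi1 hj1
  have ea := av_base h00 h01
  have ea' := av_base h10 h11
  have eb := bv_base h00
  have eb' := bv_base h01
  rw [c.av_eq h hi.le hj, (c.Ap_spec h hj).1] at ea
  rw [c.av_eq h hi1 hj, (c.Ap_spec h hj).1] at ea'
  rw [c.bv_eq h hi hj.le, (c.Bp_spec h hi).1] at eb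
  rw [c.bv_eq h hi hj1, (c.Bp_spec h hi).1] at eb'
  rcases armV_cases (m.C i j) i j with ⟨s, -, a7, -, a7'⟩ | ⟨s, -, a7, -, a7'⟩
  · rw [a7, a7', s, h00.v11]
    push_cast
    linear_combination -ea' - eb
  · rw [a7, a7', s, h01.v10, h10.v1]
    push_cast
    linear_combination ea - eb

theorem Conf.allowed (c : Conf m p) (h : PlateAt p 0 0) :
    Allowed m 1890 (Ap m p, Bp m p) := by
  intro i hi j hj hF
  have hr := c.roots h hi hj
  have lo := c.armLow h hi hj
  have hu := c.armUp h hi hj
  have hA := (c.Ap_spec h hj).2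
  have hB := (c.Bp_spec h hi).2
  set o := m.C i j with ho
  set O := p (armV o i j false 7) with hO
  set O' := p (armV o i j true 7) with hO'
  set X := 3400 * (√(1 - Ap m p j ^ 2) - sg o * Bp m p i) with hX
  set Y := 3400 * (sg o * Ap m p j + √(1 - Bp m p i ^ 2)) with hY
  obtain ⟨f1, f2, f3⟩ := hF
  have hs : sg o = 1 ∨ sg o = -1 := by
    rcases armV_cases o i j with h | h
    · exact Or.inl h.1
    · exact Or.inr h.1
  have hY1 : 1890 ≤ Y := by
    have h1 : (99 : ℝ) / 101 < √(1 - Bp m p i ^ 2) := by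
      have h2 : (Bp m p i) ^ 2 < (20 / 101) ^ 2 := by
        rw [← sq_abs (Bp m p i)]
        exact pow_lt_pow_left₀ hB (abs_nonneg _) (by norm_num)
      apply Real.lt_sqrt_of_sq_lt
      norm_num at h2 ⊢
      linarith
    have h3 := abs_lt.1 hA
    rw [hY]
    rcases hs with h | h <;> rw [h] <;> linarith
  have l2 := lo 2 (by norm_num)
  have l3 := lo 3 (by norm_num)
  have l4 := lo 4 (by norm_num)
  have l5 := lo 5 (by norm_num)
  have u4 := hu 4 (by norm_num)
  have u5 := hu 5 (by norm_num)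
  simp only [armXY] at l2 l3 l4 l5 u4 u5
  have hO'' : O' = O + (((sg o * X : ℝ) : ℂ) + ((Y : ℝ) : ℂ) * I) := by rw [← hr]; ring
  rw [hO''] at u4 u5
  have bu : SBar m (i, j, 20 + 4) (i, j, 20 + 5) 480 := by
    have := Bar.arm (m := m) (i := i) (j := j) hi hj true ArmBar.b45
    exact Or.inl this
  have b24 : SBar m (i, j, 14 + 2) (i, j, 14 + 4) 1890 := by
    have := Bar.arm (m := m) (i := i) (j := j) hi hj false ArmBar.b24
    exact Or.inl this
  have b35 : SBar m (i, j, 14 + 3) (i, j, 14 + 5) 1890 := by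
    have := Bar.arm (m := m) (i := i) (j := j) hi hj false ArmBar.b35
    exact Or.inl this
  rcases le_or_gt (X - al o - 480) (al o) with hx | hx
  · have d := c.disj b24 bu (by simp) (by simp) (by simp) (by simp)
    refine d (O + (sg o * ((al o : ℝ) : ℂ) + ((Y - 1890 : ℝ) : ℂ) * I))
      (mem_seg ((Y - 1890) / 1890) (by apply div_nonneg <;> linarith)
        (by rw [div_le_one (by norm_num)]; linarith) ?_)
      (mem_seg ((X - 2 * al o) / 480) (by apply div_nonneg <;> linarith)
        (by rw [div_le_one (by norm_num)]; linarith) ?_)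
    · rw [l2, l4]
      push_cast
      ring
    · rw [u4, u5]
      push_cast
      ring
  · have d := c.disj b35 bu (by simp) (by simp) (by simp) (by simp)
    refine d (O + (sg o * ((al o + 480 : ℝ) : ℂ) + ((Y - 1890 : ℝ) : ℂ) * I))
      (mem_seg ((Y - 1890) / 1890) (by apply div_nonneg <;> linarith)
        (by rw [div_le_one (by norm_num)]; linarith) ?_)
      (mem_seg ((X - 2 * al o - 480) / 480) (by apply div_nonneg <;> linarith)
        (by rw [div_le_one (by norm_num)]; linarith) ?_)
    · rw [l3, l5]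
      push_cast
      ring
    · rw [u4, u5]
      push_cast
      ring

/-! ### assembly -/

/-- `p v` is the standard position -/
def Good (m : Mesh) (p : Vtx → ℂ) (v : Vtx) : Prop :=
  p v = pos m 1890 (Ap m p) (Bp m p) v

theorem Conf.good_plate (c : Conf m p) (h : PlateAt p 0 0) (hp0 : p (0, 0, 0) = 0) {i j l k : ℕ}
    (hi : i ≤ m.N) (hj : j ≤ m.M) (hl : l < 6) (hk : k < 2) : Good m p (i, j, 2 * l + k) := by
  have h1 := c.plates h hi hj l hl k hk
  rw [c.base h hp0 hi hj] at h1
  unfold Good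
  rw [h1, pos]
  have e1 : 2 * l + k < 12 := by omega
  have e2 : (2 * l + k) / 2 = l := by omega
  have e3 : (2 * l + k) % 2 = k := by omega
  simp only [e1, e2, e3, if_true, LockPl.plate]
  ring

theorem Conf.good_12 (c : Conf m p) (h : PlateAt p 0 0) (hp0 : p (0, 0, 0) = 0) {i j : ℕ}
    (hi : i ≤ m.N) (hj : j < m.M) : Good m p (i, j, 12) := by
  have hP := c.plates h hi hj.le
  unfold Good
  rw [c.stopH hi hj hP, hP.v5, c.base h hp0 hi hj.le, pos]
  simp [LockPl.plate, lineY]
  ring

theorem Conf.good_13 (c : Conf m p) (h : PlateAt p 0 0) (hp0 : p (0, 0, 0) = 0) {i j : ℕ}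
    (hi : i < m.N) (hj : j ≤ m.M) : Good m p (i, j, 13) := by
  have hP := c.plates h hi.le hj
  unfold Good
  rw [c.stopV hi hj hP, hP.v10, c.base h hp0 hi.le hj, pos]
  simp [LockPl.plate, lineY]

theorem Conf.good_low (c : Conf m p) (h : PlateAt p 0 0) (hp0 : p (0, 0, 0) = 0) {i j q : ℕ}
    (hi : i < m.N) (hj : j < m.M) (hq : q < 6) : Good m p (i, j, 14 + q) := by
  unfold Good
  rw [c.armLow h hi hj q hq, pos]
  have e1 : ¬ 14 + q < 12 := by omega
  have e2 : ¬ 14 + q = 12 := by omega
  have e3 : ¬ 14 + q = 13 := by omega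
  have e4 : 14 + q < 20 := by omega
  have e5 : 14 + q - 14 = q := by omega
  simp only [e1, e2, e3, e4, e5, if_true, if_false, armPos]
  congr 1
  rcases armV_cases (m.C i j) i j with ⟨s, -, a7, -, -⟩ | ⟨s, -, a7, -, -⟩
  · have hP := c.plates h hi.le hj.le
    rw [a7, s, hP.v11, c.base h hp0 hi.le hj.le]
    simp [LockPl.plate, lineY]
    ring
  · have hP := c.plates h hi.le (show j + 1 ≤ m.M from hj)
    rw [a7, s, hP.v10, c.base h hp0 hi.le (show j + 1 ≤ m.M from hj)]
    norm_num [LockPl.plate, lineY]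

theorem Conf.good_up (c : Conf m p) (h : PlateAt p 0 0) (hp0 : p (0, 0, 0) = 0) {i j q : ℕ}
    (hi : i < m.N) (hj : j < m.M) (hq : q < 6) : Good m p (i, j, 20 + q) := by
  unfold Good
  rw [c.armUp h hi hj q hq, pos]
  have e1 : ¬ 20 + q < 12 := by omega
  have e2 : ¬ 20 + q = 12 := by omega
  have e3 : ¬ 20 + q = 13 := by omega
  have e4 : ¬ 20 + q < 20 := by omega
  have e5 : 20 + q - 20 = q := by omega
  simp only [e1, e2, e3, e4, e5, if_false, armPos]
  congr 1
  rcases armV_cases (m.C i j) i j with ⟨s, -, -, -, a7⟩ | ⟨s, -, -, -, a7⟩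
  · rw [a7, s, c.base h hp0 (show i + 1 ≤ m.N from hi) (show j + 1 ≤ m.M from hj)]
    norm_num [LockPl.plate, lineY]
  · have hP := c.plates h (show i + 1 ≤ m.N from hi) hj.le
    rw [a7, s, hP.v1, c.base h hp0 (show i + 1 ≤ m.N from hi) hj.le]
    norm_num [LockPl.plate, lineY]

theorem Conf.good_arm (c : Conf m p) (h : PlateAt p 0 0) (hp0 : p (0, 0, 0) = 0) {i j q : ℕ}
    (hi : i < m.N) (hj : j < m.M) (up : Bool) (hq : q < 8) :
    Good m p (armV (m.C i j) i j up q) := by
  have hj1 : j + 1 ≤ m.M := hj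
  have hi1 : i + 1 ≤ m.N := hi
  by_cases hq6 : q < 6
  · cases up
    · rw [armV_false _ i j hq6]; exact c.good_low h hp0 hi hj hq6
    · rw [armV_true _ i j hq6]; exact c.good_up h hp0 hi hj hq6
  · have : q = 6 ∨ q = 7 := by omega
    rcases armV_cases (m.C i j) i j with ⟨-, a6, a7, a6', a7'⟩ | ⟨-, a6, a7, a6', a7'⟩ <;>
      rcases this with hq | hq <;> subst hq <;> cases up
    · rw [a6]; exact c.good_plate (l := 4) (k := 1) h hp0 hi.le hj.le (by norm_num) (by norm_num)
    · rw [a6']; exact c.good_plate (l := 1) (k := 0) h hp0 hi1 hj1 (by norm_num) (by norm_num)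
    · rw [a7]; exact c.good_plate (l := 5) (k := 1) h hp0 hi.le hj.le (by norm_num) (by norm_num)
    · rw [a7']; exact c.good_plate (l := 0) (k := 0) h hp0 hi1 hj1 (by norm_num) (by norm_num)
    · rw [a6]; exact c.good_plate (l := 4) (k := 0) h hp0 hi.le hj1 (by norm_num) (by norm_num)
    · rw [a6']; exact c.good_plate (l := 1) (k := 1) h hp0 hi1 hj.le (by norm_num) (by norm_num)
    · rw [a7]; exact c.good_plate (l := 5) (k := 0) h hp0 hi.le hj1 (by norm_num) (by norm_num)
    · rw [a7']; exact c.good_plate (l := 0) (k := 1) h hp0 hi1 hj.le (by norm_num) (by norm_num)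

theorem armBar_lt {a d q q' l : ℕ} (h : ArmBar a d q q' l) : q < 8 ∧ q' < 8 := by
  cases h <;> norm_num

theorem Conf.good_bar (c : Conf m p) (h : PlateAt p 0 0) (hp0 : p (0, 0, 0) = 0) {u v : Vtx}
    {d : ℕ} (hb : Bar m u v d) : Good m p u ∧ Good m p v := by
  cases hb with
  | plateH hi hj hl =>
    exact ⟨c.good_plate (k := 0) h hp0 hi hj hl (by norm_num),
      c.good_plate (k := 1) h hp0 hi hj hl (by norm_num)⟩
  | plateV hi hj hl hc =>
    exact ⟨c.good_plate h hp0 hi hj (by omega) hc, c.good_plate h hp0 hi hj (by omega) hc⟩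
  | plateD hi hj hl =>
    exact ⟨c.good_plate (k := 0) h hp0 hi hj (by omega) (by norm_num),
      c.good_plate (k := 1) h hp0 hi hj (by omega) (by norm_num)⟩
  | crankH hi hj hl =>
    exact ⟨c.good_plate (k := 1) h hp0 hi hj.le (by omega) (by norm_num),
      c.good_plate (k := 0) h hp0 hi hj (by omega) (by norm_num)⟩
  | stopH hi hj hl =>
    exact ⟨c.good_plate (k := 1) h hp0 hi hj.le (by omega) (by norm_num), c.good_12 h hp0 hi hj⟩
  | crankV hi hj hc =>
    refine ⟨c.good_plate (l := 5) h hp0 hi.le hj (by norm_num) hc, ?_⟩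
    have := c.good_plate (l := 0) h hp0 (show _ + 1 ≤ m.N from hi) hj (by norm_num) hc
    simpa using this
  | stopV hi hj hc =>
    exact ⟨c.good_plate (l := 5) h hp0 hi.le hj (by norm_num) hc, c.good_13 h hp0 hi hj⟩
  | arm hi hj up hqq =>
    exact ⟨c.good_arm h hp0 hi hj up (armBar_lt hqq).1,
      c.good_arm h hp0 hi hj up (armBar_lt hqq).2⟩

theorem Conf.good (c : Conf m p) (h : PlateAt p 0 0) (hp0 : p (0, 0, 0) = 0) {v : Vtx}
    (hv : IsVert m v) : Good m p v := by
  obtain ⟨w, d, hv | hv⟩ := hv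
  · exact (c.good_bar h hp0 hv).1
  · exact (c.good_bar h hp0 hv).2

/-- Composition with a similarity. -/
theorem Conf.comp (c : Conf m p) (f : ℂ → ℂ) (hd : ∀ x y, dist (f x) (f y) = dist x y)
    (hs : ∀ x y z, z ∈ segment ℝ (f x) (f y) → ∃ z', z = f z' ∧ z' ∈ segment ℝ x y)
    : Conf m (fun v => f (p v)) := by
  have inj : ∀ x y, f x = f y → x = y := by
    intro x y h
    rw [← dist_eq_zero, ← hd, h, dist_self]
  refine ⟨fun u v d h => by rw [hd]; exact c.len _ _ _ h, ?_⟩
  intro u v d x y e h1 h2 hne z hz hz'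
  obtain ⟨z1, hz1, hz1'⟩ := hs _ _ _ hz
  obtain ⟨z2, hz2, hz2'⟩ := hs _ _ _ hz'
  have : z1 = z2 := inj _ _ (hz1 ▸ hz2)
  subst this
  obtain ⟨w, w1, w2, w3⟩ := c.nc u v d x y e h1 h2 hne z1 hz1' hz2'
  exact ⟨w, w1, w2, by rw [hz1, w3]⟩

end Rig

open Complex Rig in
theorem rigid (m : Mesh) (p : Vtx → ℂ) (hlen : ∀ u v d, Bar m u v d → dist (p u) (p v) = d)
    (hnc : NC m p) :
    ∃ (z ω : ℂ) (x : (ℕ → ℝ) × (ℕ → ℝ)), ‖ω‖ = 1 ∧ x ∈ ParamSet m ∧
      ((∀ v, IsVert m v → p v = z + ω * pos m 1890 x.1 x.2 v) ∨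
       (∀ v, IsVert m v → p v = z + ω * (starRingEnd ℂ) (pos m 1890 x.1 x.2 v))) := by
  have c : Conf m p := ⟨hlen, hnc⟩
  obtain ⟨e, ε, hen, hε, hp⟩ := c.plate (Nat.zero_le _) (Nat.zero_le _)
  set z0 := p (0, 0, 0) with hz0
  have hee : (starRingEnd ℂ) e * e = 1 := by
    rw [mul_comm, Complex.mul_conj, Complex.normSq_eq_norm_sq, hen]
    norm_num
  have main : ∀ f : ℂ → ℂ, (∀ x y, dist (f x) (f y) = dist x y) →
      (∀ x y z, z ∈ segment ℝ (f x) (f y) → ∃ z', z = f z' ∧ z' ∈ segment ℝ x y) →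
      f z0 = 0 → (∀ l < 6, ∀ k < 2, f (p (0, 0, 2 * l + k)) = 480 * k + lineY l * I) →
      ∃ x : (ℕ → ℝ) × (ℕ → ℝ), x ∈ ParamSet m ∧
        ∀ v, IsVert m v → f (p v) = pos m 1890 x.1 x.2 v := by
    intro f h1 h2 h3 h4
    have c' := c.comp f h1 h2
    have hP : PlateAt (fun v => f (p v)) 0 0 := by
      intro l hl k hk
      simp only
      rw [h4 l hl k hk, ← hz0, h3, zero_add]
    exact ⟨(Ap m (fun v => f (p v)), Bp m (fun v => f (p v))), ⟨c'.box hP, c'.allowed hP⟩,
      fun v hv => c'.good hP h3 hv⟩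
  have hdist : ∀ x y : ℂ, dist ((starRingEnd ℂ) e * (x - z0)) ((starRingEnd ℂ) e * (y - z0)) =
      dist x y := by
    intro x y
    rw [dist_eq_norm, dist_eq_norm, ← mul_sub, norm_mul, RCLike.norm_conj, hen, one_mul]
    congr 1
    ring
  have hinv : ∀ x : ℂ, (starRingEnd ℂ) e * ((z0 + e * x) - z0) = x := by
    intro x
    linear_combination x * hee
  rcases hε with hε | hε
  · obtain ⟨x, hx, hv⟩ := main (fun x => (starRingEnd ℂ) e * (x - z0)) hdist (by
        rintro x y z ⟨a, b, ha, hb, hab, rfl⟩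
        refine ⟨a • x + b • y, ?_, ⟨a, b, ha, hb, hab, rfl⟩⟩
        have hab' : (b : ℂ) = 1 - a := by
          have : b = 1 - a := by linarith
          rw [this]; push_cast; ring
        simp only [real_smul]
        rw [hab']
        ring)
      (by simp) (by
        intro l hl k hk
        rw [hp l hl k hk, hε]
        push_cast
        linear_combination (480 * k + lineY l * I) * hee)
    refine ⟨z0, e, x, hen, hx, Or.inl fun v hv' => ?_⟩
    rw [← hv v hv']
    linear_combination -(p v - z0) * hee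
  · obtain ⟨x, hx, hv⟩ := main
      (fun x => (starRingEnd ℂ) ((starRingEnd ℂ) e * (x - z0)))
      (by
        intro x y
        rw [dist_eq_norm, ← map_sub, RCLike.norm_conj, ← dist_eq_norm]
        exact hdist x y)
      (by
        rintro x y z ⟨a, b, ha, hb, hab, rfl⟩
        refine ⟨a • x + b • y, ?_, ⟨a, b, ha, hb, hab, rfl⟩⟩
        have hab' : (b : ℂ) = 1 - a := by
          have : b = 1 - a := by linarith
          rw [this]; push_cast; ring
        simp only [real_smul, map_mul, map_sub, map_add, conj_ofReal]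
        rw [hab']
        ring)
      (by simp) (by
        intro l hl k hk
        rw [hp l hl k hk, hε]
        have : (starRingEnd ℂ) e * (z0 + e * (480 * (k : ℂ) + ((-1 : ℝ) : ℂ) * (lineY l : ℂ) * I)
            - z0) = 480 * k - lineY l * I := by
          push_cast
          linear_combination (480 * k - lineY l * I) * hee
        rw [this]
        have h480 : (starRingEnd ℂ) 480 = 480 := by
          have := Complex.conj_ofReal 480
          simpa using this
        simp [h480])
    refine ⟨z0, e, x, hen, hx, Or.inr fun v hv' => ?_⟩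
    rw [← hv v hv', Complex.conj_conj]
    linear_combination -(p v - z0) * hee

end LockPl
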