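import Pool.Agent.Lib.MP_14e06f_lc.Plane.Comb

set_option autoImplicit false

/-!
# The selector system of a relation
-/

namespace LockPl

/-! ### Lists -/

/-- `P i a` for all entries `a` of `L` at position `i` -/
def AllAt {α : Type} (L : List α) (P : ℕ → α → Prop) : Prop := ∀ i a, L[i]? = some a → P i a

theorem allAt_nil {α : Type} (P : ℕ → α → Prop) : AllAt [] P ↔ True := by
  simp [AllAt]

theorem allAt_cons {α : Type} (a : α) (L : List α) (P : ℕ → α → Prop) :
    AllAt (a :: L) P ↔ P 0 a ∧ AllAt L (fun i => P (i + 1)) := by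
  constructor
  · intro h
    exact ⟨h 0 a (by simp), fun i b hb => h (i + 1) b (by simpa using hb)⟩
  · rintro ⟨h1, h2⟩ i b hb
    cases i with
    | zero =>
      simp only [List.getElem?_cons_zero, Option.some.injEq] at hb
      rw [← hb]; exact h1
    | succ i => exact h2 i b (by simpa using hb)

theorem allAt_append {α : Type} (A B : List α) (P : ℕ → α → Prop) :
    AllAt (A ++ B) P ↔ AllAt A P ∧ AllAt B (fun i => P (A.length + i)) := by
  constructor
  · intro h
    refine ⟨fun i b hb => h i b ?_, fun i b hb => h (A.length + i) b ?_⟩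
    · have hi : i < A.length := by
        by_contra hn
        rw [List.getElem?_eq_none (by omega)] at hb
        exact absurd hb (by simp)
      rw [List.getElem?_append_left hi]; exact hb
    · rw [List.getElem?_append_right (by omega), Nat.add_sub_cancel_left]; exact hb
  · rintro ⟨h1, h2⟩ i b hb
    by_cases hi : i < A.length
    · rw [List.getElem?_append_left hi] at hb
      exact h1 i b hb
    · rw [List.getElem?_append_right (by omega)] at hb
      have := h2 (i - A.length) b hb
      have e : A.length + (i - A.length) = i := by omega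
      simpa only [e] using this

theorem allAt_flatMap2 {α : Type} (f g : ℕ → α) : ∀ (m : ℕ) (P : ℕ → α → Prop),
    AllAt ((List.range m).flatMap (fun i => [f i, g i])) P ↔
      ∀ i < m, P (2 * i) (f i) ∧ P (2 * i + 1) (g i) := by
  have hlen : ∀ m, ((List.range m).flatMap (fun i => [f i, g i])).length = 2 * m := by
    intro m
    induction m with
    | zero => rfl
    | succ m ih => rw [List.range_succ, List.flatMap_append, List.length_append, ih]; simp; ring
  intro m
  induction m with
  | zero => intro P; simp [AllAt]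
  | succ m ih =>
    intro P
    rw [List.range_succ, List.flatMap_append, allAt_append, ih, hlen]
    simp only [List.flatMap_cons, List.flatMap_nil, List.append_nil, allAt_cons, allAt_nil,
      and_true]
    constructor
    · rintro ⟨h1, h2, h3⟩ i hi
      by_cases him : i < m
      · exact h1 i him
      · have : i = m := by omega
        subst this
        exact ⟨h2, h3⟩
    · intro h
      exact ⟨fun i hi => h i (by omega), (h m (by omega)).1, (h m (by omega)).2⟩

theorem allAt_zipIdx_map {α β : Type} (L : List α) (F : α × ℕ → β) (P : ℕ → β → Prop) :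
    AllAt (L.zipIdx.map F) P ↔ ∀ i a, L[i]? = some a → P i (F (a, i)) := by
  constructor
  · intro h i a ha
    apply h i
    rw [List.getElem?_map, List.getElem?_zipIdx, ha]
    simp
  · intro h i b hb
    rw [List.getElem?_map, List.getElem?_zipIdx] at hb
    cases ha : L[i]? with
    | none => rw [ha] at hb; simp at hb
    | some a =>
      rw [ha] at hb
      simp only [Option.map_some, Nat.zero_add, Option.some.injEq] at hb
      rw [← hb]
      exact h i a ha

/-! ### Rows -/

/-- the constraints of a row -/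
def RowOK (r : List (ℕ × (ℕ × Bool))) (col : ℕ → Bool) (p : SignType) : Prop :=
  ∀ e ∈ r, p = posOf e.2.1 → col e.1 = e.2.2

theorem stOK_iff (c : MeshCode) (hnd : ∀ r ∈ c.2, (r.map Prod.fst).Nodup)
    (hlt : ∀ r ∈ c.2, ∀ e ∈ r, e.1 < c.1) (s : State) :
    StOK (meshOf c) s ↔ AllAt c.2 (fun i r => RowOK r s.1 (s.2 i)) := by
  have key : ∀ (i : ℕ) (r : List (ℕ × (ℕ × Bool))), c.2[i]? = some r → ∀ (e : ℕ × (ℕ × Bool)),
      e ∈ r ↔ c.con i e.1 = some e.2 := by
    intro i r hr e
    have hr' : c.2.getD i [] = r := by rw [List.getD_eq_getElem?_getD, hr]; rfl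
    have hmem : r ∈ c.2 := List.mem_of_getElem? hr
    have hn := hnd r hmem
    unfold MeshCode.con
    rw [hr']
    constructor
    · intro he
      have : ∀ (r : List (ℕ × (ℕ × Bool))), (r.map Prod.fst).Nodup → e ∈ r →
          ((r.filter (fun x => decide (x.1 = e.1))).map (fun x => x.2)).head? = some e.2 := by
        intro r
        induction r with
        | nil => intro _ h; simp at h
        | cons a r ih =>
          intro hn he
          rw [List.map_cons, List.nodup_cons] at hn
          rw [List.mem_cons] at he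
          rcases he with rfl | he
          · rw [List.filter_cons_of_pos (by simp)]
            simp
          · have hne : a.1 ≠ e.1 := by
              intro h
              apply hn.1
              rw [h]
              exact List.mem_map_of_mem he
            rw [List.filter_cons_of_neg (by simpa using hne)]
            exact ih hn.2 he
      exact this r hn he
    · intro h
      have h1 : e.2 ∈ (r.filter (fun x => decide (x.1 = e.1))).map (fun x => x.2) :=
        List.mem_of_mem_head? (by rw [h]; rfl)
      rw [List.mem_map] at h1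
      obtain ⟨x, hx, hx2⟩ := h1
      rw [List.mem_filter] at hx
      have hx1 : x.1 = e.1 := by simpa using hx.2
      have : x = e := Prod.ext hx1 hx2
      rw [← this]
      exact hx.1
  constructor
  · intro h i r hr e he hp
    have hi : i < c.2.length := (List.getElem?_eq_some_iff.mp hr).1
    have h1 := (key i r hr e).mp he
    refine h i hi e.1 (hlt r (List.mem_of_getElem? hr) e he) (posOf e.2.1) e.2.2 ?_ hp
    change (c.con i e.1).map _ = _
    rw [h1]
    rfl
  · intro h i hi j hj p v hC hp
    change (c.con i j).map _ = _ at hC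
    cases hcon : c.con i j with
    | none => rw [hcon] at hC; simp at hC
    | some e =>
      rw [hcon] at hC
      simp only [Option.map_some, Option.some.injEq, Prod.mk.injEq] at hC
      have hr : c.2[i]? = some (c.2[i]'hi) := List.getElem?_eq_getElem hi
      have he : (j, e) ∈ c.2[i]'hi := (key i _ hr (j, e)).mpr hcon
      have := h i _ hr (j, e) he (by rw [hp, ← hC.1])
      rw [← hC.2]
      exact this

/-! ### The semantic form of the constraints -/

/-- lock of the column `z` by the column `b` and two rows in positions `pA`, `pB` -/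
def LockP (zv bv : Bool) (U : Prop) (pA pB : SignType) : Prop :=
  (pA = -1 → zv = false) ∧ (pA = 1 → bv = true) ∧ (pA = 0 → U) ∧
  (pB = -1 → bv = false) ∧ (pB = 1 → zv = true) ∧ (pB = 0 → U)

/-- the rows of the cubes -/
def CubesP (F : List ((Bool × Bool) × List (ℕ × Bool))) (e : Bool) (col lk : ℕ → Bool)
    (rw : ℕ → SignType) : Prop :=
  ∀ g f, F[g]? = some f →
    (rw g = -1 → ∀ l ∈ f.2, col l.1 = l.2) ∧
    (rw g = 1 → if f.1.2 then e = false else lk g = true) ∧
    (rw g = 0 → if f.1.1 then e = false else lk (g - 1) = false)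

/-- the number of variables -/
abbrev nK (S : DSys) : ℕ := S.2.1

/-- the first link column -/
abbrev nZ (S : DSys) : ℕ := S.2.1 + 3 + 2 * S.1

/-- All constraints in semantic form. -/
structure Sem (S : DSys) (s : State) : Prop where
  hlock : LockP (s.1 (S.2.1 + 1)) (s.1 (S.2.1 + 2)) (s.1 S.2.1 = true) (s.2 0) (s.2 1)
  block : ∀ i < 2 * S.1, LockP (s.1 i) (s.1 (S.2.1 + 3 + i))
    (s.1 (S.2.1 + 1) = decide (i < S.1) ∧ s.1 S.2.1 = false) (s.2 (2 + 2 * i)) (s.2 (3 + 2 * i))
  cubes : CubesP S.cubes (s.1 S.2.1) s.1 (fun g => s.1 (S.2.1 + 3 + 2 * S.1 + g))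
    (fun g => s.2 (2 + 4 * S.1 + g))

theorem posOf_zero : posOf 0 = -1 := rfl
theorem posOf_one : posOf 1 = 0 := rfl
theorem posOf_two : posOf 2 = 1 := rfl

/-! ### Blocks of cubes -/

theorem flagged_get (c : List (List (ℕ × Bool))) (k : ℕ) (f : (Bool × Bool) × List (ℕ × Bool)) :
    (flagged c)[k]? = some f ↔
      ∃ hk : k < c.length, f = ((decide (k = 0), decide (k + 1 = c.length)), c[k]) := by
  unfold flagged
  rw [List.getElem?_map, List.getElem?_zipIdx]
  by_cases hk : k < c.length
  · rw [List.getElem?_eq_getElem hk]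
    simp only [Option.map_some, Nat.zero_add, Option.some.injEq]
    exact ⟨fun h => ⟨hk, h.symm⟩, fun ⟨_, h⟩ => h.symm⟩
  · rw [List.getElem?_eq_none (by omega)]
    simp only [Option.map_none, reduceCtorEq, false_iff]
    rintro ⟨h, -⟩
    exact hk h

theorem flagged_length (c : List (List (ℕ × Bool))) : (flagged c).length = c.length := by
  simp [flagged]

theorem flat_get (L : List (List (List (ℕ × Bool)))) : ∀ (g : ℕ)
    (f : (Bool × Bool) × List (ℕ × Bool)), (L.flatMap flagged)[g]? = some f →
    ∃ c ∈ L, ∃ o k, ∃ hk : k < c.length, g = o + k ∧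
      f = ((decide (k = 0), decide (k + 1 = c.length)), c[k]) := by
  induction L with
  | nil => intro g f h; simp at h
  | cons a L ih =>
    intro g f h
    rw [List.flatMap_cons] at h
    by_cases hg : g < (flagged a).length
    · rw [List.getElem?_append_left hg, flagged_get] at h
      obtain ⟨hk, hf⟩ := h
      exact ⟨a, List.mem_cons_self, 0, g, hk, by omega, hf⟩
    · rw [List.getElem?_append_right (by omega)] at h
      obtain ⟨c, hc, o, k, hk, hg', hf⟩ := ih _ f h
      exact ⟨c, List.mem_cons_of_mem _ hc, (flagged a).length + o, k, hk, by omega, hf⟩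

theorem flat_block (L : List (List (List (ℕ × Bool)))) {c : List (List (ℕ × Bool))} (hc : c ∈ L) :
    ∃ o, ∀ k (hk : k < c.length), (L.flatMap flagged)[o + k]? =
      some ((decide (k = 0), decide (k + 1 = c.length)), c[k]) := by
  induction L with
  | nil => simp at hc
  | cons a L ih =>
    rw [List.mem_cons] at hc
    rcases hc with rfl | hc
    · refine ⟨0, fun k hk => ?_⟩
      rw [List.flatMap_cons, Nat.zero_add,
        List.getElem?_append_left (by rw [flagged_length]; exact hk), flagged_get]
      exact ⟨hk, rfl⟩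
    · obtain ⟨o, ho⟩ := ih hc
      refine ⟨(flagged a).length + o, fun k hk => ?_⟩
      rw [List.flatMap_cons, List.getElem?_append_right (by omega)]
      have e : (flagged a).length + o + k - (flagged a).length = o + k := by omega
      rw [e]
      exact ho k hk

/-- If evaluation is on then every constraint has a satisfied cube. -/
theorem cubesP_holds {L : List (List (List (ℕ × Bool)))} {col lk : ℕ → Bool} {rw' : ℕ → SignType}
    (h : CubesP (L.flatMap flagged) true col lk rw') :
    ∀ c ∈ L, 2 ≤ c.length → ∃ q ∈ c, ∀ l ∈ q, col l.1 = l.2 := by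
  intro c hc hlen
  obtain ⟨o, ho⟩ := flat_block L hc
  by_contra hno
  push Not at hno
  have hneg : ∀ k (hk : k < c.length), rw' (o + k) ≠ -1 := by
    intro k hk hn
    obtain ⟨l, hl, hl2⟩ := hno (c[k]) (List.getElem_mem hk)
    exact hl2 ((h _ _ (ho k hk)).1 hn l hl)
  have hpos : ∀ k (_ : k < c.length), rw' (o + k) = 1 := by
    intro k
    induction k with
    | zero =>
      intro hk
      obtain ⟨-, -, h3⟩ := h _ _ (ho 0 hk)
      have hn := hneg 0 hk
      have hz : rw' (o + 0) ≠ 0 := by
        intro hz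
        have := h3 hz
        simp at this
      rcases (rw' (o + 0)).trichotomy with h' | h' | h'
      · exact absurd h' hn
      · exact absurd h' hz
      · exact h'
    | succ k ih =>
      intro hk
      have hk' : k < c.length := by omega
      obtain ⟨-, h2, -⟩ := h _ _ (ho k hk')
      have hlk := h2 (ih hk')
      dsimp only at hlk
      rw [if_neg (by simp; omega)] at hlk
      obtain ⟨-, -, h3⟩ := h _ _ (ho (k + 1) hk)
      have hn := hneg (k + 1) hk
      have hz : rw' (o + (k + 1)) ≠ 0 := by
        intro hz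
        have := h3 hz
        dsimp only at this
        rw [if_neg (by simp)] at this
        have e : o + (k + 1) - 1 = o + k := by omega
        rw [e, hlk] at this
        exact absurd this (by simp)
      rcases (rw' (o + (k + 1))).trichotomy with h' | h' | h'
      · exact absurd h' hn
      · exact absurd h' hz
      · exact h'
  obtain ⟨-, h2, -⟩ := h _ _ (ho (c.length - 1) (by omega))
  have := h2 (hpos _ (by omega))
  dsimp only at this
  rw [if_pos (by simp; omega)] at this
  exact absurd this (by simp)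

/-- Conversely one can choose positions and links. -/
theorem cubesP_exists {L : List (List (List (ℕ × Bool)))} {col : ℕ → Bool}
    (h : ∀ c ∈ L, ∃ q ∈ c, ∀ l ∈ q, col l.1 = l.2) :
    ∃ (lk : ℕ → Bool) (rw' : ℕ → SignType), CubesP (L.flatMap flagged) true col lk rw' := by
  induction L with
  | nil => exact ⟨fun _ => false, fun _ => 0, fun g f hg => by simp at hg⟩
  | cons a L ih =>
    obtain ⟨lk, rw', hP⟩ := ih (fun c hc => h c (List.mem_cons_of_mem _ hc))
    obtain ⟨q, hq, hql⟩ := h a List.mem_cons_self
    obtain ⟨k0, hk0, rfl⟩ := List.mem_iff_getElem.mp hq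
    refine ⟨fun g => if g < a.length then decide (g < k0) else lk (g - a.length),
      fun g => if g < a.length then (if g < k0 then 1 else if g = k0 then -1 else 0)
        else rw' (g - a.length), ?_⟩
    intro g f hg
    rw [List.flatMap_cons] at hg
    by_cases hga : g < a.length
    · rw [List.getElem?_append_left (by rw [flagged_length]; exact hga), flagged_get] at hg
      obtain ⟨hk, rfl⟩ := hg
      dsimp only
      rw [if_pos hga, if_pos hga]
      by_cases h1 : g < k0
      · rw [if_pos h1]
        refine ⟨fun h => absurd h (by decide), fun _ => ?_, fun h => absurd h (by decide)⟩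
        rw [if_neg (by simp; omega)]
        simpa using h1
      · rw [if_neg h1]
        by_cases h2 : g = k0
        · subst h2
          rw [if_pos rfl]
          exact ⟨fun _ => hql, fun h => absurd h (by decide), fun h => absurd h (by decide)⟩
        · rw [if_neg h2]
          refine ⟨fun h => absurd h (by decide), fun h => absurd h (by decide), fun _ => ?_⟩
          rw [if_neg (by simp; omega), if_pos (by omega)]
          simp; omega
    · rw [List.getElem?_append_right (by rw [flagged_length]; omega), flagged_length] at hg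
      obtain ⟨p1, p2, p3⟩ := hP _ _ hg
      dsimp only
      rw [if_neg hga, if_neg hga]
      refine ⟨p1, p2, ?_⟩
      intro hz
      have := p3 hz
      by_cases hf : f.1.1 = true
      · rw [if_pos hf] at this ⊢
        exact this
      · rw [if_neg hf] at this ⊢
        have hne : g - a.length ≠ 0 := by
          intro h0
          rw [h0] at hg
          obtain ⟨c, -, o, k, hk, hk', rfl⟩ := flat_get L _ _ hg
          apply hf
          simp
          omega
        rw [if_neg (by omega)]
        have e : g - 1 - a.length = g - a.length - 1 := by omega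
        rw [e]
        exact this

/-! ### Translation of the rows -/

theorem rowOK_cons3 (a b : ℕ) (va vb : Bool) (U : List (ℕ × Bool)) (col : ℕ → Bool)
    (p : SignType) : RowOK ((a, (0, va)) :: (b, (2, vb)) :: U.map (fun l => (l.1, (1, l.2)))) col p ↔
      (p = -1 → col a = va) ∧ (p = 1 → col b = vb) ∧ (p = 0 → ∀ l ∈ U, col l.1 = l.2) := by
  unfold RowOK
  simp only [List.forall_mem_cons, posOf_zero, posOf_two, List.forall_mem_map, posOf_one]
  constructor
  · rintro ⟨h1, h2, h3⟩
    exact ⟨h1, h2, fun hp l hl => h3 l hl hp⟩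
  · rintro ⟨h1, h2, h3⟩
    exact ⟨h1, h2, fun l hl hp => h3 hp l hl⟩

theorem rowOK_cubeRow (K Z : ℕ) (f : (Bool × Bool) × List (ℕ × Bool)) (g : ℕ) (col : ℕ → Bool)
    (p : SignType) : RowOK (cubeRow K Z (f, g)) col p ↔
      (p = -1 → ∀ l ∈ f.2, col l.1 = l.2) ∧
      (p = 1 → if f.1.2 then col K = false else col (Z + g) = true) ∧
      (p = 0 → if f.1.1 then col K = false else col (Z + (g - 1)) = false) := by
  unfold RowOK cubeRow
  simp only [List.forall_mem_cons, List.forall_mem_map, posOf_zero]
  constructor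
  · rintro ⟨h1, h2, h3⟩
    refine ⟨fun hp l hl => h3 l hl hp, fun hp => ?_, fun hp => ?_⟩
    · cases hf : f.1.2
      · rw [hf] at h1; simpa [posOf_two] using h1 hp
      · rw [hf] at h1; simpa [posOf_two] using h1 hp
    · cases hf : f.1.1
      · rw [hf] at h2; simpa [posOf_one] using h2 hp
      · rw [hf] at h2; simpa [posOf_one] using h2 hp
  · rintro ⟨h1, h2, h3⟩
    refine ⟨?_, ?_, fun l hl hp => h1 hp l hl⟩
    · cases hf : f.1.2
      · rw [hf] at h2; simpa [posOf_two] using h2
      · rw [hf] at h2; simpa [posOf_two] using h2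
    · cases hf : f.1.1
      · rw [hf] at h3; simpa [posOf_one] using h3
      · rw [hf] at h3; simpa [posOf_one] using h3

theorem flat2_length {α : Type} (f g : ℕ → α) (m : ℕ) :
    ((List.range m).flatMap (fun i => [f i, g i])).length = 2 * m := by
  induction m with
  | zero => rfl
  | succ m ih => rw [List.range_succ, List.flatMap_append, List.length_append, ih]; simp; ring

theorem wf_lockRows {M z b : ℕ} {U : List (ℕ × Bool)} (hz : z < M) (hb : b < M) (hzb : z ≠ b)
    (hU : (U.map Prod.fst).Nodup) (hU' : ∀ l ∈ U, l.1 < M ∧ l.1 ≠ z ∧ l.1 ≠ b) :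
    ∀ r ∈ lockRows z b U, (r.map Prod.fst).Nodup ∧ ∀ e ∈ r, e.1 < M := by
  have hmap : (U.map (fun l => ((l.1, (1, l.2)) : ℕ × (ℕ × Bool)))).map Prod.fst =
      U.map Prod.fst := by
    rw [List.map_map]; rfl
  have hz' : z ∉ U.map Prod.fst := by
    intro h
    obtain ⟨l, hl, rfl⟩ := List.mem_map.mp h
    exact (hU' l hl).2.1 rfl
  have hb' : b ∉ U.map Prod.fst := by
    intro h
    obtain ⟨l, hl, rfl⟩ := List.mem_map.mp h
    exact (hU' l hl).2.2 rfl
  intro r hr
  unfold lockRows at hr
  rw [List.mem_cons, List.mem_singleton] at hr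
  rcases hr with rfl | rfl
  · refine ⟨?_, ?_⟩
    · rw [List.map_cons, List.map_cons, hmap, List.nodup_cons, List.nodup_cons, List.mem_cons]
      exact ⟨by rintro (h | h); exacts [hzb h, hz' h], hb', hU⟩
    · intro e he
      rw [List.mem_cons, List.mem_cons, List.mem_map] at he
      rcases he with rfl | rfl | ⟨l, hl, rfl⟩
      · exact hz
      · exact hb
      · exact (hU' l hl).1
  · refine ⟨?_, ?_⟩
    · rw [List.map_cons, List.map_cons, hmap, List.nodup_cons, List.nodup_cons, List.mem_cons]
      exact ⟨by rintro (h | h); exacts [hzb h.symm, hb' h], hz', hU⟩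
    · intro e he
      rw [List.mem_cons, List.mem_cons, List.mem_map] at he
      rcases he with rfl | rfl | ⟨l, hl, rfl⟩
      · exact hb
      · exact hz
      · exact (hU' l hl).1

theorem selOf_rows (S : DSys) (hS : S.WF) :
    ∀ r ∈ (selOf S).2, (r.map Prod.fst).Nodup ∧ ∀ e ∈ r, e.1 < (selOf S).1 := by
  obtain ⟨h2m, hc⟩ := hS
  unfold selOf
  dsimp only
  intro r hr
  rw [List.mem_append, List.mem_append, List.mem_append, List.mem_flatMap, List.mem_flatMap,
    List.mem_map] at hr
  rcases hr with ((hr | ⟨i, hi, hr⟩) | ⟨i, hi, hr⟩) | ⟨⟨f, g⟩, hg, rfl⟩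
  · refine wf_lockRows (by omega) (by omega) (by omega) (by simp) ?_ r hr
    intro l hl
    rw [List.mem_singleton] at hl
    subst hl
    dsimp only
    omega
  · rw [List.mem_range] at hi
    refine wf_lockRows (by omega) (by omega) (by omega) (by simp) ?_ r hr
    intro l hl
    rw [List.mem_cons, List.mem_singleton] at hl
    rcases hl with rfl | rfl <;> dsimp only <;> omega
  · rw [List.mem_range] at hi
    refine wf_lockRows (by omega) (by omega) (by omega) (by simp) ?_ r hr
    intro l hl
    rw [List.mem_cons, List.mem_singleton] at hl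
    rcases hl with rfl | rfl <;> dsimp only <;> omega
  · rw [List.mk_mem_zipIdx_iff_getElem?] at hg
    have hgl : g < S.cubes.length := (List.getElem?_eq_some_iff.mp hg).1
    obtain ⟨c, hcm, o, k, hk, hgk, rfl⟩ := flat_get S.2.2 g f hg
    obtain ⟨hlen, hq⟩ := hc c hcm
    obtain ⟨hnd, hlt⟩ := hq c[k] (List.getElem_mem hk)
    unfold cubeRow
    dsimp only
    have hmap : (c[k].map (fun l => ((l.1, (0, l.2)) : ℕ × (ℕ × Bool)))).map Prod.fst =
        c[k].map Prod.fst := by
      rw [List.map_map]; rfl
    have hge : ∀ x, S.2.1 ≤ x → x ∉ c[k].map Prod.fst := by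
      intro x hx h
      obtain ⟨l, hl, rfl⟩ := List.mem_map.mp h
      have := hlt l hl
      omega
    refine ⟨?_, ?_⟩
    · rw [List.map_cons, List.map_cons, hmap, List.nodup_cons, List.nodup_cons, List.mem_cons]
      refine ⟨?_, ?_, hnd⟩
      · rintro (h | h)
        · by_cases h1 : k = 0
          · by_cases h2 : k + 1 = c.length
            · omega
            · rw [if_neg (by simpa using h2), if_pos (by simpa using h1)] at h
              dsimp only at h
              omega
          · by_cases h2 : k + 1 = c.length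
            · rw [if_pos (by simpa using h2), if_neg (by simpa using h1)] at h
              dsimp only at h
              omega
            · rw [if_neg (by simpa using h2), if_neg (by simpa using h1)] at h
              dsimp only at h
              omega
        · refine hge _ ?_ h
          split_ifs <;> dsimp only <;> omega
      · apply hge
        split_ifs <;> dsimp only <;> omega
    · intro e he
      rw [List.mem_cons, List.mem_cons, List.mem_map] at he
      rcases he with rfl | rfl | ⟨l, hl, rfl⟩
      · split_ifs <;> dsimp only <;> omega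
      · split_ifs <;> dsimp only <;> omega
      · have := hlt l hl
        dsimp only
        omega

theorem stOK_sem (S : DSys) (hS : S.WF) (s : State) :
    StOK (meshOf (selOf S)) s ↔ Sem S s := by
  rw [stOK_iff (selOf S) (fun r hr => (selOf_rows S hS r hr).1)
    (fun r hr => (selOf_rows S hS r hr).2) s]
  unfold selOf
  dsimp only
  unfold lockRows
  rw [allAt_append, allAt_append, allAt_append, allAt_flatMap2, allAt_flatMap2, allAt_zipIdx_map]
  simp only [List.length_append, flat2_length, List.length_cons, List.length_nil, allAt_cons,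
    allAt_nil, and_true, rowOK_cons3, rowOK_cubeRow, List.forall_mem_cons, List.not_mem_nil,
    false_implies, implies_true]
  constructor
  · rintro ⟨⟨⟨h1, h2⟩, h3⟩, h4⟩
    refine ⟨?_, ?_, ?_⟩
    · obtain ⟨⟨a1, a2, a3⟩, b1, b2, b3⟩ := h1
      exact ⟨a1, a2, a3, b1, b2, b3⟩
    · intro i hi
      by_cases him : i < S.1
      · obtain ⟨⟨a1, a2, a3⟩, b1, b2, b3⟩ := h2 i him
        have e1 : 0 + 1 + 1 + 2 * i = 2 + 2 * i := by omega
        have e2 : 0 + 1 + 1 + (2 * i + 1) = 3 + 2 * i := by omega
        rw [e1] at a1 a2 a3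
        rw [e2] at b1 b2 b3
        rw [decide_eq_true him]
        exact ⟨a1, a2, a3, b1, b2, b3⟩
      · obtain ⟨j, rfl⟩ : ∃ j, i = S.1 + j := ⟨i - S.1, by omega⟩
        obtain ⟨⟨a1, a2, a3⟩, b1, b2, b3⟩ := h3 j (by omega)
        have e1 : 0 + 1 + 1 + 2 * S.1 + 2 * j = 2 + 2 * (S.1 + j) := by omega
        have e2 : 0 + 1 + 1 + 2 * S.1 + (2 * j + 1) = 3 + 2 * (S.1 + j) := by omega
        rw [e1] at a1 a2 a3
        rw [e2] at b1 b2 b3
        rw [decide_eq_false him]
        exact ⟨a1, a2, a3, b1, b2, b3⟩
    · intro g f hf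
      have := h4 g f hf
      have e : 0 + 1 + 1 + 2 * S.1 + 2 * S.1 + g = 2 + 4 * S.1 + g := by omega
      rw [e] at this
      exact this
  · rintro ⟨h1, h2, h3⟩
    refine ⟨⟨⟨?_, ?_⟩, ?_⟩, ?_⟩
    · obtain ⟨a1, a2, a3, b1, b2, b3⟩ := h1
      exact ⟨⟨a1, a2, a3⟩, b1, b2, b3⟩
    · intro i hi
      obtain ⟨a1, a2, a3, b1, b2, b3⟩ := h2 i (by omega)
      have e1 : 0 + 1 + 1 + 2 * i = 2 + 2 * i := by omega
      have e2 : 0 + 1 + 1 + (2 * i + 1) = 3 + 2 * i := by omega
      rw [e1, e2]
      rw [decide_eq_true hi] at a3 b3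
      exact ⟨⟨a1, a2, a3⟩, b1, b2, b3⟩
    · intro i hi
      obtain ⟨a1, a2, a3, b1, b2, b3⟩ := h2 (S.1 + i) (by omega)
      have e1 : 0 + 1 + 1 + 2 * S.1 + 2 * i = 2 + 2 * (S.1 + i) := by omega
      have e2 : 0 + 1 + 1 + 2 * S.1 + (2 * i + 1) = 3 + 2 * (S.1 + i) := by omega
      rw [e1, e2]
      rw [decide_eq_false (by omega)] at a3 b3
      exact ⟨⟨a1, a2, a3⟩, b1, b2, b3⟩
    · intro g f hf
      have e : 0 + 1 + 1 + 2 * S.1 + 2 * S.1 + g = 2 + 4 * S.1 + g := by omega
      rw [e]
      exact h3 g f hf

/-! ### Evaluation and the relation -/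

theorem sem_E {S : DSys} (hS : S.WF) {s : State} (h : Sem S s) (he : s.1 S.2.1 = true) :
    S.E (fun i => s.1 i) (fun i => s.1 (S.1 + i)) := by
  refine ⟨s.1, fun _ => rfl, fun _ => rfl, ?_⟩
  intro c hc
  have h1 := h.cubes
  rw [he] at h1
  exact cubesP_holds h1 c hc (hS.2 c hc).1

/-- the locked position -/
def sgn (b : Bool) : SignType := if b then 1 else -1

theorem lockP_sgn (b : Bool) (U : Prop) : LockP b b U (sgn b) (sgn b) := by
  cases b <;> simp [LockP, sgn]

theorem lockP_zero {z b : Bool} {U : Prop} (hU : U) : LockP z b U 0 0 := by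
  simp [LockP, hU]

theorem LockP.mono {z b : Bool} {U U' : Prop} {pA pB : SignType} (h : LockP z b U pA pB)
    (hU : U → U') : LockP z b U' pA pB := by
  obtain ⟨a1, a2, a3, b1, b2, b3⟩ := h
  exact ⟨a1, a2, fun h => hU (a3 h), b1, b2, fun h => hU (b3 h)⟩

/-- A lock that is not unlocked. -/
theorem LockP.locked {z b : Bool} {U : Prop} {pA pB : SignType} (h : LockP z b U pA pB)
    (hU : ¬ U) : b = z ∧ pA = sgn z ∧ pB = sgn z := by
  obtain ⟨a1, a2, a3, b1, b2, b3⟩ := h
  have hA : pA ≠ 0 := fun h => hU (a3 h)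
  have hB : pB ≠ 0 := fun h => hU (b3 h)
  rcases pA.trichotomy with h | h | h
  · have hz := a1 h
    rcases pB.trichotomy with h' | h' | h'
    · have hb := b1 h'
      rw [hz, hb, h, h']
      exact ⟨rfl, rfl, rfl⟩
    · exact absurd h' hB
    · have := b2 h'
      rw [hz] at this
      exact absurd this (by simp)
  · exact absurd h hA
  · have hb := a2 h
    rcases pB.trichotomy with h' | h' | h'
    · have := b1 h'
      rw [hb] at this
      exact absurd this (by simp)
    · exact absurd h' hB
    · have hz := b2 h'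
      rw [hz, hb, h, h']
      exact ⟨rfl, rfl, rfl⟩

theorem exists_on {S : DSys} (hS : S.WF) {x y : Fin S.1 → Bool} (h : S.E x y) :
    ∃ s, Sem S s ∧ s.1 S.2.1 = true ∧ s.1 (S.2.1 + 1) = false ∧ (∀ i : Fin S.1, s.1 i = x i) ∧
      ∀ i : Fin S.1, s.1 (S.1 + i) = y i := by
  obtain ⟨g, hx, hy, hH⟩ := h
  obtain ⟨lk, rw', hP⟩ := cubesP_exists hH
  have h2m := hS.1
  have c1 : ∀ j < S.2.1, (if j < S.2.1 then g j else if j = S.2.1 then true
      else if j < S.2.1 + 3 then false
      else if j < S.2.1 + 3 + 2 * S.1 then g (j - (S.2.1 + 3))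
      else lk (j - (S.2.1 + 3 + 2 * S.1))) = g j := fun j hj => if_pos hj
  refine ⟨(fun j => if j < S.2.1 then g j else if j = S.2.1 then true
      else if j < S.2.1 + 3 then false
      else if j < S.2.1 + 3 + 2 * S.1 then g (j - (S.2.1 + 3))
      else lk (j - (S.2.1 + 3 + 2 * S.1)),
    fun i => if i < 2 then -1 else if i < 2 + 4 * S.1 then sgn (g ((i - 2) / 2))
      else rw' (i - (2 + 4 * S.1))), ⟨?_, ?_, ?_⟩, ?_, ?_, ?_, ?_⟩
  · dsimp only
    rw [if_neg (show ¬ S.2.1 + 1 < S.2.1 by omega), if_neg (show ¬ S.2.1 + 1 = S.2.1 by omega),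
      if_pos (show S.2.1 + 1 < S.2.1 + 3 by omega),
      if_neg (show ¬ S.2.1 + 2 < S.2.1 by omega), if_neg (show ¬ S.2.1 + 2 = S.2.1 by omega),
      if_pos (show S.2.1 + 2 < S.2.1 + 3 by omega), if_pos (show 0 < 2 by omega),
      if_pos (show 1 < 2 by omega)]
    exact lockP_sgn false _
  · intro i hi
    dsimp only
    rw [if_pos (show i < S.2.1 by omega), if_neg (show ¬ S.2.1 + 3 + i < S.2.1 by omega),
      if_neg (show ¬ S.2.1 + 3 + i = S.2.1 by omega),
      if_neg (show ¬ S.2.1 + 3 + i < S.2.1 + 3 by omega),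
      if_pos (show S.2.1 + 3 + i < S.2.1 + 3 + 2 * S.1 by omega),
      if_neg (show ¬ 2 + 2 * i < 2 by omega), if_pos (show 2 + 2 * i < 2 + 4 * S.1 by omega),
      if_neg (show ¬ 3 + 2 * i < 2 by omega), if_pos (show 3 + 2 * i < 2 + 4 * S.1 by omega)]
    have e1 : S.2.1 + 3 + i - (S.2.1 + 3) = i := by omega
    have e2 : (2 + 2 * i - 2) / 2 = i := by omega
    have e3 : (3 + 2 * i - 2) / 2 = i := by omega
    rw [e1, e2, e3]
    exact lockP_sgn _ _
  · intro f0 f hf
    obtain ⟨p1, p2, p3⟩ := hP f0 f hf
    obtain ⟨c, hc, o, k, hk, -, rfl⟩ := flat_get S.2.2 f0 f hf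
    dsimp only at p1 p2 p3 ⊢
    rw [if_neg (show ¬ 2 + 4 * S.1 + f0 < 2 by omega),
      if_neg (show ¬ 2 + 4 * S.1 + f0 < 2 + 4 * S.1 by omega),
      if_neg (show ¬ S.2.1 < S.2.1 by omega), if_pos (show S.2.1 = S.2.1 from rfl),
      Nat.add_sub_cancel_left]
    have hz : ∀ u, (if S.2.1 + 3 + 2 * S.1 + u < S.2.1 then g (S.2.1 + 3 + 2 * S.1 + u)
        else if S.2.1 + 3 + 2 * S.1 + u = S.2.1 then true
        else if S.2.1 + 3 + 2 * S.1 + u < S.2.1 + 3 then false
        else if S.2.1 + 3 + 2 * S.1 + u < S.2.1 + 3 + 2 * S.1 then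
          g (S.2.1 + 3 + 2 * S.1 + u - (S.2.1 + 3))
        else lk (S.2.1 + 3 + 2 * S.1 + u - (S.2.1 + 3 + 2 * S.1))) = lk u := by
      intro u
      rw [if_neg (by omega), if_neg (by omega), if_neg (by omega), if_neg (by omega),
        Nat.add_sub_cancel_left]
    rw [hz, hz]
    refine ⟨?_, p2, p3⟩
    intro hp l hl
    rw [if_pos (((hS.2 c hc).2 _ (List.getElem_mem hk)).2 l hl)]
    exact p1 hp l hl
  · dsimp only
    rw [if_neg (by omega), if_pos rfl]
  · dsimp only
    rw [if_neg (by omega), if_neg (by omega), if_pos (by omega)]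
  · intro i
    have := i.2
    dsimp only
    rw [if_pos (by omega)]
    exact hx i
  · intro i
    have := i.2
    dsimp only
    rw [if_pos (by omega)]
    exact hy i

/-! ### Moves -/

theorem conn_col {m : Mesh} {s t : State} (hs : StOK m s) (ht : StOK m t) (j0 : ℕ)
    (hc : ∀ j, j ≠ j0 → s.1 j = t.1 j) (hr : ∀ i, s.2 i = t.2 i) : StConn m s t :=
  Relation.EqvGen.rel _ _ ⟨hs, ht, Or.inl ⟨fun i _ => hr i, j0, fun j _ h => hc j h⟩⟩

theorem conn_row {m : Mesh} {s t : State} (hs : StOK m s) (ht : StOK m t) (i0 : ℕ)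
    (hc : ∀ j, s.1 j = t.1 j) (hr : ∀ i, i ≠ i0 → s.2 i = t.2 i)
    (h0 : s.2 i0 = 0 ∨ t.2 i0 = 0) : StConn m s t :=
  Relation.EqvGen.rel _ _ ⟨hs, ht, Or.inr ⟨fun j _ => hc j, i0, fun i _ h => hr i h, h0⟩⟩

/-- `s` with other values at `e`, `h`, the help column of `h` and the rows `0, 1` -/
def setH (S : DSys) (s : State) (e h hb : Bool) (p0 p1 : SignType) : State :=
  (fun j => if j = S.2.1 then e else if j = S.2.1 + 1 then h else if j = S.2.1 + 2 then hb
    else s.1 j, fun i => if i = 0 then p0 else if i = 1 then p1 else s.2 i)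

theorem sem_setH {S : DSys} (hS : S.WF) {s : State} (hs : Sem S s) (he : s.1 S.2.1 = true)
    {e h hb : Bool} {p0 p1 : SignType} (hL : LockP h hb (e = true) p0 p1) :
    Sem S (setH S s e h hb p0 p1) := by
  have h2m := hS.1
  refine ⟨?_, ?_, ?_⟩
  · unfold setH
    dsimp only
    rw [if_neg (by omega), if_pos rfl, if_neg (by omega), if_neg (by omega), if_pos rfl, if_pos rfl,
      if_pos rfl, if_neg (by omega), if_pos rfl]
    exact hL
  · intro i hi
    have := hs.block i hi
    unfold setH
    dsimp only
    rw [if_neg (show ¬ i = S.2.1 by omega), if_neg (show ¬ i = S.2.1 + 1 by omega),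
      if_neg (show ¬ i = S.2.1 + 2 by omega), if_neg (show ¬ S.2.1 + 3 + i = S.2.1 by omega),
      if_neg (show ¬ S.2.1 + 3 + i = S.2.1 + 1 by omega),
      if_neg (show ¬ S.2.1 + 3 + i = S.2.1 + 2 by omega),
      if_neg (show ¬ 2 + 2 * i = 0 by omega), if_neg (show ¬ 2 + 2 * i = 1 by omega),
      if_neg (show ¬ 3 + 2 * i = 0 by omega), if_neg (show ¬ 3 + 2 * i = 1 by omega)]
    apply this.mono
    rw [he]
    simp
  · intro g f hf
    obtain ⟨p1', p2', p3'⟩ := hs.cubes g f hf
    obtain ⟨c, hc, o, k, hk, -, rfl⟩ := flat_get S.2.2 g f hf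
    unfold setH
    dsimp only at p1' p2' p3' ⊢
    rw [he] at p2' p3'
    rw [if_neg (show ¬ 2 + 4 * S.1 + g = 0 by omega), if_neg (show ¬ 2 + 4 * S.1 + g = 1 by omega),
      if_pos (show S.2.1 = S.2.1 from rfl),
      if_neg (show ¬ S.2.1 + 3 + 2 * S.1 + g = S.2.1 by omega),
      if_neg (show ¬ S.2.1 + 3 + 2 * S.1 + g = S.2.1 + 1 by omega),
      if_neg (show ¬ S.2.1 + 3 + 2 * S.1 + g = S.2.1 + 2 by omega),
      if_neg (show ¬ S.2.1 + 3 + 2 * S.1 + (g - 1) = S.2.1 by omega),
      if_neg (show ¬ S.2.1 + 3 + 2 * S.1 + (g - 1) = S.2.1 + 1 by omega),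
      if_neg (show ¬ S.2.1 + 3 + 2 * S.1 + (g - 1) = S.2.1 + 2 by omega)]
    refine ⟨?_, ?_, ?_⟩
    · intro hp l hl
      have hlt := ((hS.2 c hc).2 _ (List.getElem_mem hk)).2 l hl
      rw [if_neg (by omega), if_neg (by omega), if_neg (by omega)]
      exact p1' hp l hl
    · intro hp
      have := p2' hp
      split_ifs at this ⊢ with h1
      exact this
    · intro hp
      have := p3' hp
      split_ifs at this ⊢ with h1
      exact this

/-- With evaluation on one can switch it off with any value of `h`. -/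
theorem conn_off {S : DSys} (hS : S.WF) {s : State} (hs : Sem S s) (he : s.1 S.2.1 = true)
    (h : Bool) : ∃ t, Sem S t ∧ StConn (meshOf (selOf S)) s t ∧ t.1 S.2.1 = false ∧
      t.1 (S.2.1 + 1) = h ∧ ∀ j < 2 * S.1, t.1 j = s.1 j := by
  have h2m := hS.1
  have ok : ∀ {e h hb p0 p1}, LockP h hb (e = true) p0 p1 →
      StOK (meshOf (selOf S)) (setH S s e h hb p0 p1) :=
    fun hL => (stOK_sem S hS _).mpr (sem_setH hS hs he hL)
  have hL := hs.hlock
  rw [he] at hL
  -- the moves
  have s0 : StConn (meshOf (selOf S)) s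
      (setH S s true (s.1 (S.2.1 + 1)) (s.1 (S.2.1 + 2)) (s.2 0) (s.2 1)) := by
    apply conn_col ((stOK_sem S hS _).mpr hs) (ok hL) 0
    · intro j _
      unfold setH
      dsimp only
      split_ifs with h1 h2 h3
      · rw [h1, he]
      · rw [h2]
      · rw [h3]
      · rfl
    · intro i
      unfold setH
      dsimp only
      split_ifs with h1 h2
      · rw [h1]
      · rw [h2]
      · rfl
  have hL1 : LockP (s.1 (S.2.1 + 1)) (s.1 (S.2.1 + 2)) (true = true) 0 (s.2 1) := by
    obtain ⟨-, -, -, b1, b2, b3⟩ := hL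
    exact ⟨fun h => absurd h (by decide), fun h => absurd h (by decide), fun _ => rfl, b1, b2, b3⟩
  have s1 := conn_row (ok hL) (ok hL1) 0 (fun j => rfl)
    (fun i hi => by unfold setH; dsimp only; rw [if_neg hi, if_neg hi]) (Or.inr rfl)
  have hL2 : ∀ z b : Bool, LockP z b (true = true) 0 0 := fun z b => lockP_zero rfl
  have s2 := conn_row (ok hL1) (ok (hL2 (s.1 (S.2.1 + 1)) (s.1 (S.2.1 + 2)))) 1 (fun j => rfl)
    (fun i hi => by
      unfold setH; dsimp only
      by_cases h0 : i = 0
      · rw [if_pos h0, if_pos h0]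
      · rw [if_neg h0, if_neg h0, if_neg hi, if_neg hi]) (Or.inr rfl)
  have s3 := conn_col (ok (hL2 (s.1 (S.2.1 + 1)) (s.1 (S.2.1 + 2))))
    (ok (hL2 h (s.1 (S.2.1 + 2)))) (S.2.1 + 1)
    (fun j hj => by unfold setH; dsimp only; rw [if_neg hj, if_neg hj]) (fun i => rfl)
  have s4 := conn_col (ok (hL2 h (s.1 (S.2.1 + 2)))) (ok (hL2 h h)) (S.2.1 + 2)
    (fun j hj => by
      unfold setH; dsimp only
      rw [if_neg hj, if_neg hj]) (fun i => rfl)
  have hL5 : LockP h h (true = true) (sgn h) 0 := by
    obtain ⟨a1, a2, a3, -⟩ := lockP_sgn h (true = true)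
    exact ⟨a1, a2, a3, fun h => absurd h (by decide), fun h => absurd h (by decide), fun _ => rfl⟩
  have s5 := conn_row (ok (hL2 h h)) (ok hL5) 0 (fun j => rfl)
    (fun i hi => by unfold setH; dsimp only; rw [if_neg hi, if_neg hi]) (Or.inl rfl)
  have s6 := conn_row (ok hL5) (ok (lockP_sgn h (true = true))) 1 (fun j => rfl)
    (fun i hi => by
      unfold setH; dsimp only
      by_cases h0 : i = 0
      · rw [if_pos h0, if_pos h0]
      · rw [if_neg h0, if_neg h0, if_neg hi, if_neg hi]) (Or.inl rfl)
  have s7 := conn_col (ok (lockP_sgn h (true = true))) (ok (e := false) (lockP_sgn h _)) S.2.1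
    (fun j hj => by unfold setH; dsimp only; rw [if_neg hj, if_neg hj]) (fun i => rfl)
  refine ⟨setH S s false h h (sgn h) (sgn h), sem_setH hS hs he (lockP_sgn h _), ?_, ?_, ?_, ?_⟩
  · exact s0.trans _ _ _ (s1.trans _ _ _ (s2.trans _ _ _ (s3.trans _ _ _ (s4.trans _ _ _
      (s5.trans _ _ _ (s6.trans _ _ _ s7))))))
  · exact if_pos rfl
  · unfold setH
    dsimp only
    rw [if_neg (by omega), if_pos rfl]
  · intro j hj
    unfold setH
    dsimp only
    rw [if_neg (by omega), if_neg (by omega), if_neg (by omega)]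

theorem iterate_conn {m : Mesh} {P : ℕ → State → Prop} {n : ℕ} {s : State} (h0 : P 0 s)
    (hstep : ∀ G < n, ∀ t, P G t → ∃ t', StConn m t t' ∧ P (G + 1) t') :
    ∃ t, StConn m s t ∧ P n t := by
  have : ∀ G ≤ n, ∃ t, StConn m s t ∧ P G t := by
    intro G
    induction G with
    | zero => intro _; exact ⟨s, Relation.EqvGen.refl _, h0⟩
    | succ G ih =>
      intro hG
      obtain ⟨t, ht, hP⟩ := ih (by omega)
      obtain ⟨t', ht', hP'⟩ := hstep G (by omega) t hP
      exact ⟨t', ht.trans _ _ _ ht', hP'⟩
  exact this n le_rfl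

/-- another position and link value of cube `G` -/
def setCube (S : DSys) (t : State) (G : ℕ) (p : SignType) (v : Bool) : State :=
  (fun j => if j = S.2.1 + 3 + 2 * S.1 + G then v else t.1 j,
    fun i => if i = 2 + 4 * S.1 + G then p else t.2 i)

theorem sem_setCube {S : DSys} (hS : S.WF) {t : State} (ht : Sem S t) (he : t.1 S.2.1 = false)
    {G : ℕ} (hG : G = 0 ∨ t.1 (S.2.1 + 3 + 2 * S.1 + (G - 1)) = false) {v : Bool}
    (hv : t.1 (S.2.1 + 3 + 2 * S.1 + G) = false → v = false) :
    Sem S (setCube S t G 0 v) := by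
  have h2m := hS.1
  refine ⟨?_, ?_, ?_⟩
  · have := ht.hlock
    unfold setCube
    dsimp only
    rw [if_neg (show ¬ S.2.1 + 1 = S.2.1 + 3 + 2 * S.1 + G by omega),
      if_neg (show ¬ S.2.1 + 2 = S.2.1 + 3 + 2 * S.1 + G by omega),
      if_neg (show ¬ S.2.1 = S.2.1 + 3 + 2 * S.1 + G by omega),
      if_neg (show ¬ 0 = 2 + 4 * S.1 + G by omega), if_neg (show ¬ 1 = 2 + 4 * S.1 + G by omega)]
    exact this
  · intro i hi
    have := ht.block i hi
    unfold setCube
    dsimp only
    rw [if_neg (show ¬ i = S.2.1 + 3 + 2 * S.1 + G by omega),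
      if_neg (show ¬ S.2.1 + 1 = S.2.1 + 3 + 2 * S.1 + G by omega),
      if_neg (show ¬ S.2.1 + 3 + i = S.2.1 + 3 + 2 * S.1 + G by omega),
      if_neg (show ¬ S.2.1 = S.2.1 + 3 + 2 * S.1 + G by omega),
      if_neg (show ¬ 2 + 2 * i = 2 + 4 * S.1 + G by omega),
      if_neg (show ¬ 3 + 2 * i = 2 + 4 * S.1 + G by omega)]
    exact this
  · intro g f hf
    obtain ⟨p1', p2', p3'⟩ := ht.cubes g f hf
    obtain ⟨c, hc, o, k, hk, hgk, rfl⟩ := flat_get S.2.2 g f hf
    unfold setCube
    dsimp only at p1' p2' p3' ⊢
    rw [if_neg (show ¬ S.2.1 = S.2.1 + 3 + 2 * S.1 + G by omega)]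
    by_cases hgG : g = G
    · subst hgG
      rw [if_pos (show 2 + 4 * S.1 + g = 2 + 4 * S.1 + g from rfl)]
      refine ⟨fun h => absurd h (by decide), fun h => absurd h (by decide), fun _ => ?_⟩
      by_cases h1 : k = 0
      · rw [if_pos (by simpa using h1)]
        exact he
      · rw [if_neg (by simpa using h1),
          if_neg (show ¬ S.2.1 + 3 + 2 * S.1 + (g - 1) = S.2.1 + 3 + 2 * S.1 + g by omega)]
        rcases hG with hG | hG
        · omega
        · exact hG
    · rw [if_neg (show ¬ 2 + 4 * S.1 + g = 2 + 4 * S.1 + G by omega),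
        if_neg (show ¬ S.2.1 + 3 + 2 * S.1 + g = S.2.1 + 3 + 2 * S.1 + G by omega)]
      refine ⟨?_, p2', ?_⟩
      · intro hp l hl
        have hlt := ((hS.2 c hc).2 _ (List.getElem_mem hk)).2 l hl
        rw [if_neg (show ¬ l.1 = S.2.1 + 3 + 2 * S.1 + G by omega)]
        exact p1' hp l hl
      · intro hp
        have := p3' hp
        by_cases h1 : k = 0
        · rw [if_pos (by simpa using h1)]
          exact he
        · rw [if_neg (by simpa using h1)] at this ⊢
          by_cases h2 : g - 1 = G
          · subst h2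
            rw [if_pos (show S.2.1 + 3 + 2 * S.1 + (g - 1) = S.2.1 + 3 + 2 * S.1 + (g - 1) from rfl)]
            exact hv this
          · rw [if_neg (show ¬ S.2.1 + 3 + 2 * S.1 + (g - 1) = S.2.1 + 3 + 2 * S.1 + G by omega)]
            exact this

/-- Evaluation off, all cube rows in position `zero`, all links off. -/
structure FlatS (S : DSys) (t : State) : Prop where
  e : t.1 S.2.1 = false
  rows : ∀ g < S.cubes.length, t.2 (2 + 4 * S.1 + g) = 0
  links : ∀ g < S.cubes.length, t.1 (S.2.1 + 3 + 2 * S.1 + g) = false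

/-- Phase 1. -/
theorem to_flat {S : DSys} (hS : S.WF) {s : State} (hs : Sem S s) (he : s.1 S.2.1 = false) :
    ∃ t, StConn (meshOf (selOf S)) s t ∧ Sem S t ∧ FlatS S t ∧
      (∀ j < S.2.1 + 3 + 2 * S.1, t.1 j = s.1 j) ∧ ∀ i < 2 + 4 * S.1, t.2 i = s.2 i := by
  obtain ⟨t, h1, h2, h3, h4, h5, h6⟩ := iterate_conn (m := meshOf (selOf S))
    (n := S.cubes.length) (s := s)
    (P := fun G t => Sem S t ∧ t.1 S.2.1 = false ∧
      (∀ j < S.2.1 + 3 + 2 * S.1, t.1 j = s.1 j) ∧ (∀ i < 2 + 4 * S.1, t.2 i = s.2 i) ∧
      ∀ g < G, t.2 (2 + 4 * S.1 + g) = 0 ∧ t.1 (S.2.1 + 3 + 2 * S.1 + g) = false)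
    ⟨hs, he, fun _ _ => rfl, fun _ _ => rfl, fun g hg => absurd hg (by omega)⟩ (by
      rintro G hG t ⟨a1, a2, a3, a4, a5⟩
      have hG' : G = 0 ∨ t.1 (S.2.1 + 3 + 2 * S.1 + (G - 1)) = false := by
        by_cases h0 : G = 0
        · exact Or.inl h0
        · exact Or.inr (a5 (G - 1) (by omega)).2
      have m1 : Sem S (setCube S t G 0 (t.1 (S.2.1 + 3 + 2 * S.1 + G))) :=
        sem_setCube hS a1 a2 hG' (fun h => h)
      have m2 : Sem S (setCube S t G 0 false) := sem_setCube hS a1 a2 hG' (fun _ => rfl)
      refine ⟨setCube S t G 0 false, ?_, m2, ?_, ?_, ?_, ?_⟩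
      · have c1 : StConn (meshOf (selOf S)) t
            (setCube S t G 0 (t.1 (S.2.1 + 3 + 2 * S.1 + G))) := by
          apply conn_row ((stOK_sem S hS _).mpr a1) ((stOK_sem S hS _).mpr m1) (2 + 4 * S.1 + G)
          · intro j
            unfold setCube
            dsimp only
            split_ifs with h
            · rw [h]
            · rfl
          · intro i hi
            exact (if_neg hi).symm
          · exact Or.inr (if_pos rfl)
        have c2 : StConn (meshOf (selOf S)) (setCube S t G 0 (t.1 (S.2.1 + 3 + 2 * S.1 + G)))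
            (setCube S t G 0 false) := by
          apply conn_col ((stOK_sem S hS _).mpr m1) ((stOK_sem S hS _).mpr m2)
            (S.2.1 + 3 + 2 * S.1 + G)
          · intro j hj
            unfold setCube
            dsimp only
            rw [if_neg hj, if_neg hj]
          · exact fun i => rfl
        exact c1.trans _ _ _ c2
      · unfold setCube
        dsimp only
        rw [if_neg (by omega)]
        exact a2
      · intro j hj
        unfold setCube
        dsimp only
        rw [if_neg (by omega)]
        exact a3 j hj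
      · intro i hi
        unfold setCube
        dsimp only
        rw [if_neg (by omega)]
        exact a4 i hi
      · intro g hg
        unfold setCube
        dsimp only
        by_cases h : g = G
        · rw [if_pos (by omega), if_pos (by omega)]
          exact ⟨rfl, rfl⟩
        · rw [if_neg (by omega), if_neg (by omega)]
          exact a5 g (by omega))
  exact ⟨t, h1, h2, ⟨h3, fun g hg => (h6 g hg).1, fun g hg => (h6 g hg).2⟩, h4, h5⟩

theorem sem_of_flat {S : DSys} {t : State} (hf : FlatS S t)
    (h1 : LockP (t.1 (S.2.1 + 1)) (t.1 (S.2.1 + 2)) (t.1 S.2.1 = true) (t.2 0) (t.2 1))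
    (h2 : ∀ i < 2 * S.1, LockP (t.1 i) (t.1 (S.2.1 + 3 + i))
    (t.1 (S.2.1 + 1) = decide (i < S.1) ∧ t.1 S.2.1 = false) (t.2 (2 + 2 * i)) (t.2 (3 + 2 * i))) :
    Sem S t := by
  refine ⟨h1, h2, ?_⟩
  intro g f hg
  have hgl : g < S.cubes.length := (List.getElem?_eq_some_iff.mp hg).1
  dsimp only
  rw [hf.rows g hgl]
  refine ⟨fun h => absurd h (by decide), fun h => absurd h (by decide), fun _ => ?_⟩
  split_ifs
  · exact hf.e
  · exact hf.links (g - 1) (by omega)

/-- Phase 2. -/
theorem clear_aux {S : DSys} (hS : S.WF) {s : State} (hs : Sem S s) (hf : FlatS S s) :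
    ∃ t, StConn (meshOf (selOf S)) s t ∧ Sem S t ∧ FlatS S t ∧
      (∀ j, 2 * S.1 ≤ j → j < S.2.1 → t.1 j = false) ∧ (∀ j, j < 2 * S.1 ∨ S.2.1 ≤ j →
      t.1 j = s.1 j) ∧ ∀ i, t.2 i = s.2 i := by
  have h2m := hS.1
  obtain ⟨t, h1, h2, h3, h4, h5, h6⟩ := iterate_conn (m := meshOf (selOf S))
    (n := S.2.1 - 2 * S.1) (s := s)
    (P := fun G t => Sem S t ∧ FlatS S t ∧ (∀ j, 2 * S.1 ≤ j → j < 2 * S.1 + G → t.1 j = false) ∧
      (∀ j, j < 2 * S.1 ∨ S.2.1 ≤ j → t.1 j = s.1 j) ∧ ∀ i, t.2 i = s.2 i)
    ⟨hs, hf, fun j h1 h2 => absurd h1 (by omega), fun _ _ => rfl, fun _ => rfl⟩ (by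
      rintro G hG t ⟨a1, a2, a3, a4, a5⟩
      have hf' : FlatS S (fun j => if j = 2 * S.1 + G then false else t.1 j, t.2) := by
        refine ⟨?_, a2.rows, ?_⟩
        · dsimp only
          rw [if_neg (by omega)]
          exact a2.e
        · intro g hg
          dsimp only
          rw [if_neg (by omega)]
          exact a2.links g hg
      have m1 : Sem S (fun j => if j = 2 * S.1 + G then false else t.1 j, t.2) := by
        apply sem_of_flat hf'
        · dsimp only
          rw [if_neg (show ¬ S.2.1 + 1 = 2 * S.1 + G by omega),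
            if_neg (show ¬ S.2.1 + 2 = 2 * S.1 + G by omega),
            if_neg (show ¬ S.2.1 = 2 * S.1 + G by omega)]
          exact a1.hlock
        · intro i hi
          dsimp only
          rw [if_neg (show ¬ i = 2 * S.1 + G by omega),
            if_neg (show ¬ S.2.1 + 1 = 2 * S.1 + G by omega),
            if_neg (show ¬ S.2.1 + 3 + i = 2 * S.1 + G by omega),
            if_neg (show ¬ S.2.1 = 2 * S.1 + G by omega)]
          exact a1.block i hi
      refine ⟨(fun j => if j = 2 * S.1 + G then false else t.1 j, t.2), ?_, m1, hf', ?_, ?_, a5⟩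
      · apply conn_col ((stOK_sem S hS _).mpr a1) ((stOK_sem S hS _).mpr m1) (2 * S.1 + G)
        · exact fun j hj => (if_neg hj).symm
        · exact fun i => rfl
      · intro j h1 h2
        dsimp only
        split_ifs with h
        · rfl
        · exact a3 j h1 (by omega)
      · intro j hj
        dsimp only
        rw [if_neg (by omega)]
        exact a4 j hj)
  exact ⟨t, h1, h2, h3, fun j h h' => h4 j h (by omega), h5, h6⟩

/-- other values for the lock of the bit `i` -/
def setBit (S : DSys) (t : State) (i : ℕ) (z b : Bool) (pA pB : SignType) : State :=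
  (fun j => if j = i then z else if j = S.2.1 + 3 + i then b else t.1 j,
    fun k => if k = 2 + 2 * i then pA else if k = 3 + 2 * i then pB else t.2 k)

theorem flat_setBit {S : DSys} (hS : S.WF) {t : State} (hf : FlatS S t) {i : ℕ}
    (hi : i < 2 * S.1) {z b : Bool} {pA pB : SignType} : FlatS S (setBit S t i z b pA pB) := by
  have h2m := hS.1
  refine ⟨?_, ?_, ?_⟩
  · unfold setBit
    dsimp only
    rw [if_neg (by omega), if_neg (by omega)]
    exact hf.e
  · intro g hg
    unfold setBit
    dsimp only
    rw [if_neg (by omega), if_neg (by omega)]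
    exact hf.rows g hg
  · intro g hg
    unfold setBit
    dsimp only
    rw [if_neg (by omega), if_neg (by omega)]
    exact hf.links g hg

theorem sem_setBit {S : DSys} (hS : S.WF) {t : State} (ht : Sem S t) (hf : FlatS S t) {i : ℕ}
    (hi : i < 2 * S.1) {z b : Bool} {pA pB : SignType}
    (hL : LockP z b (t.1 (S.2.1 + 1) = decide (i < S.1) ∧ t.1 S.2.1 = false) pA pB) :
    Sem S (setBit S t i z b pA pB) := by
  have h2m := hS.1
  apply sem_of_flat (flat_setBit hS hf hi)
  · unfold setBit
    dsimp only
    rw [if_neg (show ¬ S.2.1 + 1 = i by omega), if_neg (show ¬ S.2.1 + 1 = S.2.1 + 3 + i by omega),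
      if_neg (show ¬ S.2.1 + 2 = i by omega), if_neg (show ¬ S.2.1 + 2 = S.2.1 + 3 + i by omega),
      if_neg (show ¬ S.2.1 = i by omega), if_neg (show ¬ S.2.1 = S.2.1 + 3 + i by omega),
      if_neg (show ¬ 0 = 2 + 2 * i by omega), if_neg (show ¬ 0 = 3 + 2 * i by omega),
      if_neg (show ¬ 1 = 2 + 2 * i by omega), if_neg (show ¬ 1 = 3 + 2 * i by omega)]
    exact ht.hlock
  · intro k hk
    have := ht.block k hk
    unfold setBit
    dsimp only
    rw [if_neg (show ¬ S.2.1 + 1 = i by omega), if_neg (show ¬ S.2.1 + 1 = S.2.1 + 3 + i by omega),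
      if_neg (show ¬ S.2.1 = i by omega), if_neg (show ¬ S.2.1 = S.2.1 + 3 + i by omega)]
    by_cases hki : k = i
    · subst hki
      rw [if_pos (show k = k from rfl), if_neg (show ¬ S.2.1 + 3 + k = k by omega),
        if_pos (show S.2.1 + 3 + k = S.2.1 + 3 + k from rfl),
        if_pos (show 2 + 2 * k = 2 + 2 * k from rfl), if_neg (show ¬ 3 + 2 * k = 2 + 2 * k by omega),
        if_pos (show 3 + 2 * k = 3 + 2 * k from rfl)]
      exact hL
    · rw [if_neg (show ¬ k = i from hki), if_neg (show ¬ k = S.2.1 + 3 + i by omega),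
        if_neg (show ¬ S.2.1 + 3 + k = i by omega),
        if_neg (show ¬ S.2.1 + 3 + k = S.2.1 + 3 + i by omega),
        if_neg (show ¬ 2 + 2 * k = 2 + 2 * i by omega), if_neg (show ¬ 2 + 2 * k = 3 + 2 * i by omega),
        if_neg (show ¬ 3 + 2 * k = 2 + 2 * i by omega), if_neg (show ¬ 3 + 2 * k = 3 + 2 * i by omega)]
      exact this

/-- Phase 3. -/
theorem clear_bits {S : DSys} (hS : S.WF) {s : State} (hs : Sem S s) (hf : FlatS S s) :
    ∃ t, StConn (meshOf (selOf S)) s t ∧ Sem S t ∧ FlatS S t ∧
      (∀ j, 2 * S.1 ≤ j → j < S.2.1 + 3 → t.1 j = s.1 j) ∧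
      (∀ i < 2 * S.1, s.1 (S.2.1 + 1) = decide (i < S.1) → t.1 i = false ∧
        t.1 (S.2.1 + 3 + i) = false ∧ t.2 (2 + 2 * i) = 0 ∧ t.2 (3 + 2 * i) = 0) ∧
      (∀ i < 2 * S.1, s.1 (S.2.1 + 1) ≠ decide (i < S.1) → t.1 i = s.1 i) := by
  have h2m := hS.1
  obtain ⟨t, h1, h2, h3, h4, h5, h6⟩ := iterate_conn (m := meshOf (selOf S))
    (n := 2 * S.1) (s := s)
    (P := fun G t => Sem S t ∧ FlatS S t ∧ (∀ j, 2 * S.1 ≤ j → j < S.2.1 + 3 → t.1 j = s.1 j) ∧
      (∀ i < G, s.1 (S.2.1 + 1) = decide (i < S.1) → t.1 i = false ∧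
        t.1 (S.2.1 + 3 + i) = false ∧ t.2 (2 + 2 * i) = 0 ∧ t.2 (3 + 2 * i) = 0) ∧
      (∀ i < 2 * S.1, (G ≤ i ∨ s.1 (S.2.1 + 1) ≠ decide (i < S.1)) → t.1 i = s.1 i))
    ⟨hs, hf, fun j _ _ => rfl, fun i hi => absurd hi (by omega), fun _ _ _ => rfl⟩ (by
      rintro G hG t ⟨a1, a2, a3, a4, a5⟩
      by_cases hU : s.1 (S.2.1 + 1) = decide (G < S.1)
      · have hU' : t.1 (S.2.1 + 1) = decide (G < S.1) ∧ t.1 S.2.1 = false :=
          ⟨by rw [a3 _ (by omega) (by omega)]; exact hU, a2.e⟩
        have hb := a1.block G hG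
        -- the intermediate states
        have hL0 : LockP (t.1 G) (t.1 (S.2.1 + 3 + G))
            (t.1 (S.2.1 + 1) = decide (G < S.1) ∧ t.1 S.2.1 = false) 0 (t.2 (3 + 2 * G)) := by
          obtain ⟨-, -, -, b1, b2, b3⟩ := hb
          exact ⟨fun h => absurd h (by decide), fun h => absurd h (by decide), fun _ => hU',
            b1, b2, b3⟩
        have ok : ∀ {z b pA pB}, LockP z b (t.1 (S.2.1 + 1) = decide (G < S.1) ∧
            t.1 S.2.1 = false) pA pB → StOK (meshOf (selOf S)) (setBit S t G z b pA pB) :=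
          fun hL => (stOK_sem S hS _).mpr (sem_setBit hS a1 a2 hG hL)
        have hLz : ∀ z b : Bool, LockP z b (t.1 (S.2.1 + 1) = decide (G < S.1) ∧
            t.1 S.2.1 = false) 0 0 := fun z b => lockP_zero hU'
        have c0 : StConn (meshOf (selOf S)) t
            (setBit S t G (t.1 G) (t.1 (S.2.1 + 3 + G)) 0 (t.2 (3 + 2 * G))) := by
          apply conn_row ((stOK_sem S hS _).mpr a1) (ok hL0) (2 + 2 * G)
          · intro j
            unfold setBit
            dsimp only
            split_ifs with h1 h2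
            · rw [h1]
            · rw [h2]
            · rfl
          · intro k hk
            unfold setBit
            dsimp only
            rw [if_neg hk]
            split_ifs with h2
            · rw [h2]
            · rfl
          · exact Or.inr (if_pos rfl)
        have c1 : StConn (meshOf (selOf S))
            (setBit S t G (t.1 G) (t.1 (S.2.1 + 3 + G)) 0 (t.2 (3 + 2 * G)))
            (setBit S t G (t.1 G) (t.1 (S.2.1 + 3 + G)) 0 0) := by
          apply conn_row (ok hL0) (ok (hLz _ _)) (3 + 2 * G) (fun j => rfl)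
          · intro k hk
            unfold setBit
            dsimp only
            rw [if_neg hk, if_neg hk]
          · right
            unfold setBit
            dsimp only
            rw [if_neg (by omega), if_pos rfl]
        have c2 : StConn (meshOf (selOf S))
            (setBit S t G (t.1 G) (t.1 (S.2.1 + 3 + G)) 0 0)
            (setBit S t G false (t.1 (S.2.1 + 3 + G)) 0 0) := by
          apply conn_col (ok (hLz _ _)) (ok (hLz _ _)) G
          · intro j hj
            unfold setBit
            dsimp only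
            rw [if_neg hj, if_neg hj]
          · exact fun k => rfl
        have c3 : StConn (meshOf (selOf S))
            (setBit S t G false (t.1 (S.2.1 + 3 + G)) 0 0)
            (setBit S t G false false 0 0) := by
          apply conn_col (ok (hLz _ _)) (ok (hLz _ _)) (S.2.1 + 3 + G)
          · intro j hj
            unfold setBit
            dsimp only
            rw [if_neg hj, if_neg hj]
          · exact fun k => rfl
        refine ⟨setBit S t G false false 0 0, c0.trans _ _ _ (c1.trans _ _ _ (c2.trans _ _ _ c3)),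
          sem_setBit hS a1 a2 hG (hLz _ _), flat_setBit hS a2 hG, ?_, ?_, ?_⟩
        · intro j hj hj'
          unfold setBit
          dsimp only
          rw [if_neg (by omega), if_neg (by omega)]
          exact a3 j hj hj'
        · intro i hi hUi
          unfold setBit
          dsimp only
          by_cases h : i = G
          · subst h
            rw [if_pos (show i = i from rfl), if_neg (show ¬ S.2.1 + 3 + i = i by omega),
              if_pos (show S.2.1 + 3 + i = S.2.1 + 3 + i from rfl),
              if_pos (show 2 + 2 * i = 2 + 2 * i from rfl),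
              if_neg (show ¬ 3 + 2 * i = 2 + 2 * i by omega),
              if_pos (show 3 + 2 * i = 3 + 2 * i from rfl)]
            exact ⟨rfl, rfl, rfl, rfl⟩
          · rw [if_neg (show ¬ i = G from h), if_neg (show ¬ i = S.2.1 + 3 + G by omega),
              if_neg (show ¬ S.2.1 + 3 + i = G by omega),
              if_neg (show ¬ S.2.1 + 3 + i = S.2.1 + 3 + G by omega),
              if_neg (show ¬ 2 + 2 * i = 2 + 2 * G by omega),
              if_neg (show ¬ 2 + 2 * i = 3 + 2 * G by omega),
              if_neg (show ¬ 3 + 2 * i = 2 + 2 * G by omega),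
              if_neg (show ¬ 3 + 2 * i = 3 + 2 * G by omega)]
            exact a4 i (by omega) hUi
        · intro i hi hor
          have hiG : i ≠ G := by
            rintro rfl
            rcases hor with h | h
            · omega
            · exact h hU
          unfold setBit
          dsimp only
          rw [if_neg hiG, if_neg (by omega)]
          exact a5 i hi (hor.imp_left (fun h => by omega))
      · refine ⟨t, Relation.EqvGen.refl _, a1, a2, a3, ?_, ?_⟩
        · intro i hi hUi
          by_cases h : i = G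
          · subst h
            exact absurd hUi hU
          · exact a4 i (by omega) hUi
        · intro i hi hor
          apply a5 i hi
          by_cases h : i = G
          · subst h
            exact Or.inr hU
          · exact hor.imp_left (fun h => by omega))
  exact ⟨t, h1, h2, h3, h4, fun i hi => h5 i hi, fun i hi hU => h6 i hi (Or.inr hU)⟩

/-! ### Canonical states -/

/-- the value of the bit `j < 2m` in the canonical state of `(h, x)` -/
def cbit (m : ℕ) (h : Bool) (x : ℕ → Bool) (j : ℕ) : Bool :=
  if h = decide (j < m) then false else if j < m then x j else x (j - m)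

/-- The canonical state of `(h, x)`. -/
def canS (S : DSys) (h : Bool) (x : ℕ → Bool) : State :=
  (fun j => if j < 2 * S.1 then cbit S.1 h x j else if j ≤ S.2.1 then false
    else if j < S.2.1 + 3 then h
    else if j < S.2.1 + 3 + 2 * S.1 then cbit S.1 h x (j - (S.2.1 + 3)) else false,
   fun i => if i < 2 then sgn h else if i < 2 + 4 * S.1 then
    (if h = decide ((i - 2) / 2 < S.1) then 0 else sgn (cbit S.1 h x ((i - 2) / 2))) else 0)

/-- the node of a state -/
def nodeS (S : DSys) (s : State) (i : ℕ) : Bool :=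
  if s.1 (S.2.1 + 1) then s.1 (S.1 + i) else s.1 i

theorem conn_agree {m : Mesh} {s t : State} (hs : StOK m s) (hc : ∀ j < m.M, s.1 j = t.1 j)
    (hr : ∀ i < m.N, s.2 i = t.2 i) : StConn m s t ∧ StOK m t := by
  have ht : StOK m t := by
    intro i hi j hj p v hC hp
    rw [← hc j hj]
    exact hs i hi j hj p v hC (by rw [hr i hi]; exact hp)
  exact ⟨Relation.EqvGen.rel _ _ ⟨hs, ht, Or.inl ⟨hr, 0, fun j hj _ => hc j hj⟩⟩, ht⟩

theorem selOf_length (S : DSys) : (selOf S).2.length = 2 + 4 * S.1 + S.cubes.length := by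
  unfold selOf lockRows
  dsimp only
  rw [List.length_append, List.length_append, List.length_append, flat2_length, flat2_length]
  simp
  ring

/-- Every state with evaluation off is connected to the canonical state of its node. -/
theorem to_can {S : DSys} (hS : S.WF) {s : State} (hs : Sem S s) (he : s.1 S.2.1 = false) :
    StConn (meshOf (selOf S)) s (canS S (s.1 (S.2.1 + 1)) (nodeS S s)) := by
  have h2m := hS.1
  obtain ⟨s1, c1, m1, f1, a1, b1⟩ := to_flat hS hs he
  obtain ⟨s2, c2, m2, f2, a2, b2, d2⟩ := clear_aux hS m1 f1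
  obtain ⟨t, c3, m3, f3, a3, b3, d3⟩ := clear_bits hS m2 f2
  have hh : t.1 (S.2.1 + 1) = s.1 (S.2.1 + 1) := by
    rw [a3 _ (by omega) (by omega), b2 _ (by omega), a1 _ (by omega)]
  have hh2 : s2.1 (S.2.1 + 1) = s.1 (S.2.1 + 1) := by
    rw [b2 _ (by omega), a1 _ (by omega)]
  rw [hh2] at b3 d3
  -- the bits
  have hbit : ∀ i < 2 * S.1, t.1 i = cbit S.1 (s.1 (S.2.1 + 1)) (nodeS S s) i := by
    intro i hi
    unfold cbit
    by_cases hU : s.1 (S.2.1 + 1) = decide (i < S.1)
    · rw [if_pos hU]
      exact (b3 i hi hU).1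
    · rw [if_neg hU, d3 i hi hU, b2 i (by omega), a1 i (by omega)]
      unfold nodeS
      by_cases him : i < S.1
      · rw [if_pos him]
        rw [decide_eq_true him, Bool.not_eq_true] at hU
        rw [hU, if_neg (by simp)]
      · rw [if_neg him]
        rw [decide_eq_false him, Bool.not_eq_false] at hU
        have e : S.1 + (i - S.1) = i := by omega
        rw [hU, if_pos rfl, e]
  have hlock : ∀ i < 2 * S.1, s.1 (S.2.1 + 1) ≠ decide (i < S.1) →
      t.1 (S.2.1 + 3 + i) = t.1 i ∧ t.2 (2 + 2 * i) = sgn (t.1 i) ∧ t.2 (3 + 2 * i) = sgn (t.1 i) := by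
    intro i hi hU
    apply (m3.block i hi).locked
    rintro ⟨h, -⟩
    rw [hh] at h
    exact hU h
  have hlockh : t.1 (S.2.1 + 2) = t.1 (S.2.1 + 1) ∧ t.2 0 = sgn (t.1 (S.2.1 + 1)) ∧
      t.2 1 = sgn (t.1 (S.2.1 + 1)) := by
    apply m3.hlock.locked
    rw [f3.e]
    simp
  rw [hh] at hlockh
  have key := conn_agree (t := canS S (s.1 (S.2.1 + 1)) (nodeS S s))
    ((stOK_sem S hS t).mpr m3) ?_ ?_
  · exact c1.trans _ _ _ (c2.trans _ _ _ (c3.trans _ _ _ key.1))
  · intro j hj
    have hM : (meshOf (selOf S)).M = S.2.1 + 3 + 2 * S.1 + S.cubes.length := rfl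
    rw [hM] at hj
    unfold canS
    dsimp only
    by_cases h1 : j < 2 * S.1
    · rw [if_pos h1]
      exact hbit j h1
    · rw [if_neg h1]
      by_cases h2 : j ≤ S.2.1
      · rw [if_pos h2]
        by_cases h3 : j = S.2.1
        · rw [h3]; exact f3.e
        · rw [a3 j (by omega) (by omega)]
          exact a2 j (by omega) (by omega)
      · rw [if_neg h2]
        by_cases h3 : j < S.2.1 + 3
        · rw [if_pos h3]
          by_cases h4 : j = S.2.1 + 1
          · rw [h4]; exact hh
          · have h5 : j = S.2.1 + 2 := by omega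
            rw [h5]; exact hlockh.1
        · rw [if_neg h3]
          by_cases h4 : j < S.2.1 + 3 + 2 * S.1
          · rw [if_pos h4]
            obtain ⟨i, rfl⟩ : ∃ i, j = S.2.1 + 3 + i := ⟨j - (S.2.1 + 3), by omega⟩
            rw [Nat.add_sub_cancel_left]
            by_cases hU : s.1 (S.2.1 + 1) = decide (i < S.1)
            · rw [(b3 i (by omega) hU).2.1]
              unfold cbit
              rw [if_pos hU]
            · rw [(hlock i (by omega) hU).1]
              exact hbit i (by omega)
          · rw [if_neg h4]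
            obtain ⟨g, rfl⟩ : ∃ g, j = S.2.1 + 3 + 2 * S.1 + g :=
              ⟨j - (S.2.1 + 3 + 2 * S.1), by omega⟩
            exact f3.links g (by omega)
  · intro i hi
    have hN : (meshOf (selOf S)).N = 2 + 4 * S.1 + S.cubes.length := selOf_length S
    rw [hN] at hi
    unfold canS
    dsimp only
    by_cases h1 : i < 2
    · rw [if_pos h1]
      by_cases h2 : i = 0
      · rw [h2]; exact hlockh.2.1
      · have h3 : i = 1 := by omega
        rw [h3]; exact hlockh.2.2
    · rw [if_neg h1]
      by_cases h2 : i < 2 + 4 * S.1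
      · rw [if_pos h2]
        have h3 : (i - 2) / 2 < 2 * S.1 := by omega
        have h4 : i = 2 + 2 * ((i - 2) / 2) ∨ i = 3 + 2 * ((i - 2) / 2) := by omega
        by_cases hU : s.1 (S.2.1 + 1) = decide ((i - 2) / 2 < S.1)
        · rw [if_pos hU]
          obtain ⟨-, -, e1, e2⟩ := b3 _ h3 hU
          rcases h4 with h4 | h4
          · rw [← h4] at e1; exact e1
          · rw [← h4] at e2; exact e2
        · rw [if_neg hU]
          obtain ⟨-, e1, e2⟩ := hlock _ h3 hU
          rw [← hbit _ h3]
          rcases h4 with h4 | h4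
          · rw [← h4] at e1; exact e1
          · rw [← h4] at e2; exact e2
      · rw [if_neg h2]
        obtain ⟨g, rfl⟩ : ∃ g, i = 2 + 4 * S.1 + g := ⟨i - (2 + 4 * S.1), by omega⟩
        exact f3.rows g (by omega)

theorem cbit_congr {m : ℕ} {h : Bool} {x y : ℕ → Bool} (hxy : ∀ i < m, x i = y i) {j : ℕ}
    (hj : j < 2 * m) : cbit m h x j = cbit m h y j := by
  unfold cbit
  split_ifs with h1 h2
  · rfl
  · exact hxy j h2
  · exact hxy _ (by omega)

theorem canS_congr {S : DSys} {h : Bool} {x y : ℕ → Bool} (hxy : ∀ i < S.1, x i = y i) :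
    canS S h x = canS S h y := by
  unfold canS
  apply Prod.ext
  · funext j
    dsimp only
    split_ifs with h1 h2 h3 h4
    · exact cbit_congr hxy h1
    · rfl
    · rfl
    · exact cbit_congr hxy (by omega)
    · rfl
  · funext i
    dsimp only
    split_ifs with h1 h2 h3
    · rfl
    · rfl
    · rw [cbit_congr hxy (by omega)]
    · rfl

/-- a vector as a function on `ℕ` -/
def extS {m : ℕ} (x : Fin m → Bool) (i : ℕ) : Bool := if h : i < m then x ⟨i, h⟩ else false

theorem extS_apply {m : ℕ} (x : Fin m → Bool) {i : ℕ} (h : i < m) : extS x i = x ⟨i, h⟩ := by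
  unfold extS
  rw [dif_pos h]

/-- The canonical states of related nodes are connected. -/
theorem can_conn_of_E {S : DSys} (hS : S.WF) {x y : Fin S.1 → Bool} (h : S.E x y) :
    StConn (meshOf (selOf S)) (canS S false (extS x)) (canS S true (extS y)) := by
  obtain ⟨u, hu, ue, uh, ux, uy⟩ := exists_on hS h
  obtain ⟨t0, m0, c0, e0, h0, b0⟩ := conn_off hS hu ue false
  obtain ⟨t1, m1, c1, e1, h1, b1⟩ := conn_off hS hu ue true
  have k0 := to_can hS m0 e0
  have k1 := to_can hS m1 e1
  rw [h0] at k0
  rw [h1] at k1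
  have n0 : canS S false (nodeS S t0) = canS S false (extS x) := by
    apply canS_congr
    intro i hi
    unfold nodeS
    rw [h0, if_neg (by simp), b0 i (by omega), extS_apply x hi]
    exact ux ⟨i, hi⟩
  have n1 : canS S true (nodeS S t1) = canS S true (extS y) := by
    apply canS_congr
    intro i hi
    unfold nodeS
    rw [h1, if_pos rfl, b1 _ (by omega), extS_apply y hi]
    exact uy ⟨i, hi⟩
  rw [n0] at k0
  rw [n1] at k1
  exact ((c0.trans _ _ _ k0).symm _ _).trans _ _ _ (c1.trans _ _ _ k1)

/-- Every state is connected to a canonical one. -/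
theorem exists_can {S : DSys} (hS : S.WF) {s : State} (hs : Sem S s) :
    ∃ (h : Bool) (x : Fin S.1 → Bool), StConn (meshOf (selOf S)) s (canS S h (extS x)) := by
  have key : ∀ t, Sem S t → t.1 S.2.1 = false → ∃ (h : Bool) (x : Fin S.1 → Bool),
      StConn (meshOf (selOf S)) t (canS S h (extS x)) := by
    intro t ht he
    refine ⟨t.1 (S.2.1 + 1), fun i => nodeS S t i, ?_⟩
    have := to_can hS ht he
    rw [canS_congr (y := extS (fun i : Fin S.1 => nodeS S t i))
      (fun i hi => (extS_apply (fun i : Fin S.1 => nodeS S t i) hi).symm)] at this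
    exact this
  cases he : s.1 S.2.1 with
  | false => exact key s hs he
  | true =>
    obtain ⟨t, ht, c, te, -, -⟩ := conn_off hS hs he false
    obtain ⟨h, x, hx⟩ := key t ht te
    exact ⟨h, x, c.trans _ _ _ hx⟩

/-! ### Invariance -/

theorem lockP_move_aux {z z' b : Bool} {U U' : Prop} {pA pB : SignType}
    (h : LockP z b U pA pB) (h' : LockP z' b U' pA pB) (hz : z ≠ z') : U := by
  by_contra hU
  obtain ⟨-, e2, e3⟩ := h.locked hU
  obtain ⟨a1, -, -, -, b2, -⟩ := h'
  cases z with
  | false => exact hz (a1 (by rw [e2]; rfl)).symm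
  | true => exact hz (b2 (by rw [e3]; rfl)).symm

theorem lockP_move {z z' b : Bool} {U U' : Prop} {pA pB : SignType}
    (h : LockP z b U pA pB) (h' : LockP z' b U' pA pB) (hz : z ≠ z') : U ∧ U' :=
  ⟨lockP_move_aux h h' hz, lockP_move_aux h' h hz.symm⟩

theorem node_move {S : DSys} (hS : S.WF) {s t : State} (h : StMove (meshOf (selOf S)) s t) :
    Relation.EqvGen S.E (fun i : Fin S.1 => nodeS S s i) (fun i : Fin S.1 => nodeS S t i) := by
  have h2m := hS.1
  obtain ⟨hs, ht, h⟩ := h
  have hM : (meshOf (selOf S)).M = S.2.1 + 3 + 2 * S.1 + S.cubes.length := rfl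
  have hN : (meshOf (selOf S)).N = 2 + 4 * S.1 + S.cubes.length := selOf_length S
  rw [hM, hN] at h
  rw [stOK_sem S hS] at hs ht
  have heq : s.1 (S.2.1 + 1) = t.1 (S.2.1 + 1) → (∀ j < 2 * S.1, s.1 j = t.1 j) →
      Relation.EqvGen S.E (fun i : Fin S.1 => nodeS S s i) (fun i : Fin S.1 => nodeS S t i) := by
    intro h1 h2
    have : (fun i : Fin S.1 => nodeS S s i) = (fun i : Fin S.1 => nodeS S t i) := by
      funext i
      have := i.2
      unfold nodeS
      rw [h1, h2 i (by omega), h2 (S.1 + i) (by omega)]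
    rw [this]
    exact Relation.EqvGen.refl _
  rcases h with ⟨hr, j0, hc⟩ | ⟨hc, -⟩
  · by_cases h1 : s.1 (S.2.1 + 1) = t.1 (S.2.1 + 1)
    · by_cases h2 : ∀ j < 2 * S.1, s.1 j = t.1 j
      · exact heq h1 h2
      · push Not at h2
        obtain ⟨b, hb, hne⟩ := h2
        have hj0 : j0 = b := by
          by_contra hh
          exact hne (hc b (by omega) (fun h => hh h.symm))
        subst hj0
        have ls := hs.block j0 hb
        have lt := ht.block j0 hb
        rw [← hc (S.2.1 + 3 + j0) (by omega) (by omega), ← hr (2 + 2 * j0) (by omega),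
          ← hr (3 + 2 * j0) (by omega)] at lt
        obtain ⟨⟨hU, -⟩, -⟩ := lockP_move ls lt hne
        have : (fun i : Fin S.1 => nodeS S s i) = (fun i : Fin S.1 => nodeS S t i) := by
          funext i
          have hi := i.2
          unfold nodeS
          rw [← h1, hU]
          by_cases hj : j0 < S.1
          · rw [decide_eq_true hj, if_pos rfl, if_pos rfl]
            exact hc _ (by omega) (by omega)
          · rw [decide_eq_false hj, if_neg (by simp), if_neg (by simp)]
            exact hc _ (by omega) (by omega)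
        rw [this]
        exact Relation.EqvGen.refl _
    · have hj0 : j0 = S.2.1 + 1 := by
        by_contra hh
        exact h1 (hc _ (by omega) (fun h => hh h.symm))
      subst hj0
      have ls := hs.hlock
      have lt := ht.hlock
      rw [← hc (S.2.1 + 2) (by omega) (by omega), ← hr 0 (by omega), ← hr 1 (by omega)] at lt
      obtain ⟨he, -⟩ := lockP_move ls lt h1
      have hE := sem_E hS hs he
      cases hv : s.1 (S.2.1 + 1) with
      | false =>
        have hv' : t.1 (S.2.1 + 1) = true := by
          rw [hv] at h1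
          cases hh : t.1 (S.2.1 + 1) with
          | false => exact absurd hh.symm h1
          | true => rfl
        have e1 : (fun i : Fin S.1 => nodeS S s i) = (fun i : Fin S.1 => s.1 i) := by
          funext i
          unfold nodeS
          rw [hv, if_neg (by simp)]
        have e2 : (fun i : Fin S.1 => nodeS S t i) = (fun i : Fin S.1 => s.1 (S.1 + i)) := by
          funext i
          have hi := i.2
          unfold nodeS
          rw [hv', if_pos rfl]
          exact (hc _ (by omega) (by omega)).symm
        rw [e1, e2]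
        exact Relation.EqvGen.rel _ _ hE
      | true =>
        have hv' : t.1 (S.2.1 + 1) = false := by
          rw [hv] at h1
          cases hh : t.1 (S.2.1 + 1) with
          | true => exact absurd hh.symm h1
          | false => rfl
        have e1 : (fun i : Fin S.1 => nodeS S s i) = (fun i : Fin S.1 => s.1 (S.1 + i)) := by
          funext i
          unfold nodeS
          rw [hv, if_pos rfl]
        have e2 : (fun i : Fin S.1 => nodeS S t i) = (fun i : Fin S.1 => s.1 i) := by
          funext i
          have hi := i.2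
          unfold nodeS
          rw [hv', if_neg (by simp)]
          exact (hc _ (by omega) (by omega)).symm
        rw [e1, e2]
        exact Relation.EqvGen.symm _ _ (Relation.EqvGen.rel _ _ hE)
  · exact heq (hc _ (by omega)) (fun j hj => hc j (by omega))

theorem node_conn {S : DSys} (hS : S.WF) {s t : State} (h : StConn (meshOf (selOf S)) s t) :
    Relation.EqvGen S.E (fun i : Fin S.1 => nodeS S s i) (fun i : Fin S.1 => nodeS S t i) := by
  induction h with
  | rel s t h => exact node_move hS h
  | refl s => exact Relation.EqvGen.refl _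
  | symm s t _ ih => exact ih.symm
  | trans s t u _ _ ih1 ih2 => exact ih1.trans _ _ _ ih2

theorem selOf_conn (S : DSys) (hS : S.WF) (hrefl : ∀ x, S.E x x) :
    (∀ s t, StOK (meshOf (selOf S)) s → StOK (meshOf (selOf S)) t →
      StConn (meshOf (selOf S)) s t) ↔ S.Connected := by
  constructor
  · intro hall x y
    obtain ⟨u, hu, -, uh, ux, -⟩ := exists_on hS (hrefl x)
    obtain ⟨v, hv, -, vh, vx, -⟩ := exists_on hS (hrefl y)
    have := node_conn hS (hall u v ((stOK_sem S hS u).mpr hu) ((stOK_sem S hS v).mpr hv))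
    have e1 : (fun i : Fin S.1 => nodeS S u i) = x := by
      funext i
      unfold nodeS
      rw [uh, if_neg (by simp)]
      exact ux i
    have e2 : (fun i : Fin S.1 => nodeS S v i) = y := by
      funext i
      unfold nodeS
      rw [vh, if_neg (by simp)]
      exact vx i
    rw [e1, e2] at this
    exact this
  · intro hC s t hs ht
    rw [stOK_sem S hS] at hs ht
    obtain ⟨h, x, hx⟩ := exists_can hS hs
    obtain ⟨h', y, hy⟩ := exists_can hS ht
    have step : ∀ {x y : Fin S.1 → Bool}, S.E x y →
        StConn (meshOf (selOf S)) (canS S false (extS x)) (canS S false (extS y)) :=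
      fun {x y} hxy => (can_conn_of_E hS hxy).trans _ _ _ (can_conn_of_E hS (hrefl y)).symm
    have hgen : ∀ {x y : Fin S.1 → Bool}, Relation.EqvGen S.E x y →
        StConn (meshOf (selOf S)) (canS S false (extS x)) (canS S false (extS y)) := by
      intro x y hxy
      induction hxy with
      | rel x y h => exact step h
      | refl x => exact Relation.EqvGen.refl _
      | symm x y _ ih => exact ih.symm
      | trans x y z _ _ ih1 ih2 => exact ih1.trans _ _ _ ih2
    have hf : ∀ (h : Bool) (x : Fin S.1 → Bool),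
        StConn (meshOf (selOf S)) (canS S h (extS x)) (canS S false (extS x)) := by
      intro h x
      cases h
      · exact Relation.EqvGen.refl _
      · exact (can_conn_of_E hS (hrefl x)).symm
    exact hx.trans _ _ _ ((hf h x).trans _ _ _ ((hgen (hC x y)).trans _ _ _
      (((hf h' y).symm).trans _ _ _ hy.symm)))

theorem selOf_nonempty (S : DSys) (hS : S.WF) : ∃ s, StOK (meshOf (selOf S)) s := by
  refine ⟨(fun _ => false, fun i => if i < 2 + 4 * S.1 then -1 else 0), ?_⟩
  rw [stOK_sem S hS]
  refine ⟨?_, ?_, ?_⟩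
  · dsimp only
    rw [if_pos (by omega), if_pos (by omega)]
    exact lockP_sgn false _
  · intro i hi
    dsimp only
    rw [if_pos (by omega), if_pos (by omega)]
    exact lockP_sgn false _
  · intro g f _
    dsimp only
    rw [if_neg (by omega)]
    refine ⟨fun h => absurd h (by decide), fun h => absurd h (by decide), fun _ => ?_⟩
    split_ifs <;> rfl

end LockPl
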