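import Pool.Agent.Lib.MP_14e06f_lc.Plane.Locked
import Pool.Agent.Lib.MP_14e06f_lc.Plane.Rigid
import Pool.Agent.Lib.MP_14e06f_lc.Plane.Sel
import Pool.Agent.Lib.MP_14e06f_lc.Plane.Rel
import Pool.Agent.Lib.MP_14e06f_lc.Plane.Code

set_option autoImplicit false

/-!
# Deciding whether a planar linkage is locked is `PSPACE`-hard
-/

namespace LockPl

open Pool.Agent.Lib.MP_0f8b55_lc

/-- all bars are at most 3400 long -/
theorem Bar.le_3400 {m : Mesh} {u v : Vtx} {d : ℕ} (h : Bar m u v d) : d ≤ 3400 := by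
  cases h with
  | plateH => norm_num
  | @plateV i j l c => unfold hgt; split <;> norm_num
  | @plateD i j l => unfold dg; split <;> norm_num
  | crankH => norm_num
  | stopH => norm_num
  | crankV => norm_num
  | stopV => norm_num
  | @arm i j q q' d hi hj up h =>
    have h1 : al (m.C i j) ≤ 3400 := (al_le _).1.trans (by norm_num)
    have h2 : ad (m.C i j) ≤ 3400 := by
      unfold ad
      split <;> norm_num
    cases h <;> first | exact h1 | exact h2 | norm_num

theorem tag_lt {m : Mesh} {v : Vtx} (h : IsVert m v) : v.2.2 < 26 ∧ v.2.1 ≤ m.M := by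
  have harm : ∀ {o : Option (SignType × Bool)} {i j : ℕ} {up : Bool} {q : ℕ}, q ≤ 7 → j < m.M →
      (armV o i j up q).2.2 < 26 ∧ (armV o i j up q).2.1 ≤ m.M := by
    intro o i j up q hq hj
    rcases o with _ | ⟨s, v⟩
    · cases up <;> interval_cases q <;> simp only [armV] <;> omega
    · cases v <;> cases up <;> interval_cases q <;> simp only [armV] <;> omega
  obtain ⟨w, d, h | h⟩ := h
  · cases h with
    | arm hi hj up h => exact harm h.le7.1 hj
    | _ => constructor <;> dsimp only <;> omega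
  · cases h with
    | arm hi hj up h => exact harm h.le7.2 hj
    | _ => constructor <;> dsimp only <;> omega

theorem codes_of {c : LinkCode} {S : MeshCode}
    (h : ∀ a b n d, ((a, b), (n, d)) ∈ c ↔ d = 1 ∧ ∃ u v, Bar (meshOf S) u v n ∧
        a = label S.1 u ∧ b = label S.1 v) : Codes c (meshOf S) (label S.1) :=
  ⟨h, fun _ _ hu hv huv => label_inj (tag_lt hu).2 (tag_lt hv).2 (tag_lt hu).1 (tag_lt hv).1 huv⟩

/-- The linkage is connected if the bars of the mesh are. -/
theorem Codes.connected {c : LinkCode} {m : Mesh} {lab : Vtx → ℕ} (h : Codes c m lab)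
    (hv : c.Valid) (hm : ∀ u v, IsVert m u → IsVert m v →
      Relation.EqvGen (fun a b => ∃ d, Bar m a b d) u v) : c.graph.Connected := by
  have key : ∀ a b, Relation.EqvGen (fun a b => ∃ d, Bar m a b d) a b →
      a = b ∨ ∃ (ha : IsVert m a) (hb : IsVert m b), c.graph.Reachable (h.vt a ha) (h.vt b hb) := by
    intro a b hab
    induction hab with
    | rel a b hab =>
      obtain ⟨d, hd⟩ := hab
      refine Or.inr ⟨hd.isVert_left, hd.isVert_right, SimpleGraph.Adj.reachable ?_⟩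
      exact (h.adj_iff hv _ _).2 ⟨d, Or.inl (by rwa [h.nm_vt, h.nm_vt])⟩
    | refl a => exact Or.inl rfl
    | symm a b _ ih =>
      rcases ih with ih | ⟨ha, hb, ih⟩
      · exact Or.inl ih.symm
      · exact Or.inr ⟨hb, ha, ih.symm⟩
    | trans a b d _ _ ih1 ih2 =>
      rcases ih1 with rfl | ⟨ha, hb, ih1⟩
      · exact ih2
      · rcases ih2 with rfl | ⟨hb', hd, ih2⟩
        · exact Or.inr ⟨ha, hb, ih1⟩
        · exact Or.inr ⟨ha, hd, ih1.trans ih2⟩
  have hvt : ∀ v : c.Vert, h.vt (h.nm v) (h.nm_isVert v) = v := fun v =>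
    h.nm_inj (h.nm_vt _ _)
  have v0 : IsVert m (0, 0, 0) :=
    isVert_plate m (i := 0) (j := 0) (l := 0) (c := 0) (by omega) (by omega) (by omega) (by omega)
  refine { preconnected := fun u v => ?_, nonempty := ⟨h.vt _ v0⟩ }
  rcases key _ _ (hm _ _ (h.nm_isVert u) (h.nm_isVert v)) with he | ⟨ha, hb, hr⟩
  · rw [h.nm_inj he]
  · rwa [hvt, hvt] at hr

/-- The reduction. -/
theorem main (hm : ∀ (m : Mesh) (u v : Vtx), IsVert m u → IsVert m v →
      Relation.EqvGen (fun a b => ∃ d, Bar m a b d) u v) : ∃ f : TQBF.Inst → LOCKED.Inst,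
    Nonempty (Turing.TM2ComputableInPolyTime TQBF.enc LOCKED.enc f) ∧
    ∀ I, (TQBF.Yes I ↔ LOCKED.Yes (f I)) ∧ (∀ b ∈ (f I).1, b.2.1 ≤ 3400 ∧ b.2.2 = 1) ∧
      ((f I).1.linkage (f I).2).graph.Connected ∧ ∃ p, ((f I).1.linkage (f I).2).IsConfig p := by
  obtain ⟨f, ⟨hf⟩, hI⟩ := exists_barsOf
  refine ⟨fun I => ⟨f I, (hI I).1⟩, ?_, ?_⟩
  · exact ⟨{ hf with outputsFun := hf.outputsFun }⟩
  · intro I
    have hc : Codes (f I) (meshOf (selOf (relOf I))) (label (selOf (relOf I)).1) :=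
      codes_of (hI I).2
    have hr : RigidStmt (meshOf (selOf (relOf I))) := rigid _
    refine ⟨?_, ?_, ?_, ?_⟩
    · have h1 := hc.locked_iff (hI I).1 hr
      have h2 := selOf_conn (relOf I) (relOf_wf I) (relOf_refl I)
      have h3 := relOf_conn I
      show QTrue I.2 I.1 0 (fun _ => false) ↔ ((f I).linkage (hI I).1).Locked
      rw [h1, h2, h3, not_not]
    · rintro ⟨⟨a, b⟩, ⟨n, d⟩⟩ hb
      obtain ⟨hd, u, v, hbar, -, -⟩ := ((hI I).2 a b n d).1 hb
      exact ⟨hbar.le_3400, hd⟩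
    · exact hc.connected (hI I).1 (hm _)
    · obtain ⟨s, hs⟩ := selOf_nonempty (relOf I) (relOf_wf I)
      exact ⟨_, hc.cfg_mem (hI I).1 true (y := (0, (1, canon s)))
        ⟨trivial, by simp, canon_mem _ hs⟩⟩

end LockPl
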