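import Mathlib.Analysis.Complex.Basic
import Mathlib.Analysis.SpecialFunctions.Pow.Real
import Mathlib.Analysis.Convex.Segment
import Mathlib.Data.Sign.Defs
import Mathlib.Data.Sym.Sym2
import Mathlib.Topology.Connected.PathConnected
import Mathlib.Tactic

set_option autoImplicit false

/-!
# The mesh linkage of a selector system

A selector system has `M` columns (bits) and `N` rows (selectors with the three positions
`neg, zero, pos`, in this order). `C i j = some (s, v)` is the constraint: if row `i` is in position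
`s` then column `j` has the value `v`.

The linkage has a rigid plate for all `i ≤ N`, `j ≤ M`: an array of 6 horizontal lines
(`l = 0, …, 5`) and 2 vertical lines (`c = 0, 1`); its vertices are `(i, j, 2 * l + c)`.
Neighbouring plates of a row are joined by two parallel cranks of direction `(√(1 - A²), A)`,
`A = A j`; neighbouring plates of a column by two cranks of direction `(-B, √(1 - B²))`, `B = B i`.
-/

namespace LockPl

/-- Vertices: plate row, plate column, tag. Tags: `2 * l + c` (`l < 6`, `c < 2`) the plate;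
`12`, `13` the stops; `14 … 19` the lower arm of the hole `(i, j)`; `20 … 25` its upper arm. -/
abbrev Vtx : Type := ℕ × ℕ × ℕ

/-- A selector system. -/
structure Mesh where
  /-- number of rows (selectors) -/
  N : ℕ
  /-- number of columns (bits) -/
  M : ℕ
  /-- the constraints -/
  C : ℕ → ℕ → Option (SignType × Bool)

/-! ### Discrete states -/

/-- A state: the values of the columns and the positions of the rows (only `j < M`, `i < N`
matter). -/
abbrev State : Type := (ℕ → Bool) × (ℕ → SignType)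

/-- The state satisfies all constraints. -/
def StOK (m : Mesh) (x : State) : Prop :=
  ∀ i < m.N, ∀ j < m.M, ∀ s v, m.C i j = some (s, v) → x.2 i = s → x.1 j = v

/-- Elementary moves: change one column, or change one row from or to the position `zero`. -/
def StMove (m : Mesh) (x y : State) : Prop :=
  StOK m x ∧ StOK m y ∧
    (((∀ i < m.N, x.2 i = y.2 i) ∧ ∃ j0, ∀ j < m.M, j ≠ j0 → x.1 j = y.1 j) ∨
     ((∀ j < m.M, x.1 j = y.1 j) ∧ ∃ i0, (∀ i < m.N, i ≠ i0 → x.2 i = y.2 i) ∧
        (x.2 i0 = 0 ∨ y.2 i0 = 0)))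

/-- Connectedness of two states by moves. -/
def StConn (m : Mesh) : State → State → Prop := Relation.EqvGen (StMove m)

/-! ### Lengths -/

/-- the heights of the six lines of a plate -/
def lineY : ℕ → ℝ
  | 0 => 0 | 1 => 1400 | 2 => 2800 | 3 => 3000 | 4 => 4400 | _ => 5800

/-- the distances of consecutive lines -/
def hgt : ℕ → ℕ
  | 2 => 200 | _ => 1400

/-- the diagonals of the cells of a plate -/
def dg : ℕ → ℕ
  | 2 => 520 | _ => 1480

/-- the side of the arms of a hole: `1` (left below and right above) or `-1` -/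
def sg : Option (SignType × Bool) → ℝ
  | some (_, false) => -1
  | _ => 1

/-- the length of the first cell of the arms of a hole -/
def al : Option (SignType × Bool) → ℕ
  | none => 2250
  | some (.zero, _) => 1470
  | some (.pos, true) => 1050
  | some (.neg, true) => 1710
  | some (.pos, false) => 1710
  | some (.neg, false) => 1050

/-- the diagonal of the first cell of the arms of a hole -/
def ad : Option (SignType × Bool) → ℕ
  | none => 2650
  | some (.zero, _) => 2030
  | some (.pos, true) => 1750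
  | some (.neg, true) => 2210
  | some (.pos, false) => 2210
  | some (.neg, false) => 1750

/-! ### Bars -/

/-- The bars of an arm in local labels: `6`, `7` are the points of attachment, `0 … 5` the new
vertices; `a` the length of the first cell and `d` its diagonal. -/
inductive ArmBar (a d : ℕ) : ℕ → ℕ → ℕ → Prop
  | b60 : ArmBar a d 6 0 a
  | b72 : ArmBar a d 7 2 a
  | b62 : ArmBar a d 6 2 d
  | b01 : ArmBar a d 0 1 480
  | b23 : ArmBar a d 2 3 480
  | b02 : ArmBar a d 0 2 1400
  | b13 : ArmBar a d 1 3 1400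
  | b03 : ArmBar a d 0 3 1480
  | b24 : ArmBar a d 2 4 1890
  | b35 : ArmBar a d 3 5 1890
  | b45 : ArmBar a d 4 5 480
  | b25 : ArmBar a d 2 5 1950

/-- The vertex with local label `q` of the lower (`up = false`) or upper (`up = true`) arm of the
hole `(i, j)` whose constraint is `o`. -/
def armV (o : Option (SignType × Bool)) (i j : ℕ) : Bool → ℕ → Vtx
  | false, 6 => match o with
    | some (_, false) => (i, j + 1, 8)
    | _ => (i, j, 9)
  | false, 7 => match o with
    | some (_, false) => (i, j + 1, 10)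
    | _ => (i, j, 11)
  | true, 6 => match o with
    | some (_, false) => (i + 1, j, 3)
    | _ => (i + 1, j + 1, 2)
  | true, 7 => match o with
    | some (_, false) => (i + 1, j, 1)
    | _ => (i + 1, j + 1, 0)
  | false, q => (i, j, 14 + q)
  | true, q => (i, j, 20 + q)

/-- The bars of the mesh, each in one orientation, with their lengths. -/
inductive Bar (m : Mesh) : Vtx → Vtx → ℕ → Prop
  | plateH {i j l : ℕ} (hi : i ≤ m.N) (hj : j ≤ m.M) (hl : l < 6) :
      Bar m (i, j, 2 * l) (i, j, 2 * l + 1) 480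
  | plateV {i j l c : ℕ} (hi : i ≤ m.N) (hj : j ≤ m.M) (hl : l < 5) (hc : c < 2) :
      Bar m (i, j, 2 * l + c) (i, j, 2 * (l + 1) + c) (hgt l)
  | plateD {i j l : ℕ} (hi : i ≤ m.N) (hj : j ≤ m.M) (hl : l < 5) :
      Bar m (i, j, 2 * l) (i, j, 2 * (l + 1) + 1) (dg l)
  | crankH {i j l : ℕ} (hi : i ≤ m.N) (hj : j < m.M) (hl : l = 2 ∨ l = 3) :
      Bar m (i, j, 2 * l + 1) (i, j + 1, 2 * l) 3400
  | stopH {i j l : ℕ} (hi : i ≤ m.N) (hj : j < m.M) (hl : l = 2 ∨ l = 3) :
      Bar m (i, j, 2 * l + 1) (i, j, 12) 505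
  | crankV {i j c : ℕ} (hi : i < m.N) (hj : j ≤ m.M) (hc : c < 2) :
      Bar m (i, j, 10 + c) (i + 1, j, c) 3400
  | stopV {i j c : ℕ} (hi : i < m.N) (hj : j ≤ m.M) (hc : c < 2) :
      Bar m (i, j, 10 + c) (i, j, 13) 1212
  | arm {i j q q' d : ℕ} (hi : i < m.N) (hj : j < m.M) (up : Bool)
      (h : ArmBar (al (m.C i j)) (ad (m.C i j)) q q' d) :
      Bar m (armV (m.C i j) i j up q) (armV (m.C i j) i j up q') d

/-- The vertices of the mesh. -/
def IsVert (m : Mesh) (v : Vtx) : Prop := ∃ w d, Bar m v w d ∨ Bar m w v d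

/-- `p` draws the bars without crossings. -/
def NC (m : Mesh) (p : Vtx → ℂ) : Prop :=
  ∀ u v d x y e, Bar m u v d → Bar m x y e → s(u, v) ≠ s(x, y) →
    ∀ z, z ∈ segment ℝ (p u) (p v) → z ∈ segment ℝ (p x) (p y) →
      ∃ w, (w = u ∨ w = v) ∧ (w = x ∨ w = y) ∧ z = p w

/-! ### The standard drawings -/

open Complex Finset in
/-- position of the left side of the plate column `j` -/
noncomputable def colX (A : ℕ → ℝ) (j : ℕ) : ℂ :=
  ∑ t ∈ range j, (480 + 3400 * ((√(1 - A t ^ 2) : ℝ) + (A t : ℝ) * I))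

open Complex Finset in
/-- position of the lowest line of the plate row `i` -/
noncomputable def rowY (B : ℕ → ℝ) (i : ℕ) : ℂ :=
  ∑ t ∈ range i, (5800 * I + 3400 * (-(B t : ℝ) + (√(1 - B t ^ 2) : ℝ) * I))

open Complex in
/-- position of the vertex on line `l`, side `c` of the plate `(i, j)` -/
noncomputable def plate (A B : ℕ → ℝ) (i j l c : ℕ) : ℂ :=
  colX A j + rowY B i + 480 * c + lineY l * I

/-- local coordinates of the vertices of an arm with post height `hh` and first cell `a` -/
def armXY (a hh : ℝ) : ℕ → ℝ × ℝ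
  | 0 => (a, -1400)
  | 1 => (a + 480, -1400)
  | 2 => (a, 0)
  | 3 => (a + 480, 0)
  | 4 => (a, hh)
  | 5 => (a + 480, hh)
  | 6 => (0, -1400)
  | _ => (0, 0)

open Complex in
/-- position of the vertex with local label `q` of an arm of the hole `(i, j)` -/
noncomputable def armPos (m : Mesh) (hh : ℝ) (A B : ℕ → ℝ) (i j : ℕ) : Bool → ℕ → ℂ
  | false, q =>
    (if sg (m.C i j) = 1 then plate A B i j 5 1 else plate A B i (j + 1) 5 0) +
      (sg (m.C i j) * (armXY (al (m.C i j)) hh q).1 + (armXY (al (m.C i j)) hh q).2 * I)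
  | true, q =>
    (if sg (m.C i j) = 1 then plate A B (i + 1) (j + 1) 0 0 else plate A B (i + 1) j 0 1) -
      (sg (m.C i j) * (armXY (al (m.C i j)) hh q).1 + (armXY (al (m.C i j)) hh q).2 * I)

open Complex in
/-- The standard drawing with column parameters `A` (sines of the crank angles), row parameters `B`
and post height `hh` (`1890` for the linkage itself). -/
noncomputable def pos (m : Mesh) (hh : ℝ) (A B : ℕ → ℝ) (v : Vtx) : ℂ :=
  if v.2.2 < 12 then plate A B v.1 v.2.1 (v.2.2 / 2) (v.2.2 % 2)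
  else if v.2.2 = 12 then plate A B v.1 v.2.1 2 1 + (495 + 100 * I)
  else if v.2.2 = 13 then plate A B v.1 v.2.1 5 0 + (240 + 1188 * I)
  else if v.2.2 < 20 then armPos m hh A B v.1 v.2.1 false (v.2.2 - 14)
  else armPos m hh A B v.1 v.2.1 true (v.2.2 - 20)

/-- The open box of parameters. -/
def Box (x : (ℕ → ℝ) × (ℕ → ℝ)) : Prop :=
  (∀ j, |x.1 j| < 20 / 101) ∧ (∀ i, |x.2 i| < 20 / 101)

/-- The posts of the hole `(i, j)` do not meet. -/
def Free (o : Option (SignType × Bool)) (hh A B : ℝ) : Prop :=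
  ¬ (2 * (al o : ℝ) ≤ 3400 * (√(1 - A ^ 2) - sg o * B) ∧
     3400 * (√(1 - A ^ 2) - sg o * B) ≤ 2 * ((al o : ℝ) + 480) ∧
     3400 * (sg o * A + √(1 - B ^ 2)) ≤ 2 * hh)

/-- No two posts meet. -/
def Allowed (m : Mesh) (hh : ℝ) (x : (ℕ → ℝ) × (ℕ → ℝ)) : Prop :=
  ∀ i < m.N, ∀ j < m.M, Free (m.C i j) hh (x.1 j) (x.2 i)

/-- The parameters of the configurations of the linkage. -/
def ParamSet (m : Mesh) : Set ((ℕ → ℝ) × (ℕ → ℝ)) := {x | Box x ∧ Allowed m 1890 x}

/-- The closed cell of the state `s` contains the parameters `x`: a bit is the sign of its column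
parameter, a position tells whether the row parameter is above `11/100`, below `-11/100` or
between. -/
def Compat (m : Mesh) (x : (ℕ → ℝ) × (ℕ → ℝ)) (s : State) : Prop :=
  (∀ j < m.M, (s.1 j = true → 0 ≤ x.1 j) ∧ (s.1 j = false → x.1 j ≤ 0)) ∧
  (∀ i < m.N, (s.2 i = 1 → 11 / 100 ≤ x.2 i) ∧ (s.2 i = -1 → x.2 i ≤ -(11 / 100)) ∧
    (s.2 i = 0 → |x.2 i| ≤ 11 / 100))

/-- The canonical parameters of a state. -/
noncomputable def canon (x : State) : (ℕ → ℝ) × (ℕ → ℝ) :=
  (fun j => if x.1 j then 9 / 50 else -(9 / 50), fun i => (9 / 50) * ((x.2 i : ℤ) : ℝ))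

end LockPl
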