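import Pool.Agent.Lib.MP_14e06f_lc.Plane.Mesh

set_option autoImplicit false

/-!
# Rigidity of the mesh, part A: local plane geometry
-/

namespace LockPl
namespace Rig

/-- the scalar product -/
def dt (z w : ℂ) : ℝ := z.re * w.re + z.im * w.im

/-- the cross product -/
def cr (z w : ℂ) : ℝ := z.re * w.im - z.im * w.re

theorem sq_norm' (z : ℂ) : ‖z‖ ^ 2 = z.re * z.re + z.im * z.im := by
  rw [Complex.sq_norm, Complex.normSq_apply]

theorem pos_of_ne {z : ℂ} (h : z ≠ 0) : 0 < z.re * z.re + z.im * z.im := by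
  rw [← Complex.normSq_apply]
  exact Complex.normSq_pos.2 h

theorem norm_eq_iff {z w : ℂ} : ‖z‖ = ‖w‖ ↔
    z.re * z.re + z.im * z.im = w.re * w.re + w.im * w.im := by
  rw [← sq_norm', ← sq_norm']
  constructor
  · intro h; rw [h]
  · intro h
    exact (sq_eq_sq₀ (norm_nonneg _) (norm_nonneg _)).1 h

theorem norm_lt_iff {z w : ℂ} : ‖z‖ < ‖w‖ ↔
    z.re * z.re + z.im * z.im < w.re * w.re + w.im * w.im := by
  rw [← sq_norm', ← sq_norm']
  exact (sq_lt_sq₀ (norm_nonneg _) (norm_nonneg _)).symm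

theorem norm_le_iff {z w : ℂ} : ‖z‖ ≤ ‖w‖ ↔
    z.re * z.re + z.im * z.im ≤ w.re * w.re + w.im * w.im := by
  rw [← sq_norm', ← sq_norm']
  exact (sq_le_sq₀ (norm_nonneg _) (norm_nonneg _)).symm

/-- A point with parameter `t` on a segment. -/
theorem mem_seg {x y z : ℂ} (t : ℝ) (h0 : 0 ≤ t) (h1 : t ≤ 1) (hz : z = x + t * (y - x)) :
    z ∈ segment ℝ x y := by
  refine ⟨1 - t, t, by linarith, h0, by ring, ?_⟩
  rw [hz]
  simp only [Complex.real_smul]
  push_cast
  ring

/-- Vectors parallel to `v`. -/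
theorem par {v w : ℂ} (hv : v ≠ 0) (h : cr w v = 0) :
    w = ((dt v w / dt v v : ℝ) : ℂ) * v := by
  have h0 : 0 < dt v v := pos_of_ne hv
  have h0' : dt v v ≠ 0 := h0.ne'
  have h1 : cr w v = w.re * v.im - w.im * v.re := rfl
  rw [h1] at h
  apply Complex.ext
  · simp only [Complex.mul_re, Complex.ofReal_re, Complex.ofReal_im, zero_mul, sub_zero]
    rw [div_mul_eq_mul_div, eq_div_iff h0']
    simp only [dt]
    linear_combination v.im * h
  · simp only [Complex.mul_im, Complex.ofReal_re, Complex.ofReal_im, zero_mul, add_zero]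
    rw [div_mul_eq_mul_div, eq_div_iff h0']
    simp only [dt]
    linear_combination (-v.re) * h

/-- Vectors orthogonal to `v`. -/
theorem perp {v w : ℂ} (hv : v ≠ 0) (h : dt v w = 0) :
    w = ((cr v w / dt v v : ℝ) : ℂ) * (Complex.I * v) := by
  have h0 : 0 < dt v v := pos_of_ne hv
  have h0' : dt v v ≠ 0 := h0.ne'
  have h1 : dt v w = v.re * w.re + v.im * w.im := rfl
  rw [h1] at h
  apply Complex.ext
  · simp only [Complex.mul_re, Complex.ofReal_re, Complex.ofReal_im, zero_mul, sub_zero,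
      Complex.I_re, Complex.I_im, one_mul, zero_sub]
    rw [div_mul_eq_mul_div, eq_div_iff h0']
    simp only [dt, cr]
    linear_combination v.re * h
  · simp only [Complex.mul_im, Complex.ofReal_re, Complex.ofReal_im, zero_mul, add_zero,
      Complex.I_re, Complex.I_im, one_mul, zero_add]
    rw [div_mul_eq_mul_div, eq_div_iff h0']
    simp only [dt, cr]
    linear_combination v.im * h

theorem ext_dc {d x y : ℂ} (hd : d ≠ 0) (h1 : dt d x = dt d y) (h2 : cr d x = cr d y) :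
    x = y := by
  have h0 := pos_of_ne hd
  simp only [dt, cr] at h1 h2
  apply Complex.ext
  · have : (d.re * d.re + d.im * d.im) * (x.re - y.re) = 0 := by
      linear_combination d.re * h1 - d.im * h2
    rcases mul_eq_zero.1 this with h | h
    · exact absurd h h0.ne'
    · linarith
  · have : (d.re * d.re + d.im * d.im) * (x.im - y.im) = 0 := by
      linear_combination d.im * h1 + d.re * h2
    rcases mul_eq_zero.1 this with h | h
    · exact absurd h h0.ne'
    · linarith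

/-- A quadrilateral with equal opposite sides, the shorter ones `PQ`, `SR`, whose longer sides do
not meet is a parallelogram. -/
theorem para_aux {P Q R S : ℂ} (h1 : ‖Q - P‖ = ‖R - S‖) (h2 : ‖S - P‖ = ‖R - Q‖)
    (hlt : ‖Q - P‖ < ‖S - P‖) (hd : ∀ z ∈ segment ℝ P S, z ∉ segment ℝ Q R) :
    R - Q = S - P := by
  by_contra hne
  set δ := R - Q - (S - P) with hδ
  have hδ0 : δ ≠ 0 := fun h => hne (by rw [hδ] at h; exact sub_eq_zero.1 h)
  set s := S - P with hs
  set q := Q - P with hq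
  have e1 : R - S = q + δ := by rw [hδ, hs, hq]; ring
  have e2 : R - Q = s + δ := by rw [hδ]; ring
  rw [e1, norm_eq_iff] at h1
  rw [e2, norm_eq_iff] at h2
  rw [norm_lt_iff] at hlt
  have n0 := pos_of_ne hδ0
  set n := δ.re * δ.re + δ.im * δ.im with hn
  simp only [Complex.add_re, Complex.add_im] at h1 h2
  have dq : dt δ q = -n / 2 := by simp only [dt]; linarith
  have ds : dt δ s = -n / 2 := by simp only [dt]; linarith
  set a := cr δ s / n with ha
  set b := cr δ q / n with hb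
  have ha' : cr δ s = a * n := by rw [ha]; field_simp
  have hb' : cr δ q = b * n := by rw [hb]; field_simp
  -- |b| < |a|
  have key : ∀ w : ℂ, (dt δ w) ^ 2 + (cr δ w) ^ 2 = n * (w.re * w.re + w.im * w.im) := by
    intro w; simp only [dt, cr, hn]; ring
  have hab : b ^ 2 < a ^ 2 := by
    have k1 := key s
    have k2 := key q
    rw [ds, ha'] at k1
    rw [dq, hb'] at k2
    have h5 : n * (q.re * q.re + q.im * q.im) < n * (s.re * s.re + s.im * s.im) :=
      mul_lt_mul_of_pos_left hlt n0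
    rw [← k1, ← k2] at h5
    have h6 : (b * n) ^ 2 < (a * n) ^ 2 := by linarith
    rw [mul_pow, mul_pow] at h6
    exact lt_of_mul_lt_mul_right h6 (by positivity)
  have ha0 : a ≠ 0 := by
    intro h; rw [h] at hab; nlinarith [sq_nonneg b]
  have hr : (b / a) ^ 2 < 1 := by
    rw [div_pow, div_lt_one (by positivity)]
    exact hab
  have hr1 : -1 < b / a := by nlinarith [sq_nonneg (b / a - 1)]
  have hr2 : b / a < 1 := by nlinarith [sq_nonneg (b / a + 1)]
  set t := (1 + b / a) / 2 with ht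
  have hta : t * (2 * a) = a + b := by rw [ht]; field_simp
  refine hd (P + t * s) (mem_seg t (by rw [ht]; linarith) (by rw [ht]; linarith) ?_)
    (mem_seg (1 - t) (by rw [ht]; linarith) (by rw [ht]; linarith) ?_)
  · rw [hs]
  · rw [e2]
    have hQ : Q = P + q := by rw [hq]; ring
    rw [hQ]
    have : (t : ℂ) * s = q + ((1 - t : ℝ) : ℂ) * (s + δ) := by
      apply ext_dc hδ0
      · have f1 : dt δ ((t : ℂ) * s) = t * dt δ s := by simp [dt]; ring
        have f2 : dt δ (q + ((1 - t : ℝ) : ℂ) * (s + δ)) =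
            dt δ q + (1 - t) * (dt δ s + n) := by simp [dt, hn]; ring
        rw [f1, f2, dq, ds]; ring
      · have f1 : cr δ ((t : ℂ) * s) = t * cr δ s := by simp [cr]; ring
        have f2 : cr δ (q + ((1 - t : ℝ) : ℂ) * (s + δ)) =
            cr δ q + (1 - t) * cr δ s := by simp [cr]; ring
        rw [f1, f2, ha', hb']
        linear_combination n * hta
    rw [this]; ring

theorem para {P Q R S : ℂ} (h1 : ‖Q - P‖ = ‖R - S‖) (h2 : ‖S - P‖ = ‖R - Q‖)
    (hne : ‖Q - P‖ ≠ ‖S - P‖) (hd : ∀ z ∈ segment ℝ P S, z ∉ segment ℝ Q R)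
    (hd' : ∀ z ∈ segment ℝ P Q, z ∉ segment ℝ S R) : R - Q = S - P := by
  rcases lt_or_gt_of_ne hne with h | h
  · exact para_aux h1 h2 h hd
  · have := para_aux h2 h1 h hd'
    have e : R - Q = (R - S) + (S - Q) := by ring
    rw [e, this]; ring

/-- Two parallelograms with the common side `PQ` on the same side of it meet. -/
theorem side_aux {P Q P1 Q1 P2 Q2 : ℂ} (e1 : P1 - P = Q1 - Q) (e2 : P2 - P = Q2 - Q)
    (n1 : ∀ z ∈ segment ℝ P P1, z ∈ segment ℝ P P2 → z = P)
    (d1 : ∀ z ∈ segment ℝ P P1, z ∉ segment ℝ P2 Q2)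
    (d2 : ∀ z ∈ segment ℝ Q Q1, z ∉ segment ℝ P2 Q2)
    (d3 : ∀ z ∈ segment ℝ P P1, z ∉ segment ℝ Q Q2)
    (d4 : ∀ z ∈ segment ℝ Q Q1, z ∉ segment ℝ P P2)
    (h1 : 0 < cr (P1 - P) (Q - P)) (h2 : 0 < cr (P2 - P) (Q - P))
    (h12 : cr (P2 - P) (Q - P) ≤ cr (P1 - P) (Q - P)) : False := by
  set u1 := P1 - P with hu1
  set u2 := P2 - P with hu2
  set v := Q - P with hv
  have hv0 : v ≠ 0 := by
    intro h
    rw [h] at h1
    simp [cr] at h1
  set l := cr u2 v / cr u1 v with hl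
  have l0 : 0 < l := div_pos h2 h1
  have l1 : l ≤ 1 := by rw [hl, div_le_one h1]; exact h12
  have hcr : cr ((l : ℂ) * u1 - u2) v = 0 := by
    have : cr ((l : ℂ) * u1 - u2) v = l * cr u1 v - cr u2 v := by simp [cr]; ring
    rw [this, hl]; field_simp; ring
  have hk := par hv0 hcr
  set k := dt v ((l : ℂ) * u1 - u2) / dt v v with hkd
  have hP1 : P1 = P + u1 := by rw [hu1]; ring
  have hP2 : P2 = P + u2 := by rw [hu2]; ring
  have hQ : Q = P + v := by rw [hv]; ring
  have hQ1 : Q1 = P + v + u1 := by rw [e1, hv]; ring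
  have hQ2 : Q2 = P + v + u2 := by rw [e2, hv]; ring
  have hu2' : u2 = (l : ℂ) * u1 - (k : ℂ) * v := by rw [← hk]; ring
  rcases lt_trichotomy k 0 with hk0 | hk0 | hk0
  · rcases lt_or_ge k (-1) with hk1 | hk1
    · -- κ < -1
      have hkn : (k : ℂ) ≠ 0 := by exact_mod_cast hk0.ne
      have hki : 0 < -k := by linarith
      refine d4 (P + ((1 / (-k) : ℝ) : ℂ) * u2) (mem_seg (l / (-k)) (by positivity) ?_ ?_)
        (mem_seg (1 / (-k)) (by positivity) ?_ ?_)
      · rw [div_le_one hki]; linarith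
      · rw [hQ1, hQ, hu2']
        push_cast
        field_simp
        ring
      · rw [div_le_one hki]; linarith
      · rw [hP2]; ring
    · refine d2 (Q + (l : ℂ) * u1) (mem_seg l l0.le l1 (by rw [hQ1, hQ]; ring))
        (mem_seg (1 + k) (by linarith) (by linarith) ?_)
      rw [hQ2, hP2, hQ, hu2']
      push_cast
      ring
  · have h3 := n1 P2 (mem_seg l l0.le l1 (by rw [hP2, hP1, hu2', hk0]; push_cast; ring))
      (right_mem_segment ℝ P P2)
    have : u2 = 0 := by rw [hu2, h3]; ring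
    rw [this] at h2
    simp [cr] at h2
  · rcases le_or_gt k 1 with hk1 | hk1
    · refine d1 (P + (l : ℂ) * u1) (mem_seg l l0.le l1 (by rw [hP1]; ring))
        (mem_seg k hk0.le hk1 ?_)
      rw [hQ2, hP2, hu2']
      ring
    · have hkn : (k : ℂ) ≠ 0 := by exact_mod_cast hk0.ne'
      refine d3 (P + ((l / k : ℝ) : ℂ) * u1) (mem_seg (l / k) (by positivity) ?_
        (by rw [hP1]; ring)) (mem_seg (1 / k) (by positivity) ?_ ?_)
      · rw [div_le_one hk0]; linarith
      · rw [div_le_one hk0]; linarith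
      · rw [hQ2, hQ, hu2']
        push_cast
        field_simp
        ring

theorem side {P Q P1 Q1 P2 Q2 : ℂ} (e1 : P1 - P = Q1 - Q) (e2 : P2 - P = Q2 - Q)
    (n1 : ∀ z ∈ segment ℝ P P1, z ∈ segment ℝ P P2 → z = P)
    (n2 : ∀ z ∈ segment ℝ Q Q1, z ∈ segment ℝ Q Q2 → z = Q)
    (d1 : ∀ z ∈ segment ℝ P P1, z ∉ segment ℝ P2 Q2)
    (d2 : ∀ z ∈ segment ℝ Q Q1, z ∉ segment ℝ P2 Q2)
    (d3 : ∀ z ∈ segment ℝ P P1, z ∉ segment ℝ Q Q2)
    (d4 : ∀ z ∈ segment ℝ Q Q1, z ∉ segment ℝ P P2)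
    (d5 : ∀ z ∈ segment ℝ P P2, z ∉ segment ℝ P1 Q1)
    (d6 : ∀ z ∈ segment ℝ Q Q2, z ∉ segment ℝ P1 Q1) :
    cr (P1 - P) (Q - P) * cr (P2 - P) (Q - P) ≤ 0 := by
  by_contra hc
  push Not at hc
  rcases pos_and_pos_or_neg_and_neg_of_mul_pos hc with ⟨h1, h2⟩ | ⟨h1, h2⟩
  · rcases le_total (cr (P2 - P) (Q - P)) (cr (P1 - P) (Q - P)) with h | h
    · exact side_aux e1 e2 n1 d1 d2 d3 d4 h1 h2 h
    · exact side_aux e2 e1 (fun z h h' => n1 z h' h) d5 d6 (fun z h h' => d4 z h' h)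
        (fun z h h' => d3 z h' h) h2 h1 h
  · have f1 : cr (Q1 - Q) (P - Q) = -cr (P1 - P) (Q - P) := by
      rw [← e1]; simp [cr]; ring
    have f2 : cr (Q2 - Q) (P - Q) = -cr (P2 - P) (Q - P) := by
      rw [← e2]; simp [cr]; ring
    rcases le_total (cr (P2 - P) (Q - P)) (cr (P1 - P) (Q - P)) with h | h
    · exact side_aux (P := Q) (Q := P) e2.symm e1.symm (fun z h h' => n2 z h' h)
        (fun z h h' => d6 z h (by rwa [segment_symm])) (fun z h h' => d5 z h (by rwa [segment_symm]))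
        (fun z h h' => d3 z h' h) (fun z h h' => d4 z h' h)
        (by rw [f2]; linarith) (by rw [f1]; linarith) (by rw [f1, f2]; linarith)
    · exact side_aux (P := Q) (Q := P) e1.symm e2.symm n2
        (fun z h h' => d2 z h (by rwa [segment_symm])) (fun z h h' => d1 z h (by rwa [segment_symm]))
        d4 d3 (by rw [f1]; linarith) (by rw [f2]; linarith) (by rw [f1, f2]; linarith)

theorem side_strict {P Q P1 Q1 P2 Q2 : ℂ} (e1 : P1 - P = Q1 - Q) (e2 : P2 - P = Q2 - Q)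
    (n1 : ∀ z ∈ segment ℝ P P1, z ∈ segment ℝ P P2 → z = P)
    (n2 : ∀ z ∈ segment ℝ Q Q1, z ∈ segment ℝ Q Q2 → z = Q)
    (d1 : ∀ z ∈ segment ℝ P P1, z ∉ segment ℝ P2 Q2)
    (d2 : ∀ z ∈ segment ℝ Q Q1, z ∉ segment ℝ P2 Q2)
    (d3 : ∀ z ∈ segment ℝ P P1, z ∉ segment ℝ Q Q2)
    (d4 : ∀ z ∈ segment ℝ Q Q1, z ∉ segment ℝ P P2)
    (d5 : ∀ z ∈ segment ℝ P P2, z ∉ segment ℝ P1 Q1)
    (d6 : ∀ z ∈ segment ℝ Q Q2, z ∉ segment ℝ P1 Q1)
    (h0 : cr (P1 - P) (Q - P) ≠ 0) (hle : ‖Q - P‖ ≤ ‖P2 - P‖) :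
    cr (P1 - P) (Q - P) * cr (P2 - P) (Q - P) < 0 := by
  refine lt_of_le_of_ne (side e1 e2 n1 n2 d1 d2 d3 d4 d5 d6) (mul_ne_zero h0 ?_)
  intro h
  have hv0 : Q - P ≠ 0 := by
    intro h'
    rw [h'] at h0
    simp [cr] at h0
  have hk := par hv0 h
  set k := dt (Q - P) (P2 - P) / dt (Q - P) (Q - P) with hkd
  have hn := pos_of_ne hv0
  have hk1 : 1 ≤ k ^ 2 := by
    rw [norm_le_iff, hk] at hle
    have f : ((k : ℂ) * (Q - P)).re * ((k : ℂ) * (Q - P)).re +
        ((k : ℂ) * (Q - P)).im * ((k : ℂ) * (Q - P)).im =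
        k ^ 2 * ((Q - P).re * (Q - P).re + (Q - P).im * (Q - P).im) := by
      simp; ring
    rw [f] at hle
    exact le_of_mul_le_mul_right (by linarith) hn
  have hQ : Q = P + (Q - P) := by ring
  have hP2 : P2 = P + (k : ℂ) * (Q - P) := by rw [← hk]; ring
  have hQ2 : Q2 = Q + (k : ℂ) * (Q - P) := by rw [← hk, e2]; ring
  rcases le_or_gt 0 k with hk0 | hk0
  · have hk1' : 1 ≤ k := by nlinarith
    have hkn : (k : ℂ) ≠ 0 := by
      have : k ≠ 0 := by linarith
      exact_mod_cast this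
    refine d4 Q (left_mem_segment ℝ Q Q1) (mem_seg (1 / k) (by positivity) ?_ ?_)
    · rw [div_le_one (by linarith)]; exact hk1'
    · rw [hP2]
      push_cast
      field_simp
      ring
  · have hk1' : 1 ≤ -k := by nlinarith
    have hkn : (k : ℂ) ≠ 0 := by exact_mod_cast hk0.ne
    refine d3 P (left_mem_segment ℝ P P1) (mem_seg (1 / (-k)) ?_ ?_ ?_)
    · exact div_nonneg zero_le_one (by linarith)
    · rw [div_le_one (by linarith)]; exact hk1'
    · rw [hQ2]
      push_cast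
      field_simp
      ring

end Rig
end LockPl
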