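import Pool.Agent.Lib.MP_14e06f_lc.Plane.RigidA

set_option autoImplicit false

/-!
# Rigidity of the mesh, part B: plates
-/

namespace LockPl
namespace Rig

open Complex

/-- bars without orientation -/
def SBar (m : Mesh) (u v : Vtx) (d : ℕ) : Prop := Bar m u v d ∨ Bar m v u d

theorem SBar.symm {m : Mesh} {u v : Vtx} {d : ℕ} (h : SBar m u v d) : SBar m v u d := Or.symm h

/-- a configuration of the linkage -/
structure Conf (m : Mesh) (p : Vtx → ℂ) : Prop where
  len : ∀ u v d, Bar m u v d → dist (p u) (p v) = d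
  nc : NC m p

variable {m : Mesh} {p : Vtx → ℂ}

theorem Conf.slen (c : Conf m p) {u v : Vtx} {d : ℕ} (h : SBar m u v d) :
    ‖p v - p u‖ = d := by
  rcases h with h | h
  · have := c.len _ _ _ h
    rwa [dist_comm, dist_eq_norm] at this
  · have := c.len _ _ _ h
    rwa [dist_eq_norm] at this

theorem Conf.disj (c : Conf m p) {u v x y : Vtx} {d e : ℕ} (h : SBar m u v d)
    (h' : SBar m x y e) (hux : u ≠ x) (huy : u ≠ y) (hvx : v ≠ x) (hvy : v ≠ y) :
    ∀ z ∈ segment ℝ (p u) (p v), z ∉ segment ℝ (p x) (p y) := by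
  intro z hz hz'
  have key : ∀ u v x y : Vtx, Bar m u v d → Bar m x y e → u ≠ x → u ≠ y → v ≠ x → v ≠ y →
      z ∈ segment ℝ (p u) (p v) → z ∈ segment ℝ (p x) (p y) → False := by
    intro u v x y h h' hux huy hvx hvy hz hz'
    obtain ⟨w, h1, h2, -⟩ := c.nc u v d x y e h h'
      (by
        intro he
        rw [Sym2.eq_iff] at he
        rcases he with he | he
        · exact hux he.1
        · exact huy he.1) z hz hz'
    rcases h1 with h1 | h1 <;> rcases h2 with h2 | h2 <;> subst h1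
    · exact hux h2
    · exact huy h2
    · exact hvx h2
    · exact hvy h2
  rcases h with h | h <;> rcases h' with h' | h'
  · exact key _ _ _ _ h h' hux huy hvx hvy hz hz'
  · exact key _ _ _ _ h h' huy hux hvy hvx hz (by rwa [segment_symm])
  · exact key _ _ _ _ h h' hvx hvy hux huy (by rwa [segment_symm]) hz'
  · exact key _ _ _ _ h h' hvy hvx huy hux (by rwa [segment_symm]) (by rwa [segment_symm])

theorem Conf.share (c : Conf m p) {u v y : Vtx} {d e : ℕ} (h : SBar m u v d)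
    (h' : SBar m u y e) (hvy : v ≠ y) :
    ∀ z ∈ segment ℝ (p u) (p v), z ∈ segment ℝ (p u) (p y) → z = p u := by
  intro z hz hz'
  have key : ∀ a b x y' : Vtx, Bar m a b d → Bar m x y' e → s(a, b) = s(u, v) →
      s(x, y') = s(u, y) → z ∈ segment ℝ (p a) (p b) → z ∈ segment ℝ (p x) (p y') →
      z = p u := by
    intro a b x y' hab hxy e1 e2 hz hz'
    obtain ⟨w, h1, h2, h3⟩ := c.nc a b d x y' e hab hxy
      (by
        rw [e1, e2]
        intro he
        rw [Sym2.eq_iff] at he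
        rcases he with he | he
        · exact hvy he.2
        · exact hvy (he.2.trans he.1)) z hz hz'
    have w1 : w ∈ s(u, v) := by rw [← e1, Sym2.mem_iff]; exact h1
    have w2 : w ∈ s(u, y) := by rw [← e2, Sym2.mem_iff]; exact h2
    rw [Sym2.mem_iff] at w1 w2
    rcases w1 with w1 | w1
    · rw [h3, w1]
    · rcases w2 with w2 | w2
      · rw [h3, w2]
      · exact absurd (w1.symm.trans w2) hvy
  rcases h with h | h <;> rcases h' with h' | h'
  · exact key _ _ _ _ h h' rfl rfl hz hz'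
  · exact key _ _ _ _ h h' rfl Sym2.eq_swap hz (by rwa [segment_symm])
  · exact key _ _ _ _ h h' Sym2.eq_swap rfl (by rwa [segment_symm]) hz'
  · exact key _ _ _ _ h h' Sym2.eq_swap Sym2.eq_swap (by rwa [segment_symm])
      (by rwa [segment_symm])

theorem Conf.para (c : Conf m p) {P Q R S : Vtx} {w h : ℕ} (h1 : SBar m P Q w)
    (h2 : SBar m S R w) (h3 : SBar m P S h) (h4 : SBar m Q R h) (hne : w ≠ h)
    (nd : [P, Q, R, S].Nodup) : p R - p Q = p S - p P := by
  simp only [List.nodup_cons, List.mem_cons, List.not_mem_nil, not_or, not_false_eq_true,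
    or_false, List.nodup_nil, and_true] at nd
  obtain ⟨⟨n1, n2, n3⟩, ⟨n4, n5⟩, n6⟩ := nd
  refine Rig.para ?_ ?_ ?_ ?_ ?_
  · rw [c.slen h1, c.slen h2]
  · rw [c.slen h3, c.slen h4]
  · rw [c.slen h1, c.slen h3]
    exact_mod_cast hne
  · exact c.disj h3 h4 n1 n2 (Ne.symm n5) (Ne.symm n6)
  · exact c.disj h1 h2 n3 n2 n5 n4

theorem Conf.side (c : Conf m p) {P Q P1 Q1 P2 Q2 : Vtx} {d1 d2 d3 d4 d5 d6 : ℕ}
    (h1 : SBar m P P1 d1) (h2 : SBar m Q Q1 d2) (h3 : SBar m P1 Q1 d3)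
    (h4 : SBar m P P2 d4) (h5 : SBar m Q Q2 d5) (h6 : SBar m P2 Q2 d6)
    (nd : [P, Q, P1, Q1, P2, Q2].Nodup) (e1 : p P1 - p P = p Q1 - p Q)
    (e2 : p P2 - p P = p Q2 - p Q) :
    cr (p P1 - p P) (p Q - p P) * cr (p P2 - p P) (p Q - p P) ≤ 0 := by
  simp only [List.nodup_cons, List.mem_cons, List.not_mem_nil, not_or, not_false_eq_true,
    or_false, List.nodup_nil, and_true] at nd
  obtain ⟨⟨a1, a2, a3, a4, a5⟩, ⟨b2, b3, b4, b5⟩, ⟨c3, c4, c5⟩, ⟨f4, f5⟩, g5⟩ := nd
  exact Rig.side e1 e2 (c.share h1 h4 c4) (c.share h2 h5 f5) (c.disj h1 h6 a4 a5 c4 c5)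
    (c.disj h2 h6 b4 b5 f4 f5) (c.disj h1 h5 a1 a5 (Ne.symm b2) c5)
    (c.disj h2 h4 (Ne.symm a1) b4 (Ne.symm a3) f4)
    (c.disj h4 h3 a2 a3 (Ne.symm c4) (Ne.symm f4))
    (c.disj h5 h3 b2 b3 (Ne.symm c5) (Ne.symm f5))

theorem Conf.side_strict (c : Conf m p) {P Q P1 Q1 P2 Q2 : Vtx} {d1 d2 d3 d4 d5 d6 : ℕ}
    (h1 : SBar m P P1 d1) (h2 : SBar m Q Q1 d2) (h3 : SBar m P1 Q1 d3)
    (h4 : SBar m P P2 d4) (h5 : SBar m Q Q2 d5) (h6 : SBar m P2 Q2 d6)
    (nd : [P, Q, P1, Q1, P2, Q2].Nodup) (e1 : p P1 - p P = p Q1 - p Q)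
    (e2 : p P2 - p P = p Q2 - p Q) (h0 : cr (p P1 - p P) (p Q - p P) ≠ 0)
    (hle : ‖p Q - p P‖ ≤ ‖p P2 - p P‖) :
    cr (p P1 - p P) (p Q - p P) * cr (p P2 - p P) (p Q - p P) < 0 := by
  simp only [List.nodup_cons, List.mem_cons, List.not_mem_nil, not_or, not_false_eq_true,
    or_false, List.nodup_nil, and_true] at nd
  obtain ⟨⟨a1, a2, a3, a4, a5⟩, ⟨b2, b3, b4, b5⟩, ⟨c3, c4, c5⟩, ⟨f4, f5⟩, g5⟩ := nd
  exact Rig.side_strict e1 e2 (c.share h1 h4 c4) (c.share h2 h5 f5) (c.disj h1 h6 a4 a5 c4 c5)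
    (c.disj h2 h6 b4 b5 f4 f5) (c.disj h1 h5 a1 a5 (Ne.symm b2) c5)
    (c.disj h2 h4 (Ne.symm a1) b4 (Ne.symm a3) f4)
    (c.disj h4 h3 a2 a3 (Ne.symm c4) (Ne.symm f4))
    (c.disj h5 h3 b2 b3 (Ne.symm c5) (Ne.symm f5)) h0 hle

/-- The right angle of a cell from its diagonal. -/
theorem Conf.right (c : Conf m p) {P Q R S : Vtx} {w h d : ℕ} (h1 : SBar m P Q w)
    (h3 : SBar m P S h) (h5 : SBar m P R d) (hp : p R - p Q = p S - p P)
    (hd : d * d = w * w + h * h) : dt (p Q - p P) (p S - p P) = 0 := by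
  have a1 := c.slen h1
  have a3 := c.slen h3
  have a5 := c.slen h5
  have e : p R - p P = (p Q - p P) + (p S - p P) := by rw [← hp]; ring
  rw [e] at a5
  have b1 := sq_norm' (p Q - p P)
  have b3 := sq_norm' (p S - p P)
  have b5 := sq_norm' ((p Q - p P) + (p S - p P))
  rw [a1] at b1
  rw [a3] at b3
  rw [a5] at b5
  have hd' : (d : ℝ) * d = w * w + h * h := by exact_mod_cast hd
  simp only [Complex.add_re, Complex.add_im] at b5
  simp only [dt]
  nlinarith

/-- A vector of length `h` orthogonal to `w`, `‖w‖ = k`. -/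
theorem perp_unit {w s : ℂ} {k h : ℝ} (hk : 0 < k) (hw : ‖w‖ = k) (hs : ‖s‖ = h)
    (hd : dt w s = 0) : ∃ ε : ℝ, (ε = 1 ∨ ε = -1) ∧ s = w / k * (ε * h * I) := by
  have hw0 : w ≠ 0 := by
    intro h
    rw [h, norm_zero] at hw
    linarith
  have h1 := perp hw0 hd
  set t := cr w s / dt w w
  have hdw : dt w w = k ^ 2 := by
    rw [← hw, sq_norm', dt]
  have hn : ‖s‖ = |t| * k := by
    rw [h1, norm_mul, norm_mul, Complex.norm_I, one_mul, hw, Complex.norm_real, Real.norm_eq_abs]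
  rw [hs] at hn
  rcases le_or_gt 0 t with ht | ht
  · refine ⟨1, Or.inl rfl, ?_⟩
    rw [abs_of_nonneg ht] at hn
    rw [h1, hn]
    have : (k : ℂ) ≠ 0 := by exact_mod_cast hk.ne'
    push_cast
    field_simp
  · refine ⟨-1, Or.inr rfl, ?_⟩
    rw [abs_of_neg ht] at hn
    rw [h1, hn]
    have : (k : ℂ) ≠ 0 := by exact_mod_cast hk.ne'
    push_cast
    field_simp

theorem lineY_succ {l : ℕ} (hl : l < 5) : lineY (l + 1) = lineY l + hgt l := by
  interval_cases l <;> norm_num [lineY, hgt]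

theorem dg_sq {l : ℕ} (hl : l < 5) : dg l * dg l = 480 * 480 + hgt l * hgt l := by
  interval_cases l <;> norm_num [dg, hgt]

theorem hgt_pos {l : ℕ} : (0 : ℝ) < hgt l := by
  unfold hgt
  split <;> norm_num

theorem hgt_ne {l : ℕ} : 480 ≠ hgt l := by
  unfold hgt
  split <;> norm_num

theorem cr_e (e : ℂ) (a b : ℝ) : cr (e * (a * I)) (e * b) = -(a * b) * ‖e‖ ^ 2 := by
  rw [sq_norm']
  simp [cr]
  ring

/-- Plates are rigid. -/
theorem Conf.plate (c : Conf m p) {i j : ℕ} (hi : i ≤ m.N) (hj : j ≤ m.M) :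
    ∃ (e : ℂ) (ε : ℝ), ‖e‖ = 1 ∧ (ε = 1 ∨ ε = -1) ∧ ∀ l < 6, ∀ k < 2,
      p (i, j, 2 * l + k) = p (i, j, 0) + e * (480 * k + ε * lineY l * I) := by
  have bH : ∀ l < 6, SBar m (i, j, 2 * l) (i, j, 2 * l + 1) 480 := fun l hl =>
    Or.inl (Bar.plateH hi hj hl)
  have bV : ∀ l < 5, SBar m (i, j, 2 * l) (i, j, 2 * (l + 1)) (hgt l) := fun l hl =>
    Or.inl (Bar.plateV (c := 0) hi hj hl (by norm_num))
  have bV' : ∀ l < 5, SBar m (i, j, 2 * l + 1) (i, j, 2 * (l + 1) + 1) (hgt l) := fun l hl =>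
    Or.inl (Bar.plateV (c := 1) hi hj hl (by norm_num))
  have bD : ∀ l < 5, SBar m (i, j, 2 * l) (i, j, 2 * (l + 1) + 1) (dg l) := fun l hl =>
    Or.inl (Bar.plateD hi hj hl)
  have par : ∀ l < 5, p (i, j, 2 * (l + 1) + 1) - p (i, j, 2 * l + 1) =
      p (i, j, 2 * (l + 1)) - p (i, j, 2 * l) := fun l hl =>
    c.para (bH l (by omega)) (bH (l + 1) (by omega)) (bV l hl) (bV' l hl) hgt_ne
      (by simp; omega)
  have hw : ∀ l < 6, p (i, j, 2 * l + 1) - p (i, j, 2 * l) = p (i, j, 1) - p (i, j, 0) := by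
    intro l hl
    induction l with
    | zero => rfl
    | succ l ih =>
      rw [← ih (by omega)]
      linear_combination par l (by omega)
  have hperp : ∀ l < 5, dt (p (i, j, 1) - p (i, j, 0))
      (p (i, j, 2 * (l + 1)) - p (i, j, 2 * l)) = 0 := by
    intro l hl
    rw [← hw l (by omega)]
    exact c.right (bH l (by omega)) (bV l hl) (bD l hl) (par l hl) (dg_sq hl)
  have hwn : ‖p (i, j, 1) - p (i, j, 0)‖ = 480 := by
    have := c.slen (bH 0 (by norm_num))
    simpa using this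
  set w := p (i, j, 1) - p (i, j, 0) with hwdef
  have hsn : ∀ l < 5, ‖p (i, j, 2 * (l + 1)) - p (i, j, 2 * l)‖ = hgt l := fun l hl =>
    c.slen (bV l hl)
  have hex : ∀ l < 5, ∃ ε : ℝ, (ε = 1 ∨ ε = -1) ∧
      p (i, j, 2 * (l + 1)) - p (i, j, 2 * l) = w / (480 : ℝ) * (ε * (hgt l : ℝ) * I) :=
    fun l hl => perp_unit (by norm_num) hwn (hsn l hl) (hperp l hl)
  obtain ⟨ε, hε, h0⟩ := hex 0 (by norm_num)
  set e := w / (480 : ℝ) with he
  have hen : ‖e‖ = 1 := by
    rw [he, norm_div, hwn]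
    norm_num
  have hwe : w = e * (480 : ℝ) := by
    rw [he]; push_cast; field_simp
  have hall : ∀ l < 5, p (i, j, 2 * (l + 1)) - p (i, j, 2 * l) =
      e * (ε * (hgt l : ℝ) * I) := by
    intro l hl
    induction l with
    | zero => exact h0
    | succ l ih =>
      have ih := ih (by omega)
      obtain ⟨ε', hε', h1⟩ := hex (l + 1) hl
      have hs := c.side (P := (i, j, 2 * (l + 1))) (Q := (i, j, 2 * (l + 1) + 1))
        (P1 := (i, j, 2 * l)) (Q1 := (i, j, 2 * l + 1)) (P2 := (i, j, 2 * (l + 1 + 1)))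
        (Q2 := (i, j, 2 * (l + 1 + 1) + 1)) (bV l (by omega)).symm (bV' l (by omega)).symm
        (bH l (by omega)) (bV (l + 1) hl) (bV' (l + 1) hl) (bH (l + 1 + 1) (by omega))
        (by simp; omega) (by linear_combination par l (by omega))
        (by linear_combination -(par (l + 1) hl))
      rw [hw (l + 1) (by omega), h1, hwe] at hs
      have e3 : p (i, j, 2 * l) - p (i, j, 2 * (l + 1)) =
          e * (((-(ε * hgt l) : ℝ) : ℂ) * I) := by
        push_cast
        linear_combination -ih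
      have e4 : e * ((ε' : ℂ) * ((hgt (l + 1) : ℝ) : ℂ) * I) =
          e * (((ε' * hgt (l + 1) : ℝ) : ℂ) * I) := by
        push_cast; ring
      rw [e3, e4, cr_e, cr_e, hen] at hs
      have p1 := hgt_pos (l := l)
      have p2 := hgt_pos (l := l + 1)
      have p3 := mul_pos p1 p2
      have : ε' = ε := by
        rcases hε with h | h <;> rcases hε' with h' | h' <;> rw [h, h'] <;> rw [h, h'] at hs
        · exfalso; nlinarith
        · exfalso; nlinarith
      rw [h1, this]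
  refine ⟨e, ε, hen, hε, ?_⟩
  have hbase : ∀ l < 6, p (i, j, 2 * l) = p (i, j, 0) + e * (ε * lineY l * I) := by
    intro l hl
    induction l with
    | zero => simp [lineY]
    | succ l ih =>
      have ih := ih (by omega)
      have h1 := hall l (by omega)
      rw [lineY_succ (by omega)]
      push_cast
      push_cast at h1
      linear_combination h1 + ih
  intro l hl k hk
  interval_cases k
  · simpa using hbase l hl
  · have h1 := hw l hl
    have h2 := hbase l hl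
    rw [hwe] at h1
    push_cast at h1 ⊢
    linear_combination h1 + h2

/-- A plate in standard position (up to a translation). -/
def PlateAt (p : Vtx → ℂ) (i j : ℕ) : Prop :=
  ∀ l < 6, ∀ k < 2, p (i, j, 2 * l + k) = p (i, j, 0) + (480 * k + lineY l * I)

theorem Conf.plateAt (c : Conf m p) {i j : ℕ} (hi : i ≤ m.N) (hj : j ≤ m.M) {l : ℕ}
    (hl : l < 6) (h1 : 0 < (p (i, j, 2 * l + 1) - p (i, j, 2 * l)).re)
    (h1' : (p (i, j, 2 * l + 1) - p (i, j, 2 * l)).im = 0) {l' : ℕ} (hl' : l' < 5)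
    (h2 : 0 < (p (i, j, 2 * (l' + 1)) - p (i, j, 2 * l')).im) : PlateAt p i j := by
  obtain ⟨e, ε, hen, hε, h⟩ := c.plate hi hj
  have a1 : p (i, j, 2 * l + 1) - p (i, j, 2 * l) = e * (480 : ℝ) := by
    have b1 := h l hl 1 (by norm_num)
    have b0 := h l hl 0 (by norm_num)
    push_cast at b1 b0 ⊢
    linear_combination b1 - b0
  have a2 : p (i, j, 2 * (l' + 1)) - p (i, j, 2 * l') = e * (((ε * hgt l' : ℝ) : ℂ) * I) := by
    have b1 := h (l' + 1) (by omega) 0 (by norm_num)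
    have b0 := h l' (by omega) 0 (by norm_num)
    rw [lineY_succ hl'] at b1
    push_cast at b1 b0 ⊢
    linear_combination b1 - b0
  rw [a1] at h1 h1'
  rw [a2] at h2
  simp at h1 h1' h2
  have hn := sq_norm' e
  rw [hen, h1'] at hn
  have he1 : e.re = 1 := by nlinarith
  have he : e = 1 := by apply Complex.ext <;> simp [he1, h1']
  rw [he1, one_mul] at h2
  have hε1 : ε = 1 := by
    rcases hε with h | h
    · exact h
    · rw [h] at h2
      have := hgt_pos (l := l')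
      linarith
  intro l hl k hk
  rw [h l hl k hk, he, hε1]
  push_cast
  ring

end Rig
end LockPl
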