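import Pool.Agent.Lib.MP_14e06f_lc.Plane.RigidB

set_option autoImplicit false

/-!
# Rigidity of the mesh, part C: cranks and stops
-/

namespace LockPl
namespace Rig

open Complex

variable {m : Mesh} {p : Vtx → ℂ}

theorem PlateAt.v1 {i j : ℕ} (h : PlateAt p i j) : p (i, j, 1) = p (i, j, 0) + 480 := by
  have := h 0 (by norm_num) 1 (by norm_num)
  norm_num [lineY] at this
  exact this

theorem PlateAt.v2 {i j : ℕ} (h : PlateAt p i j) : p (i, j, 2) = p (i, j, 0) + 1400 * I := by
  have := h 1 (by norm_num) 0 (by norm_num)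
  norm_num [lineY] at this
  exact this

theorem PlateAt.v3 {i j : ℕ} (h : PlateAt p i j) :
    p (i, j, 3) = p (i, j, 0) + (480 + 1400 * I) := by
  have := h 1 (by norm_num) 1 (by norm_num)
  norm_num [lineY] at this
  exact this

theorem PlateAt.v4 {i j : ℕ} (h : PlateAt p i j) : p (i, j, 4) = p (i, j, 0) + 2800 * I := by
  have := h 2 (by norm_num) 0 (by norm_num)
  norm_num [lineY] at this
  exact this

theorem PlateAt.v5 {i j : ℕ} (h : PlateAt p i j) :
    p (i, j, 5) = p (i, j, 0) + (480 + 2800 * I) := by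
  have := h 2 (by norm_num) 1 (by norm_num)
  norm_num [lineY] at this
  exact this

theorem PlateAt.v6 {i j : ℕ} (h : PlateAt p i j) : p (i, j, 6) = p (i, j, 0) + 3000 * I := by
  have := h 3 (by norm_num) 0 (by norm_num)
  norm_num [lineY] at this
  exact this

theorem PlateAt.v7 {i j : ℕ} (h : PlateAt p i j) :
    p (i, j, 7) = p (i, j, 0) + (480 + 3000 * I) := by
  have := h 3 (by norm_num) 1 (by norm_num)
  norm_num [lineY] at this
  exact this

theorem PlateAt.v8 {i j : ℕ} (h : PlateAt p i j) : p (i, j, 8) = p (i, j, 0) + 4400 * I := by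
  have := h 4 (by norm_num) 0 (by norm_num)
  norm_num [lineY] at this
  exact this

theorem PlateAt.v9 {i j : ℕ} (h : PlateAt p i j) :
    p (i, j, 9) = p (i, j, 0) + (480 + 4400 * I) := by
  have := h 4 (by norm_num) 1 (by norm_num)
  norm_num [lineY] at this
  exact this

theorem PlateAt.v10 {i j : ℕ} (h : PlateAt p i j) : p (i, j, 10) = p (i, j, 0) + 5800 * I := by
  have := h 5 (by norm_num) 0 (by norm_num)
  norm_num [lineY] at this
  exact this

theorem PlateAt.v11 {i j : ℕ} (h : PlateAt p i j) :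
    p (i, j, 11) = p (i, j, 0) + (480 + 5800 * I) := by
  have := h 5 (by norm_num) 1 (by norm_num)
  norm_num [lineY] at this
  exact this

/-! ### bars with numerals -/

theorem bH {i j : ℕ} (hi : i ≤ m.N) (hj : j ≤ m.M) (l : ℕ) (hl : l < 6) :
    SBar m (i, j, 2 * l) (i, j, 2 * l + 1) 480 := Or.inl (Bar.plateH hi hj hl)

theorem bV {i j : ℕ} (hi : i ≤ m.N) (hj : j ≤ m.M) (l k : ℕ) (hl : l < 5) (hk : k < 2) :
    SBar m (i, j, 2 * l + k) (i, j, 2 * (l + 1) + k) (hgt l) := Or.inl (Bar.plateV hi hj hl hk)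

theorem bD {i j : ℕ} (hi : i ≤ m.N) (hj : j ≤ m.M) (l : ℕ) (hl : l < 5) :
    SBar m (i, j, 2 * l) (i, j, 2 * (l + 1) + 1) (dg l) := Or.inl (Bar.plateD hi hj hl)

theorem b54 {i j : ℕ} (hi : i ≤ m.N) (hj : j < m.M) :
    SBar m (i, j, 5) (i, j + 1, 4) 3400 := Or.inl (Bar.crankH (l := 2) hi hj (Or.inl rfl))

theorem b76 {i j : ℕ} (hi : i ≤ m.N) (hj : j < m.M) :
    SBar m (i, j, 7) (i, j + 1, 6) 3400 := Or.inl (Bar.crankH (l := 3) hi hj (Or.inr rfl))

theorem b57 {i j : ℕ} (hi : i ≤ m.N) (hj : j ≤ m.M) : SBar m (i, j, 5) (i, j, 7) 200 :=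
  bV hi hj 2 1 (by norm_num) (by norm_num)

theorem b46 {i j : ℕ} (hi : i ≤ m.N) (hj : j ≤ m.M) : SBar m (i, j, 4) (i, j, 6) 200 :=
  bV hi hj 2 0 (by norm_num) (by norm_num)

theorem b45 {i j : ℕ} (hi : i ≤ m.N) (hj : j ≤ m.M) : SBar m (i, j, 4) (i, j, 5) 480 :=
  bH hi hj 2 (by norm_num)

theorem b67 {i j : ℕ} (hi : i ≤ m.N) (hj : j ≤ m.M) : SBar m (i, j, 6) (i, j, 7) 480 :=
  bH hi hj 3 (by norm_num)

theorem b1011 {i j : ℕ} (hi : i ≤ m.N) (hj : j ≤ m.M) : SBar m (i, j, 10) (i, j, 11) 480 :=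
  bH hi hj 5 (by norm_num)

theorem b89 {i j : ℕ} (hi : i ≤ m.N) (hj : j ≤ m.M) : SBar m (i, j, 8) (i, j, 9) 480 :=
  bH hi hj 4 (by norm_num)

theorem b01 {i j : ℕ} (hi : i ≤ m.N) (hj : j ≤ m.M) : SBar m (i, j, 0) (i, j, 1) 480 :=
  bH hi hj 0 (by norm_num)

theorem b23 {i j : ℕ} (hi : i ≤ m.N) (hj : j ≤ m.M) : SBar m (i, j, 2) (i, j, 3) 480 :=
  bH hi hj 1 (by norm_num)

theorem b02 {i j : ℕ} (hi : i ≤ m.N) (hj : j ≤ m.M) : SBar m (i, j, 0) (i, j, 2) 1400 :=
  bV hi hj 0 0 (by norm_num) (by norm_num)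

theorem b13 {i j : ℕ} (hi : i ≤ m.N) (hj : j ≤ m.M) : SBar m (i, j, 1) (i, j, 3) 1400 :=
  bV hi hj 0 1 (by norm_num) (by norm_num)

theorem b810 {i j : ℕ} (hi : i ≤ m.N) (hj : j ≤ m.M) : SBar m (i, j, 8) (i, j, 10) 1400 :=
  bV hi hj 4 0 (by norm_num) (by norm_num)

theorem b911 {i j : ℕ} (hi : i ≤ m.N) (hj : j ≤ m.M) : SBar m (i, j, 9) (i, j, 11) 1400 :=
  bV hi hj 4 1 (by norm_num) (by norm_num)

theorem b811 {i j : ℕ} (hi : i ≤ m.N) (hj : j ≤ m.M) : SBar m (i, j, 8) (i, j, 11) 1480 :=
  bD hi hj 4 (by norm_num)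

theorem b100 {i j : ℕ} (hi : i < m.N) (hj : j ≤ m.M) :
    SBar m (i, j, 10) (i + 1, j, 0) 3400 := Or.inl (Bar.crankV (c := 0) hi hj (by norm_num))

theorem b111 {i j : ℕ} (hi : i < m.N) (hj : j ≤ m.M) :
    SBar m (i, j, 11) (i + 1, j, 1) 3400 := Or.inl (Bar.crankV (c := 1) hi hj (by norm_num))

theorem b512 {i j : ℕ} (hi : i ≤ m.N) (hj : j < m.M) :
    SBar m (i, j, 5) (i, j, 12) 505 := Or.inl (Bar.stopH (l := 2) hi hj (Or.inl rfl))

theorem b712 {i j : ℕ} (hi : i ≤ m.N) (hj : j < m.M) :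
    SBar m (i, j, 7) (i, j, 12) 505 := Or.inl (Bar.stopH (l := 3) hi hj (Or.inr rfl))

theorem b1013 {i j : ℕ} (hi : i < m.N) (hj : j ≤ m.M) :
    SBar m (i, j, 10) (i, j, 13) 1212 := Or.inl (Bar.stopV (c := 0) hi hj (by norm_num))

theorem b1113 {i j : ℕ} (hi : i < m.N) (hj : j ≤ m.M) :
    SBar m (i, j, 11) (i, j, 13) 1212 := Or.inl (Bar.stopV (c := 1) hi hj (by norm_num))

/-! ### neighbouring plates -/

/-- the crank vector between the plates `(i, j)` and `(i, j + 1)` -/
def av (p : Vtx → ℂ) (i j : ℕ) : ℂ := p (i, j + 1, 4) - p (i, j, 5)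

/-- the crank vector between the plates `(i, j)` and `(i + 1, j)` -/
def bv (p : Vtx → ℂ) (i j : ℕ) : ℂ := p (i + 1, j, 0) - p (i, j, 10)

theorem Conf.hor (c : Conf m p) {i j : ℕ} (hi : i ≤ m.N) (hj : j < m.M) (h : PlateAt p i j) :
    PlateAt p i (j + 1) ∧ 0 < (av p i j).re ∧ p (i, j + 1, 6) - p (i, j, 7) = av p i j := by
  have hj1 : j + 1 ≤ m.M := hj
  have par := c.para (b54 hi hj) (b76 hi hj) (b57 hi hj.le) (b46 hi hj1) (by norm_num)
    (by simp)
  have e57 : p (i, j, 7) - p (i, j, 5) = 200 * I := by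
    rw [h.v7, h.v5]; ring
  rw [e57] at par
  have e46 : p (i, j, 4) - p (i, j, 5) = -480 := by rw [h.v4, h.v5]; ring
  have hcr : p (i, j + 1, 6) - p (i, j, 7) = av p i j := by
    simp only [av]
    linear_combination par - e57
  have s1 := c.side_strict (P := (i, j, 5)) (Q := (i, j, 7)) (P1 := (i, j, 4))
    (Q1 := (i, j, 6)) (P2 := (i, j + 1, 4)) (Q2 := (i, j + 1, 6)) (b45 hi hj.le).symm
    (b67 hi hj.le).symm (b46 hi hj.le) (b54 hi hj) (b76 hi hj) (b46 hi hj1)
    (by simp) (by rw [h.v4, h.v5, h.v6, h.v7]; ring) hcr.symm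
    (by rw [e46, e57]; norm_num [cr])
    (by rw [c.slen (b57 hi hj.le), c.slen (b54 hi hj)]; norm_num)
  rw [e46, e57] at s1
  have ha : 0 < (av p i j).re := by
    have : (p (i, j + 1, 4) - p (i, j, 5)) = av p i j := rfl
    rw [this] at s1
    simp [cr] at s1
    linarith
  obtain ⟨e, ε, hen, hε, hp⟩ := c.plate hi hj1
  have q4 := hp 2 (by norm_num) 0 (by norm_num)
  have q5 := hp 2 (by norm_num) 1 (by norm_num)
  have q6 := hp 3 (by norm_num) 0 (by norm_num)
  have q7 := hp 3 (by norm_num) 1 (by norm_num)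
  norm_num [lineY] at q4 q5 q6 q7
  have d45 : p (i, j + 1, 5) - p (i, j + 1, 4) = e * 480 := by rw [q5, q4]; ring
  have d46 : p (i, j + 1, 6) - p (i, j + 1, 4) = e * (ε * 200 * I) := by rw [q6, q4]; ring
  have he : e * ε = 1 := by
    rw [d46] at par
    have h3 : (200 * I : ℂ) ≠ 0 := by simp
    apply mul_right_cancel₀ h3
    rw [← sub_eq_zero]
    linear_combination par
  have heε : e = ε := by
    rcases hε with h | h
    · rw [h] at he ⊢; simpa using he
    · rw [h] at he ⊢
      push_cast at he ⊢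
      linear_combination -he
  have s2 := c.side_strict (P := (i, j + 1, 4)) (Q := (i, j + 1, 6)) (P1 := (i, j + 1, 5))
    (Q1 := (i, j + 1, 7)) (P2 := (i, j, 5)) (Q2 := (i, j, 7)) (b45 hi hj1)
    (b67 hi hj1) (b57 hi hj1) (b54 hi hj).symm (b76 hi hj).symm (b57 hi hj.le)
    (by simp) (by rw [q4, q5, q6, q7]; ring)
    (by simp only [av] at hcr; linear_combination hcr)
    (by
      rw [d45, par, heε]
      rcases hε with h | h <;> rw [h] <;> norm_num [cr])
    (by rw [c.slen (b46 hi hj1), c.slen (b54 hi hj).symm]; norm_num)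
  rw [d45, par, heε] at s2
  have hm : p (i, j, 5) - p (i, j + 1, 4) = -av p i j := by simp only [av]; ring
  rw [hm] at s2
  have hε1 : ε = 1 := by
    rcases hε with h | h
    · exact h
    · exfalso
      rw [h] at s2
      simp [cr] at s2
      nlinarith
  refine ⟨?_, ha, hcr⟩
  intro l hl k hk
  rw [hp l hl k hk, heε, hε1]
  push_cast
  ring

theorem Conf.ver (c : Conf m p) {i j : ℕ} (hi : i < m.N) (hj : j ≤ m.M) (h : PlateAt p i j) :
    PlateAt p (i + 1) j ∧ 0 < (bv p i j).im ∧ p (i + 1, j, 1) - p (i, j, 11) = bv p i j := by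
  have hi1 : i + 1 ≤ m.N := hi
  have par := c.para (b1011 hi.le hj) (b01 hi1 hj) (b100 hi hj) (b111 hi hj) (by norm_num)
    (by simp)
  have e1011 : p (i, j, 11) - p (i, j, 10) = 480 := by rw [h.v11, h.v10]; ring
  have e810 : p (i, j, 8) - p (i, j, 10) = -(1400 * I) := by rw [h.v8, h.v10]; ring
  have d01 : p (i + 1, j, 1) - p (i + 1, j, 0) = 480 := by linear_combination par + e1011
  have s1 := c.side_strict (P := (i, j, 10)) (Q := (i, j, 11)) (P1 := (i, j, 8))
    (Q1 := (i, j, 9)) (P2 := (i + 1, j, 0)) (Q2 := (i + 1, j, 1)) (b810 hi.le hj).symm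
    (b911 hi.le hj).symm (b89 hi.le hj) (b100 hi hj) (b111 hi hj) (b01 hi1 hj)
    (by simp) (by rw [h.v8, h.v10, h.v9, h.v11]; ring) par.symm
    (by rw [e810, e1011]; norm_num [cr])
    (by rw [c.slen (b1011 hi.le hj), c.slen (b100 hi hj)]; norm_num)
  rw [e810, e1011] at s1
  have hb : 0 < (bv p i j).im := by
    have : (p (i + 1, j, 0) - p (i, j, 10)) = bv p i j := rfl
    rw [this] at s1
    simp [cr] at s1
    linarith
  obtain ⟨e, ε, hen, hε, hp⟩ := c.plate hi1 hj
  have q1 := hp 0 (by norm_num) 1 (by norm_num)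
  have q2 := hp 1 (by norm_num) 0 (by norm_num)
  have q3 := hp 1 (by norm_num) 1 (by norm_num)
  norm_num [lineY] at q1 q2 q3
  have he : e = 1 := by
    have : e * 480 = 480 := by linear_combination d01 - q1
    have h3 : (480 : ℂ) ≠ 0 := by norm_num
    apply mul_right_cancel₀ h3
    rw [this]; ring
  rw [he] at q1 q2 q3
  have d02 : p (i + 1, j, 2) - p (i + 1, j, 0) = ε * 1400 * I := by rw [q2]; ring
  have s2 := c.side_strict (P := (i + 1, j, 0)) (Q := (i + 1, j, 1)) (P1 := (i + 1, j, 2))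
    (Q1 := (i + 1, j, 3)) (P2 := (i, j, 10)) (Q2 := (i, j, 11)) (b02 hi1 hj)
    (b13 hi1 hj) (b23 hi1 hj) (b100 hi hj).symm (b111 hi hj).symm (b1011 hi.le hj)
    (by simp) (by rw [q1, q2, q3]; ring)
    (by linear_combination par)
    (by
      rw [d02, d01]
      rcases hε with h | h <;> rw [h] <;> norm_num [cr])
    (by rw [c.slen (b01 hi1 hj), c.slen (b100 hi hj).symm]; norm_num)
  rw [d02, d01] at s2
  have hm : p (i, j, 10) - p (i + 1, j, 0) = -bv p i j := by simp only [bv]; ring
  rw [hm] at s2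
  have hε1 : ε = 1 := by
    rcases hε with h | h
    · exact h
    · exfalso
      rw [h] at s2
      simp [cr] at s2
      nlinarith
  refine ⟨?_, hb, by simp only [bv]; exact par⟩
  intro l hl k hk
  rw [hp l hl k hk, he, hε1]
  push_cast
  ring

/-! ### the stops -/

theorem stop_aux {x y : ℝ} (h1 : x * x + y * y = 505 * 505)
    (h2 : x * x + (y - 200) * (y - 200) = 505 * 505) : y = 100 ∧ (x = 495 ∨ x = -495) := by
  have hy : y = 100 := by nlinarith
  refine ⟨hy, ?_⟩
  have : (x - 495) * (x + 495) = 0 := by rw [hy] at h1; nlinarith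
  rcases mul_eq_zero.1 this with h | h
  · left; linarith
  · right; linarith

theorem Conf.stopH (c : Conf m p) {i j : ℕ} (hi : i ≤ m.N) (hj : j < m.M)
    (h : PlateAt p i j) : p (i, j, 12) = p (i, j, 5) + (495 + 100 * I) := by
  have n1 := c.slen (b512 hi hj)
  have n2 := c.slen (b712 hi hj)
  set z := p (i, j, 12) - p (i, j, 5) with hz
  have e : p (i, j, 12) - p (i, j, 7) = z - 200 * I := by
    rw [hz, h.v5, h.v7]; ring
  rw [e] at n2
  have m1 := sq_norm' z
  have m2 := sq_norm' (z - 200 * I)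
  rw [n1] at m1
  rw [n2] at m2
  simp at m1 m2
  obtain ⟨hy, hx⟩ := stop_aux (x := z.re) (y := z.im) (by nlinarith) (by nlinarith)
  have hx' : z.re = 495 := by
    rcases hx with hx | hx
    · exact hx
    · exfalso
      have hzz : z = -495 + 100 * I := by apply Complex.ext <;> simp [hx, hy]
      have d := c.disj (b512 hi hj) (b46 hi hj.le) (by simp) (by simp) (by simp) (by simp)
      refine d (p (i, j, 5) + ((480 / 495 : ℝ) : ℂ) * z) (mem_seg (480 / 495) (by norm_num)
        (by norm_num) (by rw [hz])) (mem_seg (48000 / 495 / 200) (by norm_num) (by norm_num) ?_)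
      rw [h.v4, h.v5, h.v6, hzz]
      push_cast
      ring
  have hzz : z = 495 + 100 * I := by apply Complex.ext <;> simp [hx', hy]
  rw [← hzz, hz]
  ring

theorem Conf.coneH (c : Conf m p) {i j : ℕ} (hi : i ≤ m.N) (hj : j < m.M)
    (h : PlateAt p i j) : |(av p i j).im| < 20 / 99 * (av p i j).re := by
  obtain ⟨-, ha, hcr⟩ := c.hor hi hj h
  have hs := c.stopH hi hj h
  have n := c.slen (b54 hi hj)
  have n' := sq_norm' (av p i j)
  simp only [av] at n'
  rw [n] at n'
  have e1 : p (i, j + 1, 4) = p (i, j, 5) + av p i j := by simp only [av]; ring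
  have e2 : p (i, j + 1, 6) = p (i, j, 7) + av p i j := by rw [← hcr]; ring
  have hae : p (i, j + 1, 4) - p (i, j, 5) = av p i j := rfl
  rw [hae] at n'
  set a := av p i j with hadef
  have e7 : p (i, j, 7) = p (i, j, 5) + 200 * I := by rw [h.v7, h.v5]; ring
  by_contra hc
  push Not at hc
  rcases le_or_gt 0 a.im with h0 | h0
  · rw [abs_of_nonneg h0] at hc
    have hsum : 3400 ≤ a.re + a.im := by
      by_contra hlt
      push Not at hlt
      push_cast at n'
      nlinarith
    set D := 100 * a.re + 495 * a.im with hD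
    have hD1 : 340000 ≤ D := by rw [hD]; nlinarith
    have hD0 : (D : ℂ) ≠ 0 := by
      have : D ≠ 0 := by linarith
      exact_mod_cast this
    have d := c.disj (b54 hi hj) (b712 hi hj) (by simp) (by simp) (by simp) (by simp)
    refine d (p (i, j, 5) + ((99000 / D : ℝ) : ℂ) * a) (mem_seg (99000 / D) (by positivity) ?_ ?_)
      (mem_seg (200 * a.re / D) (by positivity) ?_ ?_)
    · rw [div_le_one (by linarith)]; linarith
    · rw [e1]; ring
    · rw [div_le_one (by linarith), hD]; linarith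
    · rw [e7, hs]
      have haa : a = a.re + a.im * I := (re_add_im a).symm
      have hDD : (D : ℂ) = 100 * a.re + 495 * a.im := by rw [hD]; push_cast; ring
      push_cast
      have k1 : (99000 : ℂ) * a / D = 200 * I + 200 * a.re / D * (495 - 100 * I) := by
        rw [div_eq_iff hD0, add_mul, mul_assoc (200 * (a.re : ℂ) / D), mul_comm (495 - 100 * I),
          ← mul_assoc, div_mul_cancel₀ _ hD0, hDD]
        nth_rewrite 1 [haa]
        ring
      linear_combination k1
  · rw [abs_of_neg h0] at hc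
    have hsum : 3400 ≤ a.re - a.im := by
      by_contra hlt
      push Not at hlt
      push_cast at n'
      nlinarith
    set D := 100 * a.re - 495 * a.im with hD
    have hD1 : 340000 ≤ D := by rw [hD]; nlinarith
    have hD0 : (D : ℂ) ≠ 0 := by
      have : D ≠ 0 := by linarith
      exact_mod_cast this
    have d := c.disj (b76 hi hj) (b512 hi hj) (by simp) (by simp) (by simp) (by simp)
    refine d (p (i, j, 7) + ((99000 / D : ℝ) : ℂ) * a) (mem_seg (99000 / D) (by positivity) ?_ ?_)
      (mem_seg (200 * a.re / D) (by positivity) ?_ ?_)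
    · rw [div_le_one (by linarith)]; linarith
    · rw [e2]; ring
    · rw [div_le_one (by linarith), hD]; linarith
    · rw [e7, hs]
      have haa : a = a.re + a.im * I := (re_add_im a).symm
      have hDD : (D : ℂ) = 100 * a.re - 495 * a.im := by rw [hD]; push_cast; ring
      push_cast
      have k1 : (99000 : ℂ) * a / D = -(200 * I) + 200 * a.re / D * (495 + 100 * I) := by
        rw [div_eq_iff hD0, add_mul, mul_assoc (200 * (a.re : ℂ) / D), mul_comm (495 + 100 * I),
          ← mul_assoc, div_mul_cancel₀ _ hD0, hDD]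
        nth_rewrite 1 [haa]
        ring
      linear_combination k1

theorem Conf.stopV (c : Conf m p) {i j : ℕ} (hi : i < m.N) (hj : j ≤ m.M)
    (h : PlateAt p i j) : p (i, j, 13) = p (i, j, 10) + (240 + 1188 * I) := by
  have n1 := c.slen (b1013 hi hj)
  have n2 := c.slen (b1113 hi hj)
  set z := p (i, j, 13) - p (i, j, 10) with hz
  have e : p (i, j, 13) - p (i, j, 11) = z - 480 := by
    rw [hz, h.v10, h.v11]; ring
  rw [e] at n2
  have m1 := sq_norm' z
  have m2 := sq_norm' (z - 480)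
  rw [n1] at m1
  rw [n2] at m2
  simp at m1 m2
  have hx : z.re = 240 := by nlinarith
  have hy : z.im = 1188 ∨ z.im = -1188 := by
    have : (z.im - 1188) * (z.im + 1188) = 0 := by rw [hx] at m1; nlinarith
    rcases mul_eq_zero.1 this with h | h
    · left; linarith
    · right; linarith
  have hy' : z.im = 1188 := by
    rcases hy with hy | hy
    · exact hy
    · exfalso
      have hzz : z = 240 - 1188 * I := by apply Complex.ext <;> simp [hx, hy]
      have d := c.disj (b1013 hi hj) (b811 hi.le hj) (by simp) (by simp) (by simp) (by simp)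
      refine d (p (i, j, 10) + ((1400 / 1888 : ℝ) : ℂ) * z) (mem_seg (1400 / 1888) (by norm_num)
        (by norm_num) (by rw [hz])) (mem_seg (700 / 1888) (by norm_num) (by norm_num) ?_)
      rw [h.v8, h.v10, h.v11, hzz]
      push_cast
      ring
  have hzz : z = 240 + 1188 * I := by apply Complex.ext <;> simp [hx, hy']
  rw [← hzz, hz]
  ring

theorem Conf.coneV (c : Conf m p) {i j : ℕ} (hi : i < m.N) (hj : j ≤ m.M)
    (h : PlateAt p i j) : |(bv p i j).re| < 20 / 99 * (bv p i j).im := by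
  obtain ⟨-, hb, hcr⟩ := c.ver hi hj h
  have hs := c.stopV hi hj h
  have n := c.slen (b100 hi hj)
  have n' := sq_norm' (bv p i j)
  simp only [bv] at n'
  rw [n] at n'
  have e1 : p (i + 1, j, 0) = p (i, j, 10) + bv p i j := by simp only [bv]; ring
  have e2 : p (i + 1, j, 1) = p (i, j, 11) + bv p i j := by rw [← hcr]; ring
  have hae : p (i + 1, j, 0) - p (i, j, 10) = bv p i j := rfl
  rw [hae] at n'
  set b := bv p i j with hbdef
  have e7 : p (i, j, 11) = p (i, j, 10) + 480 := by rw [h.v11, h.v10]; ring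
  by_contra hc
  push Not at hc
  rcases le_or_gt 0 b.re with h0 | h0
  · rw [abs_of_nonneg h0] at hc
    have hsum : 3400 ≤ b.re + b.im := by
      by_contra hlt
      push Not at hlt
      push_cast at n'
      nlinarith
    set D := 1188 * b.re + 240 * b.im with hD
    have hD1 : 816000 ≤ D := by rw [hD]; nlinarith
    have hD0 : (D : ℂ) ≠ 0 := by
      have : D ≠ 0 := by linarith
      exact_mod_cast this
    have d := c.disj (b100 hi hj) (b1113 hi hj) (by simp) (by simp) (by simp) (by simp)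
    refine d (p (i, j, 10) + ((570240 / D : ℝ) : ℂ) * b) (mem_seg (570240 / D) (by positivity)
      ?_ ?_) (mem_seg (480 * b.im / D) (by positivity) ?_ ?_)
    · rw [div_le_one (by linarith)]; linarith
    · rw [e1]; ring
    · rw [div_le_one (by linarith), hD]; linarith
    · rw [e7, hs]
      have haa : b = b.re + b.im * I := (re_add_im b).symm
      have hDD : (D : ℂ) = 1188 * b.re + 240 * b.im := by rw [hD]; push_cast; ring
      push_cast
      have k1 : (570240 : ℂ) * b / D = 480 + 480 * b.im / D * (-240 + 1188 * I) := by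
        rw [div_eq_iff hD0, add_mul, mul_assoc (480 * (b.im : ℂ) / D), mul_comm (-240 + 1188 * I),
          ← mul_assoc, div_mul_cancel₀ _ hD0, hDD]
        nth_rewrite 1 [haa]
        ring
      linear_combination k1
  · rw [abs_of_neg h0] at hc
    have hsum : 3400 ≤ -b.re + b.im := by
      by_contra hlt
      push Not at hlt
      push_cast at n'
      nlinarith
    set D := -1188 * b.re + 240 * b.im with hD
    have hD1 : 816000 ≤ D := by rw [hD]; nlinarith
    have hD0 : (D : ℂ) ≠ 0 := by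
      have : D ≠ 0 := by linarith
      exact_mod_cast this
    have d := c.disj (b111 hi hj) (b1013 hi hj) (by simp) (by simp) (by simp) (by simp)
    refine d (p (i, j, 11) + ((570240 / D : ℝ) : ℂ) * b) (mem_seg (570240 / D) (by positivity)
      ?_ ?_) (mem_seg (480 * b.im / D) (by positivity) ?_ ?_)
    · rw [div_le_one (by linarith)]; linarith
    · rw [e2]; ring
    · rw [div_le_one (by linarith), hD]; linarith
    · rw [e7, hs]
      have haa : b = b.re + b.im * I := (re_add_im b).symm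
      have hDD : (D : ℂ) = -1188 * b.re + 240 * b.im := by rw [hD]; push_cast; ring
      push_cast
      have k1 : (570240 : ℂ) * b / D = -480 + 480 * b.im / D * (240 + 1188 * I) := by
        rw [div_eq_iff hD0, add_mul, mul_assoc (480 * (b.im : ℂ) / D), mul_comm (240 + 1188 * I),
          ← mul_assoc, div_mul_cancel₀ _ hD0, hDD]
        nth_rewrite 1 [haa]
        ring
      linear_combination k1

/-! ### closure -/

theorem closure {a a' b b' : ℂ} (h : a - a' = b - b') (na : ‖a‖ = ‖a'‖) (nb : ‖b‖ = ‖b'‖)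
    (nab : ‖a‖ = ‖b‖) (hab : a ≠ b) (hab' : a' ≠ -b) : a = a' ∧ b = b' := by
  by_cases hd : a - a' = 0
  · exact ⟨sub_eq_zero.1 hd, sub_eq_zero.1 (h ▸ hd)⟩
  · exfalso
    set δ := a - a' with hδ
    have ea : a' = a - δ := by rw [hδ]; ring
    have eb : b' = b - δ := by rw [h]; ring
    rw [ea, norm_eq_iff] at na
    rw [eb, norm_eq_iff] at nb
    rw [norm_eq_iff] at nab
    simp only [sub_re, sub_im] at na nb
    have n0 := pos_of_ne hd
    set n := δ.re * δ.re + δ.im * δ.im with hn
    have da : dt δ a = n / 2 := by simp only [dt]; linarith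
    have db : dt δ b = n / 2 := by simp only [dt]; linarith
    have key : ∀ w : ℂ, (dt δ w) ^ 2 + (cr δ w) ^ 2 = n * (w.re * w.re + w.im * w.im) := by
      intro w; simp only [dt, cr, hn]; ring
    have k1 := key a
    have k2 := key b
    rw [da] at k1
    rw [db] at k2
    have hc : (cr δ a - cr δ b) * (cr δ a + cr δ b) = 0 := by
      rw [nab] at k1
      linear_combination k1 - k2
    rcases mul_eq_zero.1 hc with hc | hc
    · exact hab (ext_dc hd (by rw [da, db]) (by linarith))
    · apply hab'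
      apply ext_dc hd
      · rw [ea]
        have : dt δ (a - δ) = dt δ a - n := by simp [dt, hn]; ring
        rw [this, da]
        have : dt δ (-b) = -dt δ b := by simp [dt]; ring
        rw [this, db]; ring
      · rw [ea]
        have : cr δ (a - δ) = cr δ a := by simp [cr]; ring
        rw [this]
        have : cr δ (-b) = -cr δ b := by simp [cr]; ring
        rw [this]; linarith

end Rig
end LockPl
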