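import Pool.Agent.Lib.MP_14e06f_lc.Plane.RigidC

set_option autoImplicit false

/-!
# Rigidity of the mesh, part D: the parameters and the arms
-/

namespace LockPl
namespace Rig

open Complex

variable {m : Mesh} {p : Vtx → ℂ}

theorem Conf.plates (c : Conf m p) (h : PlateAt p 0 0) {i j : ℕ} (hi : i ≤ m.N)
    (hj : j ≤ m.M) : PlateAt p i j := by
  have h0 : ∀ j, j ≤ m.M → PlateAt p 0 j := by
    intro j hj
    induction j with
    | zero => exact h
    | succ j ih => exact (c.hor (Nat.zero_le _) hj (ih (Nat.le_of_succ_le hj))).1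
  induction i with
  | zero => exact h0 j hj
  | succ i ih => exact (c.ver hi hj (ih (Nat.le_of_succ_le hi))).1

theorem av_base {i j : ℕ} (h : PlateAt p i j) (h' : PlateAt p i (j + 1)) :
    av p i j = p (i, j + 1, 0) - p (i, j, 0) - 480 := by
  simp only [av]
  rw [h'.v4, h.v5]
  ring

theorem bv_base {i j : ℕ} (h : PlateAt p i j) :
    bv p i j = p (i + 1, j, 0) - p (i, j, 0) - 5800 * I := by
  simp only [bv]
  rw [h.v10]
  ring

theorem Conf.av_norm (c : Conf m p) {i j : ℕ} (hi : i ≤ m.N) (hj : j < m.M) :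
    ‖av p i j‖ = 3400 := by
  have := c.slen (b54 hi hj)
  simpa [av] using this

theorem Conf.bv_norm (c : Conf m p) {i j : ℕ} (hi : i < m.N) (hj : j ≤ m.M) :
    ‖bv p i j‖ = 3400 := by
  have := c.slen (b100 hi hj)
  simpa [bv] using this

theorem Conf.close (c : Conf m p) (h : PlateAt p 0 0) {i j : ℕ} (hi : i < m.N)
    (hj : j < m.M) : av p i j = av p (i + 1) j ∧ bv p i j = bv p i (j + 1) := by
  have h00 := c.plates h hi.le hj.le
  have h01 := c.plates h hi.le (show j + 1 ≤ m.M from hj)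
  have h10 := c.plates h (show i + 1 ≤ m.N from hi) hj.le
  have h11 := c.plates h (show i + 1 ≤ m.N from hi) (show j + 1 ≤ m.M from hj)
  have ca := c.coneH hi.le hj h00
  have ca' := c.coneH (show i + 1 ≤ m.N from hi) hj h10
  have cb := c.coneV hi hj.le h00
  have pa := (c.hor hi.le hj h00).2.1
  have pa' := (c.hor (show i + 1 ≤ m.N from hi) hj h10).2.1
  refine closure ?_ ?_ ?_ ?_ ?_ ?_
  · rw [av_base h00 h01, av_base h10 h11, bv_base h00, bv_base h01]
    ring
  · rw [c.av_norm hi.le hj, c.av_norm (show i + 1 ≤ m.N from hi) hj]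
  · rw [c.bv_norm hi hj.le, c.bv_norm hi (show j + 1 ≤ m.M from hj)]
  · rw [c.av_norm hi.le hj, c.bv_norm hi hj.le]
  · intro he
    rw [← he] at cb
    have := le_abs_self (av p i j).im
    have := le_abs_self (av p i j).re
    linarith
  · intro he
    rw [he] at ca' pa'
    simp only [neg_re, neg_im, abs_neg] at ca' pa'
    have := le_abs_self (bv p i j).im
    have := neg_le_abs (bv p i j).re
    linarith

theorem Conf.av_eq (c : Conf m p) (h : PlateAt p 0 0) {i j : ℕ} (hi : i ≤ m.N)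
    (hj : j < m.M) : av p i j = av p 0 j := by
  induction i with
  | zero => rfl
  | succ i ih => rw [← (c.close h hi hj).1, ih (Nat.le_of_succ_le hi)]

theorem Conf.bv_eq (c : Conf m p) (h : PlateAt p 0 0) {i j : ℕ} (hi : i < m.N)
    (hj : j ≤ m.M) : bv p i j = bv p i 0 := by
  induction j with
  | zero => rfl
  | succ j ih => rw [← (c.close h hi hj).2, ih (Nat.le_of_succ_le hj)]

/-- A crank direction. -/
theorem unit_form {x y : ℝ} (hx : 0 < x) (h : x * x + y * y = 3400 ^ 2)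
    (hc : |y| < 20 / 99 * x) : x = 3400 * √(1 - (y / 3400) ^ 2) ∧ |y / 3400| < 20 / 101 := by
  have hy : y ^ 2 < (20 / 99 * x) ^ 2 := by
    rw [← sq_abs y]
    exact pow_lt_pow_left₀ hc (abs_nonneg y) (by norm_num)
  constructor
  · have : 1 - (y / 3400) ^ 2 = (x / 3400) ^ 2 := by
      field_simp
      linarith
    rw [this, Real.sqrt_sq (by positivity)]
    ring
  · apply abs_lt_of_sq_lt_sq _ (by norm_num)
    nlinarith

/-- the column parameters -/
noncomputable def Ap (m : Mesh) (p : Vtx → ℂ) (j : ℕ) : ℝ :=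
  if j < m.M then (av p 0 j).im / 3400 else 0

/-- the row parameters -/
noncomputable def Bp (m : Mesh) (p : Vtx → ℂ) (i : ℕ) : ℝ :=
  if i < m.N then -(bv p i 0).re / 3400 else 0

theorem Conf.Ap_spec (c : Conf m p) (h : PlateAt p 0 0) {j : ℕ} (hj : j < m.M) :
    av p 0 j = 3400 * ((√(1 - Ap m p j ^ 2) : ℝ) + (Ap m p j : ℝ) * I) ∧
      |Ap m p j| < 20 / 101 := by
  have h0 := c.plates h (Nat.zero_le _) hj.le
  have n := sq_norm' (av p 0 j)
  rw [c.av_norm (Nat.zero_le _) hj] at n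
  obtain ⟨u1, u2⟩ := unit_form (c.hor (Nat.zero_le _) hj h0).2.1 n.symm
    (c.coneH (Nat.zero_le _) hj h0)
  have hA : Ap m p j = (av p 0 j).im / 3400 := by simp [Ap, hj]
  rw [← hA] at u1 u2
  refine ⟨?_, u2⟩
  apply Complex.ext
  · simp
    exact u1
  · simp
    rw [hA]
    ring

theorem Conf.Bp_spec (c : Conf m p) (h : PlateAt p 0 0) {i : ℕ} (hi : i < m.N) :
    bv p i 0 = 3400 * (-(Bp m p i : ℝ) + (√(1 - Bp m p i ^ 2) : ℝ) * I) ∧
      |Bp m p i| < 20 / 101 := by
  have h0 := c.plates h hi.le (Nat.zero_le _)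
  have n := sq_norm' (bv p i 0)
  rw [c.bv_norm hi (Nat.zero_le _)] at n
  obtain ⟨u1, u2⟩ := unit_form (x := (bv p i 0).im) (y := -(bv p i 0).re)
    (c.ver hi (Nat.zero_le _) h0).2.1 (by linarith)
    (by rw [abs_neg]; exact c.coneV hi (Nat.zero_le _) h0)
  have hB : Bp m p i = -(bv p i 0).re / 3400 := by simp [Bp, hi]
  rw [← hB] at u1 u2
  refine ⟨?_, u2⟩
  apply Complex.ext
  · simp
    rw [hB]
    ring
  · simp
    exact u1

theorem Conf.box (c : Conf m p) (h : PlateAt p 0 0) : Box (Ap m p, Bp m p) := by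
  refine ⟨fun j => ?_, fun i => ?_⟩
  · by_cases hj : j < m.M
    · exact (c.Ap_spec h hj).2
    · simp [Ap, hj]
  · by_cases hi : i < m.N
    · exact (c.Bp_spec h hi).2
    · simp [Bp, hi]

theorem Conf.base (c : Conf m p) (h : PlateAt p 0 0) (hp0 : p (0, 0, 0) = 0) {i j : ℕ}
    (hi : i ≤ m.N) (hj : j ≤ m.M) :
    p (i, j, 0) = colX (Ap m p) j + rowY (Bp m p) i := by
  have h0 : ∀ j, j ≤ m.M → p (0, j, 0) = colX (Ap m p) j + rowY (Bp m p) 0 := by
    intro j hj
    induction j with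
    | zero => simp [hp0, colX, rowY]
    | succ j ih =>
      have ih := ih (Nat.le_of_succ_le hj)
      have e1 := av_base (c.plates h (Nat.zero_le _) (Nat.le_of_succ_le hj))
        (c.plates h (Nat.zero_le _) hj)
      rw [(c.Ap_spec h hj).1] at e1
      have e2 : colX (Ap m p) (j + 1) = colX (Ap m p) j +
          (480 + 3400 * ((√(1 - Ap m p j ^ 2) : ℝ) + (Ap m p j : ℝ) * I)) := by
        simp only [colX]
        rw [Finset.sum_range_succ]
      rw [e2]
      linear_combination ih - e1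
  induction i with
  | zero => exact h0 j hj
  | succ i ih =>
    have ih := ih (Nat.le_of_succ_le hi)
    have e1 := bv_base (c.plates h (Nat.le_of_succ_le hi) hj)
    rw [c.bv_eq h hi hj, (c.Bp_spec h hi).1] at e1
    have e2 : rowY (Bp m p) (i + 1) = rowY (Bp m p) i +
        (5800 * I + 3400 * (-(Bp m p i : ℝ) + (√(1 - Bp m p i ^ 2) : ℝ) * I)) := by
      simp only [rowY]
      rw [Finset.sum_range_succ]
    rw [e2]
    linear_combination ih - e1

/-! ### arms -/

theorem fix_h {u : ℂ} {a τ : ℝ} (ha : 0 < a) (hτ : τ = 1 ∨ τ = -1) (hn : ‖u‖ = a)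
    (him : u.im = 0) (hs : 0 ≤ τ * u.re) : u = τ * a := by
  have n := sq_norm' u
  rw [hn, him] at n
  have h1 : (u.re - a) * (u.re + a) = 0 := by nlinarith
  apply Complex.ext
  · simp
    rcases mul_eq_zero.1 h1 with h | h <;> rcases hτ with h' | h' <;> rw [h'] at hs ⊢ <;> linarith
  · simp [him]

theorem fix_v {u : ℂ} {a τ : ℝ} (ha : 0 < a) (hτ : τ = 1 ∨ τ = -1) (hn : ‖u‖ = a)
    (hre : u.re = 0) (hs : 0 ≤ τ * u.im) : u = τ * a * I := by
  have n := sq_norm' u
  rw [hn, hre] at n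
  have h1 : (u.im - a) * (u.im + a) = 0 := by nlinarith
  apply Complex.ext
  · simp [hre]
  · simp
    rcases mul_eq_zero.1 h1 with h | h <;> rcases hτ with h' | h' <;> rw [h'] at hs ⊢ <;> linarith

theorem Conf.arm (c : Conf m p) (V : ℕ → Vtx) {a d : ℕ} (ha0 : 0 < a) (ha : a ≠ 1400)
    (hd : d * d = a * a + 1400 * 1400)
    (hb : ∀ q q' l, ArmBar a d q q' l → SBar m (V q) (V q') l)
    (h67 : SBar m (V 6) (V 7) 1400) (h68 : SBar m (V 6) (V 8) 480)
    (h79 : SBar m (V 7) (V 9) 480) (h89 : SBar m (V 8) (V 9) 1400)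
    (nd : [V 0, V 1, V 2, V 3, V 4, V 5, V 6, V 7, V 8, V 9].Nodup)
    {κ σ : ℝ} (hκ : κ = 1 ∨ κ = -1) (hσ : σ = 1 ∨ σ = -1)
    (e6 : p (V 6) = p (V 7) - κ * (1400 * I)) (e8 : p (V 8) = p (V 6) - κ * σ * 480)
    (e9 : p (V 9) = p (V 7) - κ * σ * 480) :
    ∀ q < 6, p (V q) = p (V 7) +
      κ * (σ * ((armXY a 1890 q).1 : ℝ) + ((armXY a 1890 q).2 : ℝ) * I) := by
  simp only [List.nodup_cons, List.mem_cons, List.not_mem_nil, not_or, not_false_eq_true,
    or_false, List.nodup_nil, and_true] at nd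
  obtain ⟨⟨n01, n02, n03, n04, n05, n06, n07, n08, n09⟩, ⟨n12, n13, n14, n15, n16, n17, n18, n19⟩,
    ⟨n23, n24, n25, n26, n27, n28, n29⟩, ⟨n34, n35, n36, n37, n38, n39⟩,
    ⟨n45, n46, n47, n48, n49⟩, ⟨n56, n57, n58, n59⟩, ⟨n67, n68, n69⟩, ⟨n78, n79⟩, n89⟩ := nd
  have b60 := hb _ _ _ ArmBar.b60
  have b72 := hb _ _ _ ArmBar.b72
  have b62 := hb _ _ _ ArmBar.b62
  have b01 := hb _ _ _ ArmBar.b01
  have b23 := hb _ _ _ ArmBar.b23
  have b02 := hb _ _ _ ArmBar.b02
  have b13 := hb _ _ _ ArmBar.b13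
  have b03 := hb _ _ _ ArmBar.b03
  have b24 := hb _ _ _ ArmBar.b24
  have b35 := hb _ _ _ ArmBar.b35
  have b45 := hb _ _ _ ArmBar.b45
  have b25 := hb _ _ _ ArmBar.b25
  have hκ2 : κ * κ = 1 := by rcases hκ with h | h <;> rw [h] <;> norm_num
  have hσ2 : σ * σ = 1 := by rcases hσ with h | h <;> rw [h] <;> norm_num
  have hκσ : κ * σ = 1 ∨ κ * σ = -1 := by
    rcases hκ with h | h <;> rcases hσ with h' | h' <;> rw [h, h'] <;> norm_num
  have haR : (0 : ℝ) < a := by exact_mod_cast ha0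
  -- first cell
  have e76 : p (V 7) - p (V 6) = ((κ * 1400 : ℝ) : ℂ) * I := by rw [e6]; push_cast; ring
  have e86 : p (V 8) - p (V 6) = ((-(κ * σ * 480) : ℝ) : ℂ) := by rw [e8]; push_cast; ring
  have par1 := c.para b60 b72 h67 b02 ha (by
    simp only [List.nodup_cons, List.mem_cons, List.not_mem_nil, not_or, not_false_eq_true,
      or_false, List.nodup_nil, and_true]
    exact ⟨⟨Ne.symm n06, Ne.symm n26, n67⟩, ⟨n02, n07⟩, n27⟩)
  have r1 := c.right b60 h67 b62 par1 hd
  have s1 := c.side h68 h79 h89 b60 b72 b02 (by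
    simp only [List.nodup_cons, List.mem_cons, List.not_mem_nil, not_or, not_false_eq_true,
      or_false, List.nodup_nil, and_true]
    exact ⟨⟨n67, n68, n69, Ne.symm n06, Ne.symm n26⟩, ⟨n78, n79, Ne.symm n07, Ne.symm n27⟩,
      ⟨n89, Ne.symm n08, Ne.symm n28⟩, ⟨Ne.symm n09, Ne.symm n29⟩, n02⟩)
    (by rw [e8, e9]; ring) (by linear_combination -par1)
  rw [e76] at r1 s1
  rw [e86] at s1
  have l1 := c.slen b60
  set u1 := p (V 0) - p (V 6) with hu1
  have im1 : u1.im = 0 := by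
    simp [dt] at r1
    rcases r1 with r1 | r1
    · exact r1
    · exfalso; rw [r1] at hκ2; norm_num at hκ2
  have w1 : u1 = ((κ * σ : ℝ) : ℂ) * ((a : ℝ) : ℂ) := by
    refine fix_h haR hκσ l1 im1 ?_
    simp [cr] at s1
    have : κ * σ * 480 * (κ * 1400) * (u1.re * (κ * 1400)) =
      480 * 1400 * 1400 * (κ * κ) * (κ * σ * u1.re) := by ring
    rw [this, hκ2] at s1
    linarith
  -- second cell
  have e20 : p (V 2) - p (V 0) = ((κ * 1400 : ℝ) : ℂ) * I := by rw [par1, e76]
  have par2 := c.para b01 b23 b02 b13 (by norm_num) (by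
    simp only [List.nodup_cons, List.mem_cons, List.not_mem_nil, not_or, not_false_eq_true,
      or_false, List.nodup_nil, and_true]
    exact ⟨⟨n01, n03, n02⟩, ⟨n13, n12⟩, Ne.symm n23⟩)
  have r2 := c.right b01 b02 b03 par2 (by norm_num)
  have s2 := c.side (P := V 0) (Q := V 2) (P1 := V 6) (Q1 := V 7) (P2 := V 1) (Q2 := V 3)
    b60.symm b72.symm h67 b01 b23 b13 (by
    simp only [List.nodup_cons, List.mem_cons, List.not_mem_nil, not_or, not_false_eq_true,
      or_false, List.nodup_nil, and_true]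
    exact ⟨⟨n02, n06, n07, n01, n03⟩, ⟨n26, n27, Ne.symm n12, n23⟩,
      ⟨n67, Ne.symm n16, Ne.symm n36⟩, ⟨Ne.symm n17, Ne.symm n37⟩, n13⟩)
    (by linear_combination par1) (by linear_combination -par2)
  rw [e20] at r2 s2
  have e60 : p (V 6) - p (V 0) = ((-(κ * σ * a) : ℝ) : ℂ) := by
    have : p (V 6) - p (V 0) = -u1 := by rw [hu1]; ring
    rw [this, w1]; push_cast; ring
  rw [e60] at s2
  have l2 := c.slen b01
  set u2 := p (V 1) - p (V 0) with hu2
  have im2 : u2.im = 0 := by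
    simp [dt] at r2
    rcases r2 with r2 | r2
    · exact r2
    · exfalso; rw [r2] at hκ2; norm_num at hκ2
  have w2 : u2 = ((κ * σ : ℝ) : ℂ) * ((480 : ℝ) : ℂ) := by
    refine fix_h (by norm_num) hκσ (by simpa using l2) im2 ?_
    simp [cr] at s2
    have : κ * σ * a * (κ * 1400) * (u2.re * (κ * 1400)) =
      (a * 1400 * 1400) * (κ * κ) * (κ * σ * u2.re) := by ring
    rw [this, hκ2] at s2
    have h3 : (0 : ℝ) < a * 1400 * 1400 * 1 := by positivity
    exact nonneg_of_mul_nonneg_right s2 h3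
  -- third cell
  have e32 : p (V 3) - p (V 2) = ((κ * σ * 480 : ℝ) : ℂ) := by
    have : p (V 3) - p (V 2) = u2 := by rw [hu2]; linear_combination par2
    rw [this, w2]; push_cast; ring
  have par3 := c.para b23 b45 b24 b35 (by norm_num) (by
    simp only [List.nodup_cons, List.mem_cons, List.not_mem_nil, not_or, not_false_eq_true,
      or_false, List.nodup_nil, and_true]
    exact ⟨⟨n23, n25, n24⟩, ⟨n35, n34⟩, Ne.symm n45⟩)
  have r3 := c.right b23 b24 b25 par3 (by norm_num)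
  have s3 := c.side (P := V 2) (Q := V 3) (P1 := V 0) (Q1 := V 1) (P2 := V 4) (Q2 := V 5)
    b02.symm b13.symm b01 b24 b35 b45 (by
    simp only [List.nodup_cons, List.mem_cons, List.not_mem_nil, not_or, not_false_eq_true,
      or_false, List.nodup_nil, and_true]
    exact ⟨⟨n23, Ne.symm n02, Ne.symm n12, n24, n25⟩, ⟨Ne.symm n03, Ne.symm n13, n34, n35⟩,
      ⟨n01, n04, n05⟩, ⟨n14, n15⟩, n45⟩)
    (by linear_combination par2) (by linear_combination -par3)
  rw [e32] at r3 s3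
  have e02 : p (V 0) - p (V 2) = ((-(κ * 1400) : ℝ) : ℂ) * I := by
    push_cast
    push_cast at e20
    linear_combination -e20
  rw [e02] at s3
  have l3 := c.slen b24
  set u3 := p (V 4) - p (V 2) with hu3
  have hκσ0 : κ * σ ≠ 0 := by rcases hκσ with h | h <;> rw [h] <;> norm_num
  have re3 : u3.re = 0 := by
    simp only [dt, ofReal_re, ofReal_im, zero_mul, add_zero] at r3
    rcases mul_eq_zero.1 r3 with r3 | r3
    · exfalso
      apply hκσ0
      linarith
    · exact r3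
  have w3 : u3 = κ * ((1890 : ℝ) : ℂ) * I := by
    refine fix_v (by norm_num) hκ (by simpa using l3) re3 ?_
    simp [cr] at s3
    have : κ * 1400 * (κ * σ * 480) * (u3.im * (κ * σ * 480)) =
      1400 * 480 * 480 * (κ * κ) * (σ * σ) * (κ * u3.im) := by ring
    rw [this, hκ2, hσ2] at s3
    linarith
  have f0 : p (V 0) = p (V 7) + κ * (σ * a + (-1400) * I) := by
    have : p (V 0) = p (V 6) + u1 := by rw [hu1]; ring
    rw [this, w1, e6]; push_cast; ring
  have f2 : p (V 2) = p (V 7) + κ * (σ * a + 0 * I) := by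
    have : p (V 2) = p (V 0) + ((κ * 1400 : ℝ) : ℂ) * I := by rw [← e20]; ring
    rw [this, f0]; push_cast; ring
  have f1 : p (V 1) = p (V 7) + κ * (σ * (a + 480) + (-1400) * I) := by
    have : p (V 1) = p (V 0) + u2 := by rw [hu2]; ring
    rw [this, w2, f0]; push_cast; ring
  have f3 : p (V 3) = p (V 7) + κ * (σ * (a + 480) + 0 * I) := by
    have : p (V 3) = p (V 2) + ((κ * σ * 480 : ℝ) : ℂ) := by rw [← e32]; ring
    rw [this, f2]; push_cast; ring
  have f4 : p (V 4) = p (V 7) + κ * (σ * a + 1890 * I) := by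
    have : p (V 4) = p (V 2) + u3 := by rw [hu3]; ring
    rw [this, w3, f2]; push_cast; ring
  have f5 : p (V 5) = p (V 7) + κ * (σ * (a + 480) + 1890 * I) := by
    have : p (V 5) = p (V 3) + u3 := by rw [hu3]; linear_combination par3
    rw [this, w3, f3]; push_cast; ring
  intro q hq
  interval_cases q
  · rw [f0]; simp [armXY]
  · rw [f1]; simp [armXY]
  · rw [f2]; simp [armXY]
  · rw [f3]; simp [armXY]
  · rw [f4]; simp [armXY]
  · rw [f5]; simp [armXY]

end Rig
end LockPl
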